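import Pool.Agent.Helper54.Q.Stm

/-!
# AR: no distribution of masses makes all strategies fail
-/

set_option autoImplicit false

namespace Pool.Agent.Helper54.Q.AR

open Finset

theorem greedy {ι : Type} [DecidableEq ι] (I : Finset ι) (w : ι → ℝ) (A B : ℝ) (hB : 0 < B)
    (H1 : ∀ S ⊆ I, ∑ x ∈ S, w x < B ∨ B + A < ∑ x ∈ S, w x) (H2 : ∀ x ∈ I, w x < B)
    (H3 : ∀ x ∈ I, ∀ y ∈ I, x ≠ y → w x < A ∨ w y < A) : ∑ x ∈ I, w x < B := by
  by_cases h : ∃ a ∈ I, A ≤ w a
  · obtain ⟨a, ha, hA⟩ := h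
    have key : ∀ S : Finset ι, S ⊆ I.erase a → ∑ x ∈ insert a S, w x < B := by
      intro S
      induction S using Finset.induction_on with
      | empty =>
        intro _
        simpa using H2 a ha
      | insert x S hx ih =>
        intro hS
        have hxI := hS (mem_insert_self x S)
        have hS' : S ⊆ I.erase a := (subset_insert x S).trans hS
        have hxa : x ≠ a := (mem_erase.1 hxI).1
        have hxI' : x ∈ I := (mem_erase.1 hxI).2
        have haS : a ∉ S := fun h => (mem_erase.1 (hS' h)).1 rfl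
        have hwx : w x < A := by
          rcases H3 x hxI' a ha hxa with h | h
          · exact h
          · exact absurd h (not_lt.2 hA)
        have h1 := ih hS'
        have h2 : ∑ y ∈ insert a (insert x S), w y = w x + ∑ y ∈ insert a S, w y := by
          rw [Finset.insert_comm, Finset.sum_insert]
          rw [mem_insert, not_or]
          exact ⟨hxa, hx⟩
        have hsub : insert a (insert x S) ⊆ I := by
          intro y hy
          rw [mem_insert] at hy
          rcases hy with rfl | hy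
          · exact ha
          · exact (mem_erase.1 (hS hy)).2
        rcases H1 _ hsub with h | h
        · exact h
        · rw [h2] at h
          linarith
    have := key (I.erase a) (subset_refl _)
    rwa [insert_erase ha] at this
  · push Not at h
    have key : ∀ S : Finset ι, S ⊆ I → ∑ x ∈ S, w x < B := by
      intro S
      induction S using Finset.induction_on with
      | empty =>
        intro _
        simpa using hB
      | insert x S hx ih =>
        intro hS
        have hxI := hS (mem_insert_self x S)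
        have h1 := ih ((subset_insert x S).trans hS)
        have h2 := h x hxI
        rcases H1 _ hS with h | h
        · exact h
        · rw [Finset.sum_insert hx] at h
          linarith
    exact key I (subset_refl _)

theorem split3 {E : ℕ} (hE : 3 ≤ E) (f : ℕ → ℝ) :
    ∑ e ∈ Icc 1 E, f e = f 1 + f 2 + f 3 + ∑ e ∈ Icc 4 E, f e := by
  induction E, hE using Nat.le_induction with
  | base =>
    have h1 : Icc 1 3 = ({1, 2, 3} : Finset ℕ) := by decide
    have h2 : Icc 4 3 = (∅ : Finset ℕ) := by decide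
    rw [h1, h2]
    simp
    ring
  | succ n hn ih =>
    rw [Finset.sum_Icc_succ_top (by omega), Finset.sum_Icc_succ_top (by omega), ih]
    ring

theorem split1 {E : ℕ} (hE : 1 ≤ E) (f : ℕ → ℝ) :
    ∑ e ∈ Icc 1 E, f e = f 1 + ∑ e ∈ Icc 2 E, f e := by
  induction E, hE using Nat.le_induction with
  | base =>
    have h2 : Icc 2 1 = (∅ : Finset ℕ) := by decide
    rw [h2]
    simp
  | succ n hn ih =>
    rw [Finset.sum_Icc_succ_top (by omega), Finset.sum_Icc_succ_top (by omega), ih]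
    ring

theorem fin4 : ∀ k : Fin 4, k = 0 ∨ k = 1 ∨ k = 2 ∨ k = 3 := by decide

theorem ex_kl : ∀ i j : Fin 4, i ≠ j → ∃ k l : Fin 4, Dist4 i j k l := by
  unfold Dist4
  decide

theorem ex_k : ∀ i j l : Fin 4, i ≠ j → i ≠ l → j ≠ l → ∃ k : Fin 4, Dist4 i j k l := by
  unfold Dist4
  decide

/-- the mass with exponents at least two -/
noncomputable def DD (E : ℕ) (m : Fin 4 → Fin 4 → ℕ → ℕ → ℝ) (i j : Fin 4) : ℝ :=
  ∑ p ∈ Icc 2 E, ∑ q ∈ Icc 2 E, m i j p q

/-- the mass with exponent `e` in the first variable -/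
noncomputable def V (E : ℕ) (m : Fin 4 → Fin 4 → ℕ → ℕ → ℝ) (i j : Fin 4) (e : ℕ) : ℝ :=
  ∑ q ∈ Icc 1 E, m i j e q

section

variable {E : ℕ} {m : Fin 4 → Fin 4 → ℕ → ℕ → ℝ}

theorem U_symm (hs : ∀ i j p q, m i j p q = m j i q p) (i j : Fin 4) : U E m i j = U E m j i := by
  unfold U
  rw [Finset.sum_comm]
  refine Finset.sum_congr rfl fun p _ => Finset.sum_congr rfl fun q _ => hs _ _ _ _

theorem V_nonneg (h0 : ∀ i j p q, 0 ≤ m i j p q) (i j : Fin 4) (e : ℕ) : 0 ≤ V E m i j e :=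
  Finset.sum_nonneg fun _ _ => h0 _ _ _ _

theorem U_eq (hE : 3 ≤ E) (i j : Fin 4) : U E m i j = V E m i j 1 + V E m i j 2 + V E m i j 3 +
    ∑ e ∈ Icc 4 E, V E m i j e := split3 hE _

theorem D_nonneg (h0 : ∀ i j p q, 0 ≤ m i j p q) (i j : Fin 4) : 0 ≤ DD E m i j :=
  Finset.sum_nonneg fun _ _ => Finset.sum_nonneg fun _ _ => h0 _ _ _ _

theorem U_le (hE : 3 ≤ E) (h0 : ∀ i j p q, 0 ≤ m i j p q) (hs : ∀ i j p q, m i j p q = m j i q p)
    (i j : Fin 4) : U E m i j ≤ V E m i j 1 + V E m j i 1 + DD E m i j := by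
  unfold U
  rw [split1 (by omega)]
  have h1 : ∑ p ∈ Icc 2 E, ∑ q ∈ Icc 1 E, m i j p q =
      ∑ p ∈ Icc 2 E, m i j p 1 + DD E m i j := by
    unfold DD
    rw [← Finset.sum_add_distrib]
    exact Finset.sum_congr rfl fun p _ => split1 (by omega) _
  have h2 : ∑ p ∈ Icc 2 E, m i j p 1 ≤ V E m j i 1 := by
    unfold V
    rw [split1 (by omega)]
    have : ∑ p ∈ Icc 2 E, m i j p 1 = ∑ p ∈ Icc 2 E, m j i 1 p :=
      Finset.sum_congr rfl fun p _ => hs _ _ _ _
    rw [this]
    linarith [h0 j i 1 1]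
  rw [h1]
  have h3 : ∑ q ∈ Icc 1 E, m i j 1 q = V E m i j 1 := rfl
  rw [h3]
  linarith

theorem W_ge (hE : 3 ≤ E) (h0 : ∀ i j p q, 0 ≤ m i j p q) (i j : Fin 4) :
    U E m i j + DD E m i j ≤
      ∑ p ∈ Icc 1 E, ∑ q ∈ Icc 1 E, ((min p q : ℕ) : ℝ) * m i j p q := by
  have h1 : U E m i j + DD E m i j ≤
      ∑ p ∈ Icc 1 E, ∑ q ∈ Icc 1 E, (m i j p q + if 2 ≤ p ∧ 2 ≤ q then m i j p q else 0) := by
    have h2 : ∑ p ∈ Icc 1 E, ∑ q ∈ Icc 1 E, (m i j p q + if 2 ≤ p ∧ 2 ≤ q then m i j p q else 0) =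
        U E m i j + ∑ p ∈ Icc 1 E, ∑ q ∈ Icc 1 E, (if 2 ≤ p ∧ 2 ≤ q then m i j p q else 0) := by
      unfold U
      rw [← Finset.sum_add_distrib]
      exact Finset.sum_congr rfl fun p _ => Finset.sum_add_distrib
    rw [h2]
    have h3 : DD E m i j ≤
        ∑ p ∈ Icc 1 E, ∑ q ∈ Icc 1 E, (if 2 ≤ p ∧ 2 ≤ q then m i j p q else 0) := by
      unfold DD
      have hsub : Icc 2 E ⊆ Icc 1 E := Finset.Icc_subset_Icc (by norm_num) le_rfl
      have hn : ∀ p q : ℕ, 0 ≤ (if 2 ≤ p ∧ 2 ≤ q then m i j p q else 0) := by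
        intro p q
        split_ifs
        · exact h0 _ _ _ _
        · exact le_rfl
      refine le_trans ?_ (Finset.sum_le_sum_of_subset_of_nonneg hsub fun p _ _ =>
        Finset.sum_nonneg fun q _ => hn p q)
      refine Finset.sum_le_sum fun p hp => ?_
      refine le_trans ?_ (Finset.sum_le_sum_of_subset_of_nonneg hsub fun q _ _ => hn p q)
      refine Finset.sum_le_sum fun q hq => ?_
      rw [if_pos ⟨(mem_Icc.1 hp).1, (mem_Icc.1 hq).1⟩]
    linarith
  refine h1.trans (Finset.sum_le_sum fun p hp => Finset.sum_le_sum fun q hq => ?_)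
  have hp1 := (mem_Icc.1 hp).1
  have hq1 := (mem_Icc.1 hq).1
  have hm := h0 i j p q
  split_ifs with h
  · have : (2 : ℝ) ≤ ((min p q : ℕ) : ℝ) := by exact_mod_cast le_min h.1 h.2
    nlinarith
  · have : (1 : ℝ) ≤ ((min p q : ℕ) : ℝ) := by exact_mod_cast le_min hp1 hq1
    nlinarith

/-- the sum of the exponents in the first variable -/
noncomputable def Z (E : ℕ) (m : Fin 4 → Fin 4 → ℕ → ℕ → ℝ) (i j : Fin 4) : ℝ :=
  ∑ e ∈ Icc 1 E, (e : ℝ) * V E m i j e

theorem Z_ge (hE : 3 ≤ E) (h0 : ∀ i j p q, 0 ≤ m i j p q) (i j : Fin 4) :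
    V E m i j 1 + 2 * V E m i j 2 + 3 * V E m i j 3 + 4 * ∑ e ∈ Icc 4 E, V E m i j e ≤
      Z E m i j := by
  unfold Z
  rw [split3 hE]
  have h1 : 4 * ∑ e ∈ Icc 4 E, V E m i j e ≤ ∑ e ∈ Icc 4 E, (e : ℝ) * V E m i j e := by
    rw [Finset.mul_sum]
    refine Finset.sum_le_sum fun e he => ?_
    refine mul_le_mul_of_nonneg_right ?_ (V_nonneg h0 i j e)
    exact_mod_cast (mem_Icc.1 he).1
  push_cast
  linarith

theorem F_eq (hs : ∀ i j p q, m i j p q = m j i q p) (i j : Fin 4) :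
    ∑ p ∈ Icc 1 E, ∑ q ∈ Icc 1 E, ((p : ℝ) + q) * m i j p q = Z E m i j + Z E m j i := by
  have h1 : Z E m j i = ∑ p ∈ Icc 1 E, ∑ q ∈ Icc 1 E, (q : ℝ) * m i j p q := by
    unfold Z V
    rw [Finset.sum_comm]
    refine Finset.sum_congr rfl fun q _ => ?_
    rw [Finset.mul_sum]
    exact Finset.sum_congr rfl fun p _ => by rw [hs i j p q]
  rw [h1]
  unfold Z V
  rw [← Finset.sum_add_distrib]
  refine Finset.sum_congr rfl fun p _ => ?_
  rw [Finset.mul_sum, ← Finset.sum_add_distrib]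
  exact Finset.sum_congr rfl fun q _ => by ring

theorem m_le_U (h0 : ∀ i j p q, 0 ≤ m i j p q) (i j : Fin 4) {e q : ℕ} (he : e ∈ Icc 1 E)
    (hq : q ∈ Icc 1 E) : m i j e q ≤ U E m i j := by
  have h1 : m i j e q ≤ V E m i j e :=
    Finset.single_le_sum (f := fun q => m i j e q) (fun q _ => h0 _ _ _ _) hq
  have h2 : V E m i j e ≤ U E m i j :=
    Finset.single_le_sum (f := fun e => V E m i j e) (fun e _ => V_nonneg h0 _ _ _) he
  exact h1.trans h2

theorem m2_le_U (h0 : ∀ i j p q, 0 ≤ m i j p q) (i j : Fin 4) {e q q' : ℕ} (he : e ∈ Icc 1 E)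
    (hq : q ∈ Icc 1 E) (hq' : q' ∈ Icc 1 E) (hne : q ≠ q') :
    m i j e q + m i j e q' ≤ U E m i j := by
  have h1 : m i j e q + m i j e q' ≤ V E m i j e := by
    rw [← Finset.sum_pair (f := fun q => m i j e q) hne]
    refine Finset.sum_le_sum_of_subset_of_nonneg ?_ fun q _ _ => h0 _ _ _ _
    intro x hx
    rw [mem_insert, mem_singleton] at hx
    rcases hx with rfl | rfl
    · exact hq
    · exact hq'
  have h2 : V E m i j e ≤ U E m i j :=
    Finset.single_le_sum (f := fun e => V E m i j e) (fun e _ => V_nonneg h0 _ _ _) he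
  exact h1.trans h2

end

theorem main : S_AR := by
  intro E m s t ρ hE h0 hs hs0 ht0 ht hρ hρeq hsum N1 N2 N3 N4 N5
  have c10 : U E m 1 0 = U E m 0 1 := U_symm hs 1 0
  have c20 : U E m 2 0 = U E m 0 2 := U_symm hs 2 0
  have c30 : U E m 3 0 = U E m 0 3 := U_symm hs 3 0
  have c21 : U E m 2 1 = U E m 1 2 := U_symm hs 2 1
  have c31 : U E m 3 1 = U E m 1 3 := U_symm hs 3 1
  have c32 : U E m 3 2 = U E m 2 3 := U_symm hs 3 2
  have hss : ∑ i, s i = s 0 + s 1 + s 2 + s 3 := Fin.sum_univ_four s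
  have hup : ∀ k l : Fin 4, k ≠ l → U E m k l < 1 / 6 + 53 / 300000 := by
    intro k l hkl
    have h1 := N1 k l hkl
    have h2 := hs0 l
    linarith
  have n01 := N1 0 1 (by decide)
  have n02 := N1 0 2 (by decide)
  have n03 := N1 0 3 (by decide)
  have n10 := N1 1 0 (by decide)
  have n12 := N1 1 2 (by decide)
  have n13 := N1 1 3 (by decide)
  have n20 := N1 2 0 (by decide)
  have n21 := N1 2 1 (by decide)
  have n23 := N1 2 3 (by decide)
  have n30 := N1 3 0 (by decide)
  have n31 := N1 3 1 (by decide)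
  have n32 := N1 3 2 (by decide)
  have hP : 1 - 12 * (53 / 300000) <
      U E m 0 1 + U E m 0 2 + U E m 0 3 + U E m 1 2 + U E m 1 3 + U E m 2 3 := by
    linarith
  have hlow : ∀ k l : Fin 4, k ≠ l → 1 / 6 - 17 * (53 / 300000) < U E m k l := by
    have a01 := hup 0 1 (by decide)
    have a02 := hup 0 2 (by decide)
    have a03 := hup 0 3 (by decide)
    have a12 := hup 1 2 (by decide)
    have a13 := hup 1 3 (by decide)
    have a23 := hup 2 3 (by decide)
    intro k l hkl
    rcases fin4 k with rfl | rfl | rfl | rfl <;> rcases fin4 l with rfl | rfl | rfl | rfl <;>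
      first | exact absurd rfl hkl | linarith
  have hdiag : ∀ i j : Fin 4, i ≠ j → ∑ p ∈ Icc 1 E, m i j p p < 18 * (53 / 300000) := by
    intro i j hij
    obtain ⟨k, l, h⟩ := ex_kl i j hij
    have h1 := N2 i j k l h
    have h2 := hlow k l h.2.2.2.2.2
    linarith
  have htau : ∀ l : Fin 4, ∀ e ∈ Icc 1 E,
      ∑ i ∈ univ.erase l, V E m i l e < 1 / 6 + 53 / 300000 := by
    intro l e he
    have hUl : 1 / 2 - 51 * (53 / 300000) ≤ ∑ i ∈ univ.erase l, U E m i l := by
      have h1 := Finset.card_nsmul_le_sum (univ.erase l) (fun i => U E m i l)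
        (1 / 6 - 17 * (53 / 300000)) (fun i hi => (hlow i l (mem_erase.1 hi).1).le)
      have h2 : (univ.erase l).card = 3 := by
        rw [Finset.card_erase_of_mem (mem_univ l)]
        rfl
      rw [h2] at h1
      have h3 : (3 : ℕ) • ((1 : ℝ) / 6 - 17 * (53 / 300000)) = 1 / 2 - 51 * (53 / 300000) := by
        norm_num
      rw [h3] at h1
      exact h1
    have hI : ∑ y ∈ (univ.erase l) ×ˢ (Icc 1 E), m y.1 l e y.2 =
        ∑ i ∈ univ.erase l, V E m i l e := by
      rw [Finset.sum_product]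
      rfl
    rw [← hI]
    refine greedy _ (fun y : Fin 4 × ℕ => m y.1 l e y.2) (1 / 6 - 53 * (53 / 300000)) _
      (by norm_num) ?_ ?_ ?_
    · intro S hS
      have h1 := N4 l e he S (by
        intro y hy
        have h2 := mem_product.1 (hS hy)
        exact ⟨(mem_erase.1 h2.1).1, h2.2⟩)
      rcases min_cases (∑ y ∈ S, m y.1 l e y.2)
        ((∑ i ∈ univ.erase l, U E m i l) - ∑ y ∈ S, m y.1 l e y.2) with h | h
      · left
        rw [h.1] at h1
        linarith
      · right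
        rw [h.1] at h1
        linarith
    · intro y hy
      have h2 := mem_product.1 hy
      exact lt_of_le_of_lt (m_le_U h0 y.1 l he h2.2) (hup y.1 l (mem_erase.1 h2.1).1)
    · intro y hy y' hy' hne
      have h2 := mem_product.1 hy
      have h2' := mem_product.1 hy'
      have hyl : y.1 ≠ l := (mem_erase.1 h2.1).1
      have hyl' : y'.1 ≠ l := (mem_erase.1 h2'.1).1
      by_contra hcon
      rw [not_or, not_lt, not_lt] at hcon
      obtain ⟨ha, ha'⟩ := hcon
      have hb := lt_of_le_of_lt (m_le_U h0 y.1 l he h2.2) (hup y.1 l hyl)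
      have hb' := lt_of_le_of_lt (m_le_U h0 y'.1 l he h2'.2) (hup y'.1 l hyl')
      by_cases h1 : y.1 = y'.1
      · have h3 : y.2 ≠ y'.2 := fun h3 => hne (Prod.ext h1 h3)
        have h4 := m2_le_U h0 y.1 l he h2.2 h2'.2 h3
        have h5 := hup y.1 l hyl
        rw [← h1] at ha'
        linarith
      · obtain ⟨k, hk⟩ := ex_k y.1 y'.1 l h1 hyl hyl'
        have hd : ∀ i : Fin 4, i ≠ l → m i l e e < 18 * (53 / 300000) := by
          intro i hi
          refine lt_of_le_of_lt ?_ (hdiag i l hi)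
          exact Finset.single_le_sum (f := fun p => m i l p p) (fun p _ => h0 _ _ _ _) he
        have he1 : e ≠ y.2 := by
          intro h
          have := hd y.1 hyl
          rw [← h] at ha
          linarith
        have he2 : e ≠ y'.2 := by
          intro h
          have := hd y'.1 hyl'
          rw [← h] at ha'
          linarith
        have h6 := N5 y.1 y'.1 k l hk e he y.2 h2.2 y'.2 h2'.2 he1 he2
        have h7 := hlow k l hk.2.2.2.2.2
        have h8 : max 0 (max (m y.1 l e y.2) (m y'.1 l e y'.2) - U E m k l / 2) ≤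
            1 / 12 + 10 * (53 / 300000) := by
          refine max_le (by norm_num) ?_
          have h9 : max (m y.1 l e y.2) (m y'.1 l e y'.2) ≤ 1 / 6 + 53 / 300000 :=
            max_le hb.le hb'.le
          linarith
        linarith
  obtain ⟨X, hX⟩ : ∃ X : Fin 4 → Fin 4 → ℝ, X = fun i l => ∑ e ∈ Icc 4 E, V E m i l e := ⟨_, rfl⟩
  have hXn : ∀ i l, 0 ≤ X i l := by
    intro i l
    rw [hX]
    exact Finset.sum_nonneg fun e _ => V_nonneg h0 _ _ _
  have eU : ∀ i l, U E m i l = V E m i l 1 + V E m i l 2 + V E m i l 3 + X i l := by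
    intro i l
    rw [hX]
    exact U_eq hE i l
  have hZX : ∀ i l, V E m i l 1 + 2 * V E m i l 2 + 3 * V E m i l 3 + 4 * X i l ≤ Z E m i l := by
    intro i l
    rw [hX]
    exact Z_ge hE h0 i l
  have hZ : Z E m 0 1 + Z E m 0 2 + Z E m 0 3 + Z E m 1 0 + Z E m 1 2 + Z E m 1 3 + Z E m 2 0 +
      Z E m 2 1 + Z E m 2 3 + Z E m 3 0 + Z E m 3 1 + Z E m 3 2 ≤ 4 + 1 / 100000 := by
    have e1 : ∀ F : Fin 4 → Fin 4 → ℝ, (∑ i : Fin 4, ∑ j : Fin 4, (if i = j then 0 else F i j)) =
        F 0 1 + F 0 2 + F 0 3 + F 1 0 + F 1 2 + F 1 3 + F 2 0 + F 2 1 + F 2 3 + F 3 0 + F 3 1 +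
          F 3 2 := by
      intro F
      simp [Fin.sum_univ_four]
      ring
    rw [e1 (fun i j => ∑ p ∈ Icc 1 E, ∑ q ∈ Icc 1 E, ((p : ℝ) + q) * m i j p q)] at hsum
    simp only [F_eq hs] at hsum
    linarith
  have er0 : (univ.erase (0 : Fin 4)) = {1, 2, 3} := by decide
  have er1 : (univ.erase (1 : Fin 4)) = {0, 2, 3} := by decide
  have er2 : (univ.erase (2 : Fin 4)) = {0, 1, 3} := by decide
  have er3 : (univ.erase (3 : Fin 4)) = {0, 1, 2} := by decide
  have sum3 : ∀ (f : Fin 4 → ℝ) (a b c : Fin 4), a ≠ b → a ≠ c → b ≠ c →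
      ∑ i ∈ ({a, b, c} : Finset (Fin 4)), f i = f a + f b + f c := by
    intro f a b c h1 h2 h3
    rw [Finset.sum_insert (by simp [h1, h2]), Finset.sum_insert (by simp [h3]),
      Finset.sum_singleton]
    ring
  have ht0' : ∀ e ∈ Icc 1 E, V E m 1 0 e + V E m 2 0 e + V E m 3 0 e < 1 / 6 + 53 / 300000 := by
    intro e he
    have h1 := htau 0 e he
    rwa [er0, sum3 _ 1 2 3 (by decide) (by decide) (by decide)] at h1
  have ht1' : ∀ e ∈ Icc 1 E, V E m 0 1 e + V E m 2 1 e + V E m 3 1 e < 1 / 6 + 53 / 300000 := by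
    intro e he
    have h1 := htau 1 e he
    rwa [er1, sum3 _ 0 2 3 (by decide) (by decide) (by decide)] at h1
  have ht2' : ∀ e ∈ Icc 1 E, V E m 0 2 e + V E m 1 2 e + V E m 3 2 e < 1 / 6 + 53 / 300000 := by
    intro e he
    have h1 := htau 2 e he
    rwa [er2, sum3 _ 0 1 3 (by decide) (by decide) (by decide)] at h1
  have ht3' : ∀ e ∈ Icc 1 E, V E m 0 3 e + V E m 1 3 e + V E m 2 3 e < 1 / 6 + 53 / 300000 := by
    intro e he
    have h1 := htau 3 e he
    rwa [er3, sum3 _ 0 1 2 (by decide) (by decide) (by decide)] at h1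
  have m1 : 1 ∈ Icc 1 E := mem_Icc.2 ⟨le_rfl, by omega⟩
  have m2 : 2 ∈ Icc 1 E := mem_Icc.2 ⟨by omega, by omega⟩
  have m3 : 3 ∈ Icc 1 E := mem_Icc.2 ⟨by omega, by omega⟩
  have hT1 : V E m 0 1 1 + V E m 0 2 1 + V E m 0 3 1 + V E m 1 0 1 + V E m 1 2 1 + V E m 1 3 1 +
      V E m 2 0 1 + V E m 2 1 1 + V E m 2 3 1 + V E m 3 0 1 + V E m 3 1 1 + V E m 3 2 1 <
      2 / 3 + 4 * (53 / 300000) := by
    linarith [ht0' 1 m1, ht1' 1 m1, ht2' 1 m1, ht3' 1 m1]
  have hT2 : V E m 0 1 2 + V E m 0 2 2 + V E m 0 3 2 + V E m 1 0 2 + V E m 1 2 2 + V E m 1 3 2 +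
      V E m 2 0 2 + V E m 2 1 2 + V E m 2 3 2 + V E m 3 0 2 + V E m 3 1 2 + V E m 3 2 2 <
      2 / 3 + 4 * (53 / 300000) := by
    linarith [ht0' 2 m2, ht1' 2 m2, ht2' 2 m2, ht3' 2 m2]
  have hTX : X 0 1 + X 0 2 + X 0 3 + X 1 0 + X 1 2 + X 1 3 + X 2 0 + X 2 1 + X 2 3 + X 3 0 +
      X 3 1 + X 3 2 < 85 * (53 / 300000) := by
    have z01 := hZX 0 1
    have z02 := hZX 0 2
    have z03 := hZX 0 3
    have z10 := hZX 1 0
    have z12 := hZX 1 2
    have z13 := hZX 1 3
    have z20 := hZX 2 0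
    have z21 := hZX 2 1
    have z23 := hZX 2 3
    have z30 := hZX 3 0
    have z31 := hZX 3 1
    have z32 := hZX 3 2
    have e01 := eU 0 1
    have e02 := eU 0 2
    have e03 := eU 0 3
    have e10 := eU 1 0
    have e12 := eU 1 2
    have e13 := eU 1 3
    have e20 := eU 2 0
    have e21 := eU 2 1
    have e23 := eU 2 3
    have e30 := eU 3 0
    have e31 := eU 3 1
    have e32 := eU 3 2
    linarith
  have hW : ∀ i j k l : Fin 4, Dist4 i j k l → X i k + X i l + X j k + X j l ≤ 85 * (53 / 300000) →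
      DD E m k l < 18 * (53 / 300000) := by
    intro i j k l h hXs
    obtain ⟨hij, hik, hil, hjk, hjl, hkl⟩ := h
    by_contra hcon
    have hcon' := not_lt.1 hcon
    have hWg := W_ge hE h0 k l
    have hlk := hlow k l hkl
    have hG : ∀ e ∈ Icc 1 E, V E m i k e + V E m i l e + V E m j k e + V E m j l e <
        1 / 6 + 53 / 300000 := by
      intro e he
      have h1 := N3 i j k l ⟨hij, hik, hil, hjk, hjl, hkl⟩ e he
      have h2 : ∑ q ∈ Icc 1 E, (m i k e q + m i l e q + m j k e q + m j l e q) =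
          V E m i k e + V E m i l e + V E m j k e + V E m j l e := by
        unfold V
        simp only [Finset.sum_add_distrib]
      rw [h2] at h1
      rcases min_cases (V E m i k e + V E m i l e + V E m j k e + V E m j l e)
        (∑ p ∈ Icc 1 E, ∑ q ∈ Icc 1 E, ((min p q : ℕ) : ℝ) * m k l p q) with h | h
      · rw [h.1] at h1
        linarith
      · rw [h.1] at h1
        linarith
    have g1 := hG 1 m1
    have g2 := hG 2 m2
    have g3 := hG 3 m3
    have l1 := hlow i k hik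
    have l2 := hlow i l hil
    have l3 := hlow j k hjk
    have l4 := hlow j l hjl
    have u1 := eU i k
    have u2 := eU i l
    have u3 := eU j k
    have u4 := eU j l
    linarith
  have x01 := hXn 0 1
  have x02 := hXn 0 2
  have x03 := hXn 0 3
  have x10 := hXn 1 0
  have x12 := hXn 1 2
  have x13 := hXn 1 3
  have x20 := hXn 2 0
  have x21 := hXn 2 1
  have x23 := hXn 2 3
  have x30 := hXn 3 0
  have x31 := hXn 3 1
  have x32 := hXn 3 2
  have d01 : DD E m 0 1 < 18 * (53 / 300000) := hW 2 3 0 1 (by unfold Dist4; decide) (by linarith)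
  have d02 : DD E m 0 2 < 18 * (53 / 300000) := hW 1 3 0 2 (by unfold Dist4; decide) (by linarith)
  have d03 : DD E m 0 3 < 18 * (53 / 300000) := hW 1 2 0 3 (by unfold Dist4; decide) (by linarith)
  have d12 : DD E m 1 2 < 18 * (53 / 300000) := hW 0 3 1 2 (by unfold Dist4; decide) (by linarith)
  have d13 : DD E m 1 3 < 18 * (53 / 300000) := hW 0 2 1 3 (by unfold Dist4; decide) (by linarith)
  have d23 : DD E m 2 3 < 18 * (53 / 300000) := hW 0 1 2 3 (by unfold Dist4; decide) (by linarith)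
  have b01 := U_le hE h0 hs 0 1
  have b02 := U_le hE h0 hs 0 2
  have b03 := U_le hE h0 hs 0 3
  have b12 := U_le hE h0 hs 1 2
  have b13 := U_le hE h0 hs 1 3
  have b23 := U_le hE h0 hs 2 3
  linarith

end Pool.Agent.Helper54.Q.AR
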