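import Pool.Agent.Helper54.Q.Point3

/-!
# Assembly
-/

set_option autoImplicit false

namespace Pool.Agent.Helper54.Q

open Finset

theorem Bdd_Z0 : Bdd Z0 := Bdd_zero

theorem strat_CH (h : S_CHN) (k l : Fin 4) (hkl : k ≠ l) : Strat (R (qCH k l)) Z0 Z0 := by
  intro ε hε
  obtain ⟨D, hD, hh⟩ := h k l hkl ε hε
  refine ⟨D, hD, fun L c0 a0 w0 F hL hF _ hc _ _ => ?_⟩
  have h1 := hh L c0 F hL hF hc
  calc (F.card : ℝ) ≤ D * Real.exp (c0 + ε * L) := h1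
    _ = D * Real.exp (ε * L) * Real.exp c0 := by rw [Real.exp_add]; ring
    _ ≤ _ := by
      gcongr
      have := Real.exp_pos (c0 + a0 - w0)
      linarith

theorem strat_EQ (h : S_EQ) (i j k l : Fin 4) (hd : Dist4 i j k l) : Strat (R (qEQ i j k l)) Z0 Z0 := by
  intro ε hε
  obtain ⟨D, hD, hh⟩ := h i j k l hd ε hε
  refine ⟨D, hD, fun L c0 a0 w0 F hL hF _ hc _ _ => ?_⟩
  have h1 := hh L c0 F hL hF hc
  calc (F.card : ℝ) ≤ D * Real.exp (c0 + ε * L) := h1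
    _ = D * Real.exp (ε * L) * Real.exp c0 := by rw [Real.exp_add]; ring
    _ ≤ _ := by
      gcongr
      have := Real.exp_pos (c0 + a0 - w0)
      linarith

theorem strat_SA (h : S_SA) (i j k l : Fin 4) (hd : Dist4 i j k l) (e E : ℕ) (he : 1 ≤ e) :
    Strat (R (fun v => ¬ selA i j e v)) (R (selA i j e)) (W (qW E k l) (fun v => min (v k) (v l))) := by
  intro ε hε
  obtain ⟨D, hD, hh⟩ := h i j k l hd e E he ε hε
  exact ⟨D, hD, fun L c0 a0 w0 F hL hF _ hc ha hw => hh L c0 a0 w0 F hL hF hc ha hw⟩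

theorem strat_SB (h : S_SB) (l : Fin 4) (e : ℕ) (he : 1 ≤ e) (Sel : (Fin 4 → ℕ) → Prop)
    (hSel : ∀ v, Sel v → v l ≠ 0 ∧ ∃ i, i ≠ l ∧ v i = e) :
    Strat (R (fun v => ¬ Sel v)) (R Sel) (R (qM l Sel)) := by
  intro ε hε
  obtain ⟨D, hD, hh⟩ := h l e he Sel hSel ε hε
  exact ⟨D, hD, fun L c0 a0 w0 F hL hF hd hc ha hw => hh L c0 a0 w0 F hL hF hd hc ha hw⟩

theorem strat_AT (h : S_AT) (i j k l : Fin 4) (hd : Dist4 i j k l) (e q q' : ℕ) (he : 1 ≤ e) (hq : 1 ≤ q)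
    (hq' : 1 ≤ q') (h1 : e ≠ q) (h2 : e ≠ q') :
    Strat (R (qAT i j l e q q'))
      (fun x => max (R (fun v => v i = e ∧ v l = q) x) (R (fun v => v j = e ∧ v l = q') x))
      (fun x => R (fun v => v k ≠ 0 ∧ v l ≠ 0) x / 2) := by
  intro ε hε
  obtain ⟨D, hD, hh⟩ := h i j k l hd e q q' he hq hq' h1 h2 ε hε
  refine ⟨D, hD, fun L c0 a0 w0 F hL hF hdg hc ha hw => ?_⟩
  rcases F.eq_empty_or_nonempty with rfl | ⟨x0, hx0⟩
  · simp
    positivity
  · have ha0 : 0 ≤ a0 := ((R_nonneg' _ x0).trans (le_max_left _ _)).trans (ha x0 hx0)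
    have h3 := hh L c0 a0 (2 * w0) F hL ha0 hF hdg hc (fun x hx => (le_max_left _ _).trans (ha x hx))
      (fun x hx => (le_max_right _ _).trans (ha x hx)) (fun x hx => by
        have := hw x hx
        simp only at this
        linarith)
    have e3 : 2 * w0 / 2 = w0 := by ring
    rwa [e3] at h3

theorem Ok_Some5 (hCHN : S_CHN) (hEQ : S_EQ) (hSA : S_SA) (hSB : S_SB) (hAT : S_AT) (E : ℕ) (θ : ℝ) :
    Ok θ (fun L x => Some5 E θ L x) := by
  classical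
  unfold Some5
  refine Ok_or θ ?_ (Ok_or θ ?_ (Ok_or θ ?_ (Ok_or θ ?_ ?_)))
  · refine Ok_ex θ _ fun k _ => Ok_ex θ _ fun l _ => Ok_and θ fun hkl => ?_
    exact Ok_strat θ (strat_CH hCHN k l hkl) (Bdd_R _) Bdd_Z0 Bdd_Z0
  · refine Ok_ex θ _ fun y _ => Ok_and θ fun hd => ?_
    exact Ok_strat θ (strat_EQ hEQ _ _ _ _ hd) (Bdd_R _) Bdd_Z0 Bdd_Z0
  · refine Ok_ex θ _ fun y _ => Ok_and θ fun hd => Ok_ex θ _ fun e he => ?_
    refine Ok_strat θ (strat_SA hSA _ _ _ _ hd e E (mem_Icc.1 he).1) (Bdd_R _) (Bdd_R _) (Bdd_W _ _ ?_)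
    intro v _
    exact (min_le_left _ _).trans (single_le_sum (f := v) (fun _ _ => Nat.zero_le _) (mem_univ _))
  · refine Ok_ex θ _ fun l _ => Ok_ex θ _ fun e he => Ok_ex θ _ fun S hS => ?_
    refine Ok_strat θ (strat_SB hSB l e (mem_Icc.1 he).1 (qS l e S) ?_) (Bdd_R _) (Bdd_R _) (Bdd_R _)
    rintro v ⟨y, hy, h1, h2⟩
    have h3 := mem_product.1 (mem_powerset.1 hS hy)
    have h4 := mem_Icc.1 h3.2
    exact ⟨by omega, y.1, ne_of_mem_erase h3.1, h1⟩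
  · refine Ok_ex θ _ fun y _ => Ok_and θ fun hd => Ok_ex θ _ fun e he => Ok_ex θ _ fun q hq =>
      Ok_ex θ _ fun q' hq' => Ok_and θ fun hne => ?_
    exact Ok_strat θ (strat_AT hAT _ _ _ _ hd e q q' (mem_Icc.1 he).1 (mem_Icc.1 hq).1 (mem_Icc.1 hq').1
      hne.1 hne.2) (Bdd_R _) (Bdd_max (Bdd_R _) (Bdd_R _)) (Bdd_half (Bdd_R _))

/-- the count in logarithmic form -/
theorem count (hCHN : S_CHN) (hEQ : S_EQ) (hSA : S_SA) (hSB : S_SB) (hAT : S_AT) (hDG : S_DG) (η : ℝ)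
    (hη : η ≤ 1 / 10) (hAR : S_ARg η) (ε : ℝ) (hε : 0 < ε) : ∃ D : ℝ, 0 < D ∧
    ∀ (L : ℝ) (F : Finset (Fin 4 → ℤ)), 1 ≤ L → Fam F L →
    (∀ x ∈ F, R (fun _ => True) x ≤ (1 + 1 / 100000) * L) →
    (F.card : ℝ) ≤ D * Real.exp ((5 / 6 - η + ε) * L) := by
  classical
  obtain ⟨D1, hD1, h1⟩ := Ok_Some5 hCHN hEQ hSA hSB hAT 400000 (5 / 6 - η) ε hε
  obtain ⟨D2, hD2, h2⟩ := hDG (1 / 100) (by norm_num)
  refine ⟨D1 + D2, by positivity, fun L F hL hF hR => ?_⟩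
  have k1 := h1 L (F.filter fun x => ¬ Deg x) hL (hF.mono (filter_subset _ _))
    (fun x hx => (mem_filter.1 hx).2)
    (fun x hx => point η hAR 400000 le_rfl L (by linarith) x (hF x (filter_subset _ _ hx)).1
      (hF x (filter_subset _ _ hx)).2 (hR x (filter_subset _ _ hx)))
  have hF' : Fam (F.filter fun x => Deg x) ((1 + 1 / 100000) * L) := by
    intro x hx
    refine ⟨(hF x (filter_subset _ _ hx)).1, fun i => ((hF x (filter_subset _ _ hx)).2 i).trans ?_⟩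
    apply Real.exp_le_exp.2
    nlinarith
  have k2 := h2 ((1 + 1 / 100000) * L) (F.filter fun x => Deg x) (by positivity) hF'
    (fun x hx => ⟨(mem_filter.1 hx).2, hR x (filter_subset _ _ hx)⟩)
  have k3 : D2 * Real.exp ((2 / 3 + 1 / 100) * ((1 + 1 / 100000) * L)) ≤
      D2 * Real.exp ((5 / 6 - η + ε) * L) := by
    have : (2 / 3 + 1 / 100) * ((1 + 1 / 100000) * L) ≤ (5 / 6 - η + ε) * L := by
      rw [← mul_assoc]
      apply mul_le_mul_of_nonneg_right _ (by linarith)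
      linarith
    gcongr
  have k4 : F.card = (F.filter fun x => Deg x).card + (F.filter fun x => ¬ Deg x).card :=
    (card_filter_add_card_filter_not _).symm
  rw [k4]
  push_cast
  calc _ ≤ D2 * Real.exp ((5 / 6 - η + ε) * L) + D1 * Real.exp ((5 / 6 - η + ε) * L) :=
        add_le_add (k2.trans k3) k1
    _ = _ := by ring

end Pool.Agent.Helper54.Q
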