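import Pool.Agent.Helper54.Q.Fin2

/-!
# The count for a general family of strategies
-/

set_option autoImplicit false

namespace Pool.Agent.Helper54.Q

open Finset

/-- the count in logarithmic form, for any family `S6` of cheap strategies -/
theorem countg (hDG : S_DG) (η κ h lam : ℝ) (hη : η ≤ 1 / 100) (hκ : 0 < κ) (hκ' : κ ≤ 1 / 100)
    (hlam : 24 / 25 ≤ lam) (hh : 4 ≤ (4 + h) * lam) (S6 : ℕ → ℝ → ℝ → (Fin 4 → ℤ) → Prop)
    (hOk : ∀ (E : ℕ) (θ : ℝ), Ok θ (fun L x => S6 E θ L x))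
    (hpt : ∀ E : ℕ, 3 ≤ E → 4 + h ≤ κ * ((E : ℝ) + 1) → ∀ L : ℝ, 0 < L → ∀ x : Fin 4 → ℤ, Adm x →
      Ph (fun v => ((∑ i, v i : ℕ) : ℝ)) x ≤ (4 + h) * L →
      R (fun _ => True) x ≤ (1 + κ) * L → S6 E (5 / 6 - η) L x)
    (hsc : ∀ (E : ℕ) (θ lam L : ℝ) (x : Fin 4 → ℤ), S6 E θ (lam * L) x → S6 E (lam * θ) L x)
    (ε : ℝ) (hε : 0 < ε) : ∃ D : ℝ, 0 < D ∧
    ∀ (L : ℝ) (F : Finset (Fin 4 → ℤ)), 1 ≤ L → Fam F L →
    (∀ x ∈ F, R (fun _ => True) x ≤ (1 + κ) * (lam * L)) →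
    (F.card : ℝ) ≤ D * Real.exp ((lam * (5 / 6 - η) + ε) * L) := by
  classical
  have hlam0 : 0 < lam := by linarith
  obtain ⟨E0, hE0⟩ := exists_nat_ge ((4 + h) / κ)
  set E := E0 + 3 with hE
  obtain ⟨D1, hD1, h1⟩ := hOk E (lam * (5 / 6 - η)) ε hε
  obtain ⟨D2, hD2, h2⟩ := hDG (1 / 100) (by norm_num)
  refine ⟨D1 + D2, by positivity, fun L F hL hF hR => ?_⟩
  have k1 := h1 L (F.filter fun x => ¬ Deg x) hL (hF.mono (filter_subset _ _))
    (fun x hx => (mem_filter.1 hx).2)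
    (fun x hx => by
      have hxF := filter_subset _ _ hx
      have hhe := Ph_height_le (hF x hxF).1 (hF x hxF).2
      refine hsc E _ lam L x (hpt E (by omega) ?_ (lam * L) (by positivity) x (hF x hxF).1
        ?_ (hR x hxF))
      · rw [div_le_iff₀ hκ] at hE0
        rw [hE]
        push_cast
        nlinarith
      · refine hhe.trans ?_
        rw [← mul_assoc]
        gcongr)
  set L2 : ℝ := (1 + κ) * (max 1 lam * L) with hL2
  have hm1 : 1 ≤ max 1 lam := le_max_left _ _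
  have hm2 : lam ≤ max 1 lam := le_max_right _ _
  have hLL2 : L ≤ L2 := by
    rw [hL2]
    nlinarith [mul_le_mul_of_nonneg_right hm1 (by linarith : (0 : ℝ) ≤ L)]
  have hF' : Fam (F.filter fun x => Deg x) L2 := by
    intro x hx
    exact ⟨(hF x (filter_subset _ _ hx)).1, fun i => ((hF x (filter_subset _ _ hx)).2 i).trans
      (Real.exp_le_exp.2 hLL2)⟩
  have k2 := h2 L2 (F.filter fun x => Deg x) (by linarith) hF'
    (fun x hx => ⟨(mem_filter.1 hx).2, (hR x (filter_subset _ _ hx)).trans (by rw [hL2]; gcongr)⟩)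
  have k3 : D2 * Real.exp ((2 / 3 + 1 / 100) * L2) ≤
      D2 * Real.exp ((lam * (5 / 6 - η) + ε) * L) := by
    have h5 : (2 / 3 + 1 / 100) * L2 ≤ (lam * (5 / 6 - η) + ε) * L := by
      rw [hL2]
      have h6 : (2 / 3 + 1 / 100) * ((1 + κ) * max 1 lam) ≤ lam * (5 / 6 - η) + ε := by
        have h7 : (2 / 3 + 1 / 100) * (1 + κ) ≤ 69 / 100 := by nlinarith
        have h8 : max 1 lam ≤ 25 / 24 * lam := max_le (by linarith) (by linarith)
        have h9 : 0 ≤ max 1 lam := by linarith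
        have h10 : 5 / 6 - 1 / 100 ≤ 5 / 6 - η := by linarith
        nlinarith [mul_le_mul h7 h8 h9 (by norm_num : (0 : ℝ) ≤ 69 / 100), mul_le_mul_of_nonneg_left h10 hlam0.le]
      nlinarith [mul_le_mul_of_nonneg_right h6 (by linarith : (0 : ℝ) ≤ L)]
    gcongr
  have k4 : F.card = (F.filter fun x => Deg x).card + (F.filter fun x => ¬ Deg x).card :=
    (card_filter_add_card_filter_not _).symm
  rw [k4]
  push_cast
  calc _ ≤ D2 * Real.exp ((lam * (5 / 6 - η) + ε) * L) + D1 * Real.exp ((lam * (5 / 6 - η) + ε) * L) :=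
        add_le_add (k2.trans k3) k1
    _ = _ := by ring

theorem main_countg (hDG : S_DG) (η κ h lam : ℝ) (hη : η ≤ 1 / 100) (hκ : 0 < κ) (hκ' : κ ≤ 1 / 100)
    (hlam : 24 / 25 ≤ lam) (hh : 4 ≤ (4 + h) * lam) (S6 : ℕ → ℝ → ℝ → (Fin 4 → ℤ) → Prop)
    (hOk : ∀ (E : ℕ) (θ : ℝ), Ok θ (fun L x => S6 E θ L x))
    (hpt : ∀ E : ℕ, 3 ≤ E → 4 + h ≤ κ * ((E : ℝ) + 1) → ∀ L : ℝ, 0 < L → ∀ x : Fin 4 → ℤ, Adm x →
      Ph (fun v => ((∑ i, v i : ℕ) : ℝ)) x ≤ (4 + h) * L →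
      R (fun _ => True) x ≤ (1 + κ) * L → S6 E (5 / 6 - η) L x)
    (hsc : ∀ (E : ℕ) (θ lam L : ℝ) (x : Fin 4 → ℤ), S6 E θ (lam * L) x → S6 E (lam * θ) L x)
    (ε : ℝ) (hε : 0 < ε) (A : ℝ) (hA : 1 ≤ A) : ∃ C : ℝ, 0 < C ∧
    ∀ X : ℕ, 1 ≤ X → ((Dset A lam X).ncard : ℝ) ≤ C * (X : ℝ) ^ (lam * (5 / 6 - η) + ε) := by
  classical
  obtain ⟨D, hD, h⟩ := countg hDG η κ h lam hη hκ hκ' hlam hh S6 hOk hpt hsc ε hε
  have hlam0 : 0 < lam := by linarith
  have hkl : 0 < κ * lam := by positivity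
  set L0 : ℝ := 1 + Real.log A / (κ * lam) with hL0
  have hlA : 0 ≤ Real.log A := Real.log_nonneg hA
  have hlA' : 0 ≤ Real.log A / (κ * lam) := by positivity
  have hexp0 : 0 ≤ lam * (5 / 6 - η) + ε := by nlinarith
  refine ⟨D + (2 * Real.exp L0 + 1) ^ 4, by positivity, fun X hX => ?_⟩
  have hX1 : (1 : ℝ) ≤ X := by exact_mod_cast hX
  have hX0 : (0 : ℝ) < X := by linarith
  have hpow1 : 1 ≤ (X : ℝ) ^ (lam * (5 / 6 - η) + ε) := Real.one_le_rpow hX1 hexp0
  by_cases hlog : L0 ≤ Real.log X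
  · have h1 := h (Real.log X) (Dset_fin A lam X).toFinset (by
      rw [hL0] at hlog
      linarith) ?_ ?_
    · rw [Set.ncard_eq_toFinset_card _ (Dset_fin A lam X)]
      have e1 : Real.exp ((lam * (5 / 6 - η) + ε) * Real.log X) = (X : ℝ) ^ (lam * (5 / 6 - η) + ε) := by
        rw [Real.rpow_def_of_pos hX0, mul_comm]
      rw [e1] at h1
      calc _ ≤ D * (X : ℝ) ^ (lam * (5 / 6 - η) + ε) := h1
        _ ≤ _ := by
          gcongr
          have : 0 ≤ (2 * Real.exp L0 + 1) ^ 4 := by positivity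
          linarith
    · intro x hx
      rw [Set.Finite.mem_toFinset] at hx
      refine ⟨hx.1, fun i => ?_⟩
      rw [Real.exp_log hX0]
      have := hx.2.1 i
      have h2 : ((|x i| : ℤ) : ℝ) ≤ ((X : ℤ) : ℝ) := by exact_mod_cast this
      simpa using h2
    · intro x hx
      rw [Set.Finite.mem_toFinset] at hx
      rw [← log_rd hx.1.ne]
      calc Real.log (rd x) ≤ Real.log (A * (X : ℝ) ^ lam) :=
            Real.log_le_log (by exact_mod_cast rd_pos x) hx.2.2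
        _ = Real.log A + lam * Real.log X := by
          rw [Real.log_mul (by linarith) (Real.rpow_pos_of_pos hX0 _).ne', Real.log_rpow hX0]
        _ ≤ (1 + κ) * (lam * Real.log X) := by
          have h5 : Real.log A / (κ * lam) ≤ Real.log X := by linarith
          rw [div_le_iff₀ hkl] at h5
          nlinarith
  · push Not at hlog
    have h2 : (Dset A lam X).ncard ≤ (2 * X + 1) ^ 4 := by
      calc (Dset A lam X).ncard ≤ ((Fintype.piFinset fun _ : Fin 4 => Icc (-(X : ℤ)) X : Finset (Fin 4 → ℤ)) :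
            Set (Fin 4 → ℤ)).ncard := Set.ncard_le_ncard (Dset_sub A lam X) (finite_toSet _)
        _ = _ := by
          rw [Set.ncard_coe_finset, Fintype.card_piFinset]
          simp only [Int.card_Icc, prod_const, card_univ, Fintype.card_fin]
          congr 1
          omega
    have h3 : (X : ℝ) ≤ Real.exp L0 := by
      rw [← Real.exp_log hX0]
      exact Real.exp_le_exp.2 hlog.le
    calc ((Dset A lam X).ncard : ℝ) ≤ (2 * X + 1) ^ 4 := by exact_mod_cast h2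
      _ ≤ (2 * Real.exp L0 + 1) ^ 4 := by gcongr
      _ = (2 * Real.exp L0 + 1) ^ 4 * 1 := by ring
      _ ≤ (2 * Real.exp L0 + 1) ^ 4 * (X : ℝ) ^ (lam * (5 / 6 - η) + ε) := by gcongr
      _ ≤ _ := by
        gcongr
        linarith

end Pool.Agent.Helper54.Q
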