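import Pool.Agent.Helper54.Q.Stm

/-! # The module AT (Thue and lines); author: helper59 -/

set_option autoImplicit false

namespace Pool.Agent.Helper54.Q.AT

open Finset

open Classical in
/-- the product of the selected primes -/
noncomputable def sp (Q : (Fin 4 → ℕ) → Prop) (x : Fin 4 → ℤ) : ℕ :=
  ∏ p ∈ (PP x).filter (fun p => Q (vl x p)), p

theorem mem_PP {x : Fin 4 → ℤ} {p : ℕ} : p ∈ PP x ↔ ∃ i, p ∈ (x i).natAbs.primeFactors := by
  simp [PP]

theorem prime_of_PP {x : Fin 4 → ℤ} {p : ℕ} (h : p ∈ PP x) : p.Prime := by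
  obtain ⟨i, hi⟩ := mem_PP.1 h
  exact Nat.prime_of_mem_primeFactors hi

theorem vl_ne {x : Fin 4 → ℤ} (hx : Adm x) {p : ℕ} (hp : p.Prime) {i : Fin 4} :
    vl x p i ≠ 0 ↔ (p : ℤ) ∣ x i := by
  unfold vl
  have h0 : (x i).natAbs ≠ 0 := Int.natAbs_ne_zero.2 (hx.ne i)
  rw [← Nat.pos_iff_ne_zero, Int.natCast_dvd]
  exact (hp.dvd_iff_one_le_factorization h0).symm

theorem PP_of {x : Fin 4 → ℤ} (hx : Adm x) {p : ℕ} (hp : p.Prime) {i : Fin 4} (h : (p : ℤ) ∣ x i) :
    p ∈ PP x := by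
  refine mem_PP.2 ⟨i, ?_⟩
  rw [Nat.mem_primeFactors]
  exact ⟨hp, Int.natCast_dvd.1 h, Int.natAbs_ne_zero.2 (hx.ne i)⟩

theorem R_eq (Q : (Fin 4 → ℕ) → Prop) (x : Fin 4 → ℤ) : R Q x = Real.log (sp Q x) := by
  classical
  unfold R W sp
  rw [Nat.cast_prod, Real.log_prod]
  · refine Finset.sum_congr ?_ fun p _ => by simp
    ext p; simp
  · intro p hp
    have := (prime_of_PP (Finset.mem_filter.1 hp).1).pos
    positivity

theorem sp_pos (Q : (Fin 4 → ℕ) → Prop) (x : Fin 4 → ℤ) : 1 ≤ sp Q x := by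
  classical
  unfold sp
  exact Finset.prod_pos fun p hp => (prime_of_PP (Finset.mem_filter.1 hp).1).pos

theorem dvd_sp {Q : (Fin 4 → ℕ) → Prop} {x : Fin 4 → ℤ} {p : ℕ} (hp : p.Prime) :
    p ∣ sp Q x ↔ p ∈ PP x ∧ Q (vl x p) := by
  classical
  unfold sp
  rw [(Nat.prime_iff.1 hp).dvd_finsetProd_iff]
  constructor
  · rintro ⟨r, hr, hpr⟩
    have h1 := (prime_of_PP (Finset.mem_filter.1 hr).1)
    rw [Nat.prime_dvd_prime_iff_eq hp h1] at hpr
    subst hpr
    simpa using hr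
  · intro h
    exact ⟨p, by simpa using h, dvd_rfl⟩

theorem sp_sqf (Q : (Fin 4 → ℕ) → Prop) (x : Fin 4 → ℤ) : Squarefree (sp Q x) := by
  classical
  unfold sp
  apply Finset.squarefree_prod_of_pairwise_isCoprime
  · intro p hp q hq hpq
    rw [Function.onFun, ← Nat.coprime_iff_isRelPrime]
    exact (Nat.coprime_primes (prime_of_PP (Finset.mem_filter.1 hp).1)
      (prime_of_PP (Finset.mem_filter.1 hq).1)).2 hpq
  · intro p hp
    exact (Nat.prime_iff.1 (prime_of_PP (Finset.mem_filter.1 hp).1)).squarefree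

/-- a squarefree number whose primes divide `m` divides `m` -/
theorem sqf_pow_dvd {n : ℕ} {m : ℤ} (e : ℕ) (hn : Squarefree n) (hm : m ≠ 0)
    (h : ∀ p : ℕ, p.Prime → p ∣ n → e ≤ m.natAbs.factorization p) : ((n : ℤ)) ^ e ∣ m := by
  have hn0 : n ≠ 0 := hn.ne_zero
  have : n ^ e ∣ m.natAbs := by
    rw [← Nat.factorization_prime_le_iff_dvd (pow_ne_zero _ hn0) (Int.natAbs_ne_zero.2 hm)]
    intro p hp
    rw [Nat.factorization_pow]
    simp only [Finsupp.smul_apply, smul_eq_mul]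
    by_cases hd : p ∣ n
    · have h1 : n.factorization p ≤ 1 := hn.natFactorization_le_one p
      have h2 := h p hp hd
      calc e * n.factorization p ≤ e * 1 := Nat.mul_le_mul_left _ h1
        _ ≤ _ := by simpa using h2
    · rw [Nat.factorization_eq_zero_of_not_dvd hd]; simp
  have h2 : ((n ^ e : ℕ) : ℤ) ∣ m := Int.natCast_dvd.2 this
  simpa using h2

/-- the cofactor is prime to the selected primes -/
theorem cof {X A B : ℤ} {n p e : ℕ} (hX : X ≠ 0) (h : X = A * (n : ℤ) ^ e * B) (hp : p.Prime) (hpn : p ∣ n)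
    (hpA : (p : ℤ) ∣ A) : e + 1 ≤ X.natAbs.factorization p := by
  have h1 : ((p : ℤ)) ^ (e + 1) ∣ X := by
    rw [h, pow_succ, mul_comm ((p : ℤ) ^ e)]
    exact Dvd.dvd.mul_right (mul_dvd_mul hpA (pow_dvd_pow_of_dvd (Int.natCast_dvd_natCast.2 hpn) e)) _
  have h2 : p ^ (e + 1) ∣ X.natAbs := by
    have : ((p ^ (e + 1) : ℕ) : ℤ) ∣ X := by push_cast; exact h1
    exact Int.natCast_dvd.1 this
  exact (hp.pow_dvd_iff_le_factorization (Int.natAbs_ne_zero.2 hX)).1 h2

theorem univ4 : ∀ i j k l : Fin 4, (i ≠ j ∧ i ≠ k ∧ i ≠ l ∧ j ≠ k ∧ j ≠ l ∧ k ≠ l) →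
    (univ : Finset (Fin 4)) = {i, j, k, l} := by decide

theorem sum4 {i j k l : Fin 4} (hd : Dist4 i j k l) (x : Fin 4 → ℤ) :
    ∑ m, x m = x i + x j + x k + x l := by
  obtain ⟨h1, h2, h3, h4, h5, h6⟩ := hd
  rw [univ4 i j k l ⟨h1, h2, h3, h4, h5, h6⟩, Finset.sum_insert, Finset.sum_insert, Finset.sum_insert,
    Finset.sum_singleton]
  · ring
  all_goals simp [h1, h2, h3, h4, h5, h6]

theorem case4 {i j k l : Fin 4} (hd : Dist4 i j k l) (m : Fin 4) : m = i ∨ m = j ∨ m = k ∨ m = l := by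
  have : m ∈ (univ : Finset (Fin 4)) := Finset.mem_univ m
  rw [univ4 i j k l hd] at this
  simpa using this

/-- no prime divides three of the numbers -/
theorem no3 {x : Fin 4 → ℤ} (hx : Adm x) {a b c d : Fin 4} (hd : Dist4 a b c d) {p : ℕ} (hp : p.Prime)
    (ha : (p : ℤ) ∣ x a) (hb : (p : ℤ) ∣ x b) (hc : (p : ℤ) ∣ x c) : False := by
  have hs := hx.sum
  rw [sum4 hd] at hs
  have h1 : (p : ℤ) ∣ x d := by
    have : x d = -(x a + x b + x c) := by linarith
    rw [this]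
    exact (dvd_neg).2 (dvd_add (dvd_add ha hb) hc)
  obtain ⟨m, hm⟩ := hx.prim p hp
  rcases case4 hd m with h | h | h | h <;> subst h <;> exact hm (by assumption)

theorem r_le {x : Fin 4 → ℤ} (hx : Adm x) (Q : (Fin 4 → ℕ) → Prop) {L : ℝ}
    (hL : ∀ i, |(x i : ℝ)| ≤ Real.exp L) : (sp Q x : ℝ) ≤ Real.exp (4 * L) := by
  have hne : ∏ i, x i ≠ 0 := Finset.prod_ne_zero_iff.2 fun i _ => hx.ne i
  have h1 : ((sp Q x : ℤ)) ^ 1 ∣ ∏ i, x i := by
    refine sqf_pow_dvd 1 (sp_sqf Q x) hne fun p hp hd => ?_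
    rw [← hp.dvd_iff_one_le_factorization (Int.natAbs_ne_zero.2 hne), ← Int.natCast_dvd]
    obtain ⟨m, hm⟩ := mem_PP.1 ((dvd_sp hp).1 hd).1
    exact dvd_trans (Int.natCast_dvd.2 (Nat.dvd_of_mem_primeFactors hm))
      (Finset.dvd_prod_of_mem _ (Finset.mem_univ m))
  rw [pow_one] at h1
  have h2 : (sp Q x : ℤ) ≤ |∏ i, x i| := Int.le_of_dvd (abs_pos.2 hne) ((dvd_abs _ _).2 h1)
  have h3 : ((sp Q x : ℤ) : ℝ) ≤ ((|∏ i, x i| : ℤ) : ℝ) := by exact_mod_cast h2
  rw [Finset.abs_prod] at h3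
  push_cast at h3
  calc (sp Q x : ℝ) ≤ ∏ i, |(x i : ℝ)| := h3
    _ ≤ ∏ _i : Fin 4, Real.exp L := Finset.prod_le_prod (fun i _ => abs_nonneg _) fun i _ => hL i
    _ = Real.exp (4 * L) := by
      rw [Finset.prod_const, Finset.card_univ, Fintype.card_fin, ← Real.exp_nat_mul]
      norm_num

/-- the decomposition of a point -/
structure Dat (i j k l : Fin 4) (e q q' : ℕ) (x : Fin 4 → ℤ) (s t r h : ℕ) (al be ga de : ℤ) : Prop where
  xi : x i = al * (s : ℤ) ^ e
  xj : x j = be * (t : ℤ) ^ e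
  xk : x k = ga
  xl : x l = de * ((s : ℤ) ^ q * (t : ℤ) ^ q')
  s1 : 1 ≤ s
  t1 : 1 ≤ t
  h1 : 1 ≤ h
  st : Nat.Coprime s t
  th : Nat.Coprime t h
  al_r : ∀ p : ℕ, p.Prime → (p : ℤ) ∣ al → p ∣ r
  be_r : ∀ p : ℕ, p.Prime → (p : ℤ) ∣ be → p ∣ r
  ga_r : ∀ p : ℕ, p.Prime → (p : ℤ) ∣ ga → p ∣ r
  de_r : ∀ p : ℕ, p.Prime → (p : ℤ) ∣ de → p ∣ r
  h_r : ∀ p : ℕ, p.Prime → p ∣ h → p ∣ r
  hal : ∀ p : ℕ, p.Prime → p ∣ h → ¬ (p : ℤ) ∣ al
  hsq : Squarefree h
  hk : (h : ℤ) ∣ x k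
  hl : (h : ℤ) ∣ x l

theorem dat_of {i j k l : Fin 4} (hd : Dist4 i j k l) {e q q' : ℕ} (he : 1 ≤ e) (hq : 1 ≤ q) (hq' : 1 ≤ q')
    {x : Fin 4 → ℤ} (hx : Adm x) : ∃ al be ga de : ℤ,
    Dat i j k l e q q' x (sp (fun v => v i = e ∧ v l = q) x) (sp (fun v => v j = e ∧ v l = q') x)
      (sp (fun v => ¬ (v i = e ∧ v l = q) ∧ ¬ (v j = e ∧ v l = q')) x)
      (sp (fun v => v k ≠ 0 ∧ v l ≠ 0) x) al be ga de := by
  obtain ⟨hij, hik, hil, hjk, hjl, hkl⟩ := hd
  set s := sp (fun v => v i = e ∧ v l = q) x with hs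
  set t := sp (fun v => v j = e ∧ v l = q') x with ht
  set r := sp (fun v => ¬ (v i = e ∧ v l = q) ∧ ¬ (v j = e ∧ v l = q')) x with hr
  set h := sp (fun v => v k ≠ 0 ∧ v l ≠ 0) x with hh
  have Ds : ∀ p : ℕ, p.Prime → p ∣ s → vl x p i = e ∧ vl x p l = q := fun p hp h => ((dvd_sp hp).1 h).2
  have Dt : ∀ p : ℕ, p.Prime → p ∣ t → vl x p j = e ∧ vl x p l = q' := fun p hp h => ((dvd_sp hp).1 h).2
  have Dh : ∀ p : ℕ, p.Prime → p ∣ h → vl x p k ≠ 0 ∧ vl x p l ≠ 0 := fun p hp h => ((dvd_sp hp).1 h).2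
  have si : ∀ p : ℕ, p.Prime → p ∣ s → (p : ℤ) ∣ x i := fun p hp h => (vl_ne hx hp).1 (by rw [(Ds p hp h).1]; omega)
  have sl : ∀ p : ℕ, p.Prime → p ∣ s → (p : ℤ) ∣ x l := fun p hp h => (vl_ne hx hp).1 (by rw [(Ds p hp h).2]; omega)
  have tj : ∀ p : ℕ, p.Prime → p ∣ t → (p : ℤ) ∣ x j := fun p hp h => (vl_ne hx hp).1 (by rw [(Dt p hp h).1]; omega)
  have tl : ∀ p : ℕ, p.Prime → p ∣ t → (p : ℤ) ∣ x l := fun p hp h => (vl_ne hx hp).1 (by rw [(Dt p hp h).2]; omega)
  have hk : ∀ p : ℕ, p.Prime → p ∣ h → (p : ℤ) ∣ x k := fun p hp h => (vl_ne hx hp).1 (Dh p hp h).1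
  have hl : ∀ p : ℕ, p.Prime → p ∣ h → (p : ℤ) ∣ x l := fun p hp h => (vl_ne hx hp).1 (Dh p hp h).2
  have Dr : ∀ p : ℕ, p.Prime → ∀ m : Fin 4, (p : ℤ) ∣ x m → ¬ p ∣ s → ¬ p ∣ t → p ∣ r := by
    intro p hp m hm h1 h2
    refine (dvd_sp hp).2 ⟨PP_of hx hp hm, fun h => h1 ((dvd_sp hp).2 ⟨PP_of hx hp hm, h⟩),
      fun h => h2 ((dvd_sp hp).2 ⟨PP_of hx hp hm, h⟩)⟩
  -- coprimality
  have n1 : ∀ p : ℕ, p.Prime → (p : ℤ) ∣ x i → (p : ℤ) ∣ x j → (p : ℤ) ∣ x l → False := fun p hp a b c =>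
    no3 hx (a := i) (b := j) (c := l) (d := k) ⟨hij, hil, hik, hjl, hjk, hkl.symm⟩ hp a b c
  have n2 : ∀ p : ℕ, p.Prime → (p : ℤ) ∣ x i → (p : ℤ) ∣ x k → (p : ℤ) ∣ x l → False := fun p hp a b c =>
    no3 hx (a := i) (b := k) (c := l) (d := j) ⟨hik, hil, hij, hkl, hjk.symm, hjl.symm⟩ hp a b c
  have n3 : ∀ p : ℕ, p.Prime → (p : ℤ) ∣ x j → (p : ℤ) ∣ x k → (p : ℤ) ∣ x l → False := fun p hp a b c =>
    no3 hx (a := j) (b := k) (c := l) (d := i) ⟨hjk, hjl, hij.symm, hkl, hik.symm, hil.symm⟩ hp a b c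
  have hst : Nat.Coprime s t := Nat.Coprime.symm (Nat.coprime_of_dvd fun p hp h1 h2 =>
    n1 p hp (si p hp h2) (tj p hp h1) (sl p hp h2))
  have hth : Nat.Coprime t h := Nat.coprime_of_dvd fun p hp h1 h2 =>
    n3 p hp (tj p hp h1) (hk p hp h2) (hl p hp h2)
  obtain ⟨al, hal⟩ : (s : ℤ) ^ e ∣ x i := sqf_pow_dvd e (sp_sqf _ x) (hx.ne i) fun p hp h =>
    le_of_eq (Ds p hp h).1.symm
  obtain ⟨be, hbe⟩ : (t : ℤ) ^ e ∣ x j := sqf_pow_dvd e (sp_sqf _ x) (hx.ne j) fun p hp h =>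
    le_of_eq (Dt p hp h).1.symm
  have h1 : (s : ℤ) ^ q ∣ x l := sqf_pow_dvd q (sp_sqf _ x) (hx.ne l) fun p hp h =>
    le_of_eq (Ds p hp h).2.symm
  have h2 : (t : ℤ) ^ q' ∣ x l := sqf_pow_dvd q' (sp_sqf _ x) (hx.ne l) fun p hp h =>
    le_of_eq (Dt p hp h).2.symm
  have h3 : IsCoprime ((s : ℤ) ^ q) ((t : ℤ) ^ q') := IsCoprime.pow (Nat.isCoprime_iff_coprime.2 hst)
  obtain ⟨de, hde⟩ := h3.mul_dvd h1 h2
  refine ⟨al, be, x k, de, ⟨by rw [hal]; ring, by rw [hbe]; ring, rfl, by rw [hde]; ring, sp_pos _ _, sp_pos _ _,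
    sp_pos _ _, hst, hth, ?_, ?_, ?_, ?_, ?_, ?_, sp_sqf _ _, ?_, ?_⟩⟩
  · intro p hp hpa
    have hpi : (p : ℤ) ∣ x i := by rw [hal]; exact Dvd.dvd.mul_left hpa _
    refine Dr p hp i hpi ?_ ?_
    · intro hps
      have := cof (hx.ne i) (show x i = al * (s : ℤ) ^ e * 1 by rw [hal]; ring) hp hps hpa
      have h4 : (x i).natAbs.factorization p = e := (Ds p hp hps).1
      omega
    · intro hpt
      exact n1 p hp hpi (tj p hp hpt) (tl p hp hpt)
  · intro p hp hpa
    have hpj : (p : ℤ) ∣ x j := by rw [hbe]; exact Dvd.dvd.mul_left hpa _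
    refine Dr p hp j hpj ?_ ?_
    · intro hps
      exact n1 p hp (si p hp hps) hpj (sl p hp hps)
    · intro hpt
      have := cof (hx.ne j) (show x j = be * (t : ℤ) ^ e * 1 by rw [hbe]; ring) hp hpt hpa
      have h4 : (x j).natAbs.factorization p = e := (Dt p hp hpt).1
      omega
  · intro p hp hpa
    exact Dr p hp k hpa (fun hps => n2 p hp (si p hp hps) hpa (sl p hp hps))
      (fun hpt => n3 p hp (tj p hp hpt) hpa (tl p hp hpt))
  · intro p hp hpa
    have hpl : (p : ℤ) ∣ x l := by rw [hde]; exact Dvd.dvd.mul_left hpa _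
    refine Dr p hp l hpl ?_ ?_
    · intro hps
      have := cof (hx.ne l) (show x l = de * (s : ℤ) ^ q * (t : ℤ) ^ q' by rw [hde]; ring) hp hps hpa
      have h4 : (x l).natAbs.factorization p = q := (Ds p hp hps).2
      omega
    · intro hpt
      have := cof (hx.ne l) (show x l = de * (t : ℤ) ^ q' * (s : ℤ) ^ q by rw [hde]; ring) hp hpt hpa
      have h4 : (x l).natAbs.factorization p = q' := (Dt p hp hpt).2
      omega
  · intro p hp hph
    exact Dr p hp k (hk p hp hph) (fun hps => n2 p hp (si p hp hps) (hk p hp hph) (sl p hp hps))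
      (fun hpt => n3 p hp (tj p hp hpt) (hk p hp hph) (tl p hp hpt))
  · intro p hp hph hpa
    have hpi : (p : ℤ) ∣ x i := by rw [hal]; exact Dvd.dvd.mul_left hpa _
    exact n2 p hp hpi (hk p hp hph) (hl p hp hph)
  · have := sqf_pow_dvd 1 (sp_sqf (fun v => v k ≠ 0 ∧ v l ≠ 0) x) (hx.ne k) fun p hp h =>
      Nat.pos_of_ne_zero (Dh p hp h).1
    simpa using this
  · have := sqf_pow_dvd 1 (sp_sqf (fun v => v k ≠ 0 ∧ v l ≠ 0) x) (hx.ne l) fun p hp h =>
      Nat.pos_of_ne_zero (Dh p hp h).2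
    simpa using this

theorem thue {h : ℕ} (hh : 1 ≤ h) (s0 t0 : ℤ) : ∃ a b : ℤ, (a ≠ 0 ∨ b ≠ 0) ∧ |a| ≤ Nat.sqrt h ∧
    |b| ≤ Nat.sqrt h ∧ (h : ℤ) ∣ a * t0 - b * s0 := by
  set n := Nat.sqrt h with hn
  have h1 : h < (n + 1) * (n + 1) := by
    have := Nat.lt_succ_sqrt h
    simpa [Nat.succ_eq_add_one] using this
  have hc : (Finset.Ico (0 : ℤ) h).card < (Finset.range (n + 1) ×ˢ Finset.range (n + 1)).card := by
    simp [Finset.card_product]
    exact h1
  have hpos : (0 : ℤ) < h := by exact_mod_cast hh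
  obtain ⟨P, hP, Q, hQ, hPQ, hf⟩ := Finset.exists_ne_map_eq_of_card_lt_of_maps_to hc
    (f := fun P : ℕ × ℕ => ((P.1 : ℤ) * t0 - (P.2 : ℤ) * s0) % h)
    (fun P _ => by
      simp only [Finset.coe_Ico, Set.mem_Ico]
      exact ⟨Int.emod_nonneg _ hpos.ne', Int.emod_lt_of_pos _ hpos⟩)
  simp only [Finset.mem_product, Finset.mem_range] at hP hQ
  refine ⟨(P.1 : ℤ) - Q.1, (P.2 : ℤ) - Q.2, ?_, ?_, ?_, ?_⟩
  · by_contra hcon
    push Not at hcon
    apply hPQ
    apply Prod.ext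
    · have := hcon.1; omega
    · have := hcon.2; omega
  · rw [abs_le]; constructor <;> omega
  · rw [abs_le]; constructor <;> omega
  · have h2 : (h : ℤ) ∣ ((P.1 : ℤ) * t0 - (P.2 : ℤ) * s0) - ((Q.1 : ℤ) * t0 - (Q.2 : ℤ) * s0) :=
      Int.ModEq.dvd (show ((Q.1 : ℤ) * t0 - (Q.2 : ℤ) * s0) ≡ ((P.1 : ℤ) * t0 - (P.2 : ℤ) * s0) [ZMOD h] from hf.symm)
    have h3 : ((P.1 : ℤ) - Q.1) * t0 - ((P.2 : ℤ) - Q.2) * s0 =
      ((P.1 : ℤ) * t0 - (P.2 : ℤ) * s0) - ((Q.1 : ℤ) * t0 - (Q.2 : ℤ) * s0) := by ring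
    rw [h3]; exact h2

/-- one class -/
theorem cls {h C : ℕ} (hh : 1 ≤ h) {A : ℝ} (hA : 0 ≤ A) (S : Finset (ℕ × ℕ))
    (hC : ∀ a b m : ℤ, (a ≠ 0 ∨ b ≠ 0) → (S.filter (fun P => a * P.2 - b * P.1 = m)).card ≤ C)
    (h1 : ∀ P ∈ S, Nat.Coprime P.2 h ∧ (P.1 : ℝ) ≤ A ∧ (P.2 : ℝ) ≤ A)
    (h2 : ∀ P ∈ S, ∀ P' ∈ S, (h : ℤ) ∣ (P.1 : ℤ) * P'.2 - (P'.1 : ℤ) * P.2) :
    (S.card : ℝ) ≤ C * (1 + 4 * (A / Real.sqrt h)) := by
  classical
  rcases S.eq_empty_or_nonempty with rfl | ⟨P0, hP0⟩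
  · simp only [Finset.card_empty, Nat.cast_zero]
    positivity
  obtain ⟨a, b, hab, ha, hb, hd⟩ := thue hh (P0.1 : ℤ) (P0.2 : ℤ)
  set n := Nat.sqrt h with hn
  set K : ℕ := ⌊2 * n * A / h⌋₊ with hK
  have hhR : (0 : ℝ) < h := by exact_mod_cast hh
  have key : ∀ P ∈ S, ∃ z : ℤ, z ∈ Finset.Icc (-(K : ℤ)) K ∧ a * P.2 - b * P.1 = h * z := by
    intro P hP
    have hdv : (h : ℤ) ∣ (P0.2 : ℤ) * (a * P.2 - b * P.1) := by
      have e1 : (P0.2 : ℤ) * (a * P.2 - b * P.1) = P.2 * (a * P0.2 - b * P0.1)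
          + b * ((P0.1 : ℤ) * P.2 - (P.1 : ℤ) * P0.2) := by ring
      rw [e1]
      exact dvd_add (Dvd.dvd.mul_left hd _) (Dvd.dvd.mul_left (h2 P0 hP0 P hP) _)
    have hco : IsCoprime (h : ℤ) (P0.2 : ℤ) := (Nat.isCoprime_iff_coprime.2 (h1 P0 hP0).1).symm
    obtain ⟨z, hz⟩ := hco.dvd_of_dvd_mul_left hdv
    refine ⟨z, ?_, hz⟩
    have e2 : |(z : ℝ)| * h ≤ 2 * n * A := by
      have e3 : (h : ℝ) * z = a * P.2 - b * P.1 := by exact_mod_cast hz.symm
      have ha' : |(a : ℝ)| ≤ n := by exact_mod_cast ha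
      have hb' : |(b : ℝ)| ≤ n := by exact_mod_cast hb
      calc |(z : ℝ)| * h = |(h : ℝ) * z| := by rw [abs_mul, abs_of_pos hhR]; ring
        _ = |(a : ℝ) * P.2 - b * P.1| := by rw [e3]
        _ ≤ |(a : ℝ) * P.2| + |(b : ℝ) * P.1| := abs_sub _ _
        _ ≤ n * A + n * A := by
          rw [abs_mul, abs_mul, Nat.abs_cast, Nat.abs_cast]
          have u1 := (h1 P hP).2.1
          have u2 := (h1 P hP).2.2
          gcongr
        _ = 2 * n * A := by ring
    have e4 : (z.natAbs : ℝ) ≤ 2 * n * A / h := by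
      rw [le_div_iff₀ hhR, Nat.cast_natAbs]
      push_cast
      exact e2
    have e5 : z.natAbs ≤ K := Nat.le_floor e4
    rw [Finset.mem_Icc]
    constructor <;> omega
  have hcard : S.card ≤ C * ((Finset.Icc (-(K : ℤ)) K).image (fun z => (h : ℤ) * z)).card := by
    have := Finset.card_le_mul_card_image_of_maps_to
      (s := S) (t := (Finset.Icc (-(K : ℤ)) K).image (fun z => (h : ℤ) * z))
      (f := fun P : ℕ × ℕ => a * (P.2 : ℤ) - b * (P.1 : ℤ)) (fun P hP => by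
        obtain ⟨z, hz, hz'⟩ := key P hP
        exact Finset.mem_image.2 ⟨z, hz, hz'.symm⟩) C (fun m _ => hC a b m hab)
    exact this
  have hcard2 : ((Finset.Icc (-(K : ℤ)) K).image (fun z => (h : ℤ) * z)).card ≤ 2 * K + 1 := by
    refine le_trans Finset.card_image_le ?_
    rw [Int.card_Icc]
    omega
  have hKr : (K : ℝ) ≤ 2 * (A / Real.sqrt h) := by
    have e6 : (K : ℝ) ≤ 2 * n * A / h := Nat.floor_le (by positivity)
    have e7 : (n : ℝ) ≤ Real.sqrt h := Real.nat_sqrt_le_real_sqrt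
    have e8 : 2 * (n : ℝ) * A / h ≤ 2 * Real.sqrt h * A / h := by gcongr
    have e9 : 2 * Real.sqrt h * A / h = 2 * (A / Real.sqrt h) := by
      have hs : Real.sqrt h ≠ 0 := (Real.sqrt_pos.2 hhR).ne'
      have hs2 : Real.sqrt h * Real.sqrt h = h := Real.mul_self_sqrt hhR.le
      field_simp
      nlinarith [hs2]
    linarith
  calc (S.card : ℝ) ≤ ((C * (2 * K + 1) : ℕ) : ℝ) := by
        exact_mod_cast hcard.trans (Nat.mul_le_mul_left _ hcard2)
    _ = C * (1 + 2 * K) := by push_cast; ring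
    _ ≤ C * (1 + 4 * (A / Real.sqrt h)) := by
      have : (0 : ℝ) ≤ C := by positivity
      have h5 : 1 + 2 * (K : ℝ) ≤ 1 + 4 * (A / Real.sqrt h) := by linarith
      exact mul_le_mul_of_nonneg_left h5 this

theorem cls_all {h C e : ℕ} (hh : 1 ≤ h) (he : 1 ≤ e) (hsq : Squarefree h) {A : ℝ} (hA : 0 ≤ A) (al be : ℤ) (S : Finset (ℕ × ℕ))
    (hal : ∀ p : ℕ, p.Prime → p ∣ h → ¬ (p : ℤ) ∣ al)
    (hC : ∀ a b m : ℤ, (a ≠ 0 ∨ b ≠ 0) → (S.filter (fun P => a * P.2 - b * P.1 = m)).card ≤ C)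
    (h1 : ∀ P ∈ S, Nat.Coprime P.2 h ∧ (P.1 : ℝ) ≤ A ∧ (P.2 : ℝ) ≤ A)
    (h2 : ∀ P ∈ S, (h : ℤ) ∣ al * (P.1 : ℤ) ^ e + be * (P.2 : ℤ) ^ e) :
    (S.card : ℝ) ≤ (e : ℝ) ^ h.primeFactors.card * (C * (1 + 4 * (A / Real.sqrt h))) := by
  classical
  set f : ℕ × ℕ → (∀ p ∈ h.primeFactors, ZMod p) := fun P p _ => (P.1 : ZMod p) * (P.2 : ZMod p)⁻¹ with hf
  set T : Finset (∀ p ∈ h.primeFactors, ZMod p) := S.image f with hT
  have hTc : T.card ≤ e ^ h.primeFactors.card := by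
    have hR : ∀ p, ∀ hpm : p ∈ h.primeFactors, ∃ R : Finset (ZMod p), R.card ≤ e ∧ ∀ P ∈ S, f P p hpm ∈ R := by
      intro p hpm
      have hp := Nat.prime_of_mem_primeFactors hpm
      have hph := Nat.dvd_of_mem_primeFactors hpm
      have : Fact p.Prime := ⟨hp⟩
      have hal' : (al : ZMod p) ≠ 0 := by
        intro h0
        rw [ZMod.intCast_zmod_eq_zero_iff_dvd] at h0
        exact hal p hp hph h0
      refine ⟨(Polynomial.nthRoots e (-(be : ZMod p) / (al : ZMod p))).toFinset,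
        (Multiset.toFinset_card_le _).trans (Polynomial.card_nthRoots e _), ?_⟩
      intro P hP
      rw [Multiset.mem_toFinset, Polynomial.mem_nthRoots (by omega)]
      have c1 : (P.2 : ZMod p) ≠ 0 := by
        intro h0
        rw [ZMod.natCast_eq_zero_iff] at h0
        exact Nat.not_coprime_of_dvd_of_dvd hp.one_lt h0 hph (h1 P hP).1
      have c3 : (al : ZMod p) * (P.1 : ZMod p) ^ e + (be : ZMod p) * (P.2 : ZMod p) ^ e = 0 := by
        have : (p : ℤ) ∣ al * (P.1 : ℤ) ^ e + be * (P.2 : ℤ) ^ e :=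
          dvd_trans (Int.natCast_dvd_natCast.2 hph) (h2 P hP)
        rw [← ZMod.intCast_zmod_eq_zero_iff_dvd] at this
        push_cast at this
        exact this
      show ((P.1 : ZMod p) * (P.2 : ZMod p)⁻¹) ^ e = _
      rw [mul_pow, inv_pow, eq_div_iff hal', ← div_eq_mul_inv, div_mul_eq_mul_div, div_eq_iff (pow_ne_zero _ c1)]
      linear_combination c3
    choose R hRc hRm using hR
    have hsub : T ⊆ Finset.pi h.primeFactors (fun p => if hp : p ∈ h.primeFactors then R p hp else ∅) := by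
      intro y hy
      obtain ⟨P, hP, rfl⟩ := Finset.mem_image.1 hy
      rw [Finset.mem_pi]
      intro p hp
      rw [dif_pos hp]
      exact hRm p hp P hP
    refine le_trans (Finset.card_le_card hsub) ?_
    rw [Finset.card_pi]
    refine Finset.prod_le_pow_card _ _ _ fun p hp => ?_
    rw [dif_pos hp]
    exact hRc p hp
  have hfib : ∀ y ∈ T, ((S.filter (fun P => f P = y)).card : ℝ) ≤ C * (1 + 4 * (A / Real.sqrt h)) := by
    intro y _
    refine cls hh hA _ ?_ ?_ ?_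
    · intro a b m hab
      refine le_trans (Finset.card_le_card ?_) (hC a b m hab)
      intro P hP
      rw [Finset.mem_filter, Finset.mem_filter] at hP
      exact Finset.mem_filter.2 ⟨hP.1.1, hP.2⟩
    · intro P hP
      exact h1 P (Finset.mem_filter.1 hP).1
    · intro P hP P' hP'
      rw [Finset.mem_filter] at hP hP'
      have hff : f P = f P' := hP.2.trans hP'.2.symm
      by_cases h0 : (P.1 : ℤ) * P'.2 - (P'.1 : ℤ) * P.2 = 0
      · rw [h0]; exact dvd_zero _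
      have := sqf_pow_dvd 1 hsq h0 fun p hp hph => by
        have hpm : p ∈ h.primeFactors := Nat.mem_primeFactors.2 ⟨hp, hph, by omega⟩
        have h3 : (P.1 : ZMod p) * (P.2 : ZMod p)⁻¹ = (P'.1 : ZMod p) * (P'.2 : ZMod p)⁻¹ :=
          congrFun (congrFun hff p) hpm
        have : Fact p.Prime := ⟨hp⟩
        have c1 : (P.2 : ZMod p) ≠ 0 := by
          intro h0
          rw [ZMod.natCast_eq_zero_iff] at h0
          exact Nat.not_coprime_of_dvd_of_dvd hp.one_lt h0 hph (h1 P hP.1).1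
        have c2 : (P'.2 : ZMod p) ≠ 0 := by
          intro h0
          rw [ZMod.natCast_eq_zero_iff] at h0
          exact Nat.not_coprime_of_dvd_of_dvd hp.one_lt h0 hph (h1 P' hP'.1).1
        have h4 : (P.1 : ZMod p) * P'.2 = P'.1 * P.2 := by
          field_simp at h3
          linear_combination h3
        have h5 : (p : ℤ) ∣ (P.1 : ℤ) * P'.2 - (P'.1 : ℤ) * P.2 := by
          rw [← ZMod.intCast_zmod_eq_zero_iff_dvd]
          push_cast
          rw [h4, sub_self]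
        rw [← hp.dvd_iff_one_le_factorization (Int.natAbs_ne_zero.2 h0)]
        exact Int.natCast_dvd.1 h5
      simpa using this
  have h6 : (S.card : ℝ) = ∑ y ∈ T, ((S.filter (fun P => f P = y)).card : ℝ) := by
    have := Finset.card_eq_sum_card_fiberwise (s := S) (t := T) (f := f)
      (fun P hP => Finset.mem_coe.2 (Finset.mem_image_of_mem f hP))
    exact_mod_cast this
  rw [h6]
  calc ∑ y ∈ T, ((S.filter (fun P => f P = y)).card : ℝ) ≤ ∑ _y ∈ T, (C * (1 + 4 * (A / Real.sqrt h))) :=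
        Finset.sum_le_sum hfib
    _ = T.card * (C * (1 + 4 * (A / Real.sqrt h))) := by rw [Finset.sum_const, nsmul_eq_mul]
    _ ≤ _ := by
      have : (T.card : ℝ) ≤ (e : ℝ) ^ h.primeFactors.card := by exact_mod_cast hTc
      gcongr

theorem pow_omega (hCN : S_CN) (e : ℕ) (he : 1 ≤ e) (ε : ℝ) (hε : 0 < ε) : ∃ D : ℝ, 0 < D ∧
    ∀ (L : ℝ) (h : ℕ), 0 ≤ L → 1 ≤ h → (h : ℝ) ≤ Real.exp L →
      (e : ℝ) ^ h.primeFactors.card ≤ D * Real.exp (ε * L) := by
  classical
  have heR : (0 : ℝ) < e := by exact_mod_cast he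
  obtain ⟨D, hD, H⟩ := hCN (ε / e) (by positivity)
  refine ⟨D ^ e, by positivity, fun L h hL h1 hh => ?_⟩
  have hc := H L h (h.divisors.image (fun d : ℕ => (d : ℤ))) hL (by omega) (by
      have : Real.exp L ≤ Real.exp (9 * L) := Real.exp_le_exp.2 (by linarith)
      have h2 := Real.exp_pos (9 * L)
      linarith) (by
      intro a ha
      obtain ⟨d, hd, rfl⟩ := Finset.mem_image.1 ha
      have hd' := Nat.dvd_of_mem_divisors hd
      have hd0 : d ≠ 0 := (Nat.pos_of_mem_divisors hd).ne'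
      refine ⟨by exact_mod_cast hd0, ?_, fun p _ hpd => ?_⟩
      · have : (d : ℝ) ≤ h := by exact_mod_cast Nat.le_of_dvd (by omega) hd'
        push_cast
        rw [abs_of_nonneg (by positivity)]
        linarith
      · exact dvd_trans (Int.natCast_dvd_natCast.1 hpd) hd')
  rw [Finset.card_image_of_injective _ Nat.cast_injective] at hc
  have h2 : 2 ^ h.primeFactors.card ≤ h.divisors.card := by
    rw [Nat.card_divisors (by omega), ← Finset.prod_const]
    refine Finset.prod_le_prod' fun p hp => ?_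
    have := (Nat.prime_of_mem_primeFactors hp).factorization_pos_of_dvd (by omega : h ≠ 0)
      (Nat.dvd_of_mem_primeFactors hp)
    omega
  have h3 : (2 : ℝ) ^ h.primeFactors.card ≤ D * Real.exp (ε / e * L) := by
    have : ((2 ^ h.primeFactors.card : ℕ) : ℝ) ≤ (h.divisors.card : ℝ) := by exact_mod_cast h2
    push_cast at this
    linarith
  have h4 : (e : ℝ) ≤ 2 ^ e := by exact_mod_cast (Nat.lt_two_pow_self (n := e)).le
  calc (e : ℝ) ^ h.primeFactors.card ≤ ((2 : ℝ) ^ e) ^ h.primeFactors.card := by gcongr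
    _ = ((2 : ℝ) ^ h.primeFactors.card) ^ e := by rw [← pow_mul, ← pow_mul, mul_comm]
    _ ≤ (D * Real.exp (ε / e * L)) ^ e := by gcongr
    _ = D ^ e * Real.exp (ε * L) := by
      rw [mul_pow, ← Real.exp_nat_mul]
      congr 2
      field_simp

theorem int_le {a b : ℤ} {X : ℝ} (h : a ∣ b) (hb : b ≠ 0) (hX : |(b : ℝ)| ≤ X) : |(a : ℝ)| ≤ X := by
  have h1 : |a| ≤ |b| := Int.le_of_dvd (abs_pos.2 hb) ((abs_dvd_abs _ _).2 h)
  have h2 : ((|a| : ℤ) : ℝ) ≤ ((|b| : ℤ) : ℝ) := by exact_mod_cast h1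
  push_cast at h2
  linarith

theorem main (hCN : S_CN) (hATL : S_ATL) : S_AT := by
  classical
  intro i j k l hd e q q' he hq hq' heq heq' ε hε
  obtain ⟨D, hD, HCN⟩ := hCN (ε / 6) (by positivity)
  obtain ⟨D2, hD2, HOM⟩ := pow_omega hCN e he (ε / 6) (by positivity)
  set C : ℕ := e + q + q' with hC
  have hC1 : (1 : ℝ) ≤ C := by rw [hC]; exact_mod_cast (by omega : 1 ≤ e + q + q')
  refine ⟨4 * C * D ^ 5 * D2, by positivity, ?_⟩
  intro L c a w E hL ha hE hdeg hr hs ht hw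
  have hex : ∀ x : Fin 4 → ℤ, ∃ al be ga de : ℤ, Adm x →
    Dat i j k l e q q' x (sp (fun v => v i = e ∧ v l = q) x) (sp (fun v => v j = e ∧ v l = q') x)
      (sp (fun v => ¬ (v i = e ∧ v l = q) ∧ ¬ (v j = e ∧ v l = q')) x)
      (sp (fun v => v k ≠ 0 ∧ v l ≠ 0) x) al be ga de := by
    intro x
    by_cases hx : Adm x
    · obtain ⟨al, be, ga, de, h⟩ := dat_of hd he hq hq' hx
      exact ⟨al, be, ga, de, fun _ => h⟩
    · exact ⟨0, 0, 0, 0, fun h => absurd h hx⟩
  choose al be ga de hDat using hex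
  set ss := fun x : Fin 4 → ℤ => sp (fun v => v i = e ∧ v l = q) x with hss
  set tt := fun x : Fin 4 → ℤ => sp (fun v => v j = e ∧ v l = q') x with htt
  set rr := fun x : Fin 4 → ℤ => sp (fun v => ¬ (v i = e ∧ v l = q) ∧ ¬ (v j = e ∧ v l = q')) x with hrr
  set hh := fun x : Fin 4 → ℤ => sp (fun v => v k ≠ 0 ∧ v l ≠ 0) x with hhh
  have Dt : ∀ x, Adm x → Dat i j k l e q q' x (ss x) (tt x) (rr x) (hh x) (al x) (be x) (ga x) (de x) := hDat
  set κ : (Fin 4 → ℤ) → ℕ × ℤ × ℤ × ℤ × ℤ × ℤ := fun x => (rr x, al x, be x, ga x, de x, (hh x : ℤ)) with hκ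
  set A : ℕ → Finset ℤ := fun r => (Finset.Icc (-(⌊Real.exp L⌋₊ : ℤ)) ⌊Real.exp L⌋₊).filter
    (fun z => z ≠ 0 ∧ |(z : ℝ)| ≤ Real.exp L ∧ ∀ p : ℕ, p.Prime → (p : ℤ) ∣ z → p ∣ r) with hA
  have memA : ∀ (r : ℕ) (z : ℤ), z ≠ 0 → |(z : ℝ)| ≤ Real.exp L → (∀ p : ℕ, p.Prime → (p : ℤ) ∣ z → p ∣ r) →
      z ∈ A r := by
    intro r z h1 h2 h3
    rw [hA]
    refine Finset.mem_filter.2 ⟨?_, h1, h2, h3⟩
    have : z.natAbs ≤ ⌊Real.exp L⌋₊ := Nat.le_floor (by
      rw [Nat.cast_natAbs]; push_cast; exact h2)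
    rw [Finset.mem_Icc]; constructor <;> omega
  have cardA : ∀ x ∈ E, ((A (rr x)).card : ℝ) ≤ D * Real.exp (ε / 6 * L) := by
    intro x hx
    refine HCN L (rr x) (A (rr x)) hL (by have := sp_pos (fun v => ¬ (v i = e ∧ v l = q) ∧ ¬ (v j = e ∧ v l = q')) x
                                          show sp _ x ≠ 0; omega) ?_ ?_
    · have h1 : (rr x : ℝ) ≤ Real.exp (4 * L) := r_le (hE x hx).1 _ (hE x hx).2
      have h2 : Real.exp (4 * L) ≤ Real.exp (9 * L) := Real.exp_le_exp.2 (by linarith)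
      have h3 := Real.exp_pos (9 * L)
      linarith
    · intro z hz
      exact (Finset.mem_filter.1 hz).2
  -- the number of keys
  have hK : ((E.image κ).card : ℝ) ≤ Real.exp c * (D * Real.exp (ε / 6 * L)) ^ 5 := by
    have hsub : E.image κ ⊆ (E.image rr).biUnion
        (fun r => ({r} : Finset ℕ) ×ˢ A r ×ˢ A r ×ˢ A r ×ˢ A r ×ˢ A r) := by
      intro y hy
      obtain ⟨x, hx, rfl⟩ := Finset.mem_image.1 hy
      have hxA := (hE x hx).1
      have d := Dt x hxA
      have hb := (hE x hx).2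
      rw [Finset.mem_biUnion]
      refine ⟨rr x, Finset.mem_image_of_mem _ hx, ?_⟩
      have i0 : al x ≠ 0 := by intro h; apply hxA.ne i; rw [d.xi, h]; ring
      have j0 : be x ≠ 0 := by intro h; apply hxA.ne j; rw [d.xj, h]; ring
      have k0 : ga x ≠ 0 := by intro h; apply hxA.ne k; rw [d.xk, h]
      have l0 : de x ≠ 0 := by intro h; apply hxA.ne l; rw [d.xl, h]; ring
      have h0 : (hh x : ℤ) ≠ 0 := by have := d.h1; omega
      simp only [hκ, Finset.mem_product, Finset.mem_singleton, true_and]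
      refine ⟨memA _ _ i0 (int_le ⟨_, d.xi⟩ (hxA.ne i) (hb i)) d.al_r,
        memA _ _ j0 (int_le ⟨_, d.xj⟩ (hxA.ne j) (hb j)) d.be_r,
        memA _ _ k0 (int_le ⟨1, by rw [d.xk]; ring⟩ (hxA.ne k) (hb k)) d.ga_r,
        memA _ _ l0 (int_le ⟨_, d.xl⟩ (hxA.ne l) (hb l)) d.de_r,
        memA _ _ h0 (int_le d.hk (hxA.ne k) (hb k)) fun p hp hpd => d.h_r p hp (Int.natCast_dvd_natCast.1 hpd)⟩
    have hc1 : ((E.image κ).card : ℝ) ≤ ∑ r ∈ E.image rr, ((A r).card : ℝ) ^ 5 := by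
      refine le_trans (Nat.cast_le.2 ((Finset.card_le_card hsub).trans Finset.card_biUnion_le)) ?_
      push_cast
      refine Finset.sum_le_sum fun r _ => ?_
      simp only [Finset.card_product, Finset.card_singleton]
      push_cast
      apply le_of_eq; ring
    have hc2 : ∑ r ∈ E.image rr, ((A r).card : ℝ) ^ 5 ≤ ∑ _r ∈ E.image rr, (D * Real.exp (ε / 6 * L)) ^ 5 := by
      refine Finset.sum_le_sum fun r hr' => ?_
      obtain ⟨x, hx, rfl⟩ := Finset.mem_image.1 hr'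
      have := cardA x hx
      gcongr
    rw [Finset.sum_const, nsmul_eq_mul] at hc2
    have hc3 : ((E.image rr).card : ℝ) ≤ Real.exp c := by
      have h1 : E.image rr ⊆ Finset.Icc 1 ⌊Real.exp c⌋₊ := by
        intro r hr'
        obtain ⟨x, hx, rfl⟩ := Finset.mem_image.1 hr'
        have h1 := sp_pos (fun v => ¬ (v i = e ∧ v l = q) ∧ ¬ (v j = e ∧ v l = q')) x
        rw [Finset.mem_Icc]
        refine ⟨h1, Nat.le_floor ?_⟩
        have h2 := hr x hx
        rw [R_eq] at h2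
        rw [← Real.log_le_iff_le_exp (by exact_mod_cast h1)]
        exact h2
      have h2 := Finset.card_le_card h1
      rw [Nat.card_Icc] at h2
      have h3 : ((E.image rr).card : ℝ) ≤ ⌊Real.exp c⌋₊ := by exact_mod_cast (by omega : (E.image rr).card ≤ ⌊Real.exp c⌋₊)
      exact h3.trans (Nat.floor_le (Real.exp_pos c).le)
    have h5 : (0 : ℝ) ≤ (D * Real.exp (ε / 6 * L)) ^ 5 := by positivity
    nlinarith [mul_le_mul_of_nonneg_right hc3 h5]
  -- the fibres
  set M : ℝ := D2 * Real.exp (ε / 6 * L) * (C * (1 + 4 * Real.exp (a - w / 2))) with hM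
  have hF : ∀ y ∈ E.image κ, ((E.filter (fun x => κ x = y)).card : ℝ) ≤ M := by
    intro y hy
    obtain ⟨x0, hx0, rfl⟩ := Finset.mem_image.1 hy
    set F := E.filter (fun x => κ x = κ x0) with hFd
    have hx0A := (hE x0 hx0).1
    have d0 := Dt x0 hx0A
    have same : ∀ x ∈ F, Adm x ∧ Dat i j k l e q q' x (ss x) (tt x) (rr x0) (hh x0) (al x0) (be x0) (ga x0) (de x0) ∧
        x ∈ E := by
      intro x hx
      obtain ⟨hxE, hxk⟩ := Finset.mem_filter.1 hx
      have hxA := (hE x hxE).1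
      simp only [hκ, Prod.mk.injEq, Nat.cast_inj] at hxk
      obtain ⟨k1, k2, k3, k4, k5, k6⟩ := hxk
      have d := Dt x hxA
      rw [k1, k2, k3, k4, k5, k6] at d
      exact ⟨hxA, d, hxE⟩
    set S : Finset (ℕ × ℕ) := F.image (fun x => (ss x, tt x)) with hS
    have hcard : F.card = S.card := by
      rw [hS, Finset.card_image_of_injOn]
      intro x hx y hy hxy
      obtain ⟨_, dx, _⟩ := same x hx
      obtain ⟨_, dy, _⟩ := same y hy
      simp only [Prod.mk.injEq] at hxy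
      obtain ⟨e1, e2⟩ := hxy
      funext m
      rcases case4 hd m with h | h | h | h
      · rw [h, dx.xi, dy.xi, e1]
      · rw [h, dx.xj, dy.xj, e2]
      · rw [h, dx.xk, dy.xk]
      · rw [h, dx.xl, dy.xl, e1, e2]
    have hal0 : al x0 ≠ 0 := by intro h; apply hx0A.ne i; rw [d0.xi, h]; ring
    have hbe0 : be x0 ≠ 0 := by intro h; apply hx0A.ne j; rw [d0.xj, h]; ring
    have hga0 : ga x0 ≠ 0 := by intro h; apply hx0A.ne k; rw [d0.xk, h]
    have hde0 : de x0 ≠ 0 := by intro h; apply hx0A.ne l; rw [d0.xl, h]; ring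
    have hlog : ∀ (n : ℕ) (u : ℝ), 1 ≤ n → Real.log n ≤ u → (n : ℝ) ≤ Real.exp u := by
      intro n u hn hu
      rwa [← Real.log_le_iff_le_exp (by exact_mod_cast hn)]
    have hmain := cls_all (h := hh x0) (C := C) (e := e) d0.h1 he d0.hsq (Real.exp_pos a).le (al x0) (be x0) S
      d0.hal (by
        intro a' b' m hab
        rcases (S.filter (fun P => a' * (P.2 : ℤ) - b' * (P.1 : ℤ) = m)).eq_empty_or_nonempty with h0 | ⟨P, hP⟩
        · rw [h0]; simp
        refine hATL e q q' he hq hq' heq heq' (al x0) (be x0) (ga x0) (de x0) a' b' m _ hal0 hbe0 hga0 hde0 hab ?_ ?_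
        · intro P hP
          rw [Finset.mem_filter] at hP
          obtain ⟨hPS, hPm⟩ := hP
          obtain ⟨x, hx, rfl⟩ := Finset.mem_image.1 hPS
          obtain ⟨hxA, d, _⟩ := same x hx
          refine ⟨d.s1, d.t1, d.st, hPm, ?_⟩
          have h1 := hxA.sum
          rw [sum4 hd, d.xi, d.xj, d.xk, d.xl] at h1
          exact h1
        · rintro ⟨hm, g1, g2⟩
          rw [Finset.mem_filter] at hP
          obtain ⟨hPS, hPm⟩ := hP
          obtain ⟨x, hx, rfl⟩ := Finset.mem_image.1 hPS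
          obtain ⟨hxA, d, hxE⟩ := same x hx
          simp only at hPm
          apply hdeg x hxE
          obtain ⟨hij, hik, hil, hjk, hjl, hkl⟩ := hd
          have hb0 : b' ≠ 0 := by
            intro h; rw [h, abs_zero, zero_pow (by omega), mul_zero] at g1
            have : 0 < |al x0| * |m| ^ e := by
              have := abs_pos.2 hal0; have := abs_pos.2 hm; positivity
            omega
          have ha0 : a' ≠ 0 := by
            intro h; rw [h, abs_zero, zero_pow (by omega), mul_zero] at g2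
            have : 0 < |be x0| * |m| ^ e := by
              have := abs_pos.2 hbe0; have := abs_pos.2 hm; positivity
            omega
          have hs0 : (ss x : ℤ) ≠ 0 := by have := d.s1; omega
          have ht0 : (tt x : ℤ) ≠ 0 := by have := d.t1; omega
          have g3 : |al x0| * |a'| ^ e = |be x0| * |b'| ^ e := by
            have h1 : |ga x0| * |m| ^ e ≠ 0 := by
              have := abs_pos.2 hga0; have := abs_pos.2 hm; positivity
            apply mul_right_cancel₀ h1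
            calc |al x0| * |a'| ^ e * (|ga x0| * |m| ^ e) = (|al x0| * |m| ^ e) * (|ga x0| * |a'| ^ e) := by ring
              _ = (|ga x0| * |b'| ^ e) * (|be x0| * |m| ^ e) := by rw [g1, g2]
              _ = _ := by ring
          -- the three numbers
          set u : Fin 4 → ℤ := fun m' => if m' = i then -(b' * ss x) else if m' = j then a' * tt x else -m with hu
          have ui : u i = -(b' * ss x) := by simp [hu]
          have uj : u j = a' * tt x := by simp [hu, hij.symm]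
          have uk : u k = -m := by simp [hu, hik.symm, hjk.symm]
          have hR : ∀ m', m' ≠ l → m' = i ∨ m' = j ∨ m' = k := by
            intro m' hm'
            rcases case4 ⟨hij, hik, hil, hjk, hjl, hkl⟩ m' with h | h | h | h
            · exact Or.inl h
            · exact Or.inr (Or.inl h)
            · exact Or.inr (Or.inr h)
            · exact absurd h hm'
          have pij : |x i| * |u j| ^ e = |x j| * |u i| ^ e := by
            rw [ui, uj, d.xi, d.xj, abs_neg]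
            simp only [abs_mul, abs_pow, mul_pow]
            linear_combination (|(ss x : ℤ)| ^ e * |(tt x : ℤ)| ^ e) * g3
          have pik : |x i| * |u k| ^ e = |x k| * |u i| ^ e := by
            rw [ui, uk, d.xi, d.xk, abs_neg, abs_neg]
            simp only [abs_mul, abs_pow, mul_pow]
            linear_combination (|(ss x : ℤ)| ^ e) * g1
          have pjk : |x j| * |u k| ^ e = |x k| * |u j| ^ e := by
            rw [uj, uk, d.xj, d.xk, abs_neg]
            simp only [abs_mul, abs_pow, mul_pow]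
            linear_combination (|(tt x : ℤ)| ^ e) * g2
          refine ⟨l, e, u, he, ?_, ?_, ?_⟩
          · intro m' hm'
            rcases hR m' hm' with h | h | h
            · rw [h, ui]; exact neg_ne_zero.2 (mul_ne_zero hb0 hs0)
            · rw [h, uj]; exact mul_ne_zero ha0 ht0
            · rw [h, uk]; exact neg_ne_zero.2 hm
          · have : (univ : Finset (Fin 4)).erase l = {i, j, k} := by
              ext m'
              simp only [Finset.mem_erase, Finset.mem_univ, and_true, Finset.mem_insert, Finset.mem_singleton]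
              constructor
              · exact hR m'
              · rintro (h | h | h) <;> rw [h] <;> assumption
            rw [this, Finset.sum_insert (by simp [hij, hik]), Finset.sum_insert (by simp [hjk]),
              Finset.sum_singleton, ui, uj, uk]
            linarith
          · intro m1 m2 h1 h2
            rcases hR m1 h1 with h | h | h <;> rcases hR m2 h2 with h' | h' | h' <;> rw [h, h']
            · exact pij
            · exact pik
            · exact pij.symm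
            · exact pjk
            · exact pik.symm
            · exact pjk.symm) (by
        intro P hP
        obtain ⟨x, hx, rfl⟩ := Finset.mem_image.1 hP
        obtain ⟨hxA, d, hxE⟩ := same x hx
        refine ⟨d.th, hlog _ _ d.s1 ?_, hlog _ _ d.t1 ?_⟩
        · have := hs x hxE
          rwa [R_eq] at this
        · have := ht x hxE
          rwa [R_eq] at this) (by
        intro P hP
        obtain ⟨x, hx, rfl⟩ := Finset.mem_image.1 hP
        obtain ⟨hxA, d, hxE⟩ := same x hx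
        have h1 := hxA.sum
        rw [sum4 hd] at h1
        have h2 : al x0 * ((ss x, tt x).1 : ℤ) ^ e + be x0 * ((ss x, tt x).2 : ℤ) ^ e = -(x k + x l) := by
          show al x0 * (ss x : ℤ) ^ e + be x0 * (tt x : ℤ) ^ e = _
          rw [← d.xi, ← d.xj]; linarith
        rw [h2]
        exact (dvd_neg).2 (dvd_add d.hk d.hl))
    have hh1 : (0 : ℝ) < hh x0 := by exact_mod_cast d0.h1
    have hhle : (hh x0 : ℝ) ≤ Real.exp L := by
      have := int_le d0.hk (hx0A.ne k) ((hE x0 hx0).2 k)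
      push_cast at this
      rwa [abs_of_pos hh1] at this
    have hom := HOM L (hh x0) hL d0.h1 hhle
    have hsq : Real.exp a / Real.sqrt (hh x0) ≤ Real.exp (a - w / 2) := by
      have h1 : w ≤ Real.log (hh x0) := by
        have := hw x0 hx0
        rwa [R_eq] at this
      have h2 : Real.exp w ≤ hh x0 := (Real.le_log_iff_exp_le hh1).1 h1
      have h3 : Real.exp (w / 2) ≤ Real.sqrt (hh x0) := by
        rw [Real.exp_half]
        exact Real.sqrt_le_sqrt h2
      rw [Real.exp_sub]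
      gcongr
    rw [hcard, hM]
    refine le_trans hmain ?_
    have h6 : (C : ℝ) * (1 + 4 * (Real.exp a / Real.sqrt (hh x0))) ≤ C * (1 + 4 * Real.exp (a - w / 2)) := by
      gcongr
    have h7 : (0 : ℝ) ≤ C * (1 + 4 * (Real.exp a / Real.sqrt (hh x0))) := by positivity
    exact mul_le_mul hom h6 h7 (by positivity)
  have hE1 : (E.card : ℝ) = ∑ y ∈ E.image κ, ((E.filter (fun x => κ x = y)).card : ℝ) := by
    have := Finset.card_eq_sum_card_fiberwise (s := E) (t := E.image κ) (f := κ)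
      (fun P hP => Finset.mem_coe.2 (Finset.mem_image_of_mem κ hP))
    exact_mod_cast this
  have hM0 : 0 ≤ M := by rw [hM]; positivity
  have hE2 : (E.card : ℝ) ≤ (E.image κ).card * M := by
    rw [hE1, ← nsmul_eq_mul, ← Finset.sum_const]
    exact Finset.sum_le_sum hF
  have hE3 : (E.card : ℝ) ≤ (Real.exp c * (D * Real.exp (ε / 6 * L)) ^ 5) * M :=
    hE2.trans (mul_le_mul_of_nonneg_right hK hM0)
  have e6 : Real.exp (ε * L) = Real.exp (ε / 6 * L) ^ 6 := by
    rw [← Real.exp_nat_mul]; congr 1; push_cast; ring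
  have e7 : Real.exp (c + a - w / 2) = Real.exp c * Real.exp (a - w / 2) := by
    rw [← Real.exp_add]; congr 1; ring
  calc (E.card : ℝ) ≤ (Real.exp c * (D * Real.exp (ε / 6 * L)) ^ 5) * M := hE3
    _ = C * D ^ 5 * D2 * Real.exp (ε * L) * (Real.exp c + 4 * (Real.exp c * Real.exp (a - w / 2))) := by
      rw [hM, e6]; ring
    _ ≤ C * D ^ 5 * D2 * Real.exp (ε * L) * (4 * (Real.exp c + Real.exp c * Real.exp (a - w / 2))) := by
      have h1 := Real.exp_pos c
      gcongr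
      nlinarith
    _ = _ := by rw [e7]; ring

end Pool.Agent.Helper54.Q.AT
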