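import Pool.Agent.Helper54.Q.Stm

/-!
# The abcd conjecture: points on a line (module ATL; by helper9)
-/

set_option autoImplicit false

open Finset Polynomial

namespace Pool.Agent.Helper54.Q.ATL

lemma card_le {S : Finset (ℕ × ℕ)} (f : ℕ × ℕ → ℚ) (hf : Set.InjOn f S) (p : ℚ[X]) (hp : p ≠ 0)
    (h : ∀ P ∈ S, p.eval (f P) = 0) : S.card ≤ p.natDegree := by
  classical
  have h1 : (S.image f).card = S.card := Finset.card_image_of_injOn hf
  have h2 : S.image f ⊆ p.roots.toFinset := by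
    intro x hx
    obtain ⟨P, hP, rfl⟩ := Finset.mem_image.mp hx
    rw [Multiset.mem_toFinset, mem_roots hp]
    exact h P hP
  calc S.card = (S.image f).card := h1.symm
    _ ≤ p.roots.toFinset.card := Finset.card_le_card h2
    _ ≤ Multiset.card p.roots := Multiset.toFinset_card_le _
    _ ≤ p.natDegree := card_roots' p

/-- One coprime positive point on a line through the origin. -/
lemma zero_case {S : Finset (ℕ × ℕ)} {a b : ℤ} (hab : a ≠ 0 ∨ b ≠ 0)
    (h : ∀ P ∈ S, 1 ≤ P.1 ∧ 1 ≤ P.2 ∧ Nat.Coprime P.1 P.2 ∧ a * P.2 - b * P.1 = 0) :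
    S.card ≤ 1 := by
  rw [Finset.card_le_one]
  intro P hP Q hQ
  obtain ⟨p1, p2, pc, pe⟩ := h P hP
  obtain ⟨q1, q2, qc, qe⟩ := h Q hQ
  have hP1 : (P.1 : ℤ) ≠ 0 := by
    have : P.1 ≠ 0 := by omega
    exact_mod_cast this
  have hP2 : (P.2 : ℤ) ≠ 0 := by
    have : P.2 ≠ 0 := by omega
    exact_mod_cast this
  have ha : a ≠ 0 := by
    rintro rfl
    rcases hab with h' | h'
    · exact h' rfl
    · have : b * (P.1 : ℤ) = 0 := by linarith
      rcases mul_eq_zero.mp this with h'' | h''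
      · exact h' h''
      · exact hP1 h''
  have hb : b ≠ 0 := by
    rintro rfl
    have : a * (P.2 : ℤ) = 0 := by linarith
    rcases mul_eq_zero.mp this with h'' | h''
    · exact ha h''
    · exact hP2 h''
  have hx : (P.2 : ℤ) * Q.1 = Q.2 * P.1 := by
    have h1 : a * ((P.2 : ℤ) * Q.1) = a * (Q.2 * P.1) := by
      have e1 : a * (P.2 : ℤ) = b * P.1 := by linarith
      have e2 : a * (Q.2 : ℤ) = b * Q.1 := by linarith
      calc a * ((P.2 : ℤ) * Q.1) = (a * P.2) * Q.1 := by ring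
        _ = (b * P.1) * Q.1 := by rw [e1]
        _ = (b * Q.1) * P.1 := by ring
        _ = (a * Q.2) * P.1 := by rw [e2]
        _ = a * (Q.2 * P.1) := by ring
    exact mul_left_cancel₀ ha h1
  have hx' : P.2 * Q.1 = Q.2 * P.1 := by exact_mod_cast hx
  have d1 : P.1 ∣ Q.1 := by
    have : P.1 ∣ P.2 * Q.1 := by rw [hx']; exact Dvd.intro_left _ rfl
    exact pc.dvd_of_dvd_mul_left this
  have d2 : Q.1 ∣ P.1 := by
    have : Q.1 ∣ Q.2 * P.1 := by rw [← hx']; exact Dvd.intro_left _ rfl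
    exact qc.dvd_of_dvd_mul_left this
  have e1 : P.1 = Q.1 := Nat.dvd_antisymm d1 d2
  have e2 : P.2 = Q.2 := by
    rw [e1] at hx'
    exact Nat.eq_of_mul_eq_mul_right (by omega) hx'
  exact Prod.ext e1 e2

/-- Two different exponents: the trinomial is not zero. -/
lemma tri_ne {e q : ℕ} (heq : e ≠ q) (he : 1 ≤ e) {u v w : ℚ} (hu : u ≠ 0) :
    (C u * X ^ e + C v * X ^ q + C w : ℚ[X]) ≠ 0 := by
  intro h
  have h1 := congrArg (fun p : ℚ[X] => p.coeff e) h
  have h2 : e ≠ 0 := by omega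
  simp [coeff_X_pow, coeff_C, heq, h2] at h1
  exact hu h1

lemma tri_deg (e q N : ℕ) (he : e ≤ N) (hq : q ≤ N) (u v w : ℚ) :
    (C u * X ^ e + C v * X ^ q + C w : ℚ[X]).natDegree ≤ N := by
  refine (natDegree_add_le _ _).trans (max_le ((natDegree_add_le _ _).trans (max_le ?_ ?_)) ?_)
  · exact (natDegree_C_mul_X_pow_le _ _).trans he
  · exact (natDegree_C_mul_X_pow_le _ _).trans hq
  · rw [natDegree_C]; exact Nat.zero_le _

lemma abs_of_pow {e : ℕ} {c γ a m : ℤ} (ha : a ≠ 0) (s : ℚ) (hs : s = (m : ℚ) / a ∨ s = -((m : ℚ) / a))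
    (h : (c : ℚ) * s ^ e + γ = 0) : |c| * |m| ^ e = |γ| * |a| ^ e := by
  have h1 : (c : ℚ) * s ^ e = -γ := by linarith
  have h2 : |(c : ℚ)| * |s| ^ e = |(γ : ℚ)| := by
    rw [← abs_pow, ← abs_mul, h1, abs_neg]
  have ha' : (|(a : ℚ)|) ≠ 0 := by
    rw [abs_ne_zero]; exact_mod_cast ha
  have h3 : |s| = |(m : ℚ)| / |(a : ℚ)| := by
    rcases hs with rfl | rfl
    · rw [abs_div]
    · rw [abs_neg, abs_div]
  rw [h3, div_pow] at h2
  have h4 : |(c : ℚ)| * |(m : ℚ)| ^ e = |(γ : ℚ)| * |(a : ℚ)| ^ e := by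
    have h5 : (|(a : ℚ)|) ^ e ≠ 0 := pow_ne_zero _ ha'
    field_simp at h2
    linarith
  exact_mod_cast h4

/-- **Module ATL.** -/
theorem main : S_ATL := by
  intro e q q' he hq hq' heq heq' α β γ δ a b m S hα hβ hγ hδ hab hS hnd
  by_cases hm : m = 0
  · subst hm
    have := zero_case (S := S) hab fun P hP => by
      obtain ⟨h1, h2, h3, h4, _⟩ := hS P hP
      exact ⟨h1, h2, h3, h4⟩
    omega
  by_cases ha : a = 0
  · subst ha
    have hb : b ≠ 0 := by
      rcases hab with h | h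
      · exact absurd rfl h
      · exact h
    rcases S.eq_empty_or_nonempty with rfl | ⟨P₀, hP₀⟩
    · simp
    have hs : ∀ P ∈ S, P.1 = P₀.1 := by
      intro P hP
      have h1 := (hS P hP).2.2.2.1
      have h2 := (hS P₀ hP₀).2.2.2.1
      have h3 : b * (P.1 : ℤ) = b * P₀.1 := by linarith
      exact_mod_cast mul_left_cancel₀ hb h3
    have hp := tri_ne (e := e) (q := q') (u := (β : ℚ)) (v := (δ : ℚ) * (P₀.1 : ℚ) ^ q)
      (w := (α : ℚ) * (P₀.1 : ℚ) ^ e + γ) heq' he (by exact_mod_cast hβ)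
    refine (card_le (fun P => (P.2 : ℚ)) ?_ _ hp ?_).trans (tri_deg _ _ _ (by omega) (by omega) _ _ _)
    · intro P hP Q hQ h
      have h' : P.2 = Q.2 := by
        have : (P.2 : ℚ) = Q.2 := h
        exact_mod_cast this
      exact Prod.ext ((hs P hP).trans (hs Q hQ).symm) h'
    · intro P hP
      have h1 := (hS P hP).2.2.2.2
      rw [hs P hP] at h1
      have h2 : (α : ℚ) * (P₀.1 : ℚ) ^ e + β * (P.2 : ℚ) ^ e + γ +
          δ * ((P₀.1 : ℚ) ^ q * (P.2 : ℚ) ^ q') = 0 := by exact_mod_cast h1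
      simp only [eval_add, eval_mul, eval_C, eval_pow, eval_X]
      linarith
  by_cases hb : b = 0
  · subst hb
    rcases S.eq_empty_or_nonempty with rfl | ⟨P₀, hP₀⟩
    · simp
    have hs : ∀ P ∈ S, P.2 = P₀.2 := by
      intro P hP
      have h1 := (hS P hP).2.2.2.1
      have h2 := (hS P₀ hP₀).2.2.2.1
      have h3 : a * (P.2 : ℤ) = a * P₀.2 := by linarith
      exact_mod_cast mul_left_cancel₀ ha h3
    have hp := tri_ne (e := e) (q := q) (u := (α : ℚ)) (v := (δ : ℚ) * (P₀.2 : ℚ) ^ q')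
      (w := (β : ℚ) * (P₀.2 : ℚ) ^ e + γ) heq he (by exact_mod_cast hα)
    refine (card_le (fun P => (P.1 : ℚ)) ?_ _ hp ?_).trans (tri_deg _ _ _ (by omega) (by omega) _ _ _)
    · intro P hP Q hQ h
      have h' : P.1 = Q.1 := by
        have : (P.1 : ℚ) = Q.1 := h
        exact_mod_cast this
      exact Prod.ext h' ((hs P hP).trans (hs Q hQ).symm)
    · intro P hP
      have h1 := (hS P hP).2.2.2.2
      rw [hs P hP] at h1
      have h2 : (α : ℚ) * (P.1 : ℚ) ^ e + β * (P₀.2 : ℚ) ^ e + γ +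
          δ * ((P.1 : ℚ) ^ q * (P₀.2 : ℚ) ^ q') = 0 := by exact_mod_cast h1
      simp only [eval_add, eval_mul, eval_C, eval_pow, eval_X]
      linarith
  have haq : (a : ℚ) ≠ 0 := by exact_mod_cast ha
  have hbq : (b : ℚ) ≠ 0 := by exact_mod_cast hb
  set l : ℚ[X] := C ((m : ℚ) / a) + C ((b : ℚ) / a) * X with hl
  set p : ℚ[X] := C (α : ℚ) * X ^ e + C (β : ℚ) * l ^ e + C (γ : ℚ) + C (δ : ℚ) * (X ^ q * l ^ q')
    with hpdef
  have hev : ∀ s : ℚ, p.eval s = α * s ^ e + β * ((m : ℚ) / a + (b : ℚ) / a * s) ^ e + γ +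
      δ * (s ^ q * ((m : ℚ) / a + (b : ℚ) / a * s) ^ q') := by
    intro s
    simp [hpdef, hl]
  have hp : p ≠ 0 := by
    intro h0
    have hz : ∀ s : ℚ, (α : ℚ) * s ^ e + β * ((m : ℚ) / a + (b : ℚ) / a * s) ^ e + γ +
        δ * (s ^ q * ((m : ℚ) / a + (b : ℚ) / a * s) ^ q') = 0 := by
      intro s
      rw [← hev, h0, eval_zero]
    have z1 := hz 0
    have z2 := hz (-((m : ℚ) / b))
    have he0 : e ≠ 0 := by omega
    have hq0 : q ≠ 0 := by omega
    have hq0' : q' ≠ 0 := by omega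
    have z3 : (m : ℚ) / a + (b : ℚ) / a * (-((m : ℚ) / b)) = 0 := by
      field_simp
      ring
    rw [z3, zero_pow he0, zero_pow hq0'] at z2
    rw [zero_pow he0, zero_pow hq0, mul_zero, mul_zero, add_zero] at z1
    have z4 : (α : ℚ) * (-((m : ℚ) / b)) ^ e + γ = 0 := by
      have := z2
      rw [mul_zero, add_zero, mul_zero, mul_zero, add_zero] at this
      exact this
    have z5 : (β : ℚ) * ((m : ℚ) / a) ^ e + γ = 0 := by
      have := z1
      rw [zero_add, zero_mul, mul_zero, add_zero] at this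
      exact this
    exact hnd ⟨hm, abs_of_pow hb _ (Or.inr rfl) z4, abs_of_pow ha _ (Or.inl rfl) z5⟩
  have hldeg : l.natDegree ≤ 1 := by
    rw [hl, add_comm]
    exact natDegree_linear_le
  have hdeg : p.natDegree ≤ e + q + q' := by
    have h1 : (C (α : ℚ) * X ^ e).natDegree ≤ e + q + q' :=
      (natDegree_C_mul_X_pow_le _ _).trans (by omega)
    have h2 : (C (β : ℚ) * l ^ e).natDegree ≤ e + q + q' := by
      refine (natDegree_C_mul_le _ _).trans (natDegree_pow_le.trans ?_)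
      calc e * l.natDegree ≤ e * 1 := Nat.mul_le_mul_left _ hldeg
        _ ≤ e + q + q' := by omega
    have h3 : (C (γ : ℚ)).natDegree ≤ e + q + q' := by rw [natDegree_C]; exact Nat.zero_le _
    have h4 : (C (δ : ℚ) * (X ^ q * l ^ q')).natDegree ≤ e + q + q' := by
      refine (natDegree_C_mul_le _ _).trans (natDegree_mul_le.trans ?_)
      have h5 : (X ^ q : ℚ[X]).natDegree ≤ q := natDegree_X_pow_le _
      have h6 : (l ^ q').natDegree ≤ q' * 1 := natDegree_pow_le.trans (Nat.mul_le_mul_left _ hldeg)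
      omega
    exact (natDegree_add_le _ _).trans (max_le ((natDegree_add_le _ _).trans (max_le
      ((natDegree_add_le _ _).trans (max_le h1 h2)) h3)) h4)
  refine (card_le (fun P => (P.1 : ℚ)) ?_ p hp ?_).trans hdeg
  · intro P hP Q hQ h
    have h' : P.1 = Q.1 := by
      have : (P.1 : ℚ) = Q.1 := h
      exact_mod_cast this
    have h1 := (hS P hP).2.2.2.1
    have h2 := (hS Q hQ).2.2.2.1
    rw [h'] at h1
    have h3 : a * (P.2 : ℤ) = a * Q.2 := by linarith
    have h4 : P.2 = Q.2 := by exact_mod_cast mul_left_cancel₀ ha h3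
    exact Prod.ext h' h4
  · intro P hP
    obtain ⟨_, _, _, h1, h2⟩ := hS P hP
    have h3 : (m : ℚ) / a + (b : ℚ) / a * (P.1 : ℚ) = (P.2 : ℚ) := by
      have h4 : (a : ℚ) * P.2 - b * P.1 = m := by exact_mod_cast h1
      rw [← h4]
      field_simp
      ring
    change p.eval (P.1 : ℚ) = 0
    rw [hev, h3]
    exact_mod_cast h2

end Pool.Agent.Helper54.Q.ATL
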