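import Pool.Agent.Helper54.Q.Stm

/-!
# Cells: from strategies with fixed parameters to all quadruples for which a strategy is cheap
-/

set_option autoImplicit false

namespace Pool.Agent.Helper54.Q

open Finset

/-- a strategy with the costs `c`, `a`, `w` -/
def Strat (c a w : (Fin 4 → ℤ) → ℝ) : Prop := ∀ ε : ℝ, 0 < ε → ∃ D : ℝ, 0 < D ∧
  ∀ (L c0 a0 w0 : ℝ) (F : Finset (Fin 4 → ℤ)), 0 ≤ L → Fam F L → (∀ x ∈ F, ¬ Deg x) →
  (∀ x ∈ F, c x ≤ c0) → (∀ x ∈ F, a x ≤ a0) → (∀ x ∈ F, w0 ≤ w x) →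
  (F.card : ℝ) ≤ D * Real.exp (ε * L) * (Real.exp c0 + Real.exp (c0 + a0 - w0))

/-- bounded functionals -/
def Bdd (f : (Fin 4 → ℤ) → ℝ) : Prop := ∀ (L : ℝ) (x : Fin 4 → ℤ), 0 ≤ L → Adm x →
  (∀ i, |(x i : ℝ)| ≤ Real.exp L) → 0 ≤ f x ∧ f x ≤ 4 * L

/-- a set of quadruples with few members -/
def Ok (θ : ℝ) (P : ℝ → (Fin 4 → ℤ) → Prop) : Prop := ∀ ε : ℝ, 0 < ε → ∃ D : ℝ, 0 < D ∧
  ∀ (L : ℝ) (F : Finset (Fin 4 → ℤ)), 1 ≤ L → Fam F L → (∀ x ∈ F, ¬ Deg x) → (∀ x ∈ F, P L x) →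
  (F.card : ℝ) ≤ D * Real.exp ((θ + ε) * L)

theorem Fam.mono {F G : Finset (Fin 4 → ℤ)} {L : ℝ} (h : Fam F L) (hG : G ⊆ F) : Fam G L :=
  fun x hx => h x (hG hx)

theorem Ok_false (θ : ℝ) : Ok θ (fun _ _ => False) := by
  intro ε hε
  refine ⟨1, one_pos, fun L F hL hF hd hP => ?_⟩
  have : F = ∅ := by
    ext x
    constructor
    · intro hx
      exact (hP x hx).elim
    · intro hx
      simp at hx
  rw [this]
  simp
  positivity

theorem Ok_or (θ : ℝ) {P P' : ℝ → (Fin 4 → ℤ) → Prop} (h : Ok θ P) (h' : Ok θ P') :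
    Ok θ (fun L x => P L x ∨ P' L x) := by
  classical
  intro ε hε
  obtain ⟨D, hD, hh⟩ := h ε hε
  obtain ⟨D', hD', hh'⟩ := h' ε hε
  refine ⟨D + D', by positivity, fun L F hL hF hd hP => ?_⟩
  have h1 := hh L (F.filter (P L)) hL (hF.mono (filter_subset _ _))
    (fun x hx => hd x (filter_subset _ _ hx)) (fun x hx => (mem_filter.1 hx).2)
  have h2 := hh' L (F.filter (P' L)) hL (hF.mono (filter_subset _ _))
    (fun x hx => hd x (filter_subset _ _ hx)) (fun x hx => (mem_filter.1 hx).2)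
  have h3 : F ⊆ F.filter (P L) ∪ F.filter (P' L) := by
    intro x hx
    rcases hP x hx with h | h
    · exact mem_union_left _ (mem_filter.2 ⟨hx, h⟩)
    · exact mem_union_right _ (mem_filter.2 ⟨hx, h⟩)
  have h4 : (F.card : ℝ) ≤ ((F.filter (P L)).card : ℝ) + ((F.filter (P' L)).card : ℝ) := by
    exact_mod_cast (card_le_card h3).trans (card_union_le _ _)
  nlinarith

theorem Ok_ex (θ : ℝ) {ι : Type*} (S : Finset ι) {P : ι → ℝ → (Fin 4 → ℤ) → Prop} (h : ∀ i ∈ S, Ok θ (P i)) :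
    Ok θ (fun L x => ∃ i ∈ S, P i L x) := by
  classical
  induction S using Finset.induction_on with
  | empty =>
    have := Ok_false θ
    simpa using this
  | insert a s ha ih =>
    have h1 := Ok_or θ (h a (mem_insert_self _ _)) (ih fun i hi => h i (mem_insert_of_mem hi))
    have h2 : (fun (L : ℝ) (x : Fin 4 → ℤ) => ∃ i ∈ insert a s, P i L x) =
        fun L x => P a L x ∨ ∃ i ∈ s, P i L x := by
      funext L x
      simp
    rw [h2]
    exact h1

theorem Ok_and (θ : ℝ) {V : Prop} {P : ℝ → (Fin 4 → ℤ) → Prop} (h : V → Ok θ P) :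
    Ok θ (fun L x => V ∧ P L x) := by
  by_cases hV : V
  · simpa [hV] using h hV
  · simpa [hV] using Ok_false θ

/-- the cells of one strategy -/
theorem Ok_strat (θ : ℝ) {c a w : (Fin 4 → ℤ) → ℝ} (h : Strat c a w) (hc : Bdd c) (ha : Bdd a) (hw : Bdd w) :
    Ok θ (fun L x => c x ≤ θ * L ∧ c x + a x - w x ≤ θ * L) := by
  classical
  intro ε hε
  obtain ⟨D, hD, hh⟩ := h (ε / 8) (by positivity)
  set δ := ε / 8 with hδ
  have hδ0 : 0 < δ := by positivity
  set N := ⌊4 / δ⌋₊ + 1 with hN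
  refine ⟨(N : ℝ) ^ 3 * (2 * D), by positivity, fun L F hL hF hd hP => ?_⟩
  have hL0 : 0 < L := by linarith
  have hδL : 0 < δ * L := by positivity
  set g : (Fin 4 → ℤ) → ℕ × ℕ × ℕ := fun x =>
    (⌊c x / (δ * L)⌋₊, ⌊a x / (δ * L)⌋₊, ⌊w x / (δ * L)⌋₊) with hg
  have hb : ∀ f : (Fin 4 → ℤ) → ℝ, Bdd f → ∀ x ∈ F, ⌊f x / (δ * L)⌋₊ ∈ range N := by
    intro f hf x hx
    obtain ⟨h1, h2⟩ := hf L x hL0.le (hF x hx).1 (hF x hx).2
    rw [mem_range, hN, Nat.lt_succ_iff]
    apply Nat.floor_le_floor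
    rw [div_le_div_iff₀ hδL hδ0]
    nlinarith
  have hmap : ∀ x ∈ F, g x ∈ (range N) ×ˢ ((range N) ×ˢ (range N)) := by
    intro x hx
    simp only [hg, mem_product]
    exact ⟨hb c hc x hx, hb a ha x hx, hb w hw x hx⟩
  have hcard : F.card = ∑ b ∈ (range N) ×ˢ ((range N) ×ˢ (range N)), (F.filter fun x => g x = b).card :=
    card_eq_sum_card_fiberwise hmap
  have hfib : ∀ b ∈ (range N) ×ˢ ((range N) ×ˢ (range N)),
      ((F.filter fun x => g x = b).card : ℝ) ≤ 2 * D * Real.exp ((θ + ε) * L) := by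
    intro b _
    rcases (F.filter fun x => g x = b).eq_empty_or_nonempty with he | ⟨x0, hx0⟩
    · rw [he]
      simp
      positivity
    · have key : ∀ f : (Fin 4 → ℤ) → ℝ, Bdd f → ∀ x ∈ F,
          ((⌊f x / (δ * L)⌋₊ : ℝ)) * (δ * L) ≤ f x ∧ f x ≤ ((⌊f x / (δ * L)⌋₊ : ℝ) + 1) * (δ * L) := by
        intro f hf x hx
        obtain ⟨h1, h2⟩ := hf L x hL0.le (hF x hx).1 (hF x hx).2
        constructor
        · have := Nat.floor_le (div_nonneg h1 hδL.le)
          calc _ ≤ f x / (δ * L) * (δ * L) := by gcongr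
            _ = f x := by field_simp
        · have := (Nat.lt_floor_add_one (f x / (δ * L))).le
          calc f x = f x / (δ * L) * (δ * L) := by field_simp
            _ ≤ _ := by gcongr
      have hg1 : ∀ x ∈ F.filter fun x => g x = b, ⌊c x / (δ * L)⌋₊ = b.1 ∧ ⌊a x / (δ * L)⌋₊ = b.2.1 ∧
          ⌊w x / (δ * L)⌋₊ = b.2.2 := by
        intro x hx
        have := (mem_filter.1 hx).2
        rw [← this]
        simp [hg]
      have h1 := hh L (((b.1 : ℝ) + 1) * (δ * L)) (((b.2.1 : ℝ) + 1) * (δ * L)) ((b.2.2 : ℝ) * (δ * L))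
        (F.filter fun x => g x = b) hL0.le (hF.mono (filter_subset _ _))
        (fun x hx => hd x (filter_subset _ _ hx))
        (fun x hx => by
          have := (key c hc x (filter_subset _ _ hx)).2
          rwa [(hg1 x hx).1] at this)
        (fun x hx => by
          have := (key a ha x (filter_subset _ _ hx)).2
          rwa [(hg1 x hx).2.1] at this)
        (fun x hx => by
          have := (key w hw x (filter_subset _ _ hx)).1
          rwa [(hg1 x hx).2.2] at this)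
      have hx0F := filter_subset _ _ hx0
      have k1 := (key c hc x0 hx0F).1
      have k2 := (key a ha x0 hx0F).1
      have k3 := (key w hw x0 hx0F).2
      rw [(hg1 x0 hx0).1] at k1
      rw [(hg1 x0 hx0).2.1] at k2
      rw [(hg1 x0 hx0).2.2] at k3
      obtain ⟨p1, p2⟩ := hP x0 hx0F
      have e1 : ((b.1 : ℝ) + 1) * (δ * L) ≤ (θ + 7 * δ) * L := by nlinarith
      have e2 : ((b.1 : ℝ) + 1) * (δ * L) + ((b.2.1 : ℝ) + 1) * (δ * L) - (b.2.2 : ℝ) * (δ * L) ≤
          (θ + 7 * δ) * L := by nlinarith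
      calc ((F.filter fun x => g x = b).card : ℝ) ≤ _ := h1
        _ ≤ D * Real.exp (δ * L) * (Real.exp ((θ + 7 * δ) * L) + Real.exp ((θ + 7 * δ) * L)) := by
          gcongr
        _ = 2 * D * (Real.exp (δ * L) * Real.exp ((θ + 7 * δ) * L)) := by ring
        _ = 2 * D * Real.exp ((θ + ε) * L) := by
          rw [← Real.exp_add]
          congr 2
          rw [hδ]
          ring
  rw [hcard]
  push_cast
  calc ∑ b ∈ (range N) ×ˢ ((range N) ×ˢ (range N)), ((F.filter fun x => g x = b).card : ℝ)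
      ≤ ∑ b ∈ (range N) ×ˢ ((range N) ×ˢ (range N)), 2 * D * Real.exp ((θ + ε) * L) := sum_le_sum hfib
    _ = _ := by
      rw [sum_const, card_product, card_product, card_range, nsmul_eq_mul]
      push_cast
      ring

end Pool.Agent.Helper54.Q
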