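import Pool.Agent.Helper54.Q.Stm

/-!
# CHN: the primes of two coordinates are free (helper14)
-/

set_option autoImplicit false

namespace Pool.Agent.Helper54.Q.CHN

open Finset

/-- counting by fibres -/
theorem fib {α β : Type} [DecidableEq β] (s : Finset α) (f : α → β) {n m : ℝ} (hn : 0 ≤ n)
    (h : ∀ b ∈ s.image f, ((s.filter fun x => f x = b).card : ℝ) ≤ n)
    (hm : ((s.image f).card : ℝ) ≤ m) : (s.card : ℝ) ≤ m * n := by
  rw [card_eq_sum_card_image f s]
  push_cast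
  refine (sum_le_sum h).trans ?_
  rw [sum_const, nsmul_eq_mul]
  exact mul_le_mul_of_nonneg_right hm hn

open Classical in
/-- the product of the primes with `Q (v p)` -/
noncomputable def rp (Q : (Fin 4 → ℕ) → Prop) (x : Fin 4 → ℤ) : ℕ :=
  ∏ p ∈ (PP x).filter (fun p => Q (vl x p)), p

theorem mem_PP {x : Fin 4 → ℤ} {p : ℕ} : p ∈ PP x ↔ ∃ i, p ∈ (x i).natAbs.primeFactors := by
  unfold PP
  rw [mem_biUnion]
  simp only [mem_univ, true_and]

theorem prime_of_PP {x : Fin 4 → ℤ} {p : ℕ} (h : p ∈ PP x) : p.Prime := by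
  obtain ⟨i, hi⟩ := mem_PP.1 h
  exact Nat.prime_of_mem_primeFactors hi

theorem rp_ne (Q : (Fin 4 → ℕ) → Prop) (x : Fin 4 → ℤ) : rp Q x ≠ 0 := by
  classical
  unfold rp
  rw [prod_ne_zero_iff]
  intro p hp
  exact (prime_of_PP (mem_filter.1 hp).1).ne_zero

theorem log_rp (Q : (Fin 4 → ℕ) → Prop) (x : Fin 4 → ℤ) : Real.log (rp Q x) = R Q x := by
  classical
  unfold rp R W
  push_cast
  rw [Real.log_prod]
  · refine sum_congr rfl fun p _ => ?_
    rw [one_mul]
  · intro p hp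
    exact_mod_cast (prime_of_PP (mem_filter.1 hp).1).ne_zero

theorem dvd_rp {Q : (Fin 4 → ℕ) → Prop} {x : Fin 4 → ℤ} {p : ℕ} (hp : p ∈ PP x) (hQ : Q (vl x p)) :
    p ∣ rp Q x := by
  classical
  exact dvd_prod_of_mem _ (mem_filter.2 ⟨hp, hQ⟩)

theorem rp_le {Q : (Fin 4 → ℕ) → Prop} {x : Fin 4 → ℤ} {L : ℝ} (hx : Adm x)
    (hL : ∀ i, |(x i : ℝ)| ≤ Real.exp L) : (rp Q x : ℝ) ≤ Real.exp (4 * L) := by
  classical
  have h1 : rp Q x ∣ ∏ i, (x i).natAbs := by
    refine prod_primes_dvd _ (fun p hp => (prime_of_PP (mem_filter.1 hp).1).prime) fun p hp => ?_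
    obtain ⟨i, hi⟩ := mem_PP.1 (mem_filter.1 hp).1
    exact (Nat.dvd_of_mem_primeFactors hi).trans (dvd_prod_of_mem _ (mem_univ i))
  have h2 : ∏ i, (x i).natAbs ≠ 0 := by
    rw [prod_ne_zero_iff]
    intro i _
    exact Int.natAbs_ne_zero.2 (hx.ne i)
  have h3 := Nat.le_of_dvd (Nat.pos_of_ne_zero h2) h1
  calc (rp Q x : ℝ) ≤ ((∏ i, (x i).natAbs : ℕ) : ℝ) := by exact_mod_cast h3
    _ = ∏ i, |(x i : ℝ)| := by
        push_cast
        refine prod_congr rfl fun i _ => ?_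
        rw [Nat.cast_natAbs, Int.cast_abs]
    _ ≤ ∏ _i : Fin 4, Real.exp L := prod_le_prod (fun i _ => abs_nonneg _) fun i _ => hL i
    _ = Real.exp (4 * L) := by
        rw [prod_const, card_univ, Fintype.card_fin, ← Real.exp_nat_mul]
        norm_num

/-- an exponent is not zero if and only if the prime divides -/
theorem vl_ne {x : Fin 4 → ℤ} {p : ℕ} {i : Fin 4} (hx : Adm x) (hp : p.Prime) :
    vl x p i ≠ 0 ↔ (p : ℤ) ∣ x i := by
  unfold vl
  rw [Ne, Nat.factorization_eq_zero_iff, Int.natCast_dvd]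
  have h0 := Int.natAbs_ne_zero.2 (hx.ne i)
  constructor
  · intro h
    by_contra h1
    exact h (Or.inr (Or.inl h1))
  · rintro h (h1 | h1 | h1)
    · exact h1 hp
    · exact h1 h
    · exact h0 h1

theorem mem_of_dvd {x : Fin 4 → ℤ} {p : ℕ} {i : Fin 4} (hx : Adm x) (hp : p.Prime)
    (h : (p : ℤ) ∣ x i) : p ∈ PP x :=
  mem_PP.2 ⟨i, Nat.mem_primeFactors.2 ⟨hp, Int.natCast_dvd.1 h, Int.natAbs_ne_zero.2 (hx.ne i)⟩⟩

theorem sum4 {i j k l : Fin 4} (h : Dist4 i j k l) (x : Fin 4 → ℤ) :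
    ∑ m, x m = x i + x j + x k + x l := by
  obtain ⟨h1, h2, h3, h4, h5, h6⟩ := h
  have hu : (univ : Finset (Fin 4)) = {i, j, k, l} := by
    symm
    refine eq_univ_of_card _ ?_
    rw [card_insert_of_notMem, card_insert_of_notMem, card_insert_of_notMem, card_singleton,
      Fintype.card_fin]
    · simpa using h6
    · simp only [mem_insert, mem_singleton, not_or]
      exact ⟨h4, h5⟩
    · simp only [mem_insert, mem_singleton, not_or]
      exact ⟨h1, h2, h3⟩
  rw [hu, sum_insert, sum_insert, sum_insert, sum_singleton]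
  · ring
  · simpa using h6
  · simp only [mem_insert, mem_singleton, not_or]
    exact ⟨h4, h5⟩
  · simp only [mem_insert, mem_singleton, not_or]
    exact ⟨h1, h2, h3⟩

theorem ex4 : ∀ k l : Fin 4, k ≠ l → ∃ i j : Fin 4, Dist4 i j k l := by
  unfold Dist4
  decide

theorem all4 {i j k l : Fin 4} (h : Dist4 i j k l) (m : Fin 4) : m = i ∨ m = j ∨ m = k ∨ m = l := by
  unfold Dist4 at h
  revert i j k l m
  decide

/-- a prime does not divide three of the numbers -/
theorem three {x : Fin 4 → ℤ} {i j k l : Fin 4} (hd : Dist4 i j k l) (hx : Adm x) {p : ℕ}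
    (hp : p.Prime) (h1 : (p : ℤ) ∣ x i) (h2 : (p : ℤ) ∣ x k) (h3 : (p : ℤ) ∣ x l) : False := by
  obtain ⟨m, hm⟩ := hx.prim p hp
  have h4 : (p : ℤ) ∣ x j := by
    have h5 := hx.sum
    rw [sum4 hd] at h5
    have h6 : x j = -(x i + x k + x l) := by linarith
    rw [h6]
    exact (((h1.add h2).add h3)).neg_right
  rcases all4 hd m with rfl | rfl | rfl | rfl
  · exact hm h1
  · exact hm h4
  · exact hm h2
  · exact hm h3

theorem main (hCN : S_CN) : S_CHN := by
  classical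
  intro k l hkl ε hε
  obtain ⟨D, hD0, hD⟩ := hCN (ε / 3) (by positivity)
  obtain ⟨i, j, hd⟩ := ex4 k l hkl
  obtain ⟨hij, hik, hil, hjk, hjl, -⟩ := id hd
  have hd' : Dist4 j i k l := ⟨hij.symm, hjk, hjl, hik, hil, hkl⟩
  refine ⟨D ^ 3, by positivity, fun L c E hL hE hR => ?_⟩
  obtain ⟨Q, hQ⟩ : ∃ Q : (Fin 4 → ℕ) → Prop, Q = fun v => ¬ (v k ≠ 0 ∧ v l ≠ 0) ∧
    ¬ (v l ≠ 0 ∧ ∀ i, i ≠ l → v i = 0) := ⟨_, rfl⟩
  have hR' : ∀ x ∈ E, R Q x ≤ c := by
    rw [hQ]
    exact hR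
  obtain ⟨Y, hY⟩ : ∃ Y : ℝ, Y = D * Real.exp (ε / 3 * L) := ⟨_, rfl⟩
  have hY0 : 0 ≤ Y := by
    rw [hY]
    positivity
  -- the primes of the coordinate `m`
  have hprm : ∀ x ∈ E, ∀ m j' : Fin 4, Dist4 m j' k l → ∀ p : ℕ, p.Prime → (p : ℤ) ∣ x m →
      p ∣ rp Q x := by
    intro x hx m j' hd1 p hp hpm
    have hxa := (hE x hx).1
    refine dvd_rp (mem_of_dvd hxa hp hpm) ?_
    rw [hQ]
    refine ⟨fun h => ?_, fun h => ?_⟩
    · exact three hd1 hxa hp hpm ((vl_ne hxa hp).1 h.1) ((vl_ne hxa hp).1 h.2)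
    · exact (vl_ne hxa hp).2 hpm (h.2 m hd1.2.2.1)
  -- the values of `r`
  have hr1 : ((E.image (rp Q)).card : ℝ) ≤ Real.exp c := by
    have h1 : E.image (rp Q) ⊆ Icc 1 ⌊Real.exp c⌋₊ := by
      intro r hr
      obtain ⟨x, hx, rfl⟩ := mem_image.1 hr
      have h2 := rp_ne Q x
      rw [mem_Icc]
      refine ⟨Nat.one_le_iff_ne_zero.2 h2, Nat.le_floor ?_⟩
      have h3 : (0 : ℝ) < rp Q x := by exact_mod_cast Nat.pos_of_ne_zero h2
      rw [← Real.log_le_iff_le_exp h3, log_rp]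
      exact hR' x hx
    have h2 := card_le_card h1
    rw [Nat.card_Icc, Nat.add_sub_cancel] at h2
    have h3 : ((E.image (rp Q)).card : ℝ) ≤ (⌊Real.exp c⌋₊ : ℝ) := by exact_mod_cast h2
    exact h3.trans (Nat.floor_le (Real.exp_pos c).le)
  have key : (E.card : ℝ) ≤ Real.exp c * (Y * (Y * Y)) := by
    refine fib E (rp Q) (by positivity) (fun r hr => ?_) hr1
    obtain ⟨x₀, hx₀, hx₀r⟩ := mem_image.1 hr
    have hr0 : r ≠ 0 := by
      rw [← hx₀r]
      exact rp_ne Q x₀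
    have hrL : (r : ℝ) ≤ Real.exp (4 * L) := by
      rw [← hx₀r]
      exact rp_le (hE x₀ hx₀).1 (hE x₀ hx₀).2
    have hr9 : (r : ℝ) ≤ 16 * Real.exp (9 * L) := by
      have h1 : Real.exp (4 * L) ≤ Real.exp (9 * L) := Real.exp_le_exp.2 (by linarith)
      have h2 := Real.exp_pos (9 * L)
      linarith
    obtain ⟨E1, hE1⟩ : ∃ E1, E1 = E.filter fun x => rp Q x = r := ⟨_, rfl⟩
    rw [← hE1]
    have hm1 : ∀ x ∈ E1, x ∈ E ∧ rp Q x = r := by
      intro x hx
      rw [hE1] at hx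
      exact mem_filter.1 hx
    have him : ∀ (E' : Finset (Fin 4 → ℤ)), E' ⊆ E1 → ∀ m j' : Fin 4, Dist4 m j' k l →
        ((E'.image fun x => x m).card : ℝ) ≤ Y := by
      intro E' hE' m j' hd1
      rw [hY]
      refine hD L r _ hL hr0 hr9 fun a ha => ?_
      obtain ⟨x, hx, rfl⟩ := mem_image.1 ha
      obtain ⟨hxE, hxr⟩ := hm1 x (hE' hx)
      refine ⟨(hE x hxE).1.ne m, (hE x hxE).2 m, fun p hp hpm => ?_⟩
      rw [← hxr]
      exact hprm x hxE m j' hd1 p hp hpm
    refine fib E1 (fun x => x i) (by positivity) (fun a ha => ?_) (him E1 (Subset.refl _) i j hd)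
    obtain ⟨E2, hE2⟩ : ∃ E2, E2 = E1.filter fun x => x i = a := ⟨_, rfl⟩
    rw [← hE2]
    have hs2 : E2 ⊆ E1 := by
      rw [hE2]
      exact filter_subset _ _
    have hm2 : ∀ x ∈ E2, x i = a := by
      intro x hx
      rw [hE2] at hx
      exact (mem_filter.1 hx).2
    refine fib E2 (fun x => x j) (by positivity) (fun b hb => ?_) (him E2 hs2 j i hd')
    obtain ⟨E3, hE3⟩ : ∃ E3, E3 = E2.filter fun x => x j = b := ⟨_, rfl⟩
    rw [← hE3]
    have hs3 : E3 ⊆ E2 := by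
      rw [hE3]
      exact filter_subset _ _
    have hm3 : ∀ x ∈ E3, x j = b := by
      intro x hx
      rw [hE3] at hx
      exact (mem_filter.1 hx).2
    -- the coordinate `k`
    have hinj : Set.InjOn (fun x : Fin 4 → ℤ => x k) (E3 : Set (Fin 4 → ℤ)) := by
      intro x hx y hy hxy
      rw [mem_coe] at hx hy
      have e1 : x i = y i := by rw [hm2 x (hs3 hx), hm2 y (hs3 hy)]
      have e2 : x j = y j := by rw [hm3 x hx, hm3 y hy]
      have e3 : x k = y k := hxy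
      have s1 := (hE x (hm1 x (hs2 (hs3 hx))).1).1.sum
      have s2 := (hE y (hm1 y (hs2 (hs3 hy))).1).1.sum
      rw [sum4 hd] at s1 s2
      have e4 : x l = y l := by linarith
      funext m
      rcases all4 hd m with rfl | rfl | rfl | rfl
      · exact e1
      · exact e2
      · exact e3
      · exact e4
    rw [← card_image_of_injOn hinj]
    rcases E3.eq_empty_or_nonempty with h0 | ⟨x₁, hx₁⟩
    · rw [h0, image_empty, card_empty, Nat.cast_zero]
      exact hY0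
    · have hx₁E := (hm1 x₁ (hs2 (hs3 hx₁))).1
      have hab : a + b ≠ 0 := by
        rw [← hm2 x₁ (hs3 hx₁), ← hm3 x₁ hx₁]
        exact (hE x₁ hx₁E).1.pair i j hij
      have hN0 : r * (a + b).natAbs ≠ 0 := mul_ne_zero hr0 (Int.natAbs_ne_zero.2 hab)
      have hNL : ((r * (a + b).natAbs : ℕ) : ℝ) ≤ 16 * Real.exp (9 * L) := by
        push_cast
        have h1 : (((a + b).natAbs : ℕ) : ℝ) ≤ 2 * Real.exp L := by
          rw [Nat.cast_natAbs, Int.cast_abs]
          push_cast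
          have h2 := (hE x₁ hx₁E).2 i
          have h3 := (hE x₁ hx₁E).2 j
          rw [hm2 x₁ (hs3 hx₁)] at h2
          rw [hm3 x₁ hx₁] at h3
          refine (abs_add_le _ _).trans ?_
          linarith
        calc (r : ℝ) * (((a + b).natAbs : ℕ) : ℝ) ≤ Real.exp (4 * L) * (2 * Real.exp L) :=
              mul_le_mul hrL h1 (Nat.cast_nonneg _) (Real.exp_pos _).le
          _ = 2 * Real.exp (5 * L) := by
              rw [mul_comm (2 : ℝ), ← mul_assoc, ← Real.exp_add, mul_comm]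
              ring_nf
          _ ≤ 16 * Real.exp (9 * L) := by
              have h4 : Real.exp (5 * L) ≤ Real.exp (9 * L) := Real.exp_le_exp.2 (by linarith)
              have h5 := Real.exp_pos (9 * L)
              linarith
      rw [hY]
      refine hD L _ _ hL hN0 hNL fun z hz => ?_
      obtain ⟨x, hx, rfl⟩ := mem_image.1 hz
      obtain ⟨hxE, hxr⟩ := hm1 x (hs2 (hs3 hx))
      have hxa := (hE x hxE).1
      refine ⟨hxa.ne k, (hE x hxE).2 k, fun p hp hpk => ?_⟩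
      by_cases hpl : (p : ℤ) ∣ x l
      · refine Dvd.dvd.mul_left ?_ r
        rw [← Int.natCast_dvd]
        have h5 := hxa.sum
        rw [sum4 hd, hm2 x (hs3 hx), hm3 x hx] at h5
        have h6 : a + b = -(x k + x l) := by linarith
        rw [h6]
        exact (hpk.add hpl).neg_right
      · refine Dvd.dvd.mul_right ?_ _
        rw [← hxr]
        refine dvd_rp (mem_of_dvd hxa hp hpk) ?_
        rw [hQ]
        have h7 : ¬ vl x p l ≠ 0 := fun h => hpl ((vl_ne hxa hp).1 h)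
        exact ⟨fun h => h7 h.2, fun h => h7 h.1⟩
  refine key.trans (le_of_eq ?_)
  rw [hY, Real.exp_add]
  have h1 : Real.exp (ε * L) = Real.exp (ε / 3 * L) ^ 3 := by
    rw [← Real.exp_nat_mul]
    congr 1
    push_cast
    ring
  rw [h1]
  ring

end Pool.Agent.Helper54.Q.CHN
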