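import Pool.Agent.Helper54.Q.Stm
import Pool.Agent.Helper54.DC.Rad

/-!
# Integers composed of the primes of a given number (helper71)
-/

set_option autoImplicit false

namespace Pool.Agent.Helper54.Q.CN

open Finset

theorem main : S_CN := by
  intro ε hε
  classical
  obtain ⟨C, hC1, hC⟩ := Pool.Agent.Helper54.DC.rad_count (ε / 10) (by positivity)
  have h16 : (0 : ℝ) < (16 : ℝ) ^ (ε / 10) := Real.rpow_pos_of_pos (by norm_num) _
  refine ⟨2 * (C * (16 : ℝ) ^ (ε / 10)), by positivity, ?_⟩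
  intro L N A hL hN hNb hA
  set s : Finset ℕ := A.image Int.natAbs with hs
  have h1 : ∀ W ∈ s, W ≠ 0 ∧ (W : ℝ) ≤ Real.exp L ∧ W.primeFactors ⊆ N.primeFactors := by
    intro W hW
    rw [hs, Finset.mem_image] at hW
    obtain ⟨a, ha, rfl⟩ := hW
    obtain ⟨ha0, hab, hap⟩ := hA a ha
    refine ⟨Int.natAbs_ne_zero.2 ha0, ?_, ?_⟩
    · have e : ((a.natAbs : ℕ) : ℝ) = |(a : ℝ)| := by
        rw [Nat.cast_natAbs, Int.cast_abs]
      rw [e]
      exact hab
    · intro p hp
      have hpp := Nat.prime_of_mem_primeFactors hp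
      have hd := Nat.dvd_of_mem_primeFactors hp
      exact Nat.mem_primeFactors.2 ⟨hpp, hap p hpp (Int.natCast_dvd.2 hd), hN⟩
  have h2 := hC N hN (Real.exp L) (Real.exp_pos L).le s h1
  have h3 : A.card ≤ 2 * s.card := by
    rw [hs]
    have h4 : A ⊆ (A.image Int.natAbs).biUnion fun n => ({(n : ℤ), -(n : ℤ)} : Finset ℤ) := by
      intro a ha
      rw [Finset.mem_biUnion]
      refine ⟨a.natAbs, Finset.mem_image_of_mem _ ha, ?_⟩
      rw [Finset.mem_insert, Finset.mem_singleton]
      exact Int.natAbs_eq a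
    refine (Finset.card_le_card h4).trans ?_
    refine Finset.card_biUnion_le.trans ?_
    rw [mul_comm, ← smul_eq_mul]
    apply Finset.sum_le_card_nsmul
    intro n _
    exact Finset.card_le_two
  have h5 : (Real.exp L * N) ^ (ε / 10) ≤ (16 : ℝ) ^ (ε / 10) * Real.exp (ε * L) := by
    have h6 : Real.exp L * N ≤ 16 * Real.exp (10 * L) := by
      calc Real.exp L * N ≤ Real.exp L * (16 * Real.exp (9 * L)) :=
            mul_le_mul_of_nonneg_left hNb (Real.exp_pos L).le
        _ = 16 * (Real.exp L * Real.exp (9 * L)) := by ring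
        _ = 16 * Real.exp (10 * L) := by
          rw [← Real.exp_add]
          congr 2
          ring
    calc (Real.exp L * N) ^ (ε / 10) ≤ (16 * Real.exp (10 * L)) ^ (ε / 10) :=
          Real.rpow_le_rpow (by positivity) h6 (by positivity)
      _ = (16 : ℝ) ^ (ε / 10) * Real.exp (ε * L) := by
          rw [Real.mul_rpow (by norm_num) (Real.exp_pos _).le, ← Real.exp_mul]
          congr 2
          ring
  have h7 : (A.card : ℝ) ≤ 2 * s.card := by exact_mod_cast h3
  calc (A.card : ℝ) ≤ 2 * s.card := h7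
    _ ≤ 2 * (C * (Real.exp L * N) ^ (ε / 10)) := by linarith
    _ ≤ 2 * (C * ((16 : ℝ) ^ (ε / 10) * Real.exp (ε * L))) := by
      have := mul_le_mul_of_nonneg_left h5 (by linarith : (0 : ℝ) ≤ C)
      linarith
    _ = 2 * (C * (16 : ℝ) ^ (ε / 10)) * Real.exp (ε * L) := by ring

end Pool.Agent.Helper54.Q.CN
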