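import Pool.Agent.Helper54.Q.Stm

/-!
# The degenerate quadruples
-/

set_option autoImplicit false

namespace Pool.Agent.Helper54.Q.DG

open Finset

/-- three numbers without a common prime, proportional to `e`-th powers of numbers with sum zero -/
theorem reduce {X Y Z a b c : ℤ} {e : ℕ} (ha : a ≠ 0) (hb : b ≠ 0) (hc : c ≠ 0)
    (hsum : a + b + c = 0) (h1 : |X| * |b| ^ e = |Y| * |a| ^ e) (h2 : |X| * |c| ^ e = |Z| * |a| ^ e)
    (hp : ∀ p : ℕ, p.Prime → ¬ ((p : ℤ) ∣ X ∧ (p : ℤ) ∣ Y ∧ (p : ℤ) ∣ Z)) :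
    ∃ a' b' c' : ℤ, a' ≠ 0 ∧ b' ≠ 0 ∧ c' ≠ 0 ∧ a' + b' + c' = 0 ∧ IsCoprime a' b' ∧
      IsCoprime a' c' ∧ IsCoprime b' c' ∧ |X| = |a'| ^ e ∧ |Y| = |b'| ^ e ∧ |Z| = |c'| ^ e := by
  have hgpos : 0 < Int.gcd a b := Int.gcd_pos_of_ne_zero_left _ ha
  obtain ⟨a', b', hab, ha', hb'⟩ := Int.exists_gcd_one hgpos
  set g : ℤ := (Int.gcd a b : ℤ) with hg
  have hg0 : g ≠ 0 := by rw [hg]; exact_mod_cast hgpos.ne'
  have ha0 : a' ≠ 0 := by rintro rfl; simp at ha'; exact ha ha'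
  have hb0 : b' ≠ 0 := by rintro rfl; simp at hb'; exact hb hb'
  have hcc : c = (-(a' + b')) * g := by linear_combination hsum - ha' - hb'
  have hc0 : -(a' + b') ≠ 0 := by
    intro h
    rw [h, zero_mul] at hcc
    exact hc hcc
  have hcop : IsCoprime a' b' := Int.isCoprime_iff_gcd_eq_one.2 hab
  have hcop2 : IsCoprime a' (-(a' + b')) := by
    have h := (hcop.add_mul_left_right 1).neg_right
    have h3 : -(b' + a' * 1) = -(a' + b') := by ring
    rwa [h3] at h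
  have hcop3 : IsCoprime b' (-(a' + b')) := by
    have h := (hcop.symm.add_mul_left_right 1).neg_right
    have h3 : -(a' + b' * 1) = -(a' + b') := by ring
    rwa [h3] at h
  have hge : |g| ^ e ≠ 0 := pow_ne_zero _ (abs_ne_zero.2 hg0)
  have h1' : |X| * |b'| ^ e = |Y| * |a'| ^ e := by
    rw [ha', hb', abs_mul, abs_mul, mul_pow, mul_pow] at h1
    apply mul_right_cancel₀ hge
    linear_combination h1
  have h2' : |X| * |-(a' + b')| ^ e = |Z| * |a'| ^ e := by
    rw [ha', hcc, abs_mul, abs_mul, mul_pow, mul_pow] at h2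
    apply mul_right_cancel₀ hge
    linear_combination h2
  have hcopp : IsCoprime (|a'| ^ e) (|b'| ^ e) := (hcop.abs_abs).pow
  have hdvd : |a'| ^ e ∣ |X| := by
    apply hcopp.dvd_of_dvd_mul_right
    rw [h1']
    exact dvd_mul_left _ _
  obtain ⟨m, hm⟩ := hdvd
  have hae : |a'| ^ e ≠ 0 := pow_ne_zero _ (abs_ne_zero.2 ha0)
  have hY : |Y| = |b'| ^ e * m := by
    apply mul_right_cancel₀ hae
    rw [← h1', hm]
    ring
  have hZ : |Z| = |-(a' + b')| ^ e * m := by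
    apply mul_right_cancel₀ hae
    rw [← h2', hm]
    ring
  have hm1 : m.natAbs = 1 := by
    by_contra hne
    obtain ⟨q, hq, hqm⟩ := Nat.exists_prime_and_dvd hne
    have hqm' : (q : ℤ) ∣ m := Int.natCast_dvd.2 hqm
    refine hp q hq ⟨?_, ?_, ?_⟩
    · rw [← dvd_abs, hm]; exact hqm'.mul_left _
    · rw [← dvd_abs, hY]; exact hqm'.mul_left _
    · rw [← dvd_abs, hZ]; exact hqm'.mul_left _
  have hm2 : m = 1 := by
    rcases Int.natAbs_eq m with h | h
    · rw [h, hm1]; rfl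
    · exfalso
      rw [hm1] at h
      have h0 : 0 ≤ |X| := abs_nonneg X
      have h3 : 0 < |a'| ^ e := pow_pos (abs_pos.2 ha0) e
      rw [hm, h] at h0
      push_cast at h0
      linarith
  rw [hm2, mul_one] at hm hY hZ
  exact ⟨a', b', -(a' + b'), ha0, hb0, hc0, by ring, hcop, hcop2, hcop3, hm, hY, hZ⟩

open Classical in
/-- nonzero integers of absolute value at most `exp L` composed of primes of `r` -/
noncomputable def A (L : ℝ) (r : ℕ) : Finset ℤ :=
  (Icc (-⌊Real.exp L⌋) ⌊Real.exp L⌋).filter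
    (fun a => a ≠ 0 ∧ ∀ p : ℕ, p.Prime → (p : ℤ) ∣ a → p ∣ r)

open Classical in
theorem mem_A {L : ℝ} {r : ℕ} {a : ℤ} : a ∈ A L r ↔
    |(a : ℝ)| ≤ Real.exp L ∧ a ≠ 0 ∧ ∀ p : ℕ, p.Prime → (p : ℤ) ∣ a → p ∣ r := by
  unfold A
  rw [mem_filter, mem_Icc, abs_le, Int.le_floor, neg_le, Int.le_floor]
  push_cast
  rw [neg_le (a := (a : ℝ))]
  try tauto

/-- the parameters -/
noncomputable def P (L : ℝ) :
    Finset ((Fin 4 × Fin 4 × Fin 4) × ℕ × (Σ _ : ℕ, ℤ × ℤ) × (ℤ × ℤ × ℤ)) :=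
  (univ : Finset (Fin 4 × Fin 4 × Fin 4)) ×ˢ range (⌊2 * L⌋₊ + 1) ×ˢ
    ((Icc 1 ⌊Real.exp (2 * L / 3)⌋₊).sigma fun r => A L r ×ˢ A L r) ×ˢ
    (({1, -1} : Finset ℤ) ×ˢ ({1, -1} : Finset ℤ) ×ˢ ({1, -1} : Finset ℤ))

/-- the quadruple of a parameter -/
def F (y : (Fin 4 × Fin 4 × Fin 4) × ℕ × (Σ _ : ℕ, ℤ × ℤ) × (ℤ × ℤ × ℤ)) (t : Fin 4) : ℤ :=
  let i := y.1.1
  let j := y.1.2.1
  let k := y.1.2.2
  let e := y.2.1
  let a := y.2.2.1.2.1
  let b := y.2.2.1.2.2
  let s := y.2.2.2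
  if t = i then s.1 * |a| ^ e else if t = j then s.2.1 * |b| ^ e else
    if t = k then s.2.2 * |a + b| ^ e else
      -(s.1 * |a| ^ e + s.2.1 * |b| ^ e + s.2.2 * |a + b| ^ e)

theorem exists_sign (X : ℤ) : ∃ s ∈ ({1, -1} : Finset ℤ), X = s * |X| := by
  rcases abs_choice X with h | h
  · exact ⟨1, by simp, by rw [h]; ring⟩
  · exact ⟨-1, by simp, by rw [h]; ring⟩

/-- the sum of the logarithms of the primes of `a` -/
noncomputable def lr (a : ℤ) : ℝ := ∑ p ∈ a.natAbs.primeFactors, Real.log p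

theorem cases4 : ∀ i j k l : Fin 4, i ≠ j → i ≠ k → i ≠ l → j ≠ k → j ≠ l → k ≠ l →
    ∀ t : Fin 4, t = i ∨ t = j ∨ t = k ∨ t = l := by decide

theorem mem_image {x : Fin 4 → ℤ} {L : ℝ} (hx : Adm x) (hL : ∀ i, |(x i : ℝ)| ≤ Real.exp L)
    {i j k l : Fin 4} (hd : Dist4 i j k l) {a b c : ℤ} {e : ℕ} (he : 1 ≤ e) (ha : a ≠ 0)
    (hb : b ≠ 0) (hc : c ≠ 0) (hsum : a + b + c = 0) (hX : |x i| = |a| ^ e) (hY : |x j| = |b| ^ e)
    (hZ : |x k| = |c| ^ e) (hr : lr a + lr b ≤ 2 * L / 3) : x ∈ (P L).image F := by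
  classical
  obtain ⟨s, hs, hsx⟩ := exists_sign (x i)
  obtain ⟨s', hs', hsx'⟩ := exists_sign (x j)
  obtain ⟨s'', hs'', hsx''⟩ := exists_sign (x k)
  have hcab : |c| = |a + b| := by
    have : c = -(a + b) := by linear_combination hsum
    rw [this, abs_neg]
  rw [hX] at hsx
  rw [hY] at hsx'
  rw [hZ, hcab] at hsx''
  set r : ℕ := (∏ p ∈ a.natAbs.primeFactors, p) * ∏ p ∈ b.natAbs.primeFactors, p with hrdef
  have hpa : ∀ p ∈ a.natAbs.primeFactors, (p : ℝ) ≠ 0 := fun p hp => by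
    exact_mod_cast (Nat.prime_of_mem_primeFactors hp).ne_zero
  have hpb : ∀ p ∈ b.natAbs.primeFactors, (p : ℝ) ≠ 0 := fun p hp => by
    exact_mod_cast (Nat.prime_of_mem_primeFactors hp).ne_zero
  have hr0 : r ≠ 0 := by
    rw [hrdef]
    refine mul_ne_zero (prod_ne_zero_iff.2 fun p hp => ?_) (prod_ne_zero_iff.2 fun p hp => ?_)
    · exact (Nat.prime_of_mem_primeFactors hp).ne_zero
    · exact (Nat.prime_of_mem_primeFactors hp).ne_zero
  have hlog : Real.log r = lr a + lr b := by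
    rw [hrdef, Nat.cast_mul, Nat.cast_prod, Nat.cast_prod,
      Real.log_mul (prod_ne_zero_iff.2 hpa) (prod_ne_zero_iff.2 hpb), Real.log_prod hpa,
      Real.log_prod hpb]
    rfl
  have hrle : (r : ℝ) ≤ Real.exp (2 * L / 3) := by
    have h0 : (0 : ℝ) < r := by exact_mod_cast Nat.pos_of_ne_zero hr0
    rw [← Real.exp_log h0, Real.exp_le_exp, hlog]
    exact hr
  have hale : ∀ (d : ℤ) (t : Fin 4), d ≠ 0 → |x t| = |d| ^ e → |(d : ℝ)| ≤ Real.exp L := by
    intro d t hd0 hdt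
    have h1 : |d| ≤ |x t| := by
      rw [hdt]
      exact le_self_pow₀ (Int.one_le_abs hd0) (by omega)
    have h2 : |(d : ℝ)| ≤ |(x t : ℝ)| := by exact_mod_cast h1
    exact h2.trans (hL t)
  have hA : a ∈ A L r := by
    refine mem_A.2 ⟨hale a i ha hX, ha, fun p hp hpa => ?_⟩
    have h1 : p ∣ a.natAbs := Int.natCast_dvd.1 hpa
    have h2 : p ∈ a.natAbs.primeFactors :=
      Nat.mem_primeFactors.2 ⟨hp, h1, Int.natAbs_ne_zero.2 ha⟩
    exact (dvd_prod_of_mem _ h2).mul_right _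
  have hB : b ∈ A L r := by
    refine mem_A.2 ⟨hale b j hb hY, hb, fun p hp hpa => ?_⟩
    have h1 : p ∣ b.natAbs := Int.natCast_dvd.1 hpa
    have h2 : p ∈ b.natAbs.primeFactors :=
      Nat.mem_primeFactors.2 ⟨hp, h1, Int.natAbs_ne_zero.2 hb⟩
    exact (dvd_prod_of_mem _ h2).mul_left _
  -- the exponent
  have hele : (e : ℝ) ≤ 2 * L := by
    have h2 : ∃ t : Fin 4, (2 : ℝ) ^ e ≤ |(x t : ℝ)| := by
      have key : ∀ (d : ℤ) (t : Fin 4), 2 ≤ |d| → |x t| = |d| ^ e →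
          (2 : ℝ) ^ e ≤ |(x t : ℝ)| := by
        intro d t hd2 hdt
        have h3 : (2 : ℤ) ^ e ≤ |x t| := by
          rw [hdt]
          exact pow_le_pow_left₀ (by norm_num) hd2 e
        exact_mod_cast h3
      by_cases h1 : 2 ≤ |a|
      · exact ⟨i, key a i h1 hX⟩
      by_cases h2 : 2 ≤ |b|
      · exact ⟨j, key b j h2 hY⟩
      by_cases h3 : 2 ≤ |c|
      · exact ⟨k, key c k h3 hZ⟩
      exfalso
      rw [not_le, abs_lt] at h1 h2 h3
      omega
    obtain ⟨t, ht⟩ := h2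
    have h3 : (2 : ℝ) ^ e ≤ Real.exp L := ht.trans (hL t)
    have h4 := Real.log_le_log (by positivity) h3
    rw [Real.log_pow, Real.log_exp] at h4
    have h5 := Real.log_two_gt_d9
    have h6 : (0 : ℝ) ≤ e := Nat.cast_nonneg e
    nlinarith
  rw [Finset.mem_image]
  refine ⟨((i, j, k), e, ⟨r, (a, b)⟩, (s, s', s'')), ?_, ?_⟩
  · unfold P
    simp only [mem_product, mem_univ, true_and, mem_range, mem_sigma, mem_Icc]
    refine ⟨Nat.lt_succ_of_le (Nat.le_floor hele), ⟨⟨Nat.pos_of_ne_zero hr0, Nat.le_floor hrle⟩,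
      hA, hB⟩, hs, hs', hs''⟩
  · obtain ⟨hij, hik, hil, hjk, hjl, hkl⟩ := hd
    have hcases := cases4 i j k l hij hik hil hjk hjl hkl
    have hs4 : x i + x j + x k + x l = 0 := by
      have h := hx.sum
      have huniv : (univ : Finset (Fin 4)) = {i, j, k, l} := by
        ext t
        simpa using hcases t
      rw [huniv, sum_insert (by simp [hij, hik, hil]), sum_insert (by simp [hjk, hjl]),
        sum_insert (by simp [hkl]), sum_singleton] at h
      linarith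
    funext t
    unfold F
    simp only
    rcases hcases t with rfl | rfl | rfl | rfl
    · rw [if_pos rfl, hsx]
    · rw [if_neg (Ne.symm hij), if_pos rfl, hsx']
    · rw [if_neg (Ne.symm hik), if_neg (Ne.symm hjk), if_pos rfl, hsx'']
    · rw [if_neg (Ne.symm hil), if_neg (Ne.symm hjl), if_neg (Ne.symm hkl), ← hsx, ← hsx',
        ← hsx'']
      linarith

theorem ex3 : ∀ l : Fin 4, ∃ i j k : Fin 4, i ≠ j ∧ i ≠ k ∧ i ≠ l ∧
      j ≠ k ∧ j ≠ l ∧ k ≠ l ∧ (univ : Finset (Fin 4)).erase l = {i, j, k} := by decide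

/-- every degenerate quadruple is the quadruple of a parameter -/
theorem deg_mem {x : Fin 4 → ℤ} {L : ℝ} (hx : Adm x) (hL : ∀ i, |(x i : ℝ)| ≤ Real.exp L)
    (hD : Deg x) (hR : R (fun _ => True) x ≤ L) : x ∈ (P L).image F := by
  classical
  obtain ⟨l, e, u, he, hu, husum, hprop⟩ := hD
  obtain ⟨i, j, k, hij, hik, hil, hjk, hjl, hkl, herase⟩ : ∃ i j k : Fin 4, i ≠ j ∧ i ≠ k ∧ i ≠ l ∧
      j ≠ k ∧ j ≠ l ∧ k ≠ l ∧ (univ : Finset (Fin 4)).erase l = {i, j, k} := ex3 l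
  rw [herase, sum_insert (by simp [hij, hik]), sum_insert (by simp [hjk]), sum_singleton] at husum
  have hcases := cases4 i j k l hij hik hil hjk hjl hkl
  have hs4 : x i + x j + x k + x l = 0 := by
    have h := hx.sum
    have huniv : (univ : Finset (Fin 4)) = {i, j, k, l} := by
      ext t
      simpa using hcases t
    rw [huniv, sum_insert (by simp [hij, hik, hil]), sum_insert (by simp [hjk, hjl]),
      sum_insert (by simp [hkl]), sum_singleton] at h
    linarith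
  obtain ⟨a, b, c, ha, hb, hc, hsum, hab, hac, hbc, hX, hY, hZ⟩ :=
    reduce (X := x i) (Y := x j) (Z := x k) (e := e) (hu i hil) (hu j hjl) (hu k hkl)
      (by linarith) (hprop i j hil hjl) (hprop i k hil hkl) (by
        rintro p hp ⟨h1, h2, h3⟩
        obtain ⟨t, ht⟩ := hx.prim p hp
        apply ht
        rcases hcases t with rfl | rfl | rfl | rfl
        · exact h1
        · exact h2
        · exact h3
        · have h4 : x t = -(x i + x j + x k) := by linarith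
          rw [h4, dvd_neg]
          exact dvd_add (dvd_add h1 h2) h3)
  -- the primes
  have hsub : ∀ (d : ℤ) (t : Fin 4), |x t| = |d| ^ e → d.natAbs.primeFactors ⊆ PP x := by
    intro d t hdt p hp
    obtain ⟨hp1, hp2, hp3⟩ := Nat.mem_primeFactors.1 hp
    unfold PP
    rw [mem_biUnion]
    refine ⟨t, mem_univ _, Nat.mem_primeFactors.2 ⟨hp1, ?_, Int.natAbs_ne_zero.2 (hx.ne t)⟩⟩
    have h1 : (x t).natAbs = d.natAbs ^ e := by
      have h2 : ((x t).natAbs : ℤ) = ((d.natAbs ^ e : ℕ) : ℤ) := by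
        push_cast
        exact hdt
      exact_mod_cast h2
    rw [h1]
    exact dvd_pow hp2 (by omega)
  have hdisj : ∀ {d f : ℤ}, IsCoprime d f → Disjoint d.natAbs.primeFactors f.natAbs.primeFactors :=
    fun h => Nat.Coprime.disjoint_primeFactors (Int.isCoprime_iff_gcd_eq_one.1 h)
  have hsum3 : lr a + lr b + lr c ≤ L := by
    refine le_trans ?_ hR
    have h1 : lr a + lr b + lr c =
        ∑ p ∈ (a.natAbs.primeFactors ∪ b.natAbs.primeFactors) ∪ c.natAbs.primeFactors,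
          Real.log p := by
      rw [sum_union, sum_union (hdisj hab)]
      · rfl
      · rw [disjoint_union_left]
        exact ⟨hdisj hac, hdisj hbc⟩
    have h2 : R (fun _ => True) x = ∑ p ∈ PP x, Real.log p := by
      unfold R W
      simp
    rw [h1, h2]
    apply sum_le_sum_of_subset_of_nonneg
    · exact union_subset (union_subset (hsub a i hX) (hsub b j hY)) (hsub c k hZ)
    · intro p _ _
      exact Real.log_natCast_nonneg p
  by_cases h1 : lr a + lr b ≤ 2 * L / 3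
  · exact mem_image hx hL ⟨hij, hik, hil, hjk, hjl, hkl⟩ he ha hb hc hsum hX hY hZ h1
  by_cases h2 : lr a + lr c ≤ 2 * L / 3
  · exact mem_image hx hL ⟨hik, hij, hil, hjk.symm, hkl, hjl⟩ he ha hc hb (by linarith) hX hZ hY h2
  · refine mem_image hx hL ⟨hjk, hij.symm, hjl, hik.symm, hkl, hil⟩ he hb hc ha (by linarith)
      hY hZ hX ?_
    rw [not_le] at h1 h2
    linarith

theorem card_P (L : ℝ) : ((P L).card : ℝ) = 64 * ((⌊2 * L⌋₊ + 1) *
      ((∑ r ∈ Icc 1 ⌊Real.exp (2 * L / 3)⌋₊, ((A L r).card : ℝ) * (A L r).card) * 8)) := by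
  have h2 : ({1, -1} : Finset ℤ).card = 2 := by rfl
  have h3 : (univ : Finset (Fin 4 × Fin 4 × Fin 4)).card = 64 := by
    rw [Finset.card_univ, Fintype.card_prod, Fintype.card_prod, Fintype.card_fin]
  have h4 : (P L).card = 64 * ((⌊2 * L⌋₊ + 1) *
      ((∑ r ∈ Icc 1 ⌊Real.exp (2 * L / 3)⌋₊, (A L r).card * (A L r).card) * 8)) := by
    unfold P
    rw [card_product, card_product, card_product, card_sigma, card_range, card_product,
      card_product, h2, h3]
    simp only [card_product]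
  rw [h4]
  push_cast
  ring

theorem main (hCN : S_CN) : S_DG := by
  intro ε hε
  obtain ⟨D, hD, hCN⟩ := hCN (ε / 3) (by positivity)
  set K : ℝ := max (6 / ε) 1 with hK
  have hK1 : 1 ≤ K := le_max_right _ _
  refine ⟨512 * K * D ^ 2, by positivity, ?_⟩
  intro L E hL hE hdeg
  have hsub : E ⊆ (P L).image F := by
    intro x hx
    exact deg_mem (hE x hx).1 (hE x hx).2 (hdeg x hx).1 (hdeg x hx).2
  have hcard : (E.card : ℝ) ≤ ((P L).card : ℝ) := by
    exact_mod_cast (card_le_card hsub).trans card_image_le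
  have hA : ∀ r ∈ Icc 1 ⌊Real.exp (2 * L / 3)⌋₊, ((A L r).card : ℝ) ≤ D * Real.exp (ε / 3 * L) := by
    intro r hr
    rw [mem_Icc] at hr
    refine hCN L r (A L r) hL (by omega) ?_ fun a ha => ?_
    · have h1 : (r : ℝ) ≤ Real.exp (2 * L / 3) :=
        (Nat.le_floor_iff (Real.exp_pos _).le).1 hr.2
      have h2 : Real.exp (2 * L / 3) ≤ Real.exp (9 * L) := Real.exp_le_exp.2 (by linarith)
      have h3 := Real.exp_pos (9 * L)
      linarith
    · obtain ⟨h1, h2, h3⟩ := mem_A.1 ha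
      exact ⟨h2, h1, h3⟩
  have hPcard := card_P L
  set X : ℝ := D * Real.exp (ε / 3 * L) with hX
  have hXpos : 0 < X := by positivity
  have hsum : ∑ r ∈ Icc 1 ⌊Real.exp (2 * L / 3)⌋₊, ((A L r).card : ℝ) * (A L r).card ≤
      Real.exp (2 * L / 3) * (X * X) := by
    calc ∑ r ∈ Icc 1 ⌊Real.exp (2 * L / 3)⌋₊, ((A L r).card : ℝ) * (A L r).card
        ≤ ∑ _r ∈ Icc 1 ⌊Real.exp (2 * L / 3)⌋₊, X * X := by
          apply sum_le_sum
          intro r hr
          exact mul_le_mul (hA r hr) (hA r hr) (Nat.cast_nonneg _) hXpos.le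
      _ = (⌊Real.exp (2 * L / 3)⌋₊ : ℝ) * (X * X) := by
          rw [sum_const, Nat.card_Icc, nsmul_eq_mul]
          norm_num
      _ ≤ Real.exp (2 * L / 3) * (X * X) := by
          apply mul_le_mul_of_nonneg_right (Nat.floor_le (Real.exp_pos _).le)
          positivity
  have hfl : ((⌊2 * L⌋₊ : ℝ) + 1) ≤ K * Real.exp (ε / 3 * L) := by
    have h1 : (⌊2 * L⌋₊ : ℝ) ≤ 2 * L := Nat.floor_le (by linarith)
    have h2 : ε / 3 * L + 1 ≤ Real.exp (ε / 3 * L) := Real.add_one_le_exp _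
    have h3 : 6 / ε ≤ K := le_max_left _ _
    have h4 : 0 ≤ ε / 3 * L := by positivity
    have h5 : 2 * L ≤ K * (ε / 3 * L) := by
      have h6 : 6 / ε * (ε / 3 * L) = 2 * L := by field_simp; ring
      rw [← h6]
      exact mul_le_mul_of_nonneg_right h3 h4
    calc ((⌊2 * L⌋₊ : ℝ) + 1) ≤ K * (ε / 3 * L) + K := by linarith
      _ = K * (ε / 3 * L + 1) := by ring
      _ ≤ K * Real.exp (ε / 3 * L) := mul_le_mul_of_nonneg_left h2 (by linarith)
  have hexp : Real.exp ((2 / 3 + ε) * L) = Real.exp (2 * L / 3) * (Real.exp (ε / 3 * L) *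
      Real.exp (ε / 3 * L) * Real.exp (ε / 3 * L)) := by
    rw [← Real.exp_add, ← Real.exp_add, ← Real.exp_add]
    congr 1
    ring
  calc (E.card : ℝ) ≤ ((P L).card : ℝ) := hcard
    _ = 64 * ((⌊2 * L⌋₊ + 1) *
      ((∑ r ∈ Icc 1 ⌊Real.exp (2 * L / 3)⌋₊, ((A L r).card : ℝ) * (A L r).card) * 8)) := hPcard
    _ ≤ 64 * ((K * Real.exp (ε / 3 * L)) * ((Real.exp (2 * L / 3) * (X * X)) * 8)) := by
      have h0 : 0 ≤ ∑ r ∈ Icc 1 ⌊Real.exp (2 * L / 3)⌋₊, ((A L r).card : ℝ) * (A L r).card :=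
        sum_nonneg fun r _ => mul_nonneg (Nat.cast_nonneg _) (Nat.cast_nonneg _)
      refine mul_le_mul_of_nonneg_left (mul_le_mul hfl ?_ ?_ ?_) (by norm_num)
      · exact mul_le_mul_of_nonneg_right hsum (by norm_num)
      · exact mul_nonneg h0 (by norm_num)
      · exact mul_nonneg (by linarith) (Real.exp_pos _).le
    _ = 512 * K * D ^ 2 * Real.exp ((2 / 3 + ε) * L) := by
      rw [hexp, hX]
      ring

end Pool.Agent.Helper54.Q.DG
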