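import Pool.Agent.Helper54.Q.Stm

set_option autoImplicit false

/-! Module EQ (helper18). -/

namespace Pool.Agent.Helper54.Q.EQ

open Finset

theorem fib {α β : Type*} [DecidableEq β] (s : Finset α) (f : α → β) (K M : ℝ) (hM : 0 ≤ M)
    (h1 : ((s.image f).card : ℝ) ≤ K)
    (h2 : ∀ b ∈ s.image f, ((s.filter (fun x => f x = b)).card : ℝ) ≤ M) :
    (s.card : ℝ) ≤ K * M := by
  rw [Finset.card_eq_sum_card_image f s]
  push_cast
  calc ∑ b ∈ s.image f, ((s.filter (fun x => f x = b)).card : ℝ) ≤ ∑ b ∈ s.image f, M :=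
        sum_le_sum h2
    _ = (s.image f).card * M := by simp
    _ ≤ K * M := mul_le_mul_of_nonneg_right h1 hM

theorem univ_eq : ∀ i j k l : Fin 4, Dist4 i j k l → (univ : Finset (Fin 4)) = {i, j, k, l} := by
  unfold Dist4
  decide

theorem sum_eq {x : Fin 4 → ℤ} {i j k l : Fin 4} (h : Dist4 i j k l) (hx : ∑ m, x m = 0) :
    x i + x j + (x k + x l) = 0 := by
  rw [univ_eq i j k l h] at hx
  obtain ⟨h1, h2, h3, h4, h5, h6⟩ := h
  rw [sum_insert (by simp [h1, h2, h3]), sum_insert (by simp [h4, h5]), sum_insert (by simp [h6]),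
    sum_singleton] at hx
  linarith

theorem all_of {P : Fin 4 → Prop} {i j k l : Fin 4} (h : Dist4 i j k l) (h1 : P i) (h2 : P j)
    (h3 : P k) (h4 : P l) : ∀ m, P m := by
  intro m
  have hm : m ∈ (univ : Finset (Fin 4)) := mem_univ m
  rw [univ_eq i j k l h] at hm
  simp only [mem_insert, mem_singleton] at hm
  rcases hm with rfl | rfl | rfl | rfl <;> assumption

theorem vl_ne {x : Fin 4 → ℤ} {i : Fin 4} (hx : x i ≠ 0) {p : ℕ} (hp : p.Prime) :
    vl x p i ≠ 0 ↔ (p : ℤ) ∣ x i := by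
  unfold vl
  rw [Int.natCast_dvd, Ne, Nat.factorization_eq_zero_iff]
  have h0 : (x i).natAbs ≠ 0 := Int.natAbs_ne_zero.2 hx
  tauto

theorem mem_PP {x : Fin 4 → ℤ} {i : Fin 4} (hx : x i ≠ 0) {p : ℕ} (hp : p.Prime)
    (h : (p : ℤ) ∣ x i) : p ∈ PP x := by
  unfold PP
  rw [mem_biUnion]
  exact ⟨i, mem_univ _, Nat.mem_primeFactors.2 ⟨hp, Int.natCast_dvd.1 h, Int.natAbs_ne_zero.2 hx⟩⟩

theorem prime_PP {x : Fin 4 → ℤ} {p : ℕ} (h : p ∈ PP x) : p.Prime := by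
  unfold PP at h
  rw [mem_biUnion] at h
  obtain ⟨i, -, hi⟩ := h
  exact Nat.prime_of_mem_primeFactors hi

open Classical in
/-- the product of the paid primes -/
noncomputable def rr (Q : (Fin 4 → ℕ) → Prop) (x : Fin 4 → ℤ) : ℕ :=
  ∏ p ∈ (PP x).filter (fun p => Q (vl x p)), p

theorem rr_ne (Q : (Fin 4 → ℕ) → Prop) (x : Fin 4 → ℤ) : rr Q x ≠ 0 := by
  classical
  unfold rr
  rw [prod_ne_zero_iff]
  intro p hp
  exact (prime_PP (mem_filter.1 hp).1).ne_zero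

theorem log_rr (Q : (Fin 4 → ℕ) → Prop) (x : Fin 4 → ℤ) : Real.log (rr Q x) = R Q x := by
  classical
  unfold rr R W
  rw [Nat.cast_prod, Real.log_prod]
  · refine sum_congr (by congr) fun p _ => ?_
    simp
  · intro p hp
    have := (prime_PP (mem_filter.1 hp).1).ne_zero
    exact_mod_cast this

theorem dvd_rr {Q : (Fin 4 → ℕ) → Prop} {x : Fin 4 → ℤ} {i : Fin 4} (hx : x i ≠ 0) {p : ℕ}
    (hp : p.Prime) (h : (p : ℤ) ∣ x i) (hQ : Q (vl x p)) : p ∣ rr Q x := by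
  classical
  unfold rr
  exact dvd_prod_of_mem _ (mem_filter.2 ⟨mem_PP hx hp h, hQ⟩)

theorem rr_le (Q : (Fin 4 → ℕ) → Prop) {x : Fin 4 → ℤ} (hx : ∀ i, x i ≠ 0) {L : ℝ}
    (hL : ∀ i, |(x i : ℝ)| ≤ Real.exp L) : (rr Q x : ℝ) ≤ Real.exp (4 * L) := by
  classical
  have h1 : rr Q x ∣ ∏ i, (x i).natAbs := by
    unfold rr
    refine Finset.prod_primes_dvd _ (fun p hp => (prime_PP (mem_filter.1 hp).1).prime) ?_
    intro p hp
    have h := (mem_filter.1 hp).1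
    unfold PP at h
    rw [mem_biUnion] at h
    obtain ⟨i, -, hi⟩ := h
    exact (Nat.dvd_of_mem_primeFactors hi).trans (dvd_prod_of_mem _ (mem_univ i))
  have h2 : rr Q x ≤ ∏ i, (x i).natAbs :=
    Nat.le_of_dvd (Nat.pos_of_ne_zero (prod_ne_zero_iff.2 fun i _ => Int.natAbs_ne_zero.2 (hx i))) h1
  calc (rr Q x : ℝ) ≤ ((∏ i, (x i).natAbs : ℕ) : ℝ) := by exact_mod_cast h2
    _ = ∏ i, |(x i : ℝ)| := by
      rw [Nat.cast_prod]
      refine prod_congr rfl fun i _ => ?_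
      rw [Nat.cast_natAbs, Int.cast_abs]
    _ ≤ ∏ _i : Fin 4, Real.exp L := prod_le_prod (fun i _ => abs_nonneg _) fun i _ => hL i
    _ = Real.exp (4 * L) := by
      rw [prod_const, card_univ, Fintype.card_fin, ← Real.exp_nat_mul]
      norm_num

theorem ne_of_dvd {x y : ℤ} (hx : x ≠ 0) (hy : y ≠ 0) {p : ℕ} (hp : p.Prime)
    (h : (p : ℤ) ∣ x / (Int.gcd x y : ℤ)) :
    x.natAbs.factorization p ≠ y.natAbs.factorization p := by
  intro he
  obtain ⟨n, hn⟩ : ∃ n, n = x.natAbs.factorization p := ⟨_, rfl⟩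
  have h1 : p ^ n ∣ x.natAbs :=
    (hp.pow_dvd_iff_le_factorization (Int.natAbs_ne_zero.2 hx)).2 hn.le
  have h2 : p ^ n ∣ y.natAbs :=
    (hp.pow_dvd_iff_le_factorization (Int.natAbs_ne_zero.2 hy)).2 (hn.trans he).le
  have h3 : p ^ n ∣ Int.gcd x y := Nat.dvd_gcd h1 h2
  obtain ⟨c, hc⟩ := h
  have h4 : ((p ^ (n + 1) : ℕ) : ℤ) ∣ x := by
    have e : x = (Int.gcd x y : ℤ) * (x / (Int.gcd x y : ℤ)) :=
      (Int.mul_ediv_cancel' (Int.gcd_dvd_left ..)).symm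
    rw [e, hc, pow_succ, Nat.cast_mul]
    exact mul_dvd_mul (by exact_mod_cast h3) (dvd_mul_right _ _)
  have h5 := Int.natCast_dvd.1 h4
  have h6 := (hp.pow_dvd_iff_le_factorization (Int.natAbs_ne_zero.2 hx)).1 h5
  omega

section point

variable {x : Fin 4 → ℤ} {i j k l : Fin 4}

theorem not_all (hA : Adm x) (hd : Dist4 i j k l) {p : ℕ} (hp : p.Prime) (h1 : (p : ℤ) ∣ x i)
    (h2 : (p : ℤ) ∣ x j) (h3 : (p : ℤ) ∣ x k) (h4 : (p : ℤ) ∣ x l) : False := by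
  obtain ⟨m, hm⟩ := hA.prim p hp
  exact hm (all_of (P := fun m => (p : ℤ) ∣ x m) hd h1 h2 h3 h4 m)

/-- the paid types -/
def QQ (i j k l : Fin 4) : (Fin 4 → ℕ) → Prop :=
  fun v => ¬ (v k ≠ 0 ∧ v l ≠ 0) ∧ ¬ (v i ≠ 0 ∧ v i = v j)

theorem paid_ij (hA : Adm x) (hd : Dist4 i j k l) {p : ℕ} (hp : p.Prime)
    (h : (p : ℤ) ∣ x i ∨ (p : ℤ) ∣ x j) (hv : vl x p i ≠ vl x p j) : QQ i j k l (vl x p) := by
  refine ⟨?_, fun h' => hv h'.2⟩
  rintro ⟨h1, h2⟩
  rw [vl_ne (hA.ne k) hp] at h1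
  rw [vl_ne (hA.ne l) hp] at h2
  have hs := sum_eq hd hA.sum
  have h3 : (p : ℤ) ∣ x k + x l := dvd_add h1 h2
  rcases h with h | h
  · refine not_all hA hd hp h ?_ h1 h2
    have e : x j = -(x i) - (x k + x l) := by linarith
    rw [e]
    exact dvd_sub (dvd_neg.2 h) h3
  · refine not_all hA hd hp ?_ h h1 h2
    have e : x i = -(x j) - (x k + x l) := by linarith
    rw [e]
    exact dvd_sub (dvd_neg.2 h) h3

/-- `x i / gcd` -/
def aa (i j : Fin 4) (x : Fin 4 → ℤ) : ℤ := x i / (Int.gcd (x i) (x j) : ℤ)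

theorem aa_mul (i j : Fin 4) (x : Fin 4 → ℤ) :
    (Int.gcd (x i) (x j) : ℤ) * aa i j x = x i :=
  Int.mul_ediv_cancel' (Int.gcd_dvd_left ..)

theorem aa_ne (hx : x i ≠ 0) : aa i j x ≠ 0 := by
  intro h
  have := aa_mul i j x
  rw [h, mul_zero] at this
  exact hx this.symm

theorem aa_le (hx : x i ≠ 0) {L : ℝ} (hL : |(x i : ℝ)| ≤ Real.exp L) :
    |((aa i j x : ℤ) : ℝ)| ≤ Real.exp L := by
  refine le_trans ?_ hL
  have h1 : aa i j x ∣ x i := ⟨_, by rw [mul_comm]; exact (aa_mul i j x).symm⟩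
  have h2 : |aa i j x| ≤ |x i| := by
    have := Int.natAbs_le_of_dvd_ne_zero h1 hx
    rw [Int.abs_eq_natAbs, Int.abs_eq_natAbs]
    exact_mod_cast this
  exact_mod_cast h2

theorem aa_dvd (hA : Adm x) (hd : Dist4 i j k l) {p : ℕ} (hp : p.Prime)
    (h : (p : ℤ) ∣ aa i j x) : p ∣ rr (QQ i j k l) x := by
  have h1 : (p : ℤ) ∣ x i := by
    rw [← aa_mul i j x]
    exact h.mul_left _
  exact dvd_rr (hA.ne i) hp h1 (paid_ij hA hd hp (Or.inl h1) (ne_of_dvd (hA.ne i) (hA.ne j) hp h))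

theorem bb_dvd (hA : Adm x) (hd : Dist4 i j k l) {p : ℕ} (hp : p.Prime)
    (h : (p : ℤ) ∣ aa j i x) : p ∣ rr (QQ i j k l) x := by
  have h1 : (p : ℤ) ∣ x j := by
    rw [← aa_mul j i x]
    exact h.mul_left _
  exact dvd_rr (hA.ne j) hp h1 (paid_ij hA hd hp (Or.inr h1)
    (ne_of_dvd (hA.ne j) (hA.ne i) hp h).symm)

theorem key (hA : Adm x) (hd : Dist4 i j k l) :
    (Int.gcd (x i) (x j) : ℤ) * (aa i j x + aa j i x) = -(x k + x l) := by
  have h1 := aa_mul i j x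
  have h2 := aa_mul j i x
  rw [Int.gcd_comm] at h2
  have hs := sum_eq hd hA.sum
  rw [mul_add, h1, h2]
  linarith

theorem ab_ne (hA : Adm x) (hd : Dist4 i j k l) : aa i j x + aa j i x ≠ 0 := by
  intro h
  have h1 := key hA hd
  rw [h, mul_zero] at h1
  exact hA.pair k l hd.2.2.2.2.2 (by linarith)

theorem kl_dvd (hA : Adm x) (hd : Dist4 i j k l) {p : ℕ} (hp : p.Prime)
    (h : (p : ℤ) ∣ x k ∨ (p : ℤ) ∣ x l) :
    p ∣ rr (QQ i j k l) x * (aa i j x + aa j i x).natAbs := by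
  have hs := sum_eq hd hA.sum
  by_cases hb : (p : ℤ) ∣ x k ∧ (p : ℤ) ∣ x l
  · refine dvd_mul_of_dvd_right ?_ _
    rw [← Int.natCast_dvd]
    have h1 : (p : ℤ) ∣ (Int.gcd (x i) (x j) : ℤ) * (aa i j x + aa j i x) := by
      rw [key hA hd]
      exact dvd_neg.2 (dvd_add hb.1 hb.2)
    rcases (Nat.prime_iff_prime_int.1 hp).dvd_or_dvd h1 with h2 | h2
    · exact absurd (not_all hA hd hp (h2.trans (Int.gcd_dvd_left ..))
        (h2.trans (Int.gcd_dvd_right ..)) hb.1 hb.2) id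
    · exact h2
  · refine dvd_mul_of_dvd_left ?_ _
    have hQ : QQ i j k l (vl x p) := by
      refine ⟨?_, ?_⟩
      · rintro ⟨h1, h2⟩
        rw [vl_ne (hA.ne k) hp] at h1
        rw [vl_ne (hA.ne l) hp] at h2
        exact hb ⟨h1, h2⟩
      · rintro ⟨h1, h2⟩
        have h3 : vl x p j ≠ 0 := h2 ▸ h1
        rw [vl_ne (hA.ne i) hp] at h1
        rw [vl_ne (hA.ne j) hp] at h3
        have h4 : (p : ℤ) ∣ x i + x j := dvd_add h1 h3
        rcases h with h | h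
        · refine hb ⟨h, ?_⟩
          have e : x l = -(x i + x j) - x k := by linarith
          rw [e]
          exact dvd_sub (dvd_neg.2 h4) h
        · refine hb ⟨?_, h⟩
          have e : x k = -(x i + x j) - x l := by linarith
          rw [e]
          exact dvd_sub (dvd_neg.2 h4) h
    rcases h with h | h
    · exact dvd_rr (hA.ne k) hp h hQ
    · exact dvd_rr (hA.ne l) hp h hQ

theorem inj {y : Fin 4 → ℤ} (hA : Adm x) (hB : Adm y) (hd : Dist4 i j k l)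
    (h1 : aa i j x = aa i j y) (h2 : aa j i x = aa j i y) (h3 : x k = y k) (h4 : x l = y l) :
    x = y := by
  have e1 := key hA hd
  have e2 := key hB hd
  rw [← h1, ← h2, ← h3, ← h4, ← e1] at e2
  have e3 := mul_right_cancel₀ (ab_ne hA hd) e2
  have e4 : x i = y i := by
    rw [← aa_mul i j x, ← aa_mul i j y, e3, h1]
  have e5 : x j = y j := by
    have f1 := aa_mul j i x
    have f2 := aa_mul j i y
    rw [Int.gcd_comm] at f1 f2
    rw [← f1, ← f2, e3, h2]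
  funext m
  exact all_of (P := fun m => x m = y m) hd e4 e5 h3 h4 m

end point

theorem main (h : S_CN) : S_EQ := by
  classical
  intro i j k l hd ε hε
  obtain ⟨D, hD, hC⟩ := h (ε / 4) (by positivity)
  refine ⟨D ^ 4, by positivity, ?_⟩
  intro L c E hL hE hR
  obtain ⟨T, hT⟩ : ∃ T, T = D * Real.exp (ε / 4 * L) := ⟨_, rfl⟩
  have hT0 : 0 < T := by rw [hT]; positivity
  have hfin : Real.exp c * (T * (T * (T * T))) = D ^ 4 * Real.exp (c + ε * L) := by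
    have e1 : Real.exp (c + ε * L) = Real.exp c * Real.exp (ε / 4 * L) ^ 4 := by
      rw [← Real.exp_nat_mul, ← Real.exp_add]
      congr 1
      push_cast
      ring
    rw [e1, hT]
    ring
  rw [← hfin]
  have hR' : ∀ x ∈ E, (rr (QQ i j k l) x : ℝ) ≤ Real.exp c := by
    intro x hx
    have h1 := hR x hx
    have h2 : Real.log (rr (QQ i j k l) x) ≤ c := by
      rw [log_rr]
      exact h1
    have h3 : (0 : ℝ) < rr (QQ i j k l) x := by
      exact_mod_cast Nat.pos_of_ne_zero (rr_ne _ _)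
    exact (Real.log_le_iff_le_exp h3).1 h2
  have hN1 : ∀ x ∈ E, (rr (QQ i j k l) x : ℝ) ≤ 16 * Real.exp (9 * L) := by
    intro x hx
    refine (rr_le _ (hE x hx).1.ne (hE x hx).2).trans ?_
    have h1 : Real.exp (4 * L) ≤ Real.exp (9 * L) := Real.exp_le_exp.2 (by linarith)
    have h2 := Real.exp_pos (9 * L)
    linarith
  have hN2 : ∀ x ∈ E, ((rr (QQ i j k l) x * (aa i j x + aa j i x).natAbs : ℕ) : ℝ) ≤
      16 * Real.exp (9 * L) := by
    intro x hx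
    have h1 := rr_le (QQ i j k l) (hE x hx).1.ne (hE x hx).2
    have h2 : (((aa i j x + aa j i x).natAbs : ℕ) : ℝ) ≤ 2 * Real.exp L := by
      rw [Nat.cast_natAbs, Int.cast_abs, Int.cast_add]
      refine (abs_add_le _ _).trans ?_
      have h3 := aa_le (j := j) ((hE x hx).1.ne i) ((hE x hx).2 i)
      have h4 := aa_le (j := i) ((hE x hx).1.ne j) ((hE x hx).2 j)
      linarith
    rw [Nat.cast_mul]
    calc (rr (QQ i j k l) x : ℝ) * (((aa i j x + aa j i x).natAbs : ℕ) : ℝ) ≤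
        Real.exp (4 * L) * (2 * Real.exp L) := mul_le_mul h1 h2 (Nat.cast_nonneg _)
          (Real.exp_pos _).le
      _ = 2 * Real.exp (5 * L) := by
        rw [show (5 : ℝ) * L = 4 * L + L by ring, Real.exp_add]
        ring
      _ ≤ 16 * Real.exp (9 * L) := by
        have h5 : Real.exp (5 * L) ≤ Real.exp (9 * L) := Real.exp_le_exp.2 (by linarith)
        have h6 := Real.exp_pos (9 * L)
        linarith
  refine fib E (rr (QQ i j k l)) _ _ (by positivity) ?_ ?_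
  · have h1 : E.image (rr (QQ i j k l)) ⊆ Icc 1 ⌊Real.exp c⌋₊ := by
      intro r hr
      obtain ⟨x, hx, rfl⟩ := mem_image.1 hr
      rw [mem_Icc]
      exact ⟨Nat.pos_of_ne_zero (rr_ne _ _), Nat.le_floor (hR' x hx)⟩
    have h2 := card_le_card h1
    rw [Nat.card_Icc, Nat.add_sub_cancel] at h2
    calc ((E.image (rr (QQ i j k l))).card : ℝ) ≤ (⌊Real.exp c⌋₊ : ℝ) := by exact_mod_cast h2
      _ ≤ Real.exp c := Nat.floor_le (Real.exp_pos c).le
  intro r hr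
  obtain ⟨x0, hx0, hr0⟩ := mem_image.1 hr
  refine fib _ (aa i j) _ _ (by positivity) ?_ ?_
  · rw [hT]
    refine hC L r _ hL (hr0 ▸ rr_ne _ _) (hr0 ▸ hN1 x0 hx0) ?_
    intro a ha
    obtain ⟨x, hx, rfl⟩ := mem_image.1 ha
    obtain ⟨hx, hxr⟩ := mem_filter.1 hx
    refine ⟨aa_ne ((hE x hx).1.ne i), aa_le ((hE x hx).1.ne i) ((hE x hx).2 i), ?_⟩
    intro p hp hpa
    rw [← hxr]
    exact aa_dvd (hE x hx).1 hd hp hpa
  intro a ha
  refine fib _ (aa j i) _ _ (by positivity) ?_ ?_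
  · rw [hT]
    refine hC L r _ hL (hr0 ▸ rr_ne _ _) (hr0 ▸ hN1 x0 hx0) ?_
    intro b hb
    obtain ⟨x, hx, rfl⟩ := mem_image.1 hb
    obtain ⟨hx, hxa⟩ := mem_filter.1 hx
    obtain ⟨hx, hxr⟩ := mem_filter.1 hx
    refine ⟨aa_ne ((hE x hx).1.ne j), aa_le ((hE x hx).1.ne j) ((hE x hx).2 j), ?_⟩
    intro p hp hpa
    rw [← hxr]
    exact bb_dvd (hE x hx).1 hd hp hpa
  intro b hb
  obtain ⟨x1, hx1, hb1⟩ := mem_image.1 hb
  obtain ⟨hx1, hxa1⟩ := mem_filter.1 hx1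
  obtain ⟨hx1, hxr1⟩ := mem_filter.1 hx1
  have hn0 : r * (a + b).natAbs ≠ 0 := by
    rw [← hxr1, ← hxa1, ← hb1]
    exact mul_ne_zero (rr_ne _ _) (Int.natAbs_ne_zero.2 (ab_ne (hE x1 hx1).1 hd))
  have hn1 : ((r * (a + b).natAbs : ℕ) : ℝ) ≤ 16 * Real.exp (9 * L) := by
    rw [← hxr1, ← hxa1, ← hb1]
    exact hN2 x1 hx1
  refine fib _ (fun x => x k) _ _ hT0.le ?_ ?_
  · rw [hT]
    refine hC L _ _ hL hn0 hn1 ?_
    intro y hy
    obtain ⟨x, hx, rfl⟩ := mem_image.1 hy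
    obtain ⟨hx, hxb⟩ := mem_filter.1 hx
    obtain ⟨hx, hxa⟩ := mem_filter.1 hx
    obtain ⟨hx, hxr⟩ := mem_filter.1 hx
    refine ⟨(hE x hx).1.ne k, (hE x hx).2 k, ?_⟩
    intro p hp hpa
    rw [← hxr, ← hxa, ← hxb]
    exact kl_dvd (hE x hx).1 hd hp (Or.inl hpa)
  intro y hy
  obtain ⟨F, hF⟩ : ∃ F, F = (((E.filter (fun x => rr (QQ i j k l) x = r)).filter
    (fun x => aa i j x = a)).filter (fun x => aa j i x = b)).filter (fun x => x k = y) := ⟨_, rfl⟩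
  have hmem : ∀ x ∈ F, (x ∈ E ∧ rr (QQ i j k l) x = r) ∧ aa i j x = a ∧ aa j i x = b ∧ x k = y := by
    intro x hx
    rw [hF] at hx
    simp only [mem_filter] at hx
    tauto
  have hcard : (F.image (fun x => x l)).card = F.card := by
    refine card_image_of_injOn ?_
    intro x hx x' hx' hxx
    obtain ⟨⟨h1, h2⟩, h3, h4, h5⟩ := hmem x hx
    obtain ⟨⟨h1', h2'⟩, h3', h4', h5'⟩ := hmem x' hx'
    exact inj (hE x h1).1 (hE x' h1').1 hd (h3.trans h3'.symm) (h4.trans h4'.symm)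
      (h5.trans h5'.symm) hxx
  have hgoal : (F.card : ℝ) ≤ T := by
    rw [← hcard, hT]
    refine hC L _ _ hL hn0 hn1 ?_
    intro z hz
    obtain ⟨x, hx, rfl⟩ := mem_image.1 hz
    obtain ⟨⟨h1, h2⟩, h3, h4, h5⟩ := hmem x hx
    refine ⟨(hE x h1).1.ne l, (hE x h1).2 l, ?_⟩
    intro p hp hpa
    rw [← h2, ← h3, ← h4]
    exact kl_dvd (hE x h1).1 hd hp (Or.inr hpa)
  rw [hF] at hgoal
  exact hgoal

end Pool.Agent.Helper54.Q.EQ
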