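import Pool.Agent.Helper54.Q.Asm

/-!
# The count for all `X`
-/

set_option autoImplicit false

namespace Pool.Agent.Helper54.Q

open Finset

/-- the product of the primes dividing one of the four numbers -/
def rd (x : Fin 4 → ℤ) : ℕ := ∏ p ∈ (∏ i, (x i).natAbs).primeFactors, p

theorem PP_eq {x : Fin 4 → ℤ} (hx : ∀ i, x i ≠ 0) : (∏ i, (x i).natAbs).primeFactors = PP x := by
  ext p
  unfold PP
  rw [mem_biUnion, Nat.mem_primeFactors]
  have h0 : ∏ i, (x i).natAbs ≠ 0 := prod_ne_zero_iff.2 fun i _ => Int.natAbs_ne_zero.2 (hx i)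
  constructor
  · rintro ⟨hp, hd, _⟩
    obtain ⟨i, hi, h⟩ := (Prime.dvd_finsetProd_iff hp.prime _).1 hd
    exact ⟨i, mem_univ _, Nat.mem_primeFactors.2 ⟨hp, h, Int.natAbs_ne_zero.2 (hx i)⟩⟩
  · rintro ⟨i, _, hi⟩
    exact ⟨Nat.prime_of_mem_primeFactors hi, (Nat.dvd_of_mem_primeFactors hi).trans
      (dvd_prod_of_mem _ (mem_univ i)), h0⟩

theorem log_rd {x : Fin 4 → ℤ} (hx : ∀ i, x i ≠ 0) : Real.log (rd x) = R (fun _ => True) x := by
  unfold rd
  rw [PP_eq hx, R_true]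
  unfold Ph
  push_cast
  rw [Real.log_prod]
  · exact sum_congr rfl fun p _ => by ring
  · intro p hp
    exact_mod_cast (prime_of_PP hp).ne_zero

theorem rd_pos (x : Fin 4 → ℤ) : 0 < rd x :=
  prod_pos fun _ hp => (Nat.prime_of_mem_primeFactors hp).pos

/-- the quadruples to be counted -/
def Cset (A : ℝ) (X : ℕ) : Set (Fin 4 → ℤ) :=
  {x | Adm x ∧ (∀ i, |x i| ≤ (X : ℤ)) ∧ (rd x : ℝ) ≤ A * (X : ℝ) ^ ((1 : ℝ) + 1 / 100001)}

theorem Cset_sub (A : ℝ) (X : ℕ) :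
    Cset A X ⊆ ((Fintype.piFinset fun _ : Fin 4 => Icc (-(X : ℤ)) X : Finset (Fin 4 → ℤ)) : Set (Fin 4 → ℤ)) := by
  intro x hx
  rw [mem_coe, Fintype.mem_piFinset]
  intro i
  rw [mem_Icc]
  exact abs_le.1 (hx.2.1 i)

theorem Cset_fin (A : ℝ) (X : ℕ) : (Cset A X).Finite := (finite_toSet _).subset (Cset_sub A X)

theorem main_count (hCHN : S_CHN) (hEQ : S_EQ) (hSA : S_SA) (hSB : S_SB) (hAT : S_AT) (hDG : S_DG) (η : ℝ)
    (hη : η ≤ 1 / 10) (hAR : S_ARg η) (ε : ℝ) (hε : 0 < ε) (A : ℝ) (hA : 1 ≤ A) : ∃ C : ℝ, 0 < C ∧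
    ∀ X : ℕ, 1 ≤ X → ((Cset A X).ncard : ℝ) ≤ C * (X : ℝ) ^ (5 / 6 - η + ε) := by
  classical
  obtain ⟨D, hD, h⟩ := count hCHN hEQ hSA hSB hAT hDG η hη hAR ε hε
  set L0 : ℝ := 1 + 100000 * 100001 * Real.log A with hL0
  have hlA : 0 ≤ Real.log A := Real.log_nonneg hA
  have hexp0 : 0 ≤ 5 / 6 - η + ε := by linarith
  refine ⟨D + (2 * Real.exp L0 + 1) ^ 4, by positivity, fun X hX => ?_⟩
  have hX1 : (1 : ℝ) ≤ X := by exact_mod_cast hX
  have hX0 : (0 : ℝ) < X := by linarith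
  have hpow1 : 1 ≤ (X : ℝ) ^ (5 / 6 - η + ε) := Real.one_le_rpow hX1 hexp0
  by_cases hlog : L0 ≤ Real.log X
  · have h1 := h (Real.log X) (Cset_fin A X).toFinset (by
      rw [hL0] at hlog
      linarith) ?_ ?_
    · rw [Set.ncard_eq_toFinset_card _ (Cset_fin A X)]
      have e1 : Real.exp ((5 / 6 - η + ε) * Real.log X) = (X : ℝ) ^ (5 / 6 - η + ε) := by
        rw [Real.rpow_def_of_pos hX0, mul_comm]
      rw [e1] at h1
      calc _ ≤ D * (X : ℝ) ^ (5 / 6 - η + ε) := h1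
        _ ≤ _ := by
          gcongr
          have : 0 ≤ (2 * Real.exp L0 + 1) ^ 4 := by positivity
          linarith
    · intro x hx
      rw [Set.Finite.mem_toFinset] at hx
      refine ⟨hx.1, fun i => ?_⟩
      rw [Real.exp_log hX0]
      have := hx.2.1 i
      have h2 : ((|x i| : ℤ) : ℝ) ≤ ((X : ℤ) : ℝ) := by exact_mod_cast this
      simpa using h2
    · intro x hx
      rw [Set.Finite.mem_toFinset] at hx
      rw [← log_rd hx.1.ne]
      calc Real.log (rd x) ≤ Real.log (A * (X : ℝ) ^ ((1 : ℝ) + 1 / 100001)) :=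
            Real.log_le_log (by exact_mod_cast rd_pos x) hx.2.2
        _ = Real.log A + (1 + 1 / 100001) * Real.log X := by
          rw [Real.log_mul (by linarith) (Real.rpow_pos_of_pos hX0 _).ne', Real.log_rpow hX0]
        _ ≤ _ := by
          rw [hL0] at hlog
          linarith
  · push Not at hlog
    have h2 : (Cset A X).ncard ≤ (2 * X + 1) ^ 4 := by
      calc (Cset A X).ncard ≤ ((Fintype.piFinset fun _ : Fin 4 => Icc (-(X : ℤ)) X : Finset (Fin 4 → ℤ)) :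
            Set (Fin 4 → ℤ)).ncard := Set.ncard_le_ncard (Cset_sub A X) (finite_toSet _)
        _ = _ := by
          rw [Set.ncard_coe_finset, Fintype.card_piFinset]
          simp only [Int.card_Icc, prod_const, card_univ, Fintype.card_fin]
          congr 1
          omega
    have h3 : (X : ℝ) ≤ Real.exp L0 := by
      rw [← Real.exp_log hX0]
      exact Real.exp_le_exp.2 hlog.le
    calc ((Cset A X).ncard : ℝ) ≤ (2 * X + 1) ^ 4 := by exact_mod_cast h2
      _ ≤ (2 * Real.exp L0 + 1) ^ 4 := by gcongr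
      _ = (2 * Real.exp L0 + 1) ^ 4 * 1 := by ring
      _ ≤ (2 * Real.exp L0 + 1) ^ 4 * (X : ℝ) ^ (5 / 6 - η + ε) := by gcongr
      _ ≤ _ := by
        gcongr
        linarith

end Pool.Agent.Helper54.Q
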