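import Pool.Agent.Helper54.Q.Asm2
import Pool.Agent.Helper54.Q.Fin

/-!
# The count for all `X`, radical at most `A X ^ lam`
-/

set_option autoImplicit false

namespace Pool.Agent.Helper54.Q

open Finset

/-- the quadruples to be counted -/
def Dset (A lam : ℝ) (X : ℕ) : Set (Fin 4 → ℤ) :=
  {x | Adm x ∧ (∀ i, |x i| ≤ (X : ℤ)) ∧ (rd x : ℝ) ≤ A * (X : ℝ) ^ lam}

theorem Dset_sub (A lam : ℝ) (X : ℕ) :
    Dset A lam X ⊆ ((Fintype.piFinset fun _ : Fin 4 => Icc (-(X : ℤ)) X : Finset (Fin 4 → ℤ)) :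
      Set (Fin 4 → ℤ)) := by
  intro x hx
  rw [mem_coe, Fintype.mem_piFinset]
  intro i
  rw [mem_Icc]
  exact abs_le.1 (hx.2.1 i)

theorem Dset_fin (A lam : ℝ) (X : ℕ) : (Dset A lam X).Finite := (finite_toSet _).subset (Dset_sub A lam X)

theorem main_countp (hCHN : S_CHN) (hEQ : S_EQ) (hSA : S_SA) (hSB : S_SB) (hAT : S_AT) (hDG : S_DG)
    (η κ h lam : ℝ) (hη : η ≤ 1 / 100) (hκ : 0 < κ) (hκ' : κ ≤ 1 / 100) (hlam : 24 / 25 ≤ lam)
    (hh : 4 ≤ (4 + h) * lam) (hAR : S_ARp η κ h) (ε : ℝ) (hε : 0 < ε) (A : ℝ) (hA : 1 ≤ A) : ∃ C : ℝ, 0 < C ∧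
    ∀ X : ℕ, 1 ≤ X → ((Dset A lam X).ncard : ℝ) ≤ C * (X : ℝ) ^ (lam * (5 / 6 - η) + ε) := by
  classical
  obtain ⟨D, hD, h⟩ := countp hCHN hEQ hSA hSB hAT hDG η κ h lam hη hκ hκ' hlam hh hAR ε hε
  have hlam0 : 0 < lam := by linarith
  have hkl : 0 < κ * lam := by positivity
  set L0 : ℝ := 1 + Real.log A / (κ * lam) with hL0
  have hlA : 0 ≤ Real.log A := Real.log_nonneg hA
  have hlA' : 0 ≤ Real.log A / (κ * lam) := by positivity
  have hexp0 : 0 ≤ lam * (5 / 6 - η) + ε := by nlinarith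
  refine ⟨D + (2 * Real.exp L0 + 1) ^ 4, by positivity, fun X hX => ?_⟩
  have hX1 : (1 : ℝ) ≤ X := by exact_mod_cast hX
  have hX0 : (0 : ℝ) < X := by linarith
  have hpow1 : 1 ≤ (X : ℝ) ^ (lam * (5 / 6 - η) + ε) := Real.one_le_rpow hX1 hexp0
  by_cases hlog : L0 ≤ Real.log X
  · have h1 := h (Real.log X) (Dset_fin A lam X).toFinset (by
      rw [hL0] at hlog
      linarith) ?_ ?_
    · rw [Set.ncard_eq_toFinset_card _ (Dset_fin A lam X)]
      have e1 : Real.exp ((lam * (5 / 6 - η) + ε) * Real.log X) = (X : ℝ) ^ (lam * (5 / 6 - η) + ε) := by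
        rw [Real.rpow_def_of_pos hX0, mul_comm]
      rw [e1] at h1
      calc _ ≤ D * (X : ℝ) ^ (lam * (5 / 6 - η) + ε) := h1
        _ ≤ _ := by
          gcongr
          have : 0 ≤ (2 * Real.exp L0 + 1) ^ 4 := by positivity
          linarith
    · intro x hx
      rw [Set.Finite.mem_toFinset] at hx
      refine ⟨hx.1, fun i => ?_⟩
      rw [Real.exp_log hX0]
      have := hx.2.1 i
      have h2 : ((|x i| : ℤ) : ℝ) ≤ ((X : ℤ) : ℝ) := by exact_mod_cast this
      simpa using h2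
    · intro x hx
      rw [Set.Finite.mem_toFinset] at hx
      rw [← log_rd hx.1.ne]
      calc Real.log (rd x) ≤ Real.log (A * (X : ℝ) ^ lam) :=
            Real.log_le_log (by exact_mod_cast rd_pos x) hx.2.2
        _ = Real.log A + lam * Real.log X := by
          rw [Real.log_mul (by linarith) (Real.rpow_pos_of_pos hX0 _).ne', Real.log_rpow hX0]
        _ ≤ (1 + κ) * (lam * Real.log X) := by
          have h5 : Real.log A / (κ * lam) ≤ Real.log X := by linarith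
          rw [div_le_iff₀ hkl] at h5
          nlinarith
  · push Not at hlog
    have h2 : (Dset A lam X).ncard ≤ (2 * X + 1) ^ 4 := by
      calc (Dset A lam X).ncard ≤ ((Fintype.piFinset fun _ : Fin 4 => Icc (-(X : ℤ)) X : Finset (Fin 4 → ℤ)) :
            Set (Fin 4 → ℤ)).ncard := Set.ncard_le_ncard (Dset_sub A lam X) (finite_toSet _)
        _ = _ := by
          rw [Set.ncard_coe_finset, Fintype.card_piFinset]
          simp only [Int.card_Icc, prod_const, card_univ, Fintype.card_fin]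
          congr 1
          omega
    have h3 : (X : ℝ) ≤ Real.exp L0 := by
      rw [← Real.exp_log hX0]
      exact Real.exp_le_exp.2 hlog.le
    calc ((Dset A lam X).ncard : ℝ) ≤ (2 * X + 1) ^ 4 := by exact_mod_cast h2
      _ ≤ (2 * Real.exp L0 + 1) ^ 4 := by gcongr
      _ = (2 * Real.exp L0 + 1) ^ 4 * 1 := by ring
      _ ≤ (2 * Real.exp L0 + 1) ^ 4 * (X : ℝ) ^ (lam * (5 / 6 - η) + ε) := by gcongr
      _ ≤ _ := by
        gcongr
        linarith

end Pool.Agent.Helper54.Q
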