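import Mathlib

/-!
# The abcd conjecture: fewer than `X ^ (5 / 6)` exceptions (statements of the modules)

Quadruples `x` of integers, `x 0 + x 1 + x 2 + x 3 = 0`, primitive, no vanishing subsum. `vl x p` is the vector of the
exponents of the prime `p` in the four numbers; at most two of them are not zero. `R Q x` is the sum of `log p`
over the primes dividing some `x i` whose vector of exponents satisfies `Q`.
-/

set_option autoImplicit false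

namespace Pool.Agent.Helper54.Q

open Finset

/-- primitive quadruples of nonzero integers with sum zero and without vanishing subsums -/
structure Adm (x : Fin 4 → ℤ) : Prop where
  prim : ∀ p : ℕ, p.Prime → ∃ i, ¬ (p : ℤ) ∣ x i
  sum : ∑ i, x i = 0
  ne : ∀ i, x i ≠ 0
  pair : ∀ i j, i ≠ j → x i + x j ≠ 0

/-- the exponents of `p` -/
def vl (x : Fin 4 → ℤ) (p : ℕ) (i : Fin 4) : ℕ := (x i).natAbs.factorization p

/-- the primes which divide one of the four numbers -/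
def PP (x : Fin 4 → ℤ) : Finset ℕ := univ.biUnion fun i => (x i).natAbs.primeFactors

open Classical in
/-- the sum of `f (v p) log p` over the primes `p` with `Q (v p)` -/
noncomputable def W (Q : (Fin 4 → ℕ) → Prop) (f : (Fin 4 → ℕ) → ℕ) (x : Fin 4 → ℤ) : ℝ :=
  ∑ p ∈ (PP x).filter (fun p => Q (vl x p)), (f (vl x p) : ℝ) * Real.log p

/-- the sum of `log p` over the primes `p` with `Q (v p)` -/
noncomputable def R (Q : (Fin 4 → ℕ) → Prop) (x : Fin 4 → ℤ) : ℝ := W Q (fun _ => 1) x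

/-- three of the numbers are proportional to `e`-th powers (up to signs) of numbers with sum zero -/
def Deg (x : Fin 4 → ℤ) : Prop := ∃ (l : Fin 4) (e : ℕ) (u : Fin 4 → ℤ), 1 ≤ e ∧
  (∀ i, i ≠ l → u i ≠ 0) ∧ ∑ i ∈ univ.erase l, u i = 0 ∧
  ∀ i j, i ≠ l → j ≠ l → |x i| * |u j| ^ e = |x j| * |u i| ^ e

/-- a family of quadruples of size at most `exp L` -/
def Fam (E : Finset (Fin 4 → ℤ)) (L : ℝ) : Prop := ∀ x ∈ E, Adm x ∧ ∀ i, |(x i : ℝ)| ≤ Real.exp L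

/-- four different indices -/
def Dist4 (i j k l : Fin 4) : Prop := i ≠ j ∧ i ≠ k ∧ i ≠ l ∧ j ≠ k ∧ j ≠ l ∧ k ≠ l

/-- CN: integers `a`, `|a| ≤ exp L`, composed of the primes of a given number `N` (easy from
`Pool.Agent.Helper54.DC.rad_count`, file `Pool/Agent/Helper54/DC/Rad.lean`, on main) -/
def S_CN : Prop := ∀ ε : ℝ, 0 < ε → ∃ D : ℝ, 0 < D ∧ ∀ (L : ℝ) (N : ℕ) (A : Finset ℤ), 0 ≤ L →
  N ≠ 0 → (N : ℝ) ≤ 16 * Real.exp (9 * L) →
  (∀ a ∈ A, a ≠ 0 ∧ |(a : ℝ)| ≤ Real.exp L ∧ ∀ p : ℕ, p.Prime → (p : ℤ) ∣ a → p ∣ N) →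
  (A.card : ℝ) ≤ D * Real.exp (ε * L)

/-- CHN (given S_CN). PROOF. `i, j` the other two indices. `r` = product of the primes `p` with `v p` in the paid part
(`R ... x = log r ≤ c`, so at most `exp c` values of `r`). All primes of `x i`, `x j` divide `r` (types {i},{j},{ij},{ik},{il},{jk},{jl}):
CN (with `N = r`). The primes dividing both `x k`, `x l` divide `x i + x j ≠ 0`, the others dividing `x k` divide `r`: CN for `x k` with
`N = r |x i + x j|`; `x l = - sum`. -/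
def S_CHN : Prop := ∀ k l : Fin 4, k ≠ l → ∀ ε : ℝ, 0 < ε → ∃ D : ℝ, 0 < D ∧
  ∀ (L c : ℝ) (E : Finset (Fin 4 → ℤ)), 0 ≤ L → Fam E L →
  (∀ x ∈ E, R (fun v => ¬ (v k ≠ 0 ∧ v l ≠ 0) ∧ ¬ (v l ≠ 0 ∧ ∀ i, i ≠ l → v i = 0)) x ≤ c) →
  (E.card : ℝ) ≤ D * Real.exp (c + ε * L)

/-- EQ (given S_CN). PROOF. `g` = product of `p ^ (v i)` over the primes `p` with `v i = v j ≠ 0`, `x i = g a`, `x j = g b`; `r` = product of
the paid primes. `a`, `b` are composed of primes of `r`: CN. `x i + x j = g (a + b)`, `a + b ≠ 0`; a prime dividing `x k` and `x l` does not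
divide `g`, so it divides `a + b`: CN for `x k` and `x l` with `N = r |a + b|`; and `g = -(x k + x l) / (a + b)`. -/
def S_EQ : Prop := ∀ i j k l : Fin 4, Dist4 i j k l → ∀ ε : ℝ, 0 < ε → ∃ D : ℝ, 0 < D ∧
  ∀ (L c : ℝ) (E : Finset (Fin 4 → ℤ)), 0 ≤ L → Fam E L →
  (∀ x ∈ E, R (fun v => ¬ (v k ≠ 0 ∧ v l ≠ 0) ∧ ¬ (v i ≠ 0 ∧ v i = v j)) x ≤ c) →
  (E.card : ℝ) ≤ D * Real.exp (c + ε * L)

/-- the selected primes in SA: exponent `e` in `x i`, not in `x j`, or conversely -/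
def selA (i j : Fin 4) (e : ℕ) (v : Fin 4 → ℕ) : Prop := (v i = e ∧ v j = 0) ∨ (v j = e ∧ v i = 0)

/-- SA (given S_CN). PROOF. `s` = product of the primes with `v i = e, v j = 0`, `t` = product of those with `v j = e, v i = 0`;
`x i = α s ^ e`, `x j = β t ^ e`; `r` = product of all the other primes, `log r ≤ c`, `s t ≤ exp a`; `s, t` are coprime and coprime to `r`.
`h` = product of `p ^ min (v k, v l)` over the ODD primes with `1 ≤ v k, v l ≤ B`; `h ∣ x k, x l`, so `α s ^ e + β t ^ e ≡ 0 (mod h)`, everything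
coprime to `h`; `log h ≥ w - B log 2`. For given `r`, `α`, `β`, `h` (CN: `exp (c + ε L)` choices): `s ≡ ρ t (mod h)` with `ρ ^ e ≡ -β/α`, at
most `e ^ ω(h)` classes `ρ` ((ZMod p^n)ˣ cyclic for odd p, IsCyclic.card_pow_eq_one_le; `e ^ ω(h) ≤ D exp (ε L)` e.g. by CN or the divisor
bound). In one class two points satisfy `h ∣ s t' - s' t`. Dyadic ranges `S ≤ s < 2 S`, `T ≤ t < 2 T`, `S T ≤ exp a` (at most `(2 L + 2) ^ 2` of them), divided into at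
most `1 + 8 S T / h` cells for the ratio `s / t` of length `h / (4 T ^ 2)`: `|s t' - s' t| < h` in a cell, so `s t' = s' t` and `(s, t) = (s', t')` (coprime). Given
`s`, `t`: `x i`, `x j` are known, `x k` is composed of primes of `r s t` (CN), `x l = - sum`. -/
def S_SA : Prop := ∀ i j k l : Fin 4, Dist4 i j k l → ∀ e B : ℕ, 1 ≤ e → ∀ ε : ℝ, 0 < ε →
  ∃ D : ℝ, 0 < D ∧ ∀ (L c a w : ℝ) (E : Finset (Fin 4 → ℤ)), 0 ≤ L → Fam E L →
  (∀ x ∈ E, R (fun v => ¬ selA i j e v) x ≤ c) → (∀ x ∈ E, R (selA i j e) x ≤ a) →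
  (∀ x ∈ E, w ≤ W (fun v => v k ≠ 0 ∧ v l ≠ 0 ∧ v k ≤ B ∧ v l ≤ B) (fun v => min (v k) (v l)) x) →
  (E.card : ℝ) ≤ D * Real.exp (ε * L) * (Real.exp c + Real.exp (c + a - w))

/-- SBP (given S_CN: use it with L replaced by a multiple): the points on a plane. PROOF. `s i > 0` pairwise coprime (i ≠ l), plane `∑ a i s i = 0`, `s i ∣ ∑_{j ≠ i, l} α j (s j) ^ e`. Let {1,2,3} be
the indices ≠ l. (A) if `a 3 = 0` then `a 1 s 1 = - a 2 s 2`, both `a ≠ 0`, `s 1`, `s 2` are determined (coprime), `(a 1, a 2) = ± g (s 2, - s 1)`, `s 3` divides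
`α 1 s 1 ^ e + α 2 s 2 ^ e ≠ 0` (hypothesis, no vanishing subsum): few divisors. (B) all `a i ≠ 0`: modulo `s 1`: `a 2 s 2 ≡ - a 3 s 3`, so
`s 1 ∣ c 1 := α 2 (- a 3) ^ e + α 3 (a 2) ^ e`, and cyclically `c 2`, `c 3`. If two of the `c i` are not 0, these two `s i` are divisors of given numbers
and the third is determined by the plane. If `c 2 = c 3 = 0` (say) then `|α 3| |a 1| ^ e = |α 1| |a 3| ^ e` and `|α 2| |a 1| ^ e = |α 1| |a 2| ^ e`: excluded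
by the hypothesis (it gives `Deg` with `u i = a i s i`). -/
def S_SBP : Prop := ∀ (l : Fin 4) (e : ℕ), 1 ≤ e → ∀ ε : ℝ, 0 < ε → ∃ D : ℝ, 0 < D ∧
  ∀ (L : ℝ) (α a : Fin 4 → ℤ) (S : Finset (Fin 4 → ℕ)), 0 ≤ L → (∀ i, α i ≠ 0 ∧ |(α i : ℝ)| ≤ Real.exp L) →
  (∀ i, |(a i : ℝ)| ≤ 2 * Real.exp (2 * L)) → (∃ i, i ≠ l ∧ a i ≠ 0) →
  (∀ s ∈ S, s l = 1 ∧ (∀ i, 1 ≤ s i ∧ (s i : ℝ) ≤ Real.exp L) ∧
    (∀ i j, i ≠ j → Nat.Coprime (s i) (s j)) ∧ ∑ i ∈ univ.erase l, a i * (s i : ℤ) = 0 ∧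
    (∀ i, i ≠ l → (s i : ℤ) ∣ ∑ j ∈ (univ.erase l).erase i, α j * (s j : ℤ) ^ e) ∧
    (∀ i, i ≠ l → ∑ j ∈ (univ.erase l).erase i, α j * (s j : ℤ) ^ e ≠ 0) ∧
    ¬ (∀ i j, i ≠ l → j ≠ l → |α i| * |a j| ^ e = |α j| * |a i| ^ e)) →
  (S.card : ℝ) ≤ D * Real.exp (ε * L)

/-- SB (given S_CN, S_SBP). PROOF. For `i ≠ l`: `s i` = product of the selected primes dividing `x i`, `x i = α i (s i) ^ e`; `r` = product of the other
primes (`log r ≤ c`); `m i` = product of the not selected primes dividing `x i` and `x l`, `M = ∏ m i`, `log M ≥ w`; `∏ s i ≤ exp a`; put `s l = 1`.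
For a prime `p ∣ m j` and `{i, i'}` the two other indices ≠ l: `α i (s i) ^ e + α i' (s i') ^ e ≡ 0 (mod p)`, all prime to `p`: at most `e` classes of
`s i / s i'` modulo `p`. For given `r`, `α`, `m` and classes (`exp (c + ε L)` choices) `M` divides the determinant of any three points `s`. Dyadic ranges
`S i ≤ s i < 2 S i`; cells of length `M / (32 S 2 S 3 ^ 2)` for the ratio `s 1 / s 3`: at most `1 + 64 S 1 S 2 S 3 / M` cells, in a cell
`|det| < M`, so `det = 0`, so all points of the cell are on a plane (cross product of two different points as `a`; two different points are not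
proportional by coprimality) : SBP (`s i ∣ x i, x l` gives the divisibility, `¬ Deg` the last condition with `u i = a i s i`). Given `s` and `α`:
`x i` (i ≠ l) are known. -/
def S_SB : Prop := ∀ (l : Fin 4) (e : ℕ), 1 ≤ e → ∀ Sel : (Fin 4 → ℕ) → Prop,
  (∀ v, Sel v → v l ≠ 0 ∧ ∃ i, i ≠ l ∧ v i = e) → ∀ ε : ℝ, 0 < ε →
  ∃ D : ℝ, 0 < D ∧ ∀ (L c a w : ℝ) (E : Finset (Fin 4 → ℤ)), 0 ≤ L → Fam E L → (∀ x ∈ E, ¬ Deg x) →
  (∀ x ∈ E, R (fun v => ¬ Sel v) x ≤ c) → (∀ x ∈ E, R Sel x ≤ a) →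
  (∀ x ∈ E, w ≤ R (fun v => ¬ Sel v ∧ v l ≠ 0 ∧ ∃ i, i ≠ l ∧ v i ≠ 0) x) →
  (E.card : ℝ) ≤ D * Real.exp (ε * L) * (Real.exp c + Real.exp (c + a - w))

/-- ATL: points on a line. PROOF. `F (s, t) = α s^e + β t^e + γ + δ s^q t^q'` on the line `a t - b s = m`. If `m = 0`: at most one coprime positive point. If
`a = 0` (or `b = 0`) then `s` is constant and `F (s, ·)` is a nonzero polynomial (`e ≠ q'`, coefficient `β` of `t^e`): at most `e + q'` points. If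
`a b m ≠ 0`: `F (s, (m + b s) / a)` is a polynomial of degree at most `e + q + q'` in `s`; if it is not zero: at most that many points. If it is zero:
its value at `s = 0` gives `β m^e + γ a^e = 0`, its value at `s = - m / b` gives `α (-m)^e + γ b^e = 0`: excluded by the last hypothesis. -/
def S_ATL : Prop := ∀ (e q q' : ℕ), 1 ≤ e → 1 ≤ q → 1 ≤ q' → e ≠ q → e ≠ q' →
  ∀ (α β γ δ a b m : ℤ) (S : Finset (ℕ × ℕ)), α ≠ 0 → β ≠ 0 → γ ≠ 0 → δ ≠ 0 → (a ≠ 0 ∨ b ≠ 0) →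
  (∀ P ∈ S, 1 ≤ P.1 ∧ 1 ≤ P.2 ∧ Nat.Coprime P.1 P.2 ∧ a * P.2 - b * P.1 = m ∧
    α * (P.1 : ℤ) ^ e + β * (P.2 : ℤ) ^ e + γ + δ * ((P.1 : ℤ) ^ q * (P.2 : ℤ) ^ q') = 0) →
  ¬ (m ≠ 0 ∧ |α| * |m| ^ e = |γ| * |b| ^ e ∧ |β| * |m| ^ e = |γ| * |a| ^ e) →
  S.card ≤ e + q + q'

/-- AT (given S_CN, S_ATL). PROOF. `s` = product of the primes with `v i = e, v l = q`, `t` = product of those with `v j = e, v l = q'`; `r` = product of the
others (`log r ≤ c`); `x i = α s^e`, `x j = β t^e`, `x k = γ`, `x l = δ s^q t^q'`; `h` = product of the primes dividing `x k` and `x l`, `log h ≥ w`;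
modulo `p ∣ h`: `α s^e + β t^e ≡ 0`, at most `e` classes of `s / t`. For given `r, α, β, γ, δ, h` and classes (`exp (c + ε L)` choices): `s ≡ λ t (mod h)`.
Pigeonhole (Thue): `(a, b) ≠ 0`, `|a|, |b| ≤ √h`, `a ≡ λ b (mod h)`; then `h ∣ a t - b s`, `|a t - b s| ≤ 2 √h exp a`: at most `1 + 4 exp a / √h` values `m` of
`a t - b s`, on each of the lines ATL (the last hypothesis holds for nondegenerate `x`: otherwise `Deg` with `u i = - b s`, `u j = a t`, `u k = - m`). -/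
def S_AT : Prop := ∀ i j k l : Fin 4, Dist4 i j k l → ∀ e q q' : ℕ, 1 ≤ e → 1 ≤ q → 1 ≤ q' → e ≠ q → e ≠ q' →
  ∀ ε : ℝ, 0 < ε → ∃ D : ℝ, 0 < D ∧ ∀ (L c a w : ℝ) (E : Finset (Fin 4 → ℤ)), 0 ≤ L → 0 ≤ a → Fam E L →
  (∀ x ∈ E, ¬ Deg x) →
  (∀ x ∈ E, R (fun v => ¬ (v i = e ∧ v l = q) ∧ ¬ (v j = e ∧ v l = q')) x ≤ c) →
  (∀ x ∈ E, R (fun v => v i = e ∧ v l = q) x ≤ a) → (∀ x ∈ E, R (fun v => v j = e ∧ v l = q') x ≤ a) →
  (∀ x ∈ E, w ≤ R (fun v => v k ≠ 0 ∧ v l ≠ 0) x) →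
  (E.card : ℝ) ≤ D * Real.exp (ε * L) * (Real.exp c + Real.exp (c + a - w / 2))

/-- DG (given S_CN). PROOF. Divide `u` by the gcd of the three `u i`, `i ≠ l`: then they are pairwise coprime; as the three `x i`, `i ≠ l`, have no common
prime (it would divide `x l`), `|x i| = |u i| ^ e`. Some `|u i| ≥ 2`, so `2 ^ e ≤ exp L`: at most `2 L + 1` values of `e`. The product of the radicals of the three
`u i` is `≤ exp L`, so two of them have radicals with product `≤ exp (2 L / 3)`: choose these radicals, then the two `u i` (CN), the third is `-` the sum;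
then the signs of the `x i`. -/
def S_DG : Prop := ∀ ε : ℝ, 0 < ε → ∃ D : ℝ, 0 < D ∧ ∀ (L : ℝ) (E : Finset (Fin 4 → ℤ)), 0 ≤ L → Fam E L →
  (∀ x ∈ E, Deg x ∧ R (fun _ => True) x ≤ L) → (E.card : ℝ) ≤ D * Real.exp ((2 / 3 + ε) * L)

/-- the mass of the type `{i, j}`; `m i j p q` = mass of the primes with exponents `p` in `x i` and `q` in `x j` -/
noncomputable def U (E : ℕ) (m : Fin 4 → Fin 4 → ℕ → ℕ → ℝ) (i j : Fin 4) : ℝ :=
  ∑ p ∈ Icc 1 E, ∑ q ∈ Icc 1 E, m i j p q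

/-- AR: no distribution of masses makes all strategies fail. `η = 1/6000`, `κ = 1/100000`, `z = η + κ`. `s` = masses of the types `{l}`, `t` = mass of
the tail. PROOF. (a) `U k l + s l < ρ - 5/6 + η ≤ 1/6 + z`; the sum over the 12 pairs gives `∑ s ≤ 12 z`, `P = ∑_{i<j} U ≥ 1 - 13.2 z`, so every
`1/6 - 18.2 z ≤ U i j ≤ 1/6 + z`. (b) N2: `∑_p m i j p p < 19.2 z`. (c) N4: no partial sum `σ` of the masses `m i l e q` (`i ≠ l`, `q`; `l`, `e` fixed) is in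
`[1/6 + z, 1/3 - 55.6 z]`. Call a mass an atom if it is `≥ A = 1/6 - 56.6 z`. (d) N5: two atoms of the same `(l, e)`: they are in different types `i ≠ j` (as `2 A > 1/6 + z`), `q, q' ≠ e` by (b), and
N5 gives a contradiction. (e) so at most one atom for each `(l, e)`; greedy partial sums: without atom the sum `τ (l, e)` of all these masses is `< 1/6 + z`; with one
atom the sum of the others is `< 57.6 z` (otherwise a partial sum of the others is in `[57.6 z, A]`, add the atom). So `τ (l, e) < 1/6 + 58.6 z` and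
`T e := ∑_l τ (l, e) < 2/3 + 234.4 z`. (f) `∑_e T e = 2 P`, `∑ e T e ≤ 4 + κ`: `2 T 1 + T 2 ≥ 2 - 80.2 z + ∑_{e ≥ 4} (e - 3) T e`, so `∑_{e ≥ 4} T e < 783.4 z`. The mass with both exponents `≥ 2` is
`≥ P - T 1 ≥ 1/3 - 247.6 z`: some pair `{k, l}` has at least `1/18 - 41.3 z` of it: `W k l ≥ 2/9 - 59.5 z`. For the complementary pair `{i, j}`: `∑_e G e = U i k + U i l + U j k + U j l ≥ 2/3 - 72.8 z`, `∑_{e ≥ 4} G e ≤ ∑_{e≥4} T e < 783.4 z`,
so `G e ≥ 2/9 - 285.4 z ≥ 1/6 + z` for some `e ≤ 3`: contradiction to N3. -/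
def S_AR : Prop := ∀ (E : ℕ) (m : Fin 4 → Fin 4 → ℕ → ℕ → ℝ) (s : Fin 4 → ℝ) (t ρ : ℝ), 3 ≤ E →
  (∀ i j p q, 0 ≤ m i j p q) → (∀ i j p q, m i j p q = m j i q p) → (∀ i, 0 ≤ s i) → 0 ≤ t →
  t ≤ 1 / 100000 → ρ ≤ 1 + 1 / 100000 →
  ρ = (U E m 0 1 + U E m 0 2 + U E m 0 3 + U E m 1 2 + U E m 1 3 + U E m 2 3) + ∑ i, s i + t →
  (∑ i : Fin 4, ∑ j : Fin 4, (if i = j then 0 else
    ∑ p ∈ Icc 1 E, ∑ q ∈ Icc 1 E, ((p : ℝ) + q) * m i j p q)) ≤ 2 * (4 + 1 / 100000) →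
  (∀ k l, k ≠ l → 5 / 6 - 1 / 6000 < ρ - U E m k l - s l) →
  (∀ i j k l, Dist4 i j k l → 5 / 6 - 1 / 6000 < ρ - U E m k l - ∑ p ∈ Icc 1 E, m i j p p) →
  (∀ i j k l, Dist4 i j k l → ∀ e ∈ Icc 1 E, 5 / 6 - 1 / 6000 < ρ - min
    (∑ q ∈ Icc 1 E, (m i k e q + m i l e q + m j k e q + m j l e q))
    (∑ p ∈ Icc 1 E, ∑ q ∈ Icc 1 E, ((min p q : ℕ) : ℝ) * m k l p q)) →
  (∀ l : Fin 4, ∀ e ∈ Icc 1 E, ∀ Sel : Finset (Fin 4 × ℕ), (∀ y ∈ Sel, y.1 ≠ l ∧ y.2 ∈ Icc 1 E) →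
    5 / 6 - 1 / 6000 < ρ - min (∑ y ∈ Sel, m y.1 l e y.2)
      ((∑ i ∈ univ.erase l, U E m i l) - ∑ y ∈ Sel, m y.1 l e y.2)) →
  (∀ i j k l, Dist4 i j k l → ∀ e ∈ Icc 1 E, ∀ q ∈ Icc 1 E, ∀ q' ∈ Icc 1 E, e ≠ q → e ≠ q' →
    5 / 6 - 1 / 6000 < ρ - m i l e q - m j l e q' +
      max 0 (max (m i l e q) (m j l e q') - U E m k l / 2)) →
  False

end Pool.Agent.Helper54.Q
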