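import Mathlib
import Pool.Agent.Helper54.Q.Stm

set_option autoImplicit false

/-! Module SA, first part (helper23): roots of unity modulo odd numbers, cells, fibres. -/

namespace Pool.Agent.Helper54.Q.SA

open Finset

/-- counting by fibres -/
lemma fib {α β : Type*} [DecidableEq β] (E : Finset α) (f : α → β) (A B : ℝ) (hB : 0 ≤ B)
    (h1 : ((E.image f).card : ℝ) ≤ A)
    (h2 : ∀ y, ((E.filter (fun x => f x = y)).card : ℝ) ≤ B) : (E.card : ℝ) ≤ A * B := by
  have h3 : (E.card : ℝ) = ∑ y ∈ E.image f, ((E.filter (fun x => f x = y)).card : ℝ) := by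
    have := Finset.card_eq_sum_card_image f E
    exact_mod_cast this
  rw [h3]
  calc ∑ y ∈ E.image f, ((E.filter (fun x => f x = y)).card : ℝ) ≤ ∑ _y ∈ E.image f, B :=
        sum_le_sum fun y _ => h2 y
    _ = ((E.image f).card : ℝ) * B := by rw [sum_const, nsmul_eq_mul]
    _ ≤ A * B := mul_le_mul_of_nonneg_right h1 hB

/-- the number of the roots of unity modulo an odd number -/
lemma roots (e : ℕ) (he : 1 ≤ e) (h : ℕ) (hodd : ¬ 2 ∣ h) :
    Nat.card {z : ZMod h // z ^ e = 1} ≤ e ^ h.primeFactors.card := by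
  induction h using Nat.recOnPosPrimePosCoprime with
  | prime_pow p n hp hn =>
    have hp2 : p ≠ 2 := by
      rintro rfl
      exact hodd (dvd_pow_self 2 hn.ne')
    have : Fact p.Prime := ⟨hp⟩
    have : NeZero (p ^ n) := ⟨pow_ne_zero _ hp.ne_zero⟩
    have hcyc : IsCyclic (ZMod (p ^ n))ˣ := ZMod.isCyclic_units_of_prime_pow p hp hp2 n
    have h1 := IsCyclic.card_pow_eq_one_le (α := (ZMod (p ^ n))ˣ) (n := e) he
    rw [Nat.primeFactors_prime_pow hn.ne' hp, card_singleton, pow_one]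
    refine le_trans ?_ h1
    rw [← Fintype.card_coe, ← Nat.card_eq_fintype_card]
    have hu : ∀ z : ZMod (p ^ n), z ^ e = 1 → IsUnit z := fun z hz =>
      IsUnit.of_mul_eq_one (z ^ (e - 1)) (by rw [← pow_succ', Nat.sub_add_cancel he, hz])
    refine Nat.card_le_card_of_injective (fun z => ⟨(hu z.1 z.2).unit, ?_⟩) ?_
    · rw [mem_filter]
      refine ⟨mem_univ _, ?_⟩
      apply Units.ext
      rw [Units.val_pow_eq_pow_val, IsUnit.unit_spec, z.2, Units.val_one]
    · intro z z' hzz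
      have h2 := congrArg (fun u => ((u.1 : (ZMod (p ^ n))ˣ) : ZMod (p ^ n))) hzz
      exact Subtype.ext h2
  | zero => exact absurd (dvd_zero 2) hodd
  | one =>
    rw [Nat.primeFactors_one, card_empty, pow_zero]
    have : Subsingleton (ZMod 1) := inferInstance
    exact Finite.card_le_one_iff_subsingleton.2 ⟨fun a b => Subtype.ext (Subsingleton.elim _ _)⟩
  | coprime a b ha hb hab iha ihb =>
    have ha2 : ¬ 2 ∣ a := fun hh => hodd (hh.mul_right b)
    have hb2 : ¬ 2 ∣ b := fun hh => hodd (hh.mul_left a)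
    have : NeZero a := ⟨by omega⟩
    have : NeZero b := ⟨by omega⟩
    rw [hab.primeFactors_mul, card_union_of_disjoint hab.disjoint_primeFactors, pow_add]
    have h1 : Nat.card {z : ZMod (a * b) // z ^ e = 1} ≤
        Nat.card ({z : ZMod a // z ^ e = 1} × {z : ZMod b // z ^ e = 1}) := by
      have φ := ZMod.chineseRemainder hab
      refine Nat.card_le_card_of_injective (fun z => (⟨(φ z.1).1, ?_⟩, ⟨(φ z.1).2, ?_⟩)) ?_
      · rw [← Prod.pow_fst, ← map_pow, z.2, map_one, Prod.fst_one]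
      · rw [← Prod.pow_snd, ← map_pow, z.2, map_one, Prod.snd_one]
      · intro z z' hzz
        rw [Prod.mk.injEq] at hzz
        apply Subtype.ext
        apply φ.injective
        exact Prod.ext (congrArg Subtype.val hzz.1) (congrArg Subtype.val hzz.2)
    rw [Nat.card_prod] at h1
    exact h1.trans (Nat.mul_le_mul (iha ha2) (ihb hb2))

/-- the classes modulo `h` -/
lemma classes (e : ℕ) (he : 1 ≤ e) (h : ℕ) (hh : h ≠ 0) (hodd : ¬ 2 ∣ h) (Z : Finset (ZMod h)) (θ : ZMod h)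
    (hZ : ∀ z ∈ Z, IsUnit z ∧ z ^ e = θ) : Z.card ≤ e ^ h.primeFactors.card := by
  classical
  have : NeZero h := ⟨hh⟩
  rcases Z.eq_empty_or_nonempty with rfl | ⟨z₀, hz₀⟩
  · simp
  refine le_trans ?_ (roots e he h hodd)
  rw [← Fintype.card_coe, ← Nat.card_eq_fintype_card]
  obtain ⟨u₀, hu₀⟩ := (hZ z₀ hz₀).1
  have hθ : (u₀ : ZMod h) ^ e = θ := by rw [hu₀]; exact (hZ z₀ hz₀).2
  refine Nat.card_le_card_of_injective (fun z => ⟨z.1 * ((u₀⁻¹ : (ZMod h)ˣ) : ZMod h), ?_⟩) ?_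
  · rw [mul_pow, (hZ z.1 z.2).2, ← hθ, ← mul_pow, Units.mul_inv, one_pow]
  · intro z z' hzz
    have h1 := congrArg Subtype.val hzz
    apply Subtype.ext
    have h2 := congrArg (fun y => y * (u₀ : ZMod h)) h1
    simpa only [mul_assoc, Units.inv_mul, mul_one] using h2

/-- two points in the same cell are equal -/
lemma cell (h v q s t s' t' : ℕ) (hh : 1 ≤ h) (hs : 1 ≤ s) (ht : 1 ≤ t) (hs' : 1 ≤ s') (ht' : 1 ≤ t')
    (hc : Nat.Coprime s t) (hc' : Nat.Coprime s' t') (htv : t < 2 ^ (v + 1)) (htv' : t' < 2 ^ (v + 1))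
    (hq : 4 * 4 ^ v * s / (h * t) = q) (hq' : 4 * 4 ^ v * s' / (h * t') = q)
    (hmod : (h : ℤ) ∣ (s : ℤ) * t' - s' * t) : s = s' ∧ t = t' := by
  have hM : 4 * 4 ^ v = 2 ^ (v + 1) * 2 ^ (v + 1) := by
    rw [← pow_add, show (4 : ℕ) = 2 ^ 2 by norm_num, ← pow_mul, ← pow_add]
    congr 1
    ring
  have htt : t * t' < 4 * 4 ^ v := by
    rw [hM]
    exact Nat.mul_lt_mul'' htv htv'
  have hht : 0 < h * t := Nat.mul_pos hh ht
  have hht' : 0 < h * t' := Nat.mul_pos hh ht'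
  obtain ⟨M, hMd⟩ : ∃ M, M = 4 * 4 ^ v := ⟨_, rfl⟩
  rw [← hMd] at hq hq' htt
  have a1 : q * (h * t) ≤ M * s := by rw [← hq]; exact Nat.div_mul_le_self _ _
  have a2 : M * s < (q + 1) * (h * t) := by
    rw [← hq]
    exact Nat.lt_mul_of_div_lt (Nat.lt_succ_self _) hht
  have b1 : q * (h * t') ≤ M * s' := by rw [← hq']; exact Nat.div_mul_le_self _ _
  have b2 : M * s' < (q + 1) * (h * t') := by
    rw [← hq']
    exact Nat.lt_mul_of_div_lt (Nat.lt_succ_self _) hht'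
  have hM0 : 0 < M := by omega
  have key : ∀ s t s' t' : ℕ, 1 ≤ t → 1 ≤ t' → t * t' < M → q * (h * t) ≤ M * s → M * s < (q + 1) * (h * t) →
      q * (h * t') ≤ M * s' → M * s' < (q + 1) * (h * t') → (s : ℤ) * t' - s' * t < h := by
    intro s t s' t' ht ht' htt a1 a2 b1 b2
    have c1 : (M * s) * t' < ((q + 1) * (h * t)) * t' := Nat.mul_lt_mul_of_pos_right a2 ht'
    have c2 : (q * (h * t')) * t ≤ (M * s') * t := Nat.mul_le_mul_right _ b1
    have c3 : h * (t * t') < h * M := Nat.mul_lt_mul_of_pos_left htt hh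
    have c1' : (M : ℤ) * s * t' < (q + 1) * (h * t) * t' := by exact_mod_cast c1
    have c2' : (q : ℤ) * (h * t') * t ≤ M * s' * t := by exact_mod_cast c2
    have c3' : (h : ℤ) * (t * t') < h * M := by exact_mod_cast c3
    have hM0' : (0 : ℤ) < M := by exact_mod_cast hM0
    have c4 : (M : ℤ) * ((s : ℤ) * t' - s' * t) < M * h := by nlinarith
    exact lt_of_mul_lt_mul_left c4 hM0'.le
  have k1 := key s t s' t' ht ht' htt a1 a2 b1 b2
  have k2 := key s' t' s t ht' ht (by rw [mul_comm]; exact htt) b1 b2 a1 a2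
  have k3 : (s : ℤ) * t' - s' * t = 0 := by
    apply Int.eq_zero_of_abs_lt_dvd hmod
    rw [abs_lt]
    constructor <;> linarith
  have k4 : s * t' = s' * t := by exact_mod_cast sub_eq_zero.1 k3
  have d1 : s ∣ s' := hc.dvd_of_dvd_mul_right (Dvd.intro _ k4)
  have d2 : s' ∣ s := hc'.dvd_of_dvd_mul_right (Dvd.intro _ k4.symm)
  have d3 : s = s' := Nat.dvd_antisymm d1 d2
  refine ⟨d3, ?_⟩
  rw [← d3] at k4
  exact (Nat.eq_of_mul_eq_mul_left (by omega) k4).symm

/-- the number of the cells -/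
lemma cell_le (h v s t : ℕ) (X : ℝ) (hh : 1 ≤ h) (ht : 1 ≤ t) (htv : 2 ^ v ≤ t) (hst : (s : ℝ) * t ≤ X) :
    4 * 4 ^ v * s / (h * t) ∈ range (⌊4 * X / h⌋₊ + 1) := by
  rw [mem_range, Nat.lt_succ_iff]
  apply Nat.le_floor
  have h0 : (0 : ℝ) < h := by exact_mod_cast hh
  have ht0 : (0 : ℝ) < t := by exact_mod_cast ht
  have h1 : ((4 * 4 ^ v * s / (h * t) : ℕ) : ℝ) ≤ ((4 * 4 ^ v * s : ℕ) : ℝ) / ((h * t : ℕ) : ℝ) := Nat.cast_div_le
  refine h1.trans ?_
  push_cast
  have h2 : (4 : ℝ) ^ v ≤ (t : ℝ) * t := by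
    have : (4 : ℕ) ^ v ≤ t * t := by
      calc 4 ^ v = 2 ^ v * 2 ^ v := by rw [← mul_pow]; norm_num
        _ ≤ t * t := Nat.mul_le_mul htv htv
    exact_mod_cast this
  rw [div_le_div_iff₀ (by positivity) h0]
  have h3 : 4 * (4 : ℝ) ^ v * s * h ≤ 4 * (t * t) * s * h := by gcongr
  have h4 : 4 * ((s : ℝ) * t) * (h * t) ≤ 4 * X * (h * t) := by gcongr
  nlinarith

/-- the number of the prime divisors: a power of a fixed number with this exponent is small -/
lemma omega_le (hCN : S_CN) (e : ℕ) (he : 1 ≤ e) (ε : ℝ) (hε : 0 < ε) :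
    ∃ D : ℝ, 0 < D ∧ ∀ (L : ℝ) (h : ℕ), 0 ≤ L → h ≠ 0 → (h : ℝ) ≤ Real.exp L →
      ((e ^ h.primeFactors.card : ℕ) : ℝ) ≤ D * Real.exp (ε * L) := by
  have he0 : (0 : ℝ) < e := by exact_mod_cast he
  obtain ⟨D, hD, hC⟩ := hCN (ε / e) (by positivity)
  refine ⟨D ^ e, by positivity, fun L h hL hh hhL => ?_⟩
  classical
  have h1 := hC L h ((h.primeFactors.powerset).image (fun S => ((∏ p ∈ S, p : ℕ) : ℤ))) hL hh (by
    refine hhL.trans ?_
    calc Real.exp L ≤ Real.exp (9 * L) := Real.exp_le_exp.2 (by linarith)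
      _ ≤ 16 * Real.exp (9 * L) := by linarith [Real.exp_pos (9 * L)]) (by
    intro a ha
    rw [mem_image] at ha
    obtain ⟨S, hS, rfl⟩ := ha
    rw [mem_powerset] at hS
    have hd : ∏ p ∈ S, p ∣ h := (prod_dvd_prod_of_subset _ _ _ hS).trans (Nat.prod_primeFactors_dvd h)
    have hpos : 0 < ∏ p ∈ S, p := Nat.pos_of_dvd_of_pos hd (Nat.pos_of_ne_zero hh)
    refine ⟨by exact_mod_cast hpos.ne', ?_, ?_⟩
    · rw [Int.cast_natCast, abs_of_nonneg (Nat.cast_nonneg _)]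
      refine le_trans ?_ hhL
      exact_mod_cast Nat.le_of_dvd (Nat.pos_of_ne_zero hh) hd
    · intro p _ hp
      exact (Int.natCast_dvd_natCast.1 hp).trans hd)
  have hinj : ((h.primeFactors.powerset).image (fun S => ((∏ p ∈ S, p : ℕ) : ℤ))).card =
      2 ^ h.primeFactors.card := by
    rw [card_image_of_injOn, card_powerset]
    intro S hS T hT hST
    rw [mem_coe, mem_powerset] at hS hT
    have hST' : ((∏ p ∈ S, p : ℕ) : ℤ) = ((∏ p ∈ T, p : ℕ) : ℤ) := hST
    have h2 : ∏ p ∈ S, p = ∏ p ∈ T, p := Int.natCast_inj.1 hST'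
    rw [← Nat.primeFactors_prod (s := S) (fun p hp => Nat.prime_of_mem_primeFactors (hS hp)), h2,
      Nat.primeFactors_prod (fun p hp => Nat.prime_of_mem_primeFactors (hT hp))]
  rw [hinj] at h1
  have h3 : ((e ^ h.primeFactors.card : ℕ) : ℝ) ≤ (((2 ^ h.primeFactors.card : ℕ) : ℝ)) ^ e := by
    have : e ^ h.primeFactors.card ≤ (2 ^ h.primeFactors.card) ^ e := by
      calc e ^ h.primeFactors.card ≤ (2 ^ e) ^ h.primeFactors.card := Nat.pow_le_pow_left (Nat.lt_two_pow_self).le _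
        _ = (2 ^ h.primeFactors.card) ^ e := by rw [← pow_mul, ← pow_mul, mul_comm]
    exact_mod_cast this
  refine h3.trans ?_
  calc (((2 ^ h.primeFactors.card : ℕ) : ℝ)) ^ e ≤ (D * Real.exp (ε / e * L)) ^ e :=
        pow_le_pow_left₀ (Nat.cast_nonneg _) h1 e
    _ = D ^ e * Real.exp (ε * L) := by
        rw [mul_pow, ← Real.exp_nat_mul]
        congr 2
        field_simp

end Pool.Agent.Helper54.Q.SA
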