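import Mathlib
import Pool.Agent.Helper54.Q.SA1

set_option autoImplicit false

/-! Module SA, second part (helper23): the numbers attached to a quadruple. -/

namespace Pool.Agent.Helper54.Q.SA

open Finset

lemma sum4 (i j k l : Fin 4) (h : Dist4 i j k l) (f : Fin 4 → ℤ) : ∑ m, f m = f i + f j + f k + f l := by
  have h1 : (univ : Finset (Fin 4)) = {i, j, k, l} := by
    revert h
    unfold Dist4
    revert i j k l
    decide
  obtain ⟨a, b, c, d, g, m⟩ := h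
  rw [h1, sum_insert (by simp [a, b, c]), sum_insert (by simp [d, g]), sum_insert (by simp [m]), sum_singleton]
  ring

lemma vl_ne {x : Fin 4 → ℤ} (hx : ∀ i, x i ≠ 0) {p : ℕ} (hp : p.Prime) (i : Fin 4) :
    vl x p i ≠ 0 ↔ (p : ℤ) ∣ x i := by
  unfold vl
  rw [Int.natCast_dvd, Ne, Nat.factorization_eq_zero_iff]
  have : (x i).natAbs ≠ 0 := Int.natAbs_ne_zero.2 (hx i)
  tauto

lemma mem_PP {x : Fin 4 → ℤ} (hx : ∀ i, x i ≠ 0) (p : ℕ) :
    p ∈ PP x ↔ p.Prime ∧ ∃ i, (p : ℤ) ∣ x i := by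
  unfold PP
  rw [mem_biUnion]
  constructor
  · rintro ⟨i, _, hi⟩
    exact ⟨Nat.prime_of_mem_primeFactors hi, i, Int.natCast_dvd.2 (Nat.dvd_of_mem_primeFactors hi)⟩
  · rintro ⟨hp, i, hi⟩
    exact ⟨i, mem_univ _, Nat.mem_primeFactors.2 ⟨hp, Int.natCast_dvd.1 hi, Int.natAbs_ne_zero.2 (hx i)⟩⟩

lemma PP_prime {x : Fin 4 → ℤ} {p : ℕ} (hp : p ∈ PP x) : p.Prime := by
  unfold PP at hp
  rw [mem_biUnion] at hp
  obtain ⟨i, _, hi⟩ := hp
  exact Nat.prime_of_mem_primeFactors hi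

open Classical in
/-- the product of the selected primes -/
noncomputable def sp (Q : (Fin 4 → ℕ) → Prop) (x : Fin 4 → ℤ) : ℕ :=
  ∏ p ∈ (PP x).filter (fun p => Q (vl x p)), p

lemma sp_pos (Q : (Fin 4 → ℕ) → Prop) (x : Fin 4 → ℤ) : 0 < sp Q x := by
  classical
  unfold sp
  exact prod_pos fun p hp => (PP_prime (mem_filter.1 hp).1).pos

lemma log_sp (Q : (Fin 4 → ℕ) → Prop) (x : Fin 4 → ℤ) : Real.log (sp Q x) = R Q x := by
  classical
  unfold sp R W
  rw [Nat.cast_prod, Real.log_prod]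
  · refine sum_congr ?_ fun p _ => ?_
    · congr
    · simp
  · intro p hp
    exact_mod_cast (PP_prime (mem_filter.1 hp).1).ne_zero

lemma prime_dvd_sp (Q : (Fin 4 → ℕ) → Prop) (x : Fin 4 → ℤ) {p : ℕ} (hp : p.Prime) :
    p ∣ sp Q x ↔ p ∈ PP x ∧ Q (vl x p) := by
  classical
  unfold sp
  rw [hp.prime.dvd_finsetProd_iff]
  constructor
  · rintro ⟨q, hq, hpq⟩
    rw [mem_filter] at hq
    have : p = q := (Nat.prime_dvd_prime_iff_eq hp (PP_prime hq.1)).1 hpq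
    rw [this]
    exact hq
  · intro h
    exact ⟨p, mem_filter.2 h, dvd_rfl⟩

/-- the factorization over a set of primes -/
lemma split (x : Fin 4 → ℤ) (hx : ∀ i, x i ≠ 0) (i : Fin 4) (e : ℕ) (he : 1 ≤ e) (Q : (Fin 4 → ℕ) → Prop)
    (hQ : ∀ v, Q v → v i = e) :
    ∃ α : ℤ, x i = α * (sp Q x : ℤ) ^ e ∧ ∀ p : ℕ, p.Prime → (p : ℤ) ∣ α → p ∈ PP x ∧ ¬ Q (vl x p) := by
  classical
  have hn : (x i).natAbs ≠ 0 := Int.natAbs_ne_zero.2 (hx i)
  have h1 : ∏ p ∈ (x i).natAbs.primeFactors, p ^ (x i).natAbs.factorization p = (x i).natAbs := by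
    rw [← Nat.prod_factorization_eq_prod_primeFactors, Nat.prod_factorization_pow_eq_self hn]
  have hsub : (PP x).filter (fun p => Q (vl x p)) ⊆ (x i).natAbs.primeFactors := by
    intro p hp
    rw [mem_filter] at hp
    have hpp := PP_prime hp.1
    have h2 : vl x p i ≠ 0 := by rw [hQ _ hp.2]; omega
    rw [vl_ne hx hpp] at h2
    exact Nat.mem_primeFactors.2 ⟨hpp, Int.natCast_dvd.1 h2, hn⟩
  have h2 : ∏ p ∈ (PP x).filter (fun p => Q (vl x p)), p ^ (x i).natAbs.factorization p = sp Q x ^ e := by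
    unfold sp
    rw [← prod_pow]
    refine prod_congr rfl fun p hp => ?_
    rw [mem_filter] at hp
    have := hQ _ hp.2
    unfold vl at this
    rw [this]
  rw [← prod_sdiff hsub, h2] at h1
  obtain ⟨m, hm⟩ : ∃ m, m = ∏ p ∈ (x i).natAbs.primeFactors \ (PP x).filter (fun p => Q (vl x p)),
    p ^ (x i).natAbs.factorization p := ⟨_, rfl⟩
  rw [← hm] at h1
  refine ⟨Int.sign (x i) * m, ?_, ?_⟩
  · have h3 : x i = Int.sign (x i) * (x i).natAbs := (Int.sign_mul_natAbs (x i)).symm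
    rw [mul_assoc]
    conv_lhs => rw [h3, ← h1]
    push_cast
    ring
  · intro p hp hpm
    have h4 : p ∣ m := by
      rw [Int.natCast_dvd, Int.natAbs_mul, Int.natAbs_sign_of_ne_zero (hx i), one_mul, Int.natAbs_natCast] at hpm
      exact hpm
    rw [hm, hp.prime.dvd_finsetProd_iff] at h4
    obtain ⟨q, hq, hpq⟩ := h4
    rw [mem_sdiff] at hq
    have hqp := Nat.prime_of_mem_primeFactors hq.1
    have h5 : p = q := (Nat.prime_dvd_prime_iff_eq hp hqp).1 (hp.dvd_of_dvd_pow hpq)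
    rw [h5]
    have h6 : q ∈ PP x := (mem_PP hx q).2 ⟨hqp, i, Int.natCast_dvd.2 (Nat.dvd_of_mem_primeFactors hq.1)⟩
    refine ⟨h6, fun h7 => hq.2 (mem_filter.2 ⟨h6, h7⟩)⟩

lemma all4 (i j k l : Fin 4) (h : Dist4 i j k l) : ∀ m : Fin 4, m = i ∨ m = j ∨ m = k ∨ m = l := by
  revert h
  unfold Dist4
  revert i j k l
  decide

/-- at most two exponents are not zero -/
lemma two (x : Fin 4 → ℤ) (hx : Adm x) (i j k l : Fin 4) (h : Dist4 i j k l) (p : ℕ) (hp : p.Prime)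
    (hk : (p : ℤ) ∣ x k) (hl : (p : ℤ) ∣ x l) : ¬ (p : ℤ) ∣ x i ∧ ¬ (p : ℤ) ∣ x j := by
  have hs := hx.sum
  rw [sum4 i j k l h] at hs
  have hall : (p : ℤ) ∣ x i → (p : ℤ) ∣ x j → False := by
    intro hi hj
    obtain ⟨m, hm⟩ := hx.prim p hp
    apply hm
    rcases all4 i j k l h m with rfl | rfl | rfl | rfl <;> assumption
  constructor
  · intro hi
    refine hall hi ?_
    have : x j = -(x i + x k + x l) := by linarith
    rw [this]
    exact (Dvd.dvd.add (hi.add hk) hl).neg_right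
  · intro hj
    refine hall ?_ hj
    have : x i = -(x j + x k + x l) := by linarith
    rw [this]
    exact (Dvd.dvd.add (hj.add hk) hl).neg_right

open Classical in
/-- the modulus -/
noncomputable def hm (k l : Fin 4) (B : ℕ) (x : Fin 4 → ℤ) : ℕ :=
  ∏ p ∈ (PP x).filter (fun p => p ≠ 2 ∧ vl x p k ≠ 0 ∧ vl x p l ≠ 0 ∧ vl x p k ≤ B ∧ vl x p l ≤ B),
    p ^ min (vl x p k) (vl x p l)

lemma hm_prime {k l : Fin 4} {B : ℕ} {x : Fin 4 → ℤ} {p : ℕ} (hp : p.Prime) (h : p ∣ hm k l B x) :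
    p ≠ 2 ∧ p ∈ PP x ∧ vl x p k ≠ 0 ∧ vl x p l ≠ 0 := by
  classical
  unfold hm at h
  rw [hp.prime.dvd_finsetProd_iff] at h
  obtain ⟨q, hq, hpq⟩ := h
  rw [mem_filter] at hq
  have h5 : p = q := (Nat.prime_dvd_prime_iff_eq hp (PP_prime hq.1)).1 (hp.dvd_of_dvd_pow hpq)
  rw [h5]
  exact ⟨hq.2.1, hq.1, hq.2.2.1, hq.2.2.2.1⟩

lemma hm_pos (k l : Fin 4) (B : ℕ) (x : Fin 4 → ℤ) : 0 < hm k l B x := by
  classical
  unfold hm
  exact prod_pos fun p hp => pow_pos (PP_prime (mem_filter.1 hp).1).pos _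

lemma hm_odd (k l : Fin 4) (B : ℕ) (x : Fin 4 → ℤ) : ¬ 2 ∣ hm k l B x :=
  fun h => (hm_prime Nat.prime_two h).1 rfl

lemma hm_dvd (k l : Fin 4) (B : ℕ) (x : Fin 4 → ℤ) (hx : ∀ i, x i ≠ 0) :
    (hm k l B x : ℤ) ∣ x k ∧ (hm k l B x : ℤ) ∣ x l := by
  classical
  have key : ∀ i : Fin 4, (i = k ∨ i = l) → (hm k l B x : ℤ) ∣ x i := by
    intro i hi
    rw [Int.natCast_dvd]
    have hn : (x i).natAbs ≠ 0 := Int.natAbs_ne_zero.2 (hx i)
    have h1 : ∏ p ∈ (x i).natAbs.primeFactors, p ^ (x i).natAbs.factorization p = (x i).natAbs := by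
      rw [← Nat.prod_factorization_eq_prod_primeFactors, Nat.prod_factorization_pow_eq_self hn]
    conv_rhs => rw [← h1]
    unfold hm
    refine (prod_dvd_prod_of_dvd _ (fun p => p ^ (x i).natAbs.factorization p) ?_).trans (prod_dvd_prod_of_subset _ _ _ ?_)
    · intro p _
      refine pow_dvd_pow _ ?_
      rcases hi with rfl | rfl
      · exact min_le_left _ _
      · exact min_le_right _ _
    · intro p hp
      rw [mem_filter] at hp
      have hpp := PP_prime hp.1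
      have h2 : vl x p i ≠ 0 := by
        rcases hi with rfl | rfl
        · exact hp.2.2.1
        · exact hp.2.2.2.1
      rw [vl_ne hx hpp] at h2
      exact Nat.mem_primeFactors.2 ⟨hpp, Int.natCast_dvd.1 h2, hn⟩
  exact ⟨key k (Or.inl rfl), key l (Or.inr rfl)⟩

lemma hm_log (k l : Fin 4) (B : ℕ) (x : Fin 4 → ℤ) :
    W (fun v => v k ≠ 0 ∧ v l ≠ 0 ∧ v k ≤ B ∧ v l ≤ B) (fun v => min (v k) (v l)) x ≤
      Real.log (hm k l B x) + B * Real.log 2 := by
  classical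
  have h1 : Real.log (hm k l B x) = ∑ p ∈ (PP x).filter (fun p => p ≠ 2 ∧ vl x p k ≠ 0 ∧ vl x p l ≠ 0 ∧ vl x p k ≤ B ∧
      vl x p l ≤ B), ((min (vl x p k) (vl x p l) : ℕ) : ℝ) * Real.log p := by
    unfold hm
    rw [Nat.cast_prod, Real.log_prod]
    · refine sum_congr ?_ fun p _ => ?_
      · congr
      · rw [Nat.cast_pow, Real.log_pow]
    · intro p hp
      exact_mod_cast pow_ne_zero _ (PP_prime (mem_filter.1 hp).1).ne_zero
  rw [h1]
  unfold W
  obtain ⟨F, hF⟩ : ∃ F, F = (PP x).filter (fun p => vl x p k ≠ 0 ∧ vl x p l ≠ 0 ∧ vl x p k ≤ B ∧ vl x p l ≤ B) := ⟨_, rfl⟩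
  have h2 : (PP x).filter (fun p => p ≠ 2 ∧ vl x p k ≠ 0 ∧ vl x p l ≠ 0 ∧ vl x p k ≤ B ∧ vl x p l ≤ B) =
      F.filter (fun p => p ≠ 2) := by
    rw [hF, filter_filter]
    refine filter_congr fun p _ => ?_
    tauto
  have h3 : ∑ p ∈ (PP x).filter (fun p => vl x p k ≠ 0 ∧ vl x p l ≠ 0 ∧ vl x p k ≤ B ∧ vl x p l ≤ B),
      ((min (vl x p k) (vl x p l) : ℕ) : ℝ) * Real.log p =
      ∑ p ∈ F.filter (fun p => p ≠ 2), ((min (vl x p k) (vl x p l) : ℕ) : ℝ) * Real.log p +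
      ∑ p ∈ F.filter (fun p => ¬ p ≠ 2), ((min (vl x p k) (vl x p l) : ℕ) : ℝ) * Real.log p := by
    rw [← hF, sum_filter_add_sum_filter_not]
  have h4 : ∑ p ∈ F.filter (fun p => ¬ p ≠ 2), ((min (vl x p k) (vl x p l) : ℕ) : ℝ) * Real.log p ≤ B * Real.log 2 := by
    have h5 : F.filter (fun p => ¬ p ≠ 2) ⊆ {2} := by
      intro p hp
      rw [mem_filter, not_not] at hp
      rw [mem_singleton]
      exact hp.2
    have hl2 : 0 ≤ Real.log 2 := Real.log_nonneg (by norm_num)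
    by_cases h6 : 2 ∈ F
    · have h7 : F.filter (fun p => ¬ p ≠ 2) = {2} := by
        apply Subset.antisymm h5
        intro p hp
        rw [mem_singleton] at hp
        rw [mem_filter, not_not, hp]
        exact ⟨h6, rfl⟩
      rw [h7, sum_singleton]
      rw [hF, mem_filter] at h6
      have h8 : ((min (vl x 2 k) (vl x 2 l) : ℕ) : ℝ) ≤ B := by
        exact_mod_cast (min_le_left _ _).trans h6.2.2.2.1
      have h9 : Real.log ((2 : ℕ) : ℝ) = Real.log 2 := by norm_num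
      rw [h9]
      exact mul_le_mul_of_nonneg_right h8 hl2
    · have h7 : F.filter (fun p => ¬ p ≠ 2) = ∅ := by
        rw [filter_eq_empty_iff]
        intro p hp hp2
        rw [not_not] at hp2
        exact h6 (hp2 ▸ hp)
      rw [h7, sum_empty]
      positivity
  rw [h2]
  have h10 : ∑ p ∈ (PP x).filter (fun p => vl x p k ≠ 0 ∧ vl x p l ≠ 0 ∧ vl x p k ≤ B ∧ vl x p l ≤ B),
      ((min (vl x p k) (vl x p l) : ℕ) : ℝ) * Real.log p ≤
      ∑ p ∈ F.filter (fun p => p ≠ 2), ((min (vl x p k) (vl x p l) : ℕ) : ℝ) * Real.log p + B * Real.log 2 := by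
    rw [h3]
    linarith
  convert h10 using 2
  ext p
  simp only [mem_filter]

end Pool.Agent.Helper54.Q.SA
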