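import Mathlib
import Pool.Agent.Helper54.Q.SA2
import Pool.Agent.Helper29.Q.Sh2

set_option autoImplicit false

/-! Module SA (helper23; `codes` and `pr_le` are by helper29): the lattice argument with two exponents `e`. -/

namespace Pool.Agent.Helper54.Q.SA

open Finset

lemma sp_le_exp (Q : (Fin 4 → ℕ) → Prop) (x : Fin 4 → ℤ) (c : ℝ) (h : R Q x ≤ c) :
    (sp Q x : ℝ) ≤ Real.exp c := by
  have h1 : (0 : ℝ) < sp Q x := by exact_mod_cast sp_pos Q x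
  rw [← Real.exp_log h1, log_sp]
  exact Real.exp_le_exp.2 h

lemma sp_dvd (Q Q' : (Fin 4 → ℕ) → Prop) (h : ∀ v, Q v → Q' v) (x : Fin 4 → ℤ) : sp Q x ∣ sp Q' x := by
  classical
  unfold sp
  refine prod_dvd_prod_of_subset _ _ _ ?_
  intro p hp
  rw [mem_filter] at hp ⊢
  exact ⟨hp.1, h _ hp.2⟩

lemma sp_cop (Q Q' : (Fin 4 → ℕ) → Prop) (h : ∀ v, Q v → ¬ Q' v) (x : Fin 4 → ℤ) :
    Nat.Coprime (sp Q x) (sp Q' x) := by
  refine Nat.Coprime.symm (Nat.coprime_of_dvd fun p hp h1 h2 => ?_)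
  rw [prime_dvd_sp _ _ hp] at h1 h2
  exact h _ h2.2 h1.2

/-- the data attached to a quadruple -/
structure Dat (i j k : Fin 4) (e B : ℕ) (L c a w : ℝ) (x : Fin 4 → ℤ) (r s t h : ℕ) (α β : ℤ) : Prop where
  r0 : r ≠ 0
  s0 : 1 ≤ s
  t0 : 1 ≤ t
  h0 : 1 ≤ h
  hodd : ¬ 2 ∣ h
  rc : (r : ℝ) ≤ Real.exp c
  st : (s : ℝ) * t ≤ Real.exp a
  cop : Nat.Coprime s t
  xi : x i = α * (s : ℤ) ^ e
  xj : x j = β * (t : ℤ) ^ e
  α0 : α ≠ 0
  β0 : β ≠ 0
  αL : |(α : ℝ)| ≤ Real.exp L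
  βL : |(β : ℝ)| ≤ Real.exp L
  hL : (h : ℝ) ≤ Real.exp L
  tL : (t : ℝ) ≤ Real.exp L
  pα : ∀ p : ℕ, p.Prime → (p : ℤ) ∣ α → p ∣ r
  pβ : ∀ p : ℕ, p.Prime → (p : ℤ) ∣ β → p ∣ r
  ph : ∀ p : ℕ, p.Prime → p ∣ h → p ∣ r
  hs : Nat.Coprime s h
  ht : Nat.Coprime t h
  hα : IsCoprime (h : ℤ) α
  dv : (h : ℤ) ∣ x i + x j
  rst : ((r * s * t : ℕ) : ℝ) ≤ 16 * Real.exp (9 * L)
  pk : ∀ p : ℕ, p.Prime → (p : ℤ) ∣ x k → p ∣ r * s * t
  hw : Real.exp w ≤ 2 ^ B * h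

lemma abs_le_of_dvd (y z : ℤ) (hz : z ≠ 0) (h : y ∣ z) (X : ℝ) (hX : |(z : ℝ)| ≤ X) : |(y : ℝ)| ≤ X := by
  refine le_trans ?_ hX
  have h1 : |y| ≤ |z| := Int.le_of_dvd (abs_pos.2 hz) ((abs_dvd_abs _ _).2 h)
  exact_mod_cast h1

/-- the data exist -/
lemma dat (i j k l : Fin 4) (hd : Dist4 i j k l) (e B : ℕ) (he : 1 ≤ e) (L c a w : ℝ) (hL : 0 ≤ L)
    (x : Fin 4 → ℤ) (hx : Adm x) (hxL : ∀ m, |(x m : ℝ)| ≤ Real.exp L)
    (hc : R (fun v => ¬ selA i j e v) x ≤ c) (ha : R (selA i j e) x ≤ a)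
    (hw : w ≤ W (fun v => v k ≠ 0 ∧ v l ≠ 0 ∧ v k ≤ B ∧ v l ≤ B) (fun v => min (v k) (v l)) x) :
    Dat i j k e B L c a w x (sp (fun v => ¬ selA i j e v) x) (sp (fun v => v i = e ∧ v j = 0) x)
      (sp (fun v => v j = e ∧ v i = 0) x) (hm k l B x)
      (x i / (sp (fun v => v i = e ∧ v j = 0) x : ℤ) ^ e)
      (x j / (sp (fun v => v j = e ∧ v i = 0) x : ℤ) ^ e) := by
  have hn := hx.ne
  have he0 : e ≠ 0 := by omega
  obtain ⟨r, hr⟩ : ∃ r, r = sp (fun v => ¬ selA i j e v) x := ⟨_, rfl⟩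
  obtain ⟨s, hs⟩ : ∃ s, s = sp (fun v => v i = e ∧ v j = 0) x := ⟨_, rfl⟩
  obtain ⟨t, ht⟩ : ∃ t, t = sp (fun v => v j = e ∧ v i = 0) x := ⟨_, rfl⟩
  obtain ⟨α, hα, hα2⟩ := split x hn i e he (fun v => v i = e ∧ v j = 0) (fun v hv => hv.1)
  obtain ⟨β, hβ, hβ2⟩ := split x hn j e he (fun v => v j = e ∧ v i = 0) (fun v hv => hv.1)
  have hs0 : 0 < s := hs ▸ sp_pos _ _
  have ht0 : 0 < t := ht ▸ sp_pos _ _
  have hr0 : 0 < r := hr ▸ sp_pos _ _
  rw [← hs] at hα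
  rw [← ht] at hβ
  rw [← hr, ← hs, ← ht]
  have hse : (s : ℤ) ^ e ≠ 0 := pow_ne_zero _ (by exact_mod_cast hs0.ne')
  have hte : (t : ℤ) ^ e ≠ 0 := pow_ne_zero _ (by exact_mod_cast ht0.ne')
  have hαe : x i / (s : ℤ) ^ e = α := by rw [hα]; exact Int.mul_ediv_cancel _ hse
  have hβe : x j / (t : ℤ) ^ e = β := by rw [hβ]; exact Int.mul_ediv_cancel _ hte
  rw [hαe, hβe]
  have hαi : α ∣ x i := Dvd.intro _ hα.symm
  have hβj : β ∣ x j := Dvd.intro _ hβ.symm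
  -- the primes of the numbers
  have pr_r : ∀ p : ℕ, p.Prime → (p ∣ r ↔ p ∈ PP x ∧ ¬ selA i j e (vl x p)) := by
    intro p hp
    rw [hr]
    exact prime_dvd_sp _ _ hp
  have pr_s : ∀ p : ℕ, p.Prime → (p ∣ s ↔ p ∈ PP x ∧ (vl x p i = e ∧ vl x p j = 0)) := by
    intro p hp
    rw [hs]
    exact prime_dvd_sp _ _ hp
  have pr_t : ∀ p : ℕ, p.Prime → (p ∣ t ↔ p ∈ PP x ∧ (vl x p j = e ∧ vl x p i = 0)) := by
    intro p hp
    rw [ht]
    exact prime_dvd_sp _ _ hp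
  have pr_h : ∀ p : ℕ, p.Prime → p ∣ hm k l B x → p ∈ PP x ∧ vl x p i = 0 ∧ vl x p j = 0 ∧
      ¬ (p : ℤ) ∣ x i ∧ ¬ (p : ℤ) ∣ x j := by
    intro p hp h
    obtain ⟨_, h2, h3, h4⟩ := hm_prime hp h
    rw [vl_ne hn hp] at h3 h4
    have h5 := two x hx i j k l hd p hp h3 h4
    refine ⟨h2, ?_, ?_, h5.1, h5.2⟩
    · by_contra h6
      exact h5.1 ((vl_ne hn hp i).1 h6)
    · by_contra h6
      exact h5.2 ((vl_ne hn hp j).1 h6)
  have cst : Nat.Coprime s t := by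
    rw [hs, ht]
    refine sp_cop _ _ (fun v h1 h2 => ?_) x
    omega
  have crs : Nat.Coprime r s := by
    rw [hs, hr]
    exact sp_cop _ _ (fun v h1 h2 => h1 (Or.inl h2)) x
  have crt : Nat.Coprime r t := by
    rw [ht, hr]
    exact sp_cop _ _ (fun v h1 h2 => h1 (Or.inr h2)) x
  refine ⟨hr0.ne', hs0, ht0, hm_pos _ _ _ _, hm_odd _ _ _ _, ?_, ?_, cst, hα, hβ, ?_, ?_, ?_, ?_, ?_, ?_, ?_, ?_,
    ?_, ?_, ?_, ?_, ?_, ?_, ?_, ?_⟩
  · rw [hr]; exact sp_le_exp _ _ _ hc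
  · have h1 : s * t ∣ sp (selA i j e) x := by
      apply cst.mul_dvd_of_dvd_of_dvd
      · rw [hs]; exact sp_dvd _ _ (fun v h => Or.inl h) x
      · rw [ht]; exact sp_dvd _ _ (fun v h => Or.inr h) x
    have h2 := sp_le_exp _ _ _ ha
    refine le_trans ?_ h2
    exact_mod_cast Nat.le_of_dvd (sp_pos _ _) h1
  · rintro rfl
    rw [zero_mul] at hα
    exact hn i hα
  · rintro rfl
    rw [zero_mul] at hβ
    exact hn j hβ
  · exact abs_le_of_dvd _ _ (hn i) hαi _ (hxL i)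
  · exact abs_le_of_dvd _ _ (hn j) hβj _ (hxL j)
  · have h1 := abs_le_of_dvd _ _ (hn k) (hm_dvd k l B x hn).1 _ (hxL k)
    rwa [Int.cast_natCast, abs_of_nonneg (Nat.cast_nonneg _)] at h1
  · have h1 : (t : ℤ) ∣ x j := (dvd_pow_self _ he0).trans (Dvd.intro_left _ hβ.symm)
    have h2 := abs_le_of_dvd _ _ (hn j) h1 _ (hxL j)
    rwa [Int.cast_natCast, abs_of_nonneg (Nat.cast_nonneg _)] at h2
  · intro p hp hpα
    obtain ⟨h1, h2⟩ := hα2 p hp hpα
    rw [pr_r p hp]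
    refine ⟨h1, fun h3 => ?_⟩
    have h4 := (vl_ne hn hp i).2 (hpα.trans hαi)
    rcases h3 with h3 | h3
    · exact h2 h3
    · exact h4 h3.2
  · intro p hp hpβ
    obtain ⟨h1, h2⟩ := hβ2 p hp hpβ
    rw [pr_r p hp]
    refine ⟨h1, fun h3 => ?_⟩
    have h4 := (vl_ne hn hp j).2 (hpβ.trans hβj)
    rcases h3 with h3 | h3
    · exact h4 h3.2
    · exact h2 h3
  · intro p hp hph
    obtain ⟨h1, h2, h3, _⟩ := pr_h p hp hph
    rw [pr_r p hp]
    refine ⟨h1, fun h4 => ?_⟩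
    rcases h4 with h4 | h4
    · exact he0 (h4.1.symm.trans h2)
    · exact he0 (h4.1.symm.trans h3)
  · refine Nat.coprime_of_dvd fun p hp h1 h2 => ?_
    rw [pr_s p hp] at h1
    exact he0 (h1.2.1.symm.trans (pr_h p hp h2).2.1)
  · refine Nat.coprime_of_dvd fun p hp h1 h2 => ?_
    rw [pr_t p hp] at h1
    exact he0 (h1.2.1.symm.trans (pr_h p hp h2).2.2.1)
  · rw [Int.isCoprime_iff_nat_coprime, Int.natAbs_natCast]
    refine Nat.coprime_of_dvd fun p hp h1 h2 => ?_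
    exact (pr_h p hp h1).2.2.2.1 ((Int.natCast_dvd.2 h2).trans hαi)
  · have h1 := hm_dvd k l B x hn
    have h2 := hx.sum
    rw [sum4 i j k l hd] at h2
    have h3 : x i + x j = -(x k + x l) := by linarith
    rw [h3]
    exact (h1.1.add h1.2).neg_right
  · have h1 : r * s * t ∣ sp (fun _ => True) x := by
      apply (Nat.Coprime.mul_left crt cst).mul_dvd_of_dvd_of_dvd
      · apply crs.mul_dvd_of_dvd_of_dvd
        · rw [hr]; exact sp_dvd _ _ (fun v h => trivial) x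
        · rw [hs]; exact sp_dvd _ _ (fun v h => trivial) x
      · rw [ht]; exact sp_dvd _ _ (fun v h => trivial) x
    have h2 : (sp (fun _ => True) x : ℝ) ≤ Real.exp (4 * L) :=
      Pool.Agent.Helper29.Q.pr_le hx L hL hxL (fun _ => True)
    have h3 : ((r * s * t : ℕ) : ℝ) ≤ (sp (fun _ => True) x : ℝ) := by
      exact_mod_cast Nat.le_of_dvd (sp_pos _ _) h1
    have h4 : Real.exp (4 * L) ≤ Real.exp (9 * L) := Real.exp_le_exp.2 (by linarith)
    linarith [Real.exp_pos (9 * L)]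
  · intro p hp hpk
    have h1 : p ∈ PP x := (mem_PP hn p).2 ⟨hp, k, hpk⟩
    by_cases h2 : selA i j e (vl x p)
    · rcases h2 with h2 | h2
      · exact (((pr_s p hp).2 ⟨h1, h2⟩).mul_left r).mul_right t
      · exact ((pr_t p hp).2 ⟨h1, h2⟩).mul_left _
    · exact (((pr_r p hp).2 ⟨h1, h2⟩).mul_right s).mul_right t
  · have h1 := hw.trans (hm_log k l B x)
    have h2 : (0 : ℝ) < hm k l B x := by exact_mod_cast hm_pos k l B x
    calc Real.exp w ≤ Real.exp (Real.log (hm k l B x) + B * Real.log 2) := Real.exp_le_exp.2 h1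
      _ = 2 ^ B * hm k l B x := by
          rw [Real.exp_add, Real.exp_log h2, Real.exp_nat_mul, Real.exp_log (by norm_num)]
          ring

/-- the points with given `r`, `h`, `α`, `β` -/
lemma inner (i j k l : Fin 4) (hd : Dist4 i j k l) (e B : ℕ) (he : 1 ≤ e) (ε D1 D2 : ℝ) (hD1 : 0 < D1) (hD2 : 0 < D2)
    (hC : ∀ (L : ℝ) (N : ℕ) (A : Finset ℤ), 0 ≤ L →
      N ≠ 0 → (N : ℝ) ≤ 16 * Real.exp (9 * L) →
      (∀ a ∈ A, a ≠ 0 ∧ |(a : ℝ)| ≤ Real.exp L ∧ ∀ p : ℕ, p.Prime → (p : ℤ) ∣ a → p ∣ N) →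
      (A.card : ℝ) ≤ D1 * Real.exp (ε * L))
    (hO : ∀ (L : ℝ) (h : ℕ), 0 ≤ L → h ≠ 0 → (h : ℝ) ≤ Real.exp L →
      ((e ^ h.primeFactors.card : ℕ) : ℝ) ≤ D2 * Real.exp (ε * L))
    (L c a w : ℝ) (hL : 0 ≤ L) (F : Finset (Fin 4 → ℤ)) (hF : Fam F L) (r h : ℕ) (s t : (Fin 4 → ℤ) → ℕ) (α β : ℤ)
    (hdat : ∀ x ∈ F, Dat i j k e B L c a w x r (s x) (t x) h α β) :
    (F.card : ℝ) ≤ (D2 * Real.exp (ε * L) * ((2 * L + 1) * (4 * 2 ^ B * Real.exp (a - w) + 1))) *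
      (D1 * Real.exp (ε * L)) := by
  classical
  rcases F.eq_empty_or_nonempty with rfl | ⟨x₀, hx₀⟩
  · simp only [card_empty, Nat.cast_zero]
    positivity
  have d₀ := hdat x₀ hx₀
  have hh0 : h ≠ 0 := by have := d₀.h0; omega
  have hhpos : (0 : ℝ) < h := by exact_mod_cast d₀.h0
  obtain ⟨ρ, hρ⟩ : ∃ ρ : (Fin 4 → ℤ) → ZMod h, ρ = fun x => (s x : ZMod h) * (t x : ZMod h)⁻¹ := ⟨_, rfl⟩
  have htu : ∀ x ∈ F, (t x : ZMod h) * (t x : ZMod h)⁻¹ = 1 := fun x hx =>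
    ZMod.mul_inv_of_unit _ ((ZMod.isUnit_iff_coprime _ _).2 (hdat x hx).ht)
  have hZ : ((F.image ρ).card : ℝ) ≤ D2 * Real.exp (ε * L) := by
    refine le_trans ?_ (hO L h hL hh0 d₀.hL)
    have h1 : (F.image ρ).card ≤ e ^ h.primeFactors.card := by
      refine classes e he h hh0 d₀.hodd _ (-(β : ZMod h) * (α : ZMod h)⁻¹) ?_
      intro z hz
      rw [mem_image] at hz
      obtain ⟨x, hx, rfl⟩ := hz
      have d := hdat x hx
      have hsu : IsUnit (s x : ZMod h) := (ZMod.isUnit_iff_coprime _ _).2 d.hs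
      have htu' : IsUnit (t x : ZMod h) := (ZMod.isUnit_iff_coprime _ _).2 d.ht
      have ht1 := htu x hx
      have hαu : (α : ZMod h) * (α : ZMod h)⁻¹ = 1 :=
        ZMod.mul_inv_of_unit _ ((ZMod.coe_int_isUnit_iff_isCoprime α h).2 d.hα)
      have h2 : (α : ZMod h) * (s x : ZMod h) ^ e + (β : ZMod h) * (t x : ZMod h) ^ e = 0 := by
        have h3 := (ZMod.intCast_zmod_eq_zero_iff_dvd _ _).2 d.dv
        rw [d.xi, d.xj] at h3
        push_cast at h3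
        exact h3
      constructor
      · rw [hρ]
        refine hsu.mul ?_
        exact IsUnit.of_mul_eq_one (t x : ZMod h) (by rw [mul_comm]; exact ht1)
      · rw [hρ]
        change ((s x : ZMod h) * (t x : ZMod h)⁻¹) ^ e = _
        have h4 : (α : ZMod h) * (s x : ZMod h) ^ e = -((β : ZMod h) * (t x : ZMod h) ^ e) :=
          eq_neg_of_add_eq_zero_left h2
        calc ((s x : ZMod h) * (t x : ZMod h)⁻¹) ^ e
            = ((α : ZMod h) * (α : ZMod h)⁻¹) * ((s x : ZMod h) ^ e * ((t x : ZMod h)⁻¹) ^ e) := by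
              rw [hαu, one_mul, mul_pow]
          _ = ((α : ZMod h) * (s x : ZMod h) ^ e) * (α : ZMod h)⁻¹ * ((t x : ZMod h)⁻¹) ^ e := by ring
          _ = -(β : ZMod h) * (α : ZMod h)⁻¹ * ((t x : ZMod h) * (t x : ZMod h)⁻¹) ^ e := by
              rw [h4, mul_pow]; ring
          _ = -(β : ZMod h) * (α : ZMod h)⁻¹ := by rw [ht1, one_pow, mul_one]
    exact_mod_cast h1
  refine fib F (fun x => (ρ x, (Nat.log 2 (t x), 4 * 4 ^ (Nat.log 2 (t x)) * s x / (h * t x)))) _ _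
    (by positivity) ?_ ?_
  · have hsub : F.image (fun x => (ρ x, (Nat.log 2 (t x), 4 * 4 ^ (Nat.log 2 (t x)) * s x / (h * t x)))) ⊆
        (F.image ρ) ×ˢ ((range (⌊2 * L⌋₊ + 1)) ×ˢ (range (⌊4 * Real.exp a / h⌋₊ + 1))) := by
      intro y hy
      rw [mem_image] at hy
      obtain ⟨x, hx, rfl⟩ := hy
      have d := hdat x hx
      have ht0 : t x ≠ 0 := by have := d.t0; omega
      have hv : 2 ^ (Nat.log 2 (t x)) ≤ t x := Nat.pow_log_le_self 2 ht0
      rw [mem_product, mem_product]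
      refine ⟨mem_image_of_mem _ hx, ?_, cell_le h _ (s x) (t x) _ d.h0 d.t0 hv d.st⟩
      rw [mem_range, Nat.lt_succ_iff]
      apply Nat.le_floor
      have h1 : (2 : ℝ) ^ (Nat.log 2 (t x)) ≤ Real.exp L := by
        refine le_trans ?_ d.tL
        exact_mod_cast hv
      have h2 : (Nat.log 2 (t x) : ℝ) * Real.log 2 ≤ L := by
        rw [← Real.log_pow, ← Real.log_exp L]
        exact Real.log_le_log (by positivity) h1
      have h3 : (1 : ℝ) / 2 ≤ Real.log 2 := by linarith [Real.log_two_gt_d9]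
      have h4 : (0 : ℝ) ≤ (Nat.log 2 (t x) : ℝ) := Nat.cast_nonneg _
      nlinarith
    have h1 := card_le_card hsub
    rw [card_product, card_product, card_range, card_range] at h1
    have h2 : ((⌊2 * L⌋₊ + 1 : ℕ) : ℝ) ≤ 2 * L + 1 := by
      push_cast
      linarith [Nat.floor_le (show (0 : ℝ) ≤ 2 * L by positivity)]
    have h3 : ((⌊4 * Real.exp a / h⌋₊ + 1 : ℕ) : ℝ) ≤ 4 * 2 ^ B * Real.exp (a - w) + 1 := by
      push_cast
      have h4 := Nat.floor_le (show (0 : ℝ) ≤ 4 * Real.exp a / h by positivity)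
      have h5 : 4 * Real.exp a / h ≤ 4 * 2 ^ B * Real.exp (a - w) := by
        rw [div_le_iff₀ hhpos]
        have h6 : Real.exp a = Real.exp (a - w) * Real.exp w := by rw [← Real.exp_add]; ring_nf
        have h7 : Real.exp (a - w) * Real.exp w ≤ Real.exp (a - w) * (2 ^ B * h) :=
          mul_le_mul_of_nonneg_left d₀.hw (Real.exp_pos _).le
        rw [h6]
        nlinarith
      linarith
    calc ((F.image (fun x => (ρ x, (Nat.log 2 (t x), 4 * 4 ^ (Nat.log 2 (t x)) * s x / (h * t x))))).card : ℝ)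
        ≤ (((F.image ρ).card * ((⌊2 * L⌋₊ + 1) * (⌊4 * Real.exp a / h⌋₊ + 1)) : ℕ) : ℝ) := by exact_mod_cast h1
      _ = ((F.image ρ).card : ℝ) * (((⌊2 * L⌋₊ + 1 : ℕ) : ℝ) * ((⌊4 * Real.exp a / h⌋₊ + 1 : ℕ) : ℝ)) := by
          push_cast; ring
      _ ≤ _ := by gcongr
  · intro y
    rcases (F.filter (fun x => (ρ x, (Nat.log 2 (t x), 4 * 4 ^ (Nat.log 2 (t x)) * s x / (h * t x))) = y)).eq_empty_or_nonempty with
      h0 | ⟨x₁, hx₁⟩
    · rw [h0, card_empty, Nat.cast_zero]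
      positivity
    obtain ⟨G, hG⟩ : ∃ G, G = F.filter (fun x => (ρ x, (Nat.log 2 (t x), 4 * 4 ^ (Nat.log 2 (t x)) * s x / (h * t x))) = y) :=
      ⟨_, rfl⟩
    rw [← hG] at hx₁ ⊢
    have hG' : ∀ x ∈ G, x ∈ F ∧ (ρ x, (Nat.log 2 (t x), 4 * 4 ^ (Nat.log 2 (t x)) * s x / (h * t x))) = y := by
      intro x hx
      rw [hG, mem_filter] at hx
      exact hx
    have hst : ∀ x ∈ G, s x = s x₁ ∧ t x = t x₁ := by
      intro x hx
      obtain ⟨a1, a2⟩ := hG' x hx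
      obtain ⟨b1, b2⟩ := hG' x₁ hx₁
      have h1 := a2.trans b2.symm
      rw [Prod.mk.injEq, Prod.mk.injEq] at h1
      obtain ⟨c1, c2, c3⟩ := h1
      have d := hdat x a1
      have d' := hdat x₁ b1
      have hlt : ∀ n, n < 2 ^ (Nat.log 2 n + 1) := fun n => Nat.lt_pow_succ_log_self (by norm_num) n
      refine cell h (Nat.log 2 (t x)) _ (s x) (t x) (s x₁) (t x₁) d.h0 d.s0 d.t0 d'.s0 d'.t0 d.cop d'.cop
        (hlt _) (by rw [c2]; exact hlt _) rfl ?_ ?_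
      · rw [c3, c2]
      · rw [← ZMod.intCast_zmod_eq_zero_iff_dvd]
        push_cast
        have e1 := htu x a1
        have e2 := htu x₁ b1
        rw [hρ] at c1
        have c1' : (s x : ZMod h) * (t x : ZMod h)⁻¹ = (s x₁ : ZMod h) * (t x₁ : ZMod h)⁻¹ := c1
        rw [sub_eq_zero]
        calc (s x : ZMod h) * (t x₁ : ZMod h)
            = ((s x : ZMod h) * (t x : ZMod h)⁻¹) * ((t x : ZMod h) * (t x₁ : ZMod h)) := by
              calc (s x : ZMod h) * (t x₁ : ZMod h)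
                  = (s x : ZMod h) * (t x₁ : ZMod h) * ((t x : ZMod h) * (t x : ZMod h)⁻¹) := by rw [e1, mul_one]
                _ = _ := by ring
          _ = ((s x₁ : ZMod h) * (t x₁ : ZMod h)⁻¹) * ((t x : ZMod h) * (t x₁ : ZMod h)) := by rw [c1']
          _ = (s x₁ : ZMod h) * (t x : ZMod h) * ((t x₁ : ZMod h) * (t x₁ : ZMod h)⁻¹) := by ring
          _ = (s x₁ : ZMod h) * (t x : ZMod h) := by rw [e2, mul_one]
    have hinj : Set.InjOn (fun x : Fin 4 → ℤ => x k) (G : Set (Fin 4 → ℤ)) := by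
      intro x hx y' hy hxy
      rw [mem_coe] at hx hy
      have d := hdat x (hG' x hx).1
      have d' := hdat y' (hG' y' hy).1
      have hxy' : x k = y' k := hxy
      have e1 : x i = y' i := by rw [d.xi, d'.xi, (hst x hx).1, (hst y' hy).1]
      have e2 : x j = y' j := by rw [d.xj, d'.xj, (hst x hx).2, (hst y' hy).2]
      have f1 := (hF x (hG' x hx).1).1.sum
      have f2 := (hF y' (hG' y' hy).1).1.sum
      rw [sum4 i j k l hd] at f1 f2
      have e3 : x l = y' l := by linarith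
      funext m
      rcases all4 i j k l hd m with rfl | rfl | rfl | rfl <;> assumption
    rw [← card_image_of_injOn hinj]
    have d₁ := hdat x₁ (hG' x₁ hx₁).1
    refine hC L (r * s x₁ * t x₁) _ hL ?_ d₁.rst ?_
    · have h1 := d₁.r0
      have h2 := d₁.s0
      have h3 := d₁.t0
      have : 0 < r * s x₁ * t x₁ := Nat.mul_pos (Nat.mul_pos (by omega) h2) h3
      omega
    · intro z hz
      rw [mem_image] at hz
      obtain ⟨x, hx, rfl⟩ := hz
      have hxF := (hG' x hx).1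
      refine ⟨(hF x hxF).1.ne k, (hF x hxF).2 k, fun p hp hpk => ?_⟩
      have h4 := (hdat x hxF).pk p hp hpk
      rw [(hst x hx).1, (hst x hx).2] at h4
      exact h4

theorem main (hCN : S_CN) : S_SA := by
  intro i j k l hd e B he ε hε
  classical
  have hε4 : 0 < ε / 5 := by positivity
  obtain ⟨D1, hD1, hC⟩ := hCN (ε / 5) hε4
  obtain ⟨D2, hD2, hO⟩ := omega_le hCN e he (ε / 5) hε4
  obtain ⟨D3, hD3, hK⟩ := Pool.Agent.Helper29.Q.codes hCN 3 (ε / 5) hε4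
  refine ⟨D3 * D2 * D1 * (10 / ε + 1) * (4 * 2 ^ B), by positivity, ?_⟩
  intro L c a w E hL hE hc ha hw
  have hdat := fun x (hx : x ∈ E) => dat i j k l hd e B he L c a w hL x (hE x hx).1 (hE x hx).2 (hc x hx) (ha x hx)
    (hw x hx)
  obtain ⟨r, hr⟩ : ∃ r : (Fin 4 → ℤ) → ℕ, r = fun x => sp (fun v => ¬ selA i j e v) x := ⟨_, rfl⟩
  obtain ⟨s, hs⟩ : ∃ s : (Fin 4 → ℤ) → ℕ, s = fun x => sp (fun v => v i = e ∧ v j = 0) x := ⟨_, rfl⟩
  obtain ⟨t, ht⟩ : ∃ t : (Fin 4 → ℤ) → ℕ, t = fun x => sp (fun v => v j = e ∧ v i = 0) x := ⟨_, rfl⟩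
  obtain ⟨h, hh⟩ : ∃ h : (Fin 4 → ℤ) → ℕ, h = fun x => hm k l B x := ⟨_, rfl⟩
  have hdat' : ∀ x ∈ E, Dat i j k e B L c a w x (r x) (s x) (t x) (h x) (x i / (s x : ℤ) ^ e)
      (x j / (t x : ℤ) ^ e) := by
    intro x hx
    rw [hr, hs, ht, hh]
    exact hdat x hx
  clear hdat
  have hmain := hK (Fin 4 → ℤ) inferInstance E L c
    ((D2 * Real.exp (ε / 5 * L) * ((2 * L + 1) * (4 * 2 ^ B * Real.exp (a - w) + 1))) *
      (D1 * Real.exp (ε / 5 * L))) r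
    (fun x => ![x i / (s x : ℤ) ^ e, x j / (t x : ℤ) ^ e, (h x : ℤ)]) hL (by positivity) ?_ ?_
  · refine hmain.trans ?_
    have g1 : 2 * L + 1 ≤ (10 / ε + 1) * Real.exp (ε / 5 * L) := by
      have g2 := Real.add_one_le_exp (ε / 5 * L)
      have g3 : 2 * L = 10 / ε * (ε / 5 * L) := by field_simp; ring
      have g4 : (0 : ℝ) ≤ 10 / ε := by positivity
      have g5 : (0 : ℝ) ≤ ε / 5 * L := by positivity
      nlinarith
    have g6 : 4 * 2 ^ B * Real.exp (a - w) + 1 ≤ 4 * 2 ^ B * (1 + Real.exp (a - w)) := by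
      have : (1 : ℝ) ≤ 2 ^ B := one_le_pow₀ (by norm_num)
      nlinarith
    have g7 : Real.exp (c + ε / 5 * L) = Real.exp c * Real.exp (ε / 5 * L) := Real.exp_add _ _
    have g8 : Real.exp (ε * L) = Real.exp (ε / 5 * L) * Real.exp (ε / 5 * L) * Real.exp (ε / 5 * L) *
        Real.exp (ε / 5 * L) * Real.exp (ε / 5 * L) := by
      rw [← Real.exp_add, ← Real.exp_add, ← Real.exp_add, ← Real.exp_add]
      congr 1
      ring
    have g9 : Real.exp (c + a - w) = Real.exp c * Real.exp (a - w) := by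
      rw [← Real.exp_add]; congr 1; ring
    obtain ⟨X, hX⟩ : ∃ X, X = Real.exp (ε / 5 * L) := ⟨_, rfl⟩
    have hX1 : 1 ≤ X := by
      rw [hX]
      exact Real.one_le_exp (by positivity)
    obtain ⟨Y, hY⟩ : ∃ Y, Y = Real.exp (a - w) := ⟨_, rfl⟩
    have hY0 : 0 < Y := hY ▸ Real.exp_pos _
    obtain ⟨C, hC'⟩ : ∃ C, C = Real.exp c := ⟨_, rfl⟩
    have hC0 : 0 < C := hC' ▸ Real.exp_pos _
    rw [g7, g8, g9]
    rw [← hX] at g1 ⊢
    rw [← hY] at g6 ⊢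
    rw [← hC']
    calc D3 * (C * X) * (D2 * X * ((2 * L + 1) * (4 * 2 ^ B * Y + 1)) * (D1 * X))
        ≤ D3 * (C * X) * (D2 * X * (((10 / ε + 1) * X) * (4 * 2 ^ B * (1 + Y))) * (D1 * X)) := by
          gcongr
      _ = D3 * D2 * D1 * (10 / ε + 1) * (4 * 2 ^ B) * (X * X * X * X) * (C + C * Y) := by ring
      _ = D3 * D2 * D1 * (10 / ε + 1) * (4 * 2 ^ B) * (X * X * X * X * 1) * (C + C * Y) := by rw [mul_one]
      _ ≤ D3 * D2 * D1 * (10 / ε + 1) * (4 * 2 ^ B) * (X * X * X * X * X) * (C + C * Y) := by gcongr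
  · intro x hx
    have d := hdat' x hx
    refine ⟨d.r0, d.rc, ?_, ?_⟩
    · refine le_trans ?_ d.rst
      have h1 : r x ≤ r x * s x * t x := by
        calc r x = r x * 1 * 1 := by ring
          _ ≤ r x * s x * t x := Nat.mul_le_mul (Nat.mul_le_mul_left _ d.s0) d.t0
      exact_mod_cast h1
    · intro m
      fin_cases m
      · exact ⟨d.α0, d.αL, d.pα⟩
      · exact ⟨d.β0, d.βL, d.pβ⟩
      · refine ⟨?_, ?_, ?_⟩
        · have h1 : (h x : ℤ) ≠ 0 := by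
            have := d.h0
            omega
          exact h1
        · have h1 : |(((h x : ℕ) : ℤ) : ℝ)| ≤ Real.exp L := by
            rw [Int.cast_natCast, abs_of_nonneg (Nat.cast_nonneg _)]
            exact d.hL
          exact h1
        · intro p hp hpd
          have h1 : (p : ℤ) ∣ (h x : ℤ) := hpd
          exact d.ph p hp (Int.natCast_dvd_natCast.1 h1)
  · intro x hx
    refine inner i j k l hd e B he (ε / 5) D1 D2 hD1 hD2 hC hO L c a w hL _ ?_ (r x) (h x) s t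
      (x i / (s x : ℤ) ^ e) (x j / (t x : ℤ) ^ e) ?_
    · intro y hy
      exact hE y (mem_filter.1 hy).1
    · intro y hy
      rw [mem_filter] at hy
      obtain ⟨h1, h2, h3⟩ := hy
      have e0 := congrFun h3 0
      have e1 := congrFun h3 1
      have e2 := congrFun h3 2
      have e0' : y i / (s y : ℤ) ^ e = x i / (s x : ℤ) ^ e := e0
      have e1' : y j / (t y : ℤ) ^ e = x j / (t x : ℤ) ^ e := e1
      have e2' : (h y : ℤ) = (h x : ℤ) := e2
      have e3 : h y = h x := by exact_mod_cast e2'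
      have d := hdat' y h1
      rw [h2, e0', e1', e3] at d
      exact d

end Pool.Agent.Helper54.Q.SA
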