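import Pool.Agent.Helper54.Q.Stm

/-!
# SBP: the points on a plane (helper67)
-/

set_option autoImplicit false

namespace Pool.Agent.Helper54.Q.SBP

open Finset Pool.Agent.Helper54.Q

theorem erase_eq (i j k l : Fin 4) (h : Dist4 i j k l) :
    (univ.erase l : Finset (Fin 4)) = {i, j, k} := by
  revert i j k l
  unfold Dist4
  decide

theorem erase2_eq (i j k l : Fin 4) (h : Dist4 i j k l) :
    ((univ.erase l).erase i : Finset (Fin 4)) = {j, k} := by
  revert i j k l
  unfold Dist4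
  decide

theorem cases4 (i j k l : Fin 4) (h : Dist4 i j k l) (x : Fin 4) :
    x = i ∨ x = j ∨ x = k ∨ x = l := by
  revert i j k l x
  unfold Dist4
  decide

theorem exists_dist (l : Fin 4) : ∃ i j k, Dist4 i j k l := by
  revert l
  unfold Dist4
  decide

theorem sum3 {M : Type} [AddCommMonoid M] (i j k l : Fin 4) (h : Dist4 i j k l) (f : Fin 4 → M) :
    ∑ x ∈ univ.erase l, f x = f i + f j + f k := by
  rw [erase_eq i j k l h, sum_insert, sum_insert, sum_singleton, add_assoc]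
  · simpa using h.2.2.2.1
  · simpa using ⟨h.1, h.2.1⟩

theorem sum2 {M : Type} [AddCommMonoid M] (i j k l : Fin 4) (h : Dist4 i j k l) (f : Fin 4 → M) :
    ∑ x ∈ (univ.erase l).erase i, f x = f j + f k := by
  rw [erase2_eq i j k l h, sum_insert, sum_singleton]
  simpa using h.2.2.2.1

theorem divs (hCN : S_CN) (C : ℝ) (hC : 0 < C) (K : ℝ) (hK : 0 ≤ K) (ε : ℝ) (hε : 0 < ε) :
    ∃ D : ℝ, 0 < D ∧ ∀ (L : ℝ) (N : ℕ), 0 ≤ L → N ≠ 0 → (N : ℝ) ≤ Real.exp (C * L + K) →
      (N.divisors.card : ℝ) ≤ D * Real.exp (ε * L) := by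
  obtain ⟨D, hD, h⟩ := hCN (ε / C) (by positivity)
  refine ⟨D * Real.exp (ε / C * K), by positivity, fun L N hL hN hNL => ?_⟩
  have hL' : 0 ≤ C * L + K := by positivity
  have h1 := h (C * L + K) N (N.divisors.image (fun d : ℕ => (d : ℤ))) hL' hN ?_ ?_
  · rw [card_image_of_injective _ Nat.cast_injective] at h1
    refine h1.trans (le_of_eq ?_)
    rw [mul_assoc, ← Real.exp_add]
    congr 2
    field_simp
    ring
  · have h2 : Real.exp (C * L + K) ≤ Real.exp (9 * (C * L + K)) :=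
      Real.exp_le_exp.2 (by linarith)
    have h3 := Real.exp_pos (9 * (C * L + K))
    linarith
  · intro x hx
    obtain ⟨d, hd, rfl⟩ := mem_image.1 hx
    have hdN := Nat.dvd_of_mem_divisors hd
    have hd0 : d ≠ 0 := fun h0 => hN (by rw [h0] at hdN; exact Nat.eq_zero_of_zero_dvd hdN)
    refine ⟨by exact_mod_cast hd0, ?_, ?_⟩
    · have h4 : (d : ℝ) ≤ N := by exact_mod_cast Nat.le_of_dvd (Nat.pos_of_ne_zero hN) hdN
      have h5 : |(((d : ℕ) : ℤ) : ℝ)| = (d : ℝ) := by
        rw [Int.cast_natCast, abs_of_nonneg (Nat.cast_nonneg d)]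
      rw [h5]
      exact h4.trans hNL
    · intro p _ hpd
      exact (Int.natCast_dvd_natCast.1 hpd).trans hdN

theorem dvd_c {e : ℕ} {ai aj ak si sj sk αj αk : ℤ} (h0 : ai * si + aj * sj + ak * sk = 0)
    (h1 : si ∣ αj * sj ^ e + αk * sk ^ e) (hc : IsCoprime si sk) :
    si ∣ αj * (-ak) ^ e + αk * aj ^ e := by
  have h2 : (aj * sj - -(ak * sk)) ∣ (aj * sj) ^ e - (-(ak * sk)) ^ e := sub_dvd_pow_sub_pow _ _ e
  have h3 : si ∣ (aj * sj) ^ e - (-(ak * sk)) ^ e := by
    refine dvd_trans ⟨-ai, ?_⟩ h2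
    linear_combination h0
  have h4 : si ∣ sk ^ e * (αj * (-ak) ^ e + αk * aj ^ e) := by
    have h5 : sk ^ e * (αj * (-ak) ^ e + αk * aj ^ e) =
        aj ^ e * (αj * sj ^ e + αk * sk ^ e) - αj * ((aj * sj) ^ e - (-(ak * sk)) ^ e) := by
      rw [mul_pow, ← neg_mul, mul_pow]
      ring
    rw [h5]
    exact dvd_sub (h1.mul_left _) (h3.mul_left _)
  exact (hc.pow_right).dvd_of_dvd_mul_left h4

/-- the conditions on the points -/
def Pt (l : Fin 4) (e : ℕ) (L : ℝ) (α a : Fin 4 → ℤ) (s : Fin 4 → ℕ) : Prop :=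
  s l = 1 ∧ (∀ i, 1 ≤ s i ∧ (s i : ℝ) ≤ Real.exp L) ∧
    (∀ i j, i ≠ j → Nat.Coprime (s i) (s j)) ∧ ∑ i ∈ univ.erase l, a i * (s i : ℤ) = 0 ∧
    (∀ i, i ≠ l → (s i : ℤ) ∣ ∑ j ∈ (univ.erase l).erase i, α j * (s j : ℤ) ^ e) ∧
    (∀ i, i ≠ l → ∑ j ∈ (univ.erase l).erase i, α j * (s j : ℤ) ^ e ≠ 0) ∧
    ¬ (∀ i j, i ≠ l → j ≠ l → |α i| * |a j| ^ e = |α j| * |a i| ^ e)

theorem ext4 {i j k l : Fin 4} (h : Dist4 i j k l) {s s' : Fin 4 → ℕ} (hi : s i = s' i)
    (hj : s j = s' j) (hk : s k = s' k) (hl : s l = s' l) : s = s' := by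
  funext x
  rcases cases4 i j k l h x with rfl | rfl | rfl | rfl <;> assumption

/-- if `a k = 0`, the coordinates `i`, `j` are determined -/
theorem det {i j k l : Fin 4} (h : Dist4 i j k l) {e : ℕ} {L : ℝ} {α a : Fin 4 → ℤ} (hk : a k = 0)
    (ha : ∃ x, x ≠ l ∧ a x ≠ 0) {s s' : Fin 4 → ℕ} (hs : Pt l e L α a s) (hs' : Pt l e L α a s') :
    s i = s' i ∧ s j = s' j := by
  have e1 := hs.2.2.2.1
  have e2 := hs'.2.2.2.1
  rw [sum3 i j k l h, hk] at e1 e2
  have p1 := (hs.2.1 i).1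
  have p2 := (hs.2.1 j).1
  have p3 := (hs'.2.1 i).1
  have p4 := (hs'.2.1 j).1
  have hai : a i ≠ 0 := by
    intro h0
    obtain ⟨x, hx, hx0⟩ := ha
    rcases cases4 i j k l h x with rfl | rfl | rfl | rfl
    · exact hx0 h0
    · rw [h0] at e1
      simp only [zero_mul, zero_add, add_zero, mul_eq_zero, Nat.cast_eq_zero] at e1
      rcases e1 with e1 | e1
      · exact hx0 e1
      · omega
    · exact hx0 hk
    · exact hx rfl
  have h1 : (s i : ℤ) * s' j = s' i * s j := by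
    have h2 : a i * ((s i : ℤ) * s' j) = a i * (s' i * s j) := by
      linear_combination (s' j : ℤ) * e1 - (s j : ℤ) * e2
    exact mul_left_cancel₀ hai h2
  have h1' : s i * s' j = s' i * s j := by exact_mod_cast h1
  have c1 := hs.2.2.1 i j h.1
  have c2 := hs'.2.2.1 i j h.1
  have d1 : s i ∣ s' i := c1.dvd_of_dvd_mul_right (Dvd.intro _ h1')
  have d2 : s' i ∣ s i := c2.dvd_of_dvd_mul_right (Dvd.intro _ h1'.symm)
  have h3 : s i = s' i := Nat.dvd_antisymm d1 d2
  refine ⟨h3, ?_⟩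
  rw [h3] at h1'
  exact (Nat.eq_of_mul_eq_mul_left p3 h1').symm

theorem abs_bound {x y : ℝ} {e : ℕ} {u v p q : ℤ} (hu : |(u : ℝ)| ≤ x) (hv : |(v : ℝ)| ≤ x)
    (hp : |(p : ℝ)| ≤ y) (hq : |(q : ℝ)| ≤ y) (hx : 0 ≤ x) :
    (((u * p ^ e + v * q ^ e).natAbs : ℕ) : ℝ) ≤ 2 * x * y ^ e := by
  have h1 : (((u * p ^ e + v * q ^ e).natAbs : ℕ) : ℝ) = |(u : ℝ) * (p : ℝ) ^ e + v * (q : ℝ) ^ e| := by
    rw [Nat.cast_natAbs]
    push_cast
    rfl
  rw [h1]
  have h2 : |(u : ℝ) * (p : ℝ) ^ e| ≤ x * y ^ e := by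
    rw [abs_mul, abs_pow]
    exact mul_le_mul hu (pow_le_pow_left₀ (abs_nonneg _) hp e) (by positivity) hx
  have h3 : |(v : ℝ) * (q : ℝ) ^ e| ≤ x * y ^ e := by
    rw [abs_mul, abs_pow]
    exact mul_le_mul hv (pow_le_pow_left₀ (abs_nonneg _) hq e) (by positivity) hx
  calc |(u : ℝ) * (p : ℝ) ^ e + v * (q : ℝ) ^ e| ≤ |(u : ℝ) * (p : ℝ) ^ e| + |v * (q : ℝ) ^ e| := abs_add_le _ _
    _ ≤ 2 * x * y ^ e := by linarith

/-- the case `a k = 0` -/
theorem caseA {i j k l : Fin 4} (h : Dist4 i j k l) {e : ℕ} {L B : ℝ} {α a : Fin 4 → ℤ}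
    {S : Finset (Fin 4 → ℕ)} (hk : a k = 0) (ha : ∃ x, x ≠ l ∧ a x ≠ 0) (hα : ∀ i, |(α i : ℝ)| ≤ Real.exp L)
    (hS : ∀ s ∈ S, Pt l e L α a s) (hB0 : 0 ≤ B)
    (hB : ∀ N : ℕ, N ≠ 0 → (N : ℝ) ≤ 2 * Real.exp L * (Real.exp L) ^ e → (N.divisors.card : ℝ) ≤ B) :
    (S.card : ℝ) ≤ B := by
  rcases S.eq_empty_or_nonempty with rfl | ⟨s0, h0⟩
  · simpa using hB0
  have P0 := hS s0 h0
  have hd : Dist4 k i j l := ⟨h.2.1.symm, h.2.2.2.1.symm, h.2.2.2.2.2, h.1, h.2.2.1, h.2.2.2.2.1⟩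
  have hN0 : (α i * (s0 i : ℤ) ^ e + α j * (s0 j : ℤ) ^ e) ≠ 0 := by
    have := P0.2.2.2.2.2.1 k h.2.2.2.2.2
    rwa [sum2 k i j l hd] at this
  set N := (α i * (s0 i : ℤ) ^ e + α j * (s0 j : ℤ) ^ e).natAbs with hN
  have hNe : N ≠ 0 := by rw [hN]; exact Int.natAbs_ne_zero.2 hN0
  have hle : (N : ℝ) ≤ 2 * Real.exp L * (Real.exp L) ^ e := by
    refine abs_bound (hα i) (hα j) ?_ ?_ (Real.exp_pos L).le
    · rw [Int.cast_natCast, abs_of_nonneg (Nat.cast_nonneg _)]; exact (P0.2.1 i).2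
    · rw [Int.cast_natCast, abs_of_nonneg (Nat.cast_nonneg _)]; exact (P0.2.1 j).2
  refine le_trans ?_ (hB N hNe hle)
  have hcard : S.card ≤ N.divisors.card := by
    refine card_le_card_of_injOn (fun s => s k) ?_ ?_
    · intro s hs
      have Ps := hS s hs
      obtain ⟨d1, d2⟩ := det h hk ha Ps P0
      have h5 := Ps.2.2.2.2.1 k h.2.2.2.2.2
      rw [sum2 k i j l hd, d1, d2] at h5
      have h6 : s k ∣ N := by
        rw [hN]
        exact Int.natCast_dvd.1 h5
      exact mem_coe.2 (Nat.mem_divisors.2 ⟨h6, hNe⟩)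
    · intro s hs s' hs' hss
      have Ps := hS s hs
      have Ps' := hS s' hs'
      obtain ⟨d1, d2⟩ := det h hk ha Ps Ps'
      exact ext4 h d1 d2 hss (Ps.1.trans Ps'.1.symm)
  exact_mod_cast hcard

/-- the case of two nonzero `c` -/
theorem caseB {i j k l : Fin 4} (h : Dist4 i j k l) {e : ℕ} {L B : ℝ} {α a : Fin 4 → ℤ}
    {S : Finset (Fin 4 → ℕ)} (hk : a k ≠ 0) (hα : ∀ i, |(α i : ℝ)| ≤ Real.exp L)
    (ha : ∀ i, |(a i : ℝ)| ≤ 2 * Real.exp (2 * L))
    (hci : α j * (-a k) ^ e + α k * a j ^ e ≠ 0) (hcj : α i * (-a k) ^ e + α k * a i ^ e ≠ 0)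
    (hS : ∀ s ∈ S, Pt l e L α a s)
    (hB : ∀ N : ℕ, N ≠ 0 → (N : ℝ) ≤ 2 * Real.exp L * (2 * Real.exp (2 * L)) ^ e →
      (N.divisors.card : ℝ) ≤ B) :
    (S.card : ℝ) ≤ B * B := by
  set M := (α j * (-a k) ^ e + α k * a j ^ e).natAbs with hM
  set N := (α i * (-a k) ^ e + α k * a i ^ e).natAbs with hN
  have hMe : M ≠ 0 := by rw [hM]; exact Int.natAbs_ne_zero.2 hci
  have hNe : N ≠ 0 := by rw [hN]; exact Int.natAbs_ne_zero.2 hcj
  have hak : |((-a k : ℤ) : ℝ)| ≤ 2 * Real.exp (2 * L) := by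
    rw [Int.cast_neg, abs_neg]; exact ha k
  have b1 := hB M hMe (abs_bound (hα j) (hα k) hak (ha j) (Real.exp_pos L).le)
  have b2 := hB N hNe (abs_bound (hα i) (hα k) hak (ha i) (Real.exp_pos L).le)
  have hd : Dist4 j i k l := ⟨h.1.symm, h.2.2.2.1, h.2.2.2.2.1, h.2.1, h.2.2.1, h.2.2.2.2.2⟩
  have hcard : S.card ≤ (M.divisors ×ˢ N.divisors).card := by
    refine card_le_card_of_injOn (fun s => (s i, s j)) ?_ ?_
    · intro s hs
      have Ps := hS s hs
      have e1 := Ps.2.2.2.1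
      rw [sum3 i j k l h] at e1
      have e2 := Ps.2.2.2.2.1 i h.2.2.1
      rw [sum2 i j k l h] at e2
      have e3 := Ps.2.2.2.2.1 j h.2.2.2.2.1
      rw [sum2 j i k l hd] at e3
      have c1 : IsCoprime (s i : ℤ) (s k : ℤ) := Nat.isCoprime_iff_coprime.2 (Ps.2.2.1 i k h.2.1)
      have c2 : IsCoprime (s j : ℤ) (s k : ℤ) := Nat.isCoprime_iff_coprime.2 (Ps.2.2.1 j k h.2.2.2.1)
      have f1 := dvd_c e1 e2 c1
      have f2 := dvd_c (ai := a j) (aj := a i) (ak := a k) (by linear_combination e1) e3 c2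
      rw [mem_coe, mem_product, Nat.mem_divisors, Nat.mem_divisors]
      exact ⟨⟨Int.natCast_dvd.1 f1, hMe⟩, ⟨Int.natCast_dvd.1 f2, hNe⟩⟩
    · intro s hs s' hs' hss
      have Ps := hS s hs
      have Ps' := hS s' hs'
      have g1 : s i = s' i := congrArg Prod.fst hss
      have g2 : s j = s' j := congrArg Prod.snd hss
      have e1 := Ps.2.2.2.1
      have e2 := Ps'.2.2.2.1
      rw [sum3 i j k l h] at e1 e2
      have g3 : s k = s' k := by
        have h7 : a k * (s k : ℤ) = a k * (s' k : ℤ) := by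
          rw [g1, g2] at e1
          linear_combination e1 - e2
        exact_mod_cast mul_left_cancel₀ hk h7
      exact ext4 h g1 g2 g3 (Ps.1.trans Ps'.1.symm)
  rw [card_product] at hcard
  have h8 : (S.card : ℝ) ≤ (M.divisors.card : ℝ) * N.divisors.card := by exact_mod_cast hcard
  refine h8.trans (mul_le_mul b1 b2 (by positivity) (le_trans (by positivity) b1))

/-- if `c = 0` the absolute values agree -/
theorem abs_eq {e : ℕ} {u v p q : ℤ} (h : u * (-p) ^ e + v * q ^ e = 0) :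
    |u| * |p| ^ e = |v| * |q| ^ e := by
  have h1 : u * (-p) ^ e = -(v * q ^ e) := by linarith
  have h2 := congrArg abs h1
  rwa [abs_neg, abs_mul, abs_mul, abs_pow, abs_pow, abs_neg] at h2

theorem abs_trans {e : ℕ} {αi αj αk ai aj ak : ℤ} (hk : αk ≠ 0)
    (h1 : |αj| * |ak| ^ e = |αk| * |aj| ^ e) (h2 : |αi| * |ak| ^ e = |αk| * |ai| ^ e) :
    |αi| * |aj| ^ e = |αj| * |ai| ^ e := by
  have h3 : |αk| ≠ 0 := abs_ne_zero.2 hk
  refine mul_left_cancel₀ h3 ?_
  linear_combination -|αi| * h1 + |αj| * h2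

theorem main (hCN : S_CN) : S_SBP := by
  intro l e he ε hε
  obtain ⟨D, hD, hdiv⟩ := divs hCN (2 * e + 1) (by positivity) (Real.log (2 ^ (e + 1)))
    (Real.log_nonneg (one_le_pow₀ (by norm_num))) (ε / 2) (by positivity)
  refine ⟨D + D ^ 2, by positivity, fun L α a S hL hα ha ha0 hS => ?_⟩
  have hS' : ∀ s ∈ S, Pt l e L α a s := hS
  have hα' : ∀ i, |(α i : ℝ)| ≤ Real.exp L := fun i => (hα i).2
  have hE : Real.exp ((2 * e + 1) * L + Real.log (2 ^ (e + 1))) =
      2 * Real.exp L * (2 * Real.exp (2 * L)) ^ e := by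
    rw [Real.exp_add, Real.exp_log (by positivity), mul_pow, ← Real.exp_nat_mul]
    have : Real.exp ((2 * e + 1) * L) = Real.exp L * Real.exp (e * (2 * L)) := by
      rw [← Real.exp_add]; congr 1; ring
    rw [this]
    ring
  have hB2 : ∀ N : ℕ, N ≠ 0 → (N : ℝ) ≤ 2 * Real.exp L * (2 * Real.exp (2 * L)) ^ e →
      (N.divisors.card : ℝ) ≤ D * Real.exp (ε / 2 * L) :=
    fun N hN hle => hdiv L N hL hN (by rw [hE]; exact hle)
  have hB1 : ∀ N : ℕ, N ≠ 0 → (N : ℝ) ≤ 2 * Real.exp L * (Real.exp L) ^ e →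
      (N.divisors.card : ℝ) ≤ D * Real.exp (ε / 2 * L) := by
    intro N hN hle
    refine hB2 N hN (hle.trans ?_)
    have h1 : Real.exp L ≤ 2 * Real.exp (2 * L) := by
      have h2 : Real.exp L ≤ Real.exp (2 * L) := Real.exp_le_exp.2 (by linarith)
      have h3 := Real.exp_pos (2 * L)
      linarith
    exact mul_le_mul_of_nonneg_left (pow_le_pow_left₀ (Real.exp_pos L).le h1 e) (by positivity)
  have hexp : Real.exp (ε / 2 * L) ≤ Real.exp (ε * L) :=
    Real.exp_le_exp.2 (by nlinarith)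
  have hfinA : D * Real.exp (ε / 2 * L) ≤ (D + D ^ 2) * Real.exp (ε * L) := by
    have h1 : 0 ≤ D ^ 2 * Real.exp (ε * L) := by positivity
    nlinarith [mul_le_mul_of_nonneg_left hexp hD.le]
  have hfinB : D * Real.exp (ε / 2 * L) * (D * Real.exp (ε / 2 * L)) ≤ (D + D ^ 2) * Real.exp (ε * L) := by
    have h1 : Real.exp (ε / 2 * L) * Real.exp (ε / 2 * L) = Real.exp (ε * L) := by
      rw [← Real.exp_add]; congr 1; ring
    have h2 : 0 ≤ D * Real.exp (ε * L) := by positivity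
    calc D * Real.exp (ε / 2 * L) * (D * Real.exp (ε / 2 * L))
        = D ^ 2 * (Real.exp (ε / 2 * L) * Real.exp (ε / 2 * L)) := by ring
      _ ≤ (D + D ^ 2) * Real.exp (ε * L) := by rw [h1]; nlinarith
  -- all triples
  rcases S.eq_empty_or_nonempty with rfl | ⟨s0, hs0⟩
  · simp only [card_empty, Nat.cast_zero]; positivity
  by_cases hA : ∃ k, k ≠ l ∧ a k = 0
  · obtain ⟨k, hkl, hk⟩ := hA
    obtain ⟨i, j, h⟩ : ∃ i j, Dist4 i j k l := by
      revert hkl
      clear * -
      revert k l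
      unfold Dist4
      decide
    exact (caseA h hk ha0 hα' hS' (by positivity) hB1).trans hfinA
  · push Not at hA
    obtain ⟨i, j, k, h⟩ := exists_dist l
    have hki := hA i h.2.2.1
    have hkj := hA j h.2.2.2.2.1
    have hkk := hA k h.2.2.2.2.2
    have h2 : Dist4 i k j l := ⟨h.2.1, h.1, h.2.2.1, h.2.2.2.1.symm, h.2.2.2.2.2, h.2.2.2.2.1⟩
    have h3 : Dist4 j k i l := ⟨h.2.2.2.1, h.1.symm, h.2.2.2.2.1, h.2.1.symm, h.2.2.2.2.2, h.2.2.1⟩
    have hnot := (hS' s0 hs0).2.2.2.2.2.2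
    -- c_i = α j (-a k)^e + α k (a j)^e, c_j = α i (-a k)^e + α k (a i)^e, c_k = α i (-a j)^e + α j (a i)^e
    by_cases c1 : α j * (-a k) ^ e + α k * a j ^ e = 0
    · by_cases c2 : α i * (-a k) ^ e + α k * a i ^ e = 0
      · exfalso
        apply hnot
        have e1 := abs_eq c1
        have e2 := abs_eq c2
        have e3 := abs_trans (hα k).1 e1 e2
        intro x y hx hy
        rcases cases4 i j k l h x with rfl | rfl | rfl | rfl <;>
          rcases cases4 _ _ _ _ h y with rfl | rfl | rfl | rfl <;>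
          first
          | rfl
          | exact absurd rfl hx
          | exact absurd rfl hy
          | exact e1
          | exact e2
          | exact e3
          | exact e1.symm
          | exact e2.symm
          | exact e3.symm
      · by_cases c3 : α i * (-a j) ^ e + α j * a i ^ e = 0
        · exfalso
          apply hnot
          have e1 := abs_eq c1
          have e3 := abs_eq c3
          have e2 := abs_trans (hα j).1 e1.symm e3
          intro x y hx hy
          rcases cases4 i j k l h x with rfl | rfl | rfl | rfl <;>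
            rcases cases4 _ _ _ _ h y with rfl | rfl | rfl | rfl <;>
            first
            | rfl
            | exact absurd rfl hx
            | exact absurd rfl hy
            | exact e1
            | exact e2
            | exact e3
            | exact e1.symm
            | exact e2.symm
            | exact e3.symm
        · -- c_j ≠ 0, c_k ≠ 0 : use the triple (j, k, i)
          have c2' : α k * (-a i) ^ e + α i * a k ^ e ≠ 0 := by
            intro h0
            apply c2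
            have h5 : (-a k) ^ e = (-1) ^ e * a k ^ e := by rw [← mul_pow]; ring_nf
            have h6 : (-a i) ^ e = (-1) ^ e * a i ^ e := by rw [← mul_pow]; ring_nf
            have h7 : ((-1 : ℤ) ^ e) * ((-1) ^ e) = 1 := by rw [← mul_pow]; norm_num
            rw [h6] at h0
            rw [h5]
            linear_combination ((-1 : ℤ) ^ e) * h0 - α k * a i ^ e * h7
          have c3' : α j * (-a i) ^ e + α i * a j ^ e ≠ 0 := by
            intro h0
            apply c3
            have h5 : (-a j) ^ e = (-1) ^ e * a j ^ e := by rw [← mul_pow]; ring_nf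
            have h6 : (-a i) ^ e = (-1) ^ e * a i ^ e := by rw [← mul_pow]; ring_nf
            have h7 : ((-1 : ℤ) ^ e) * ((-1) ^ e) = 1 := by rw [← mul_pow]; norm_num
            rw [h6] at h0
            rw [h5]
            linear_combination ((-1 : ℤ) ^ e) * h0 - α j * a i ^ e * h7
          exact (caseB h3 hki hα' ha c2' c3' hS' hB2).trans hfinB
    · by_cases c2 : α i * (-a k) ^ e + α k * a i ^ e = 0
      · by_cases c3 : α i * (-a j) ^ e + α j * a i ^ e = 0
        · exfalso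
          apply hnot
          have e2 := abs_eq c2
          have e3 := abs_eq c3
          have e1 := abs_trans (hα i).1 e2.symm e3.symm
          intro x y hx hy
          rcases cases4 i j k l h x with rfl | rfl | rfl | rfl <;>
            rcases cases4 _ _ _ _ h y with rfl | rfl | rfl | rfl <;>
            first
            | rfl
            | exact absurd rfl hx
            | exact absurd rfl hy
            | exact e1
            | exact e2
            | exact e3
            | exact e1.symm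
            | exact e2.symm
            | exact e3.symm
        · -- c_i ≠ 0, c_k ≠ 0 : use the triple (i, k, j)
          have c1' : α k * (-a j) ^ e + α j * a k ^ e ≠ 0 := by
            intro h0
            apply c1
            have h5 : (-a k) ^ e = (-1) ^ e * a k ^ e := by rw [← mul_pow]; ring_nf
            have h6 : (-a j) ^ e = (-1) ^ e * a j ^ e := by rw [← mul_pow]; ring_nf
            have h7 : ((-1 : ℤ) ^ e) * ((-1) ^ e) = 1 := by rw [← mul_pow]; norm_num
            rw [h6] at h0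
            rw [h5]
            linear_combination ((-1 : ℤ) ^ e) * h0 - α k * a j ^ e * h7
          exact (caseB h2 hkj hα' ha c1' c3 hS' hB2).trans hfinB
      · exact (caseB h hkk hα' ha c1 c2 hS' hB2).trans hfinB

end Pool.Agent.Helper54.Q.SBP
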