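import Pool.Agent.Helper54.Q.SbB

/-!
# Module SB: one number contains high powers of the other three (helper95)
-/

set_option autoImplicit false

namespace Pool.Agent.Helper54.Q.SB

open Finset L95

/-- the class of a quotient -/
noncomputable def rho (q : ℕ) (s : Fin 4 → ℕ) (m n : Fin 4) : ℕ :=
  ((s m : ZMod q) * (s n : ZMod q)⁻¹).val

/-- the data at `q` -/
noncomputable def tau (i j k : Fin 4) (q : ℕ) (s v : Fin 4 → ℕ) : Fin 4 × ℕ :=
  if v i ≠ 0 then (i, rho q s j k) else if v j ≠ 0 then (j, rho q s k i) else (k, rho q s i j)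

open Classical in
/-- roots -/
noncomputable def rt (α : Fin 4 → ℤ) (e q : ℕ) (m n : Fin 4) : Finset ℕ :=
  (range q).filter fun ρ => (α m : ZMod q) ≠ 0 ∧ (α m : ZMod q) * (ρ : ZMod q) ^ e + α n = 0

/-- the possible data at `q` -/
noncomputable def TT (i j k : Fin 4) (α : Fin 4 → ℤ) (e q : ℕ) : Finset (Fin 4 × ℕ) :=
  ({i} ×ˢ rt α e q j k) ∪ ({j} ×ˢ rt α e q k i) ∪ ({k} ×ˢ rt α e q i j)

theorem rt_card (α : Fin 4 → ℤ) {e q : ℕ} (he : 1 ≤ e) (hq : q.Prime) (m n : Fin 4) :
    (rt α e q m n).card ≤ e := by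
  classical
  have : Fact q.Prime := ⟨hq⟩
  by_cases h : (α m : ZMod q) = 0
  · have : rt α e q m n = ∅ := by
      unfold rt
      rw [filter_eq_empty_iff]
      intro ρ _ h'
      exact h'.1 h
    rw [this]
    simp
  · let P : Polynomial (ZMod q) := Polynomial.C (α m : ZMod q) * Polynomial.X ^ e +
      Polynomial.C (α n : ZMod q)
    have hdeg : P.natDegree = e := by
      show (Polynomial.C (α m : ZMod q) * Polynomial.X ^ e + Polynomial.C (α n : ZMod q)).natDegree = e
      rw [Polynomial.natDegree_add_C, Polynomial.natDegree_C_mul_X_pow e _ h]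
    have hP : P ≠ 0 := by
      intro h0
      rw [h0, Polynomial.natDegree_zero] at hdeg
      omega
    have h1 : ((rt α e q m n).image (fun ρ : ℕ => (ρ : ZMod q))).card = (rt α e q m n).card := by
      apply Finset.card_image_of_injOn
      intro ρ hρ ρ' hρ' hh
      have h2 : ρ < q := mem_range.1 (mem_filter.1 (mem_coe.1 hρ)).1
      have h3 : ρ' < q := mem_range.1 (mem_filter.1 (mem_coe.1 hρ')).1
      have h4 := (ZMod.natCast_eq_natCast_iff' ρ ρ' q).1 hh
      rwa [Nat.mod_eq_of_lt h2, Nat.mod_eq_of_lt h3] at h4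
    have h2 : (rt α e q m n).image (fun ρ : ℕ => (ρ : ZMod q)) ⊆ P.roots.toFinset := by
      intro y hy
      rw [mem_image] at hy
      obtain ⟨ρ, hρ, rfl⟩ := hy
      rw [Multiset.mem_toFinset, Polynomial.mem_roots hP]
      have h5 := (mem_filter.1 hρ).2.2
      show Polynomial.eval (ρ : ZMod q) (Polynomial.C (α m : ZMod q) * Polynomial.X ^ e +
        Polynomial.C (α n : ZMod q)) = 0
      simpa using h5
    calc (rt α e q m n).card = ((rt α e q m n).image (fun ρ : ℕ => (ρ : ZMod q))).card := h1.symm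
      _ ≤ P.roots.toFinset.card := Finset.card_le_card h2
      _ ≤ P.roots.card := Multiset.toFinset_card_le _
      _ ≤ P.natDegree := Polynomial.card_roots' P
      _ = e := hdeg

theorem TT_card (i j k : Fin 4) (α : Fin 4 → ℤ) {e q : ℕ} (he : 1 ≤ e) (hq : q.Prime) :
    (TT i j k α e q).card ≤ 3 * e := by
  unfold TT
  have h1 := rt_card α he hq j k
  have h2 := rt_card α he hq k i
  have h3 := rt_card α he hq i j
  have h4 := Finset.card_union_le (({i} ×ˢ rt α e q j k) ∪ ({j} ×ˢ rt α e q k i))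
    ({k} ×ˢ rt α e q i j)
  have h5 := Finset.card_union_le ({i} ×ˢ rt α e q j k) ({j} ×ˢ rt α e q k i)
  simp only [Finset.card_product, Finset.card_singleton, one_mul] at h4 h5
  omega

section

variable {l : Fin 4} {e : ℕ} {Sel : (Fin 4 → ℕ) → Prop} {x : Fin 4 → ℤ}

theorem root_mem (he : 1 ≤ e) (hSel : ∀ v, Sel v → v l ≠ 0 ∧ ∃ i, i ≠ l ∧ v i = e) (hx : Adm x)
    {m n : Fin 4} (hm : m ≠ l) (hn : n ≠ l) {q : ℕ} (hq : q.Prime) (hs : (q : ℤ) ∣ x m + x n)
    (hqm : ¬ (q : ℤ) ∣ x m) (hqn : ¬ (q : ℤ) ∣ x n) :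
    rho q (sv l Sel x) m n ∈ rt (av l e Sel x) e q m n ∧
      ((sv l Sel x m : ℕ) : ZMod q) = (rho q (sv l Sel x) m n : ZMod q) * (sv l Sel x n : ℕ) := by
  have : Fact q.Prime := ⟨hq⟩
  have hcop : Nat.Coprime (sv l Sel x n) q := by
    rw [Nat.coprime_comm, hq.coprime_iff_not_dvd]
    intro h
    apply hqn
    exact dvd_trans (by exact_mod_cast h) (sv_dvd (l := l) (Sel := Sel) hx n)
  have hinv := ZMod.coe_mul_inv_eq_one (sv l Sel x n) hcop
  have hrho : ((rho q (sv l Sel x) m n : ℕ) : ZMod q) =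
      (sv l Sel x m : ZMod q) * (sv l Sel x n : ZMod q)⁻¹ := by
    unfold rho
    rw [ZMod.natCast_val, ZMod.cast_id]
  have h2 : (sv l Sel x m : ZMod q) =
      (rho q (sv l Sel x) m n : ZMod q) * (sv l Sel x n : ZMod q) := by
    rw [hrho, mul_assoc, mul_comm (sv l Sel x n : ZMod q)⁻¹, hinv, mul_one]
  refine ⟨?_, h2⟩
  unfold rt
  rw [mem_filter, mem_range]
  have ham : (av l e Sel x m : ZMod q) ≠ 0 := by
    intro h
    rw [ZMod.intCast_zmod_eq_zero_iff_dvd] at h
    apply hqm
    rw [F2 he hSel hx hm]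
    exact h.mul_right _
  refine ⟨ZMod.val_lt _, ham, ?_⟩
  have h3 : ((x m + x n : ℤ) : ZMod q) = 0 := (ZMod.intCast_zmod_eq_zero_iff_dvd _ _).2 hs
  rw [F2 he hSel hx hm, F2 he hSel hx hn] at h3
  push_cast at h3
  have h4 : ((sv l Sel x n : ℕ) : ZMod q) ^ e ≠ 0 := by
    apply pow_ne_zero
    intro h0
    rw [h0, zero_mul] at hinv
    exact one_ne_zero hinv.symm
  apply mul_right_cancel₀ h4
  rw [zero_mul, ← h3, h2, mul_pow]
  ring

/-- the properties of the data at `q` -/
theorem tau_spec (he : 1 ≤ e) (hSel : ∀ v, Sel v → v l ≠ 0 ∧ ∃ i, i ≠ l ∧ v i = e) (hx : Adm x)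
    {i j k : Fin 4} (hd : Dist4 i j k l) {q : ℕ} (hq : q.Prime) (hl : vl x q l ≠ 0)
    (hn : ∃ n, n ≠ l ∧ vl x q n ≠ 0) :
    tau i j k q (sv l Sel x) (vl x q) ∈ TT i j k (av l e Sel x) e q ∧
    ((tau i j k q (sv l Sel x) (vl x q)).1 = i → ((sv l Sel x j : ℕ) : ZMod q) =
      ((tau i j k q (sv l Sel x) (vl x q)).2 : ZMod q) * (sv l Sel x k : ℕ)) ∧
    ((tau i j k q (sv l Sel x) (vl x q)).1 = j → ((sv l Sel x k : ℕ) : ZMod q) =
      ((tau i j k q (sv l Sel x) (vl x q)).2 : ZMod q) * (sv l Sel x i : ℕ)) ∧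
    ((tau i j k q (sv l Sel x) (vl x q)).1 = k → ((sv l Sel x i : ℕ) : ZMod q) =
      ((tau i j k q (sv l Sel x) (vl x q)).2 : ZMod q) * (sv l Sel x j : ℕ)) ∧
    ((tau i j k q (sv l Sel x) (vl x q)).1 = i ∨ (tau i j k q (sv l Sel x) (vl x q)).1 = j ∨
      (tau i j k q (sv l Sel x) (vl x q)).1 = k) := by
  have hd' := hd
  obtain ⟨hij, hik, hil, hjk, hjl, hkl⟩ := hd
  have hsum : x i + x j + x k + x l = 0 := by
    have h1 := Finset.add_sum_erase univ x (mem_univ l)
    rw [sum_erase hd', hx.sum] at h1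
    linarith
  have dl := (dvd_iff hx hq l).2 hl
  have nd : ∀ n, vl x q n = 0 → ¬ (q : ℤ) ∣ x n := fun n h h' => (dvd_iff hx hq n).1 h' h
  by_cases hi : vl x q i ≠ 0
  · have hvj : vl x q j = 0 := two hx hq hil hij hjl.symm hi hl
    have hvk : vl x q k = 0 := two hx hq hil hik hkl.symm hi hl
    have di := (dvd_iff hx hq i).2 hi
    have hs : (q : ℤ) ∣ x j + x k := by
      have : x j + x k = -(x i + x l) := by linarith
      rw [this]
      exact (dvd_neg).2 (dvd_add di dl)
    obtain ⟨r1, r2⟩ := root_mem he hSel hx hjl hkl hq hs (nd j hvj) (nd k hvk)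
    have ht : tau i j k q (sv l Sel x) (vl x q) = (i, rho q (sv l Sel x) j k) := if_pos hi
    rw [ht]
    refine ⟨?_, fun _ => r2, fun h => absurd h hij, fun h => absurd h hik, Or.inl rfl⟩
    unfold TT
    rw [mem_union, mem_union]
    exact Or.inl (Or.inl (mem_product.2 ⟨mem_singleton_self _, r1⟩))
  · by_cases hj : vl x q j ≠ 0
    · have hvi : vl x q i = 0 := not_not.1 hi
      have hvk : vl x q k = 0 := two hx hq hjl hjk hkl.symm hj hl
      have dj := (dvd_iff hx hq j).2 hj
      have hs : (q : ℤ) ∣ x k + x i := by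
        have : x k + x i = -(x j + x l) := by linarith
        rw [this]
        exact (dvd_neg).2 (dvd_add dj dl)
      obtain ⟨r1, r2⟩ := root_mem he hSel hx hkl hil hq hs (nd k hvk) (nd i hvi)
      have ht : tau i j k q (sv l Sel x) (vl x q) = (j, rho q (sv l Sel x) k i) := by
        unfold tau
        rw [if_neg hi, if_pos hj]
      rw [ht]
      refine ⟨?_, fun h => absurd h.symm hij, fun _ => r2, fun h => absurd h hjk, Or.inr (Or.inl rfl)⟩
      unfold TT
      rw [mem_union, mem_union]
      exact Or.inl (Or.inr (mem_product.2 ⟨mem_singleton_self _, r1⟩))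
    · have hvi : vl x q i = 0 := not_not.1 hi
      have hvj : vl x q j = 0 := not_not.1 hj
      have hk : vl x q k ≠ 0 := by
        obtain ⟨n, hnl, hn⟩ := hn
        rcases fin4_cases i j k l n hd' with rfl | rfl | rfl | rfl
        · exact absurd hvi hn
        · exact absurd hvj hn
        · exact hn
        · exact absurd rfl hnl
      have dk := (dvd_iff hx hq k).2 hk
      have hs : (q : ℤ) ∣ x i + x j := by
        have : x i + x j = -(x k + x l) := by linarith
        rw [this]
        exact (dvd_neg).2 (dvd_add dk dl)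
      obtain ⟨r1, r2⟩ := root_mem he hSel hx hil hjl hq hs (nd i hvi) (nd j hvj)
      have ht : tau i j k q (sv l Sel x) (vl x q) = (k, rho q (sv l Sel x) i j) := by
        unfold tau
        rw [if_neg hi, if_neg hj]
      rw [ht]
      refine ⟨?_, fun h => absurd h.symm hik, fun h => absurd h.symm hjk, fun _ => r2,
        Or.inr (Or.inr rfl)⟩
      unfold TT
      rw [mem_union]
      exact Or.inr (mem_product.2 ⟨mem_singleton_self _, r1⟩)

/-- three points with the same data at `q` -/
theorem dvd_dt {i j k : Fin 4} {q : ℕ} {s t u : Fin 4 → ℕ} {d : Fin 4 × ℕ}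
    (hs : (d.1 = i → ((s j : ℕ) : ZMod q) = (d.2 : ZMod q) * (s k : ℕ)) ∧
      (d.1 = j → ((s k : ℕ) : ZMod q) = (d.2 : ZMod q) * (s i : ℕ)) ∧
      (d.1 = k → ((s i : ℕ) : ZMod q) = (d.2 : ZMod q) * (s j : ℕ)) ∧ (d.1 = i ∨ d.1 = j ∨ d.1 = k))
    (ht : (d.1 = i → ((t j : ℕ) : ZMod q) = (d.2 : ZMod q) * (t k : ℕ)) ∧
      (d.1 = j → ((t k : ℕ) : ZMod q) = (d.2 : ZMod q) * (t i : ℕ)) ∧
      (d.1 = k → ((t i : ℕ) : ZMod q) = (d.2 : ZMod q) * (t j : ℕ)) ∧ (d.1 = i ∨ d.1 = j ∨ d.1 = k))
    (hu : (d.1 = i → ((u j : ℕ) : ZMod q) = (d.2 : ZMod q) * (u k : ℕ)) ∧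
      (d.1 = j → ((u k : ℕ) : ZMod q) = (d.2 : ZMod q) * (u i : ℕ)) ∧
      (d.1 = k → ((u i : ℕ) : ZMod q) = (d.2 : ZMod q) * (u j : ℕ)) ∧ (d.1 = i ∨ d.1 = j ∨ d.1 = k)) :
    (q : ℤ) ∣ dt i j k s t u := by
  rw [← ZMod.intCast_zmod_eq_zero_iff_dvd]
  unfold dt
  push_cast
  rcases hs.2.2.2 with h | h | h
  · rw [hs.1 h, ht.1 h, hu.1 h]
    ring
  · rw [hs.2.1 h, ht.2.1 h, hu.2.1 h]
    ring
  · rw [hs.2.2.1 h, ht.2.2.1 h, hu.2.2.1 h]
    ring

/-- the product of the not selected primes dividing `x l` and another of the numbers -/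
noncomputable def mm (l : Fin 4) (Sel : (Fin 4 → ℕ) → Prop) (x : Fin 4 → ℤ) : ℕ :=
  pr (fun v => ¬ Sel v ∧ v l ≠ 0 ∧ ∃ i, i ≠ l ∧ v i ≠ 0) x

theorem mm_dvd (hx : Adm x) : ((mm l Sel x : ℕ) : ℤ) ∣ x l :=
  pr_dvd hx l fun _ _ h => h.2.1

end

theorem main (h : S_CN) (h' : S_SBP) : S_SB := by
  classical
  intro l e he Sel hSel ε hε
  obtain ⟨i, j, k, hd⟩ := exists_dist l
  set δ : ℝ := ε / 8 with hδ
  have hδ0 : 0 < δ := by positivity
  obtain ⟨D1, hD10, hD1⟩ := h' l e he δ hδ0
  obtain ⟨D2, hD20, hD2⟩ := poly_le 3 δ hδ0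
  obtain ⟨D3, hD30, hD3⟩ := h δ hδ0
  obtain ⟨D4, hD40, hD4⟩ := pow_omega (3 * e) δ hδ0
  refine ⟨D3 ^ 5 * (D4 * (D2 * (64 * (D1 + 1)))), by positivity, ?_⟩
  intro L c a w E hL hF hdeg hc ha hw
  set X : ℝ := Real.exp (δ * L) with hX
  have hX1 : 1 ≤ X := Real.one_le_exp (by positivity)
  set B3 : ℝ := (D2 * X) * ((64 * Real.exp (a - w) + 1) * (D1 * X + 1)) with hB3
  have hB30 : 0 ≤ B3 := by positivity
  have step : (E.card : ℝ) ≤ Real.exp c * ((D3 * X) ^ 5 * ((D4 * X) * B3)) := by
    refine card_fib E (fun x => pr (fun v => ¬ Sel v) x) (by positivity) ?_ ?_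
    · have h1 : E.image (fun x => pr (fun v => ¬ Sel v) x) ⊆ Icc 1 ⌊Real.exp c⌋₊ := by
        intro y hy
        rw [mem_image] at hy
        obtain ⟨x, hx, rfl⟩ := hy
        rw [mem_Icc]
        refine ⟨pr_pos, Nat.le_floor ?_⟩
        rw [← exp_R]
        exact Real.exp_le_exp.2 (hc x hx)
      calc ((E.image (fun x => pr (fun v => ¬ Sel v) x)).card : ℝ) ≤
          ((Icc 1 ⌊Real.exp c⌋₊).card : ℝ) := by exact_mod_cast Finset.card_le_card h1
        _ = (⌊Real.exp c⌋₊ : ℝ) := by rw [Nat.card_Icc]; simp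
        _ ≤ Real.exp c := Nat.floor_le (Real.exp_pos c).le
    · intro r hr
      rw [mem_image] at hr
      obtain ⟨x0, hx0, hx0r⟩ := hr
      set E1 := E.filter (fun x => pr (fun v => ¬ Sel v) x = r) with hE1
      have hE1' : ∀ x ∈ E1, x ∈ E ∧ pr (fun v => ¬ Sel v) x = r := fun x hx => mem_filter.1 hx
      refine card_fib E1 (fun x => (av l e Sel x, ((mm l Sel x : ℕ) : ℤ))) (by positivity) ?_ ?_
      · let A : Finset ℤ := ((E1 ×ˢ (univ : Finset (Fin 4))).image (fun z => av l e Sel z.1 z.2)) ∪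
          E1.image (fun x => ((mm l Sel x : ℕ) : ℤ))
        have hA : (A.card : ℝ) ≤ D3 * X := by
          refine hD3 L r A hL ?_ ?_ ?_
          · rw [← hx0r]
            exact pr_pos.ne'
          · rw [← hx0r]
            refine (pr_le (hF x0 hx0).1 (hF x0 hx0).2).trans ?_
            have h1 : Real.exp (4 * L) ≤ Real.exp (9 * L) := Real.exp_le_exp.2 (by linarith)
            have h2 := Real.exp_pos (9 * L)
            linarith
          · intro y hy
            rw [mem_union, mem_image, mem_image] at hy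
            rcases hy with ⟨z, hz, rfl⟩ | ⟨x, hx, rfl⟩
            · rw [mem_product] at hz
              obtain ⟨hxE, hxr⟩ := hE1' _ hz.1
              have hx := hF _ hxE
              obtain ⟨h1, h2⟩ := F3 he hSel hx.1 hL hx.2 z.2
              refine ⟨h1, h2, fun q hq hdv => ?_⟩
              rw [← hxr]
              rcases eq_or_ne z.2 l with hzl | hzl
              · rw [hzl, av_l] at hdv
                exfalso
                have h3 : q ∣ 1 := by exact_mod_cast hdv
                exact hq.one_lt.ne' (Nat.dvd_one.1 h3)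
              · exact F4 he hSel hx.1 hzl hq hdv
            · obtain ⟨hxE, hxr⟩ := hE1' _ hx
              have hx' := hF _ hxE
              have hpos : 0 < mm l Sel x := pr_pos
              refine ⟨by exact_mod_cast hpos.ne', ?_, fun q hq hdv => ?_⟩
              · have h1 := cast_le_of_dvd (hx'.1.ne l) (mm_dvd (l := l) (Sel := Sel) hx'.1)
                have h2 : |(((mm l Sel x : ℕ) : ℤ) : ℝ)| = (mm l Sel x : ℝ) := by
                  rw [Int.cast_natCast, abs_of_nonneg (Nat.cast_nonneg _)]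
                rw [h2]
                exact h1.trans (hx'.2 l)
              · rw [← hxr, dvd_pr hq]
                have h3 : q ∣ mm l Sel x := by exact_mod_cast hdv
                have h4 := (dvd_pr hq).1 h3
                exact ⟨h4.1, h4.2.1⟩
        have hsub : E1.image (fun x => (av l e Sel x, ((mm l Sel x : ℕ) : ℤ))) ⊆
            (Fintype.piFinset fun _ : Fin 4 => A) ×ˢ A := by
          intro y hy
          rw [mem_image] at hy
          obtain ⟨x, hx, rfl⟩ := hy
          rw [mem_product, Fintype.mem_piFinset]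
          refine ⟨fun n => mem_union_left _ (mem_image.2 ⟨(x, n), mem_product.2 ⟨hx, mem_univ n⟩, rfl⟩),
            mem_union_right _ (mem_image_of_mem _ hx)⟩
        calc ((E1.image (fun x => (av l e Sel x, ((mm l Sel x : ℕ) : ℤ)))).card : ℝ)
            ≤ (((Fintype.piFinset fun _ : Fin 4 => A) ×ˢ A).card : ℝ) := by
              exact_mod_cast Finset.card_le_card hsub
          _ = (A.card : ℝ) ^ 5 := by
              rw [card_product, Fintype.card_piFinset, Finset.prod_const, Finset.card_univ,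
                Fintype.card_fin]
              push_cast
              ring
          _ ≤ (D3 * X) ^ 5 := pow_le_pow_left₀ (Nat.cast_nonneg _) hA 5
      · rintro ⟨α, M'⟩ hb
        rw [mem_image] at hb
        obtain ⟨x1, hx1, hx1b⟩ := hb
        obtain ⟨M, hMM⟩ : ∃ M : ℕ, M' = (M : ℤ) := ⟨mm l Sel x1, (congrArg Prod.snd hx1b).symm⟩
        subst hMM
        set E2 := E1.filter (fun x => (av l e Sel x, ((mm l Sel x : ℕ) : ℤ)) = (α, (M : ℤ))) with hE2
        have hE2' : ∀ x ∈ E2, x ∈ E ∧ av l e Sel x = α ∧ mm l Sel x = M := by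
          intro x hx
          have h1 := mem_filter.1 hx
          refine ⟨(hE1' x h1.1).1, congrArg Prod.fst h1.2, ?_⟩
          have h2 : ((mm l Sel x : ℕ) : ℤ) = (M : ℤ) := congrArg Prod.snd h1.2
          exact_mod_cast h2
        have hM : M = mm l Sel x1 := by
          have h2 : ((mm l Sel x1 : ℕ) : ℤ) = (M : ℤ) := congrArg Prod.snd hx1b
          exact_mod_cast h2.symm
        have hMpos : 0 < M := by rw [hM]; exact pr_pos
        have hx1E := (hE1' x1 hx1).1
        have hMle : (M : ℝ) ≤ Real.exp L := by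
          rw [hM]
          exact (cast_le_of_dvd ((hF x1 hx1E).1.ne l) (mm_dvd (l := l) (Sel := Sel)
            (hF x1 hx1E).1)).trans ((hF x1 hx1E).2 l)
        refine card_fib E2 (fun x => fun q : M.primeFactors => tau i j k q (sv l Sel x) (vl x q))
          hB30 ?_ ?_
        · have hsub : E2.image (fun x => fun q : M.primeFactors =>
              tau i j k q (sv l Sel x) (vl x q)) ⊆
              Fintype.piFinset fun q : M.primeFactors => TT i j k α e q := by
            intro y hy
            rw [mem_image] at hy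
            obtain ⟨x, hx, rfl⟩ := hy
            rw [Fintype.mem_piFinset]
            intro q
            obtain ⟨hxE, hxa, hxm⟩ := hE2' x hx
            have hq := Nat.prime_of_mem_primeFactors q.2
            have hqM : (q : ℕ) ∣ mm l Sel x := by
              rw [hxm]
              exact Nat.dvd_of_mem_primeFactors q.2
            have h1 := (dvd_pr hq).1 hqM
            have h2 := (tau_spec he hSel (hF x hxE).1 hd hq h1.2.2.1 h1.2.2.2).1
            rw [hxa] at h2
            exact h2
          calc ((E2.image (fun x => fun q : M.primeFactors =>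
                tau i j k q (sv l Sel x) (vl x q))).card : ℝ)
              ≤ ((Fintype.piFinset fun q : M.primeFactors => TT i j k α e q).card : ℝ) := by
                exact_mod_cast Finset.card_le_card hsub
            _ = ((∏ q : M.primeFactors, (TT i j k α e q).card : ℕ) : ℝ) := by
                rw [Fintype.card_piFinset]
            _ ≤ (((3 * e) ^ M.primeFactors.card : ℕ) : ℝ) := by
                have h1 : ∏ q : M.primeFactors, (TT i j k α e q).card ≤
                    ∏ _q : M.primeFactors, (3 * e) :=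
                  Finset.prod_le_prod' fun q _ =>
                    TT_card i j k α he (Nat.prime_of_mem_primeFactors q.2)
                rw [Finset.prod_const, Finset.card_univ, Fintype.card_coe] at h1
                exact_mod_cast h1
            _ = ((3 * e : ℕ) : ℝ) ^ M.primeFactors.card := by push_cast; ring
            _ ≤ D4 * (M : ℝ) ^ δ := hD4 M hMpos.ne'
            _ ≤ D4 * X := by
                apply mul_le_mul_of_nonneg_left _ hD40.le
                rw [hX, mul_comm δ L, Real.exp_mul]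
                exact Real.rpow_le_rpow (Nat.cast_nonneg _) hMle hδ0.le
        · intro g _
          set E3 := E2.filter (fun x => (fun q : M.primeFactors =>
            tau i j k q (sv l Sel x) (vl x q)) = g) with hE3
          have hE3' : ∀ x ∈ E3, x ∈ E2 ∧ ∀ q : M.primeFactors,
              tau i j k q (sv l Sel x) (vl x q) = g q := by
            intro x hx
            have h1 := mem_filter.1 hx
            exact ⟨h1.1, fun q => congrFun h1.2 q⟩
          rcases E3.eq_empty_or_nonempty with h0 | ⟨x2, hx2⟩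
          · rw [h0]
            simpa using hB30
          have hcard : (E3.image (fun x => sv l Sel x)).card = E3.card := by
            apply Finset.card_image_of_injOn
            intro x hx y hy hxy
            obtain ⟨hxE, hxa, -⟩ := hE2' x (hE3' x (mem_coe.1 hx)).1
            obtain ⟨hyE, hya, -⟩ := hE2' y (hE3' y (mem_coe.1 hy)).1
            exact inj he hSel (hF x hxE).1 (hF y hyE).1 (hxa.trans hya.symm) hxy
          rw [← hcard]
          have hspec : ∀ x ∈ E3, ∀ q : M.primeFactors,
              ((g q).1 = i → ((sv l Sel x j : ℕ) : ZMod q) = ((g q).2 : ZMod q) * (sv l Sel x k : ℕ)) ∧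
              ((g q).1 = j → ((sv l Sel x k : ℕ) : ZMod q) = ((g q).2 : ZMod q) * (sv l Sel x i : ℕ)) ∧
              ((g q).1 = k → ((sv l Sel x i : ℕ) : ZMod q) = ((g q).2 : ZMod q) * (sv l Sel x j : ℕ)) ∧
              ((g q).1 = i ∨ (g q).1 = j ∨ (g q).1 = k) := by
            intro x hx q
            obtain ⟨hx2', hxg⟩ := hE3' x hx
            obtain ⟨hxE, hxa, hxm⟩ := hE2' x hx2'
            have hq := Nat.prime_of_mem_primeFactors q.2
            have hqM : (q : ℕ) ∣ mm l Sel x := by
              rw [hxm]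
              exact Nat.dvd_of_mem_primeFactors q.2
            have h1 := (dvd_pr hq).1 hqM
            have h2 := (tau_spec he hSel (hF x hxE).1 hd hq h1.2.2.1 h1.2.2.2).2
            rw [hxg q] at h2
            exact h2
          have hMsq : Squarefree M := by rw [hM]; exact sqf
          refine count_pts (i := i) (j := j) (k := k) hd (e := e) (α := α) (M := M) hL hD10
            hD1 (hD2 L hL) ?_ ?_ hMpos ?_ ?_ ?_
          · intro n
            obtain ⟨hxE, hxa, -⟩ := hE2' x2 (hE3' x2 hx2).1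
            rw [← hxa]
            exact F3 he hSel (hF x2 hxE).1 hL (hF x2 hxE).2 n
          · intro s hs
            rw [mem_image] at hs
            obtain ⟨x, hx, rfl⟩ := hs
            obtain ⟨hxE, hxa, -⟩ := hE2' x (hE3' x hx).1
            have hxA := (hF x hxE).1
            rw [← hxa]
            exact ⟨sv_l, fun n => ⟨sv_pos n, sv_le hxA (hF x hxE).2 n⟩,
              fun m n hmn => F5 hSel hxA hmn, fun n hn => F8 he hSel hxA hn,
              fun n hn => F9 he hSel hxA hn, fun b hb hs => F10 he hSel hxA (hdeg x hxE) b hb hs⟩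
          · obtain ⟨hxE, -, hxm⟩ := hE2' x2 (hE3' x2 hx2).1
            rw [← hxm]
            unfold mm
            rw [← exp_R]
            exact Real.exp_le_exp.2 (hw x2 hxE)
          · intro s hs
            rw [mem_image] at hs
            obtain ⟨x, hx, rfl⟩ := hs
            obtain ⟨hxE, -, -⟩ := hE2' x (hE3' x hx).1
            exact F7 hSel (hF x hxE).1 hd (ha x hxE)
          · intro s hs t ht u hu
            rw [mem_image] at hs ht hu
            obtain ⟨x, hx, rfl⟩ := hs
            obtain ⟨y, hy, rfl⟩ := ht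
            obtain ⟨z, hz, rfl⟩ := hu
            refine dvd_of_primes hMsq fun q hq hqM => ?_
            have hqm : q ∈ M.primeFactors := Nat.mem_primeFactors.2 ⟨hq, hqM, hMpos.ne'⟩
            exact dvd_dt (d := g ⟨q, hqm⟩) (hspec x hx ⟨q, hqm⟩) (hspec y hy ⟨q, hqm⟩)
              (hspec z hz ⟨q, hqm⟩)
  refine step.trans ?_
  have hX0 : 0 < X := Real.exp_pos _
  have h1 : B3 ≤ (D2 * X) * ((64 * (Real.exp (a - w) + 1)) * ((D1 + 1) * X)) := by
    rw [hB3]
    apply mul_le_mul_of_nonneg_left _ (by positivity)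
    apply mul_le_mul _ _ (by positivity) (by positivity)
    · linarith
    · nlinarith
  have h2 : Real.exp (ε * L) = X ^ 8 := by
    rw [hX, ← Real.exp_nat_mul]
    congr 1
    rw [hδ]
    push_cast
    ring
  have h3 : Real.exp c + Real.exp (c + a - w) = Real.exp c * (Real.exp (a - w) + 1) := by
    have : c + a - w = c + (a - w) := by ring
    rw [this, Real.exp_add]
    ring
  rw [h2, h3]
  calc Real.exp c * ((D3 * X) ^ 5 * ((D4 * X) * B3)) ≤ Real.exp c * ((D3 * X) ^ 5 * ((D4 * X) *
        ((D2 * X) * ((64 * (Real.exp (a - w) + 1)) * ((D1 + 1) * X))))) := by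
        gcongr
    _ = D3 ^ 5 * (D4 * (D2 * (64 * (D1 + 1)))) * X ^ 8 *
        (Real.exp c * (Real.exp (a - w) + 1)) := by ring

end Pool.Agent.Helper54.Q.SB
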