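import Pool.Agent.Helper54.Q.Asm4
import Pool.Agent.Helper54.Q.Cn
import Pool.Agent.Helper54.Q.Chn
import Pool.Agent.Helper54.Q.Eq
import Pool.Agent.Helper54.Q.SA
import Pool.Agent.Helper54.Q.SBP
import Pool.Agent.Helper54.Q.Sb
import Pool.Agent.Helper54.Q.Atl
import Pool.Agent.Helper54.Q.At
import Pool.Agent.Helper54.Q.Dg
import Pool.Agent.Helper56.Q3.Pt
import Pool.Agent.Helper56.Q3.Ch2
import Pool.Agent.Helper56.Q3.Ar4

/-!
# The count with all six families of strategies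
-/

set_option autoImplicit false

namespace Pool.Agent.Helper54.Q

open Finset

theorem Some6_scale (E : ℕ) (θ lam L : ℝ) (x : Fin 4 → ℤ) (h : Pool.Agent.Helper56.Q3.Some6 E θ (lam * L) x) :
    Pool.Agent.Helper56.Q3.Some6 E (lam * θ) L x := by
  unfold Pool.Agent.Helper56.Q3.Some6 Some5 Cheap at *
  have e : θ * (lam * L) = lam * θ * L := by ring
  simp only [e] at h
  exact h

theorem main6 (η κ h lam : ℝ) (hη0 : 0 < η) (hη : η ≤ 1 / 100) (hκ : 0 < κ) (hκ' : κ ≤ 1 / 100)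
    (hh0 : 0 ≤ h) (h32 : 32 * (η + κ) + h ≤ 1 / 6) (hlam : 24 / 25 ≤ lam) (hh : 4 ≤ (4 + h) * lam)
    (ε : ℝ) (hε : 0 < ε) (A : ℝ) (hA : 1 ≤ A) : ∃ C : ℝ, 0 < C ∧
    ∀ X : ℕ, 1 ≤ X → ((Dset A lam X).ncard : ℝ) ≤ C * (X : ℝ) ^ (lam * (5 / 6 - η) + ε) := by
  have hCN := CN.main
  exact main_countg (DG.main hCN) η κ h lam hη hκ hκ' hlam hh
    (fun E θ L x => Pool.Agent.Helper56.Q3.Some6 E θ L x)
    (fun E θ => Pool.Agent.Helper56.Q3.Ok_Some6 (Pool.Agent.Helper56.Q3.CH2.main hCN) E θ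
      (Ok_Some5 (CHN.main hCN) (EQ.main hCN) (SA.main hCN) (SB.main hCN (SBP.main hCN))
        (AT.main hCN ATL.main) E θ))
    (fun E hE3 hE L hL x hx hhe hR => Pool.Agent.Helper56.Q3.point6 η κ h
      (Pool.Agent.Helper56.Q3.AR4.main η κ h hη0 hκ hh0 h32) E hE3 hE L hL x hx hhe hR)
    (fun E θ lam L x h => Some6_scale E θ lam L x h) ε hε A hA

end Pool.Agent.Helper54.Q
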