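import Pool.Agent.Helper54.Q.Stm

/-!
# Common lemmas (helper95)
-/

set_option autoImplicit false

namespace Pool.Agent.Helper54.Q.L95

open Finset

open Classical in
/-- the product of the primes `p` with `Q (v p)` -/
noncomputable def pr (Q : (Fin 4 → ℕ) → Prop) (x : Fin 4 → ℤ) : ℕ :=
  ∏ p ∈ (PP x).filter (fun p => Q (vl x p)), p

variable {x : Fin 4 → ℤ} {Q : (Fin 4 → ℕ) → Prop} {p : ℕ}

theorem prime_of_mem (h : p ∈ PP x) : p.Prime := by
  unfold PP at h
  rw [mem_biUnion] at h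
  obtain ⟨i, -, hi⟩ := h
  exact Nat.prime_of_mem_primeFactors hi

theorem dvd_iff (hx : Adm x) (hp : p.Prime) (i : Fin 4) : (p : ℤ) ∣ x i ↔ vl x p i ≠ 0 := by
  unfold vl
  rw [Int.natCast_dvd, ← Nat.one_le_iff_ne_zero,
    ← hp.dvd_iff_one_le_factorization (Int.natAbs_ne_zero.2 (hx.ne i))]

theorem mem_PP (hx : Adm x) : p ∈ PP x ↔ p.Prime ∧ ∃ i, vl x p i ≠ 0 := by
  constructor
  · intro h
    have hp := prime_of_mem h
    refine ⟨hp, ?_⟩
    unfold PP at h
    rw [mem_biUnion] at h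
    obtain ⟨i, -, hi⟩ := h
    refine ⟨i, (dvd_iff hx hp i).1 ?_⟩
    rw [Int.natCast_dvd]
    exact Nat.dvd_of_mem_primeFactors hi
  · rintro ⟨hp, i, hi⟩
    unfold PP
    rw [mem_biUnion]
    refine ⟨i, mem_univ _, ?_⟩
    rw [Nat.mem_primeFactors]
    refine ⟨hp, ?_, Int.natAbs_ne_zero.2 (hx.ne i)⟩
    have := (dvd_iff hx hp i).2 hi
    rwa [Int.natCast_dvd] at this

theorem pow_dvd (hx : Adm x) (hp : p.Prime) (i : Fin 4) (e : ℕ) :
    (p : ℤ) ^ e ∣ x i ↔ e ≤ vl x p i := by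
  unfold vl
  rw [← hp.pow_dvd_iff_le_factorization (Int.natAbs_ne_zero.2 (hx.ne i)), ← Int.natCast_dvd,
    Nat.cast_pow]

theorem fin4_aux : ∀ i j k m n : Fin 4, i ≠ j → i ≠ k → j ≠ k → m ≠ i → m ≠ j → m ≠ k → n ≠ m →
    n = i ∨ n = j ∨ n = k := by decide

/-- a prime divides at most two of the four numbers -/
theorem two (hx : Adm x) (hp : p.Prime) {i j k : Fin 4} (hij : i ≠ j) (hik : i ≠ k) (hjk : j ≠ k)
    (hi : vl x p i ≠ 0) (hj : vl x p j ≠ 0) : vl x p k = 0 := by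
  by_contra hk
  have di := (dvd_iff hx hp i).2 hi
  have dj := (dvd_iff hx hp j).2 hj
  have dk := (dvd_iff hx hp k).2 hk
  obtain ⟨m, hm⟩ := hx.prim p hp
  have hmi : m ≠ i := fun h => hm (h ▸ di)
  have hmj : m ≠ j := fun h => hm (h ▸ dj)
  have hmk : m ≠ k := fun h => hm (h ▸ dk)
  apply hm
  have h1 : x m + ∑ n ∈ univ.erase m, x n = 0 := by
    rw [Finset.add_sum_erase _ _ (mem_univ m)]
    exact hx.sum
  have h2 : (p : ℤ) ∣ ∑ n ∈ univ.erase m, x n := by
    refine Finset.dvd_sum fun n hn => ?_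
    rcases fin4_aux i j k m n hij hik hjk hmi hmj hmk (Finset.ne_of_mem_erase hn) with h | h | h
    · rw [h]; exact di
    · rw [h]; exact dj
    · rw [h]; exact dk
  have h3 : x m = -∑ n ∈ univ.erase m, x n := by linarith
  rw [h3]
  exact (dvd_neg).2 h2

theorem pr_pos : 0 < pr Q x := by
  classical
  unfold pr
  exact Finset.prod_pos fun _ hp => (prime_of_mem (mem_filter.1 hp).1).pos

theorem log_pr : Real.log (pr Q x) = R Q x := by
  classical
  unfold R W pr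
  rw [Nat.cast_prod, Real.log_prod]
  · simp
  · intro q hq
    have := (prime_of_mem (mem_filter.1 hq).1).pos
    positivity

theorem exp_R : Real.exp (R Q x) = pr Q x := by
  rw [← log_pr, Real.exp_log]
  exact_mod_cast pr_pos

theorem dvd_pr (hp : p.Prime) : p ∣ pr Q x ↔ p ∈ PP x ∧ Q (vl x p) := by
  classical
  unfold pr
  rw [hp.prime.dvd_finsetProd_iff]
  constructor
  · rintro ⟨q, hq, hpq⟩
    have h1 := (Nat.prime_dvd_prime_iff_eq hp (prime_of_mem (mem_filter.1 hq).1)).1 hpq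
    rw [h1]
    exact mem_filter.1 hq
  · intro h
    exact ⟨p, mem_filter.2 h, dvd_rfl⟩

theorem sqf : Squarefree (pr Q x) := by
  classical
  unfold pr
  refine Finset.squarefree_prod_of_pairwise_isCoprime ?_ ?_
  · intro q hq r hr hqr
    have h1 := prime_of_mem (mem_filter.1 (mem_coe.1 hq)).1
    have h2 := prime_of_mem (mem_filter.1 (mem_coe.1 hr)).1
    show IsRelPrime q r
    rw [← Nat.coprime_iff_isRelPrime]
    exact (Nat.coprime_primes h1 h2).2 hqr
  · intro q hq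
    exact (prime_of_mem (mem_filter.1 hq).1).squarefree

theorem primeFactors_pr : (pr Q x).primeFactors ⊆ PP x := by
  intro q hq
  exact ((dvd_pr (Nat.prime_of_mem_primeFactors hq)).1 (Nat.dvd_of_mem_primeFactors hq)).1

/-- a squarefree number divides `n` if its primes do -/
theorem dvd_of_primes {M : ℕ} (hM : Squarefree M) {n : ℤ} (h : ∀ q : ℕ, q.Prime → q ∣ M → (q : ℤ) ∣ n) :
    (M : ℤ) ∣ n := by
  rw [Int.natCast_dvd, ← Nat.prod_primeFactors_of_squarefree hM]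
  refine Finset.prod_primes_dvd _ (fun q hq => (Nat.prime_of_mem_primeFactors hq).prime) ?_
  intro q hq
  have := h q (Nat.prime_of_mem_primeFactors hq) (Nat.dvd_of_mem_primeFactors hq)
  rwa [Int.natCast_dvd] at this

theorem pr_dvd (hx : Adm x) (i : Fin 4) (hQ : ∀ q : ℕ, q.Prime → Q (vl x q) → vl x q i ≠ 0) :
    ((pr Q x : ℕ) : ℤ) ∣ x i := by
  refine dvd_of_primes sqf fun q hq hd => ?_
  exact (dvd_iff hx hq i).2 (hQ q hq ((dvd_pr hq).1 hd).2)

theorem pr_pow_dvd (hx : Adm x) (i : Fin 4) (e : ℕ)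
    (hQ : ∀ q : ℕ, q.Prime → Q (vl x q) → e ≤ vl x q i) :
    ((pr Q x : ℕ) : ℤ) ^ e ∣ x i := by
  classical
  rw [← Nat.cast_pow, Int.natCast_dvd]
  unfold pr
  rw [← Finset.prod_pow]
  refine Finset.prod_dvd_of_isRelPrime ?_ ?_
  · intro q hq r hr hqr
    have h1 := prime_of_mem (mem_filter.1 (mem_coe.1 hq)).1
    have h2 := prime_of_mem (mem_filter.1 (mem_coe.1 hr)).1
    show IsRelPrime (q ^ e) (r ^ e)
    rw [← Nat.coprime_iff_isRelPrime]
    exact Nat.Coprime.pow _ _ ((Nat.coprime_primes h1 h2).2 hqr)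
  · intro q hq
    have h1 := prime_of_mem (mem_filter.1 hq).1
    have h2 := (pow_dvd hx h1 i e).2 (hQ q h1 (mem_filter.1 hq).2)
    rwa [← Nat.cast_pow, Int.natCast_dvd] at h2

theorem pr_le (hx : Adm x) {L : ℝ} (hL : ∀ i, |(x i : ℝ)| ≤ Real.exp L) :
    ((pr Q x : ℕ) : ℝ) ≤ Real.exp (4 * L) := by
  have h1 : ((pr Q x : ℕ) : ℤ) ∣ ∏ i, x i := by
    refine dvd_of_primes sqf fun q hq hd => ?_
    obtain ⟨-, i, hi⟩ := (mem_PP hx).1 ((dvd_pr hq).1 hd).1
    exact ((dvd_iff hx hq i).2 hi).trans (Finset.dvd_prod_of_mem _ (mem_univ i))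
  have h2 : (∏ i, x i) ≠ 0 := Finset.prod_ne_zero_iff.2 fun i _ => hx.ne i
  have h3 := Int.le_of_dvd (abs_pos.2 h2) ((dvd_abs _ _).2 h1)
  have h4 : ((pr Q x : ℕ) : ℝ) ≤ |((∏ i, x i : ℤ) : ℝ)| := by
    have : (((pr Q x : ℕ) : ℤ) : ℝ) ≤ ((|∏ i, x i| : ℤ) : ℝ) := by exact_mod_cast h3
    rw [Int.cast_abs] at this
    exact_mod_cast this
  refine h4.trans ?_
  rw [Int.cast_prod, Finset.abs_prod]
  calc ∏ i, |(x i : ℝ)| ≤ ∏ _i : Fin 4, Real.exp L :=
        Finset.prod_le_prod (fun i _ => abs_nonneg _) fun i _ => hL i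
    _ = Real.exp (4 * L) := by
        rw [Finset.prod_const, Finset.card_univ, Fintype.card_fin, ← Real.exp_nat_mul]
        norm_num

theorem pow_omega (K : ℕ) (ε : ℝ) (hε : 0 < ε) : ∃ D : ℝ, 0 < D ∧ ∀ n : ℕ, n ≠ 0 →
    (K : ℝ) ^ n.primeFactors.card ≤ D * (n : ℝ) ^ ε := by
  classical
  have hT : Filter.Tendsto (fun n : ℕ => (n : ℝ) ^ ε) Filter.atTop Filter.atTop :=
    (tendsto_rpow_atTop hε).comp tendsto_natCast_atTop_atTop
  obtain ⟨p0, hp0⟩ := Filter.eventually_atTop.1 (hT.eventually_ge_atTop (max (K : ℝ) 1))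
  refine ⟨(max (K : ℝ) 1) ^ p0, by positivity, fun n hn => ?_⟩
  have h1 : (K : ℝ) ^ n.primeFactors.card ≤
      ∏ q ∈ n.primeFactors, ((if q < p0 then max (K : ℝ) 1 else 1) * (q : ℝ) ^ ε) := by
    rw [← Finset.prod_const]
    refine Finset.prod_le_prod (fun _ _ => Nat.cast_nonneg _) fun q hq => ?_
    have hq1 : (1 : ℝ) ≤ (q : ℝ) ^ ε := Real.one_le_rpow
      (by exact_mod_cast (Nat.prime_of_mem_primeFactors hq).one_lt.le) hε.le
    split_ifs with h
    · calc (K : ℝ) ≤ max (K : ℝ) 1 * 1 := by rw [mul_one]; exact le_max_left _ _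
        _ ≤ max (K : ℝ) 1 * (q : ℝ) ^ ε := mul_le_mul_of_nonneg_left hq1 (by positivity)
    · rw [one_mul]
      exact (le_max_left _ _).trans (hp0 q (not_lt.1 h))
  refine h1.trans ?_
  rw [Finset.prod_mul_distrib]
  apply mul_le_mul
  · rw [← Finset.prod_filter, Finset.prod_const]
    apply pow_le_pow_right₀ (le_max_right _ _)
    calc _ ≤ (Finset.range p0).card := by
          apply Finset.card_le_card
          intro q hq
          rw [Finset.mem_filter] at hq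
          exact Finset.mem_range.2 hq.2
      _ = p0 := Finset.card_range _
  · rw [Real.finsetProd_rpow _ _ (fun q _ => Nat.cast_nonneg q)]
    apply Real.rpow_le_rpow (Finset.prod_nonneg fun q _ => Nat.cast_nonneg q) _ hε.le
    rw [← Nat.cast_prod]
    exact_mod_cast Nat.le_of_dvd (Nat.pos_of_ne_zero hn) (Nat.prod_primeFactors_dvd n)
  · exact Finset.prod_nonneg fun q _ => by positivity
  · positivity

/-- counting by fibres -/
theorem card_fib {α β : Type} [DecidableEq β] (E : Finset α) (f : α → β) {n1 n2 : ℝ}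
    (hn : 0 ≤ n2) (h1 : ((E.image f).card : ℝ) ≤ n1)
    (h2 : ∀ b ∈ E.image f, ((E.filter (fun x => f x = b)).card : ℝ) ≤ n2) :
    (E.card : ℝ) ≤ n1 * n2 := by
  rw [Finset.card_eq_sum_card_image f E, Nat.cast_sum]
  calc ∑ b ∈ E.image f, ((E.filter (fun x => f x = b)).card : ℝ)
      ≤ ∑ _b ∈ E.image f, n2 := Finset.sum_le_sum h2
    _ = ((E.image f).card : ℝ) * n2 := by rw [Finset.sum_const, nsmul_eq_mul]
    _ ≤ n1 * n2 := mul_le_mul_of_nonneg_right h1 hn

/-- powers of `2 L + 2` -/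
theorem poly_le (k : ℕ) (ε : ℝ) (hε : 0 < ε) : ∃ D : ℝ, 0 < D ∧ ∀ L : ℝ, 0 ≤ L →
    (2 * L + 2) ^ k ≤ D * Real.exp (ε * L) := by
  set δ : ℝ := ε / (k + 1) with hδ
  have hδ0 : 0 < δ := by positivity
  refine ⟨(2 / δ + 2) ^ k, by positivity, fun L hL => ?_⟩
  have h1 : 2 * L + 2 ≤ (2 / δ + 2) * Real.exp (δ * L) := by
    have h2 := Real.add_one_le_exp (δ * L)
    have h3 : 1 ≤ Real.exp (δ * L) := Real.one_le_exp (by positivity)
    have h4 : 2 * L = 2 / δ * (δ * L) := by field_simp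
    have h5 : 2 / δ * (δ * L) ≤ 2 / δ * Real.exp (δ * L) :=
      mul_le_mul_of_nonneg_left (by linarith) (by positivity)
    nlinarith
  calc (2 * L + 2) ^ k ≤ ((2 / δ + 2) * Real.exp (δ * L)) ^ k :=
        pow_le_pow_left₀ (by positivity) h1 k
    _ = (2 / δ + 2) ^ k * Real.exp (k * (δ * L)) := by rw [mul_pow, ← Real.exp_nat_mul]
    _ ≤ (2 / δ + 2) ^ k * Real.exp (ε * L) := by
        apply mul_le_mul_of_nonneg_left _ (by positivity)
        apply Real.exp_le_exp.2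
        have h6 : (k : ℝ) * δ ≤ ε := by
          rw [hδ, mul_div_assoc', div_le_iff₀ (by positivity)]
          nlinarith
        nlinarith

/-- binary logarithms of numbers up to `exp L` -/
theorem log2_le {n : ℕ} (hn : 1 ≤ n) {L : ℝ} (h : (n : ℝ) ≤ Real.exp L) : (Nat.log 2 n : ℝ) ≤ 2 * L := by
  have h1 : 2 ^ Nat.log 2 n ≤ n := Nat.pow_log_le_self 2 (by omega)
  have h2 : (2 : ℝ) ^ Nat.log 2 n ≤ Real.exp L := le_trans (by exact_mod_cast h1) h
  have h3 : (Nat.log 2 n : ℝ) * Real.log 2 ≤ L := by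
    rw [← Real.log_pow]
    exact (Real.log_le_iff_le_exp (by positivity)).2 h2
  have h4 : (1 / 2 : ℝ) < Real.log 2 := by have := Real.log_two_gt_d9; linarith
  have h5 : (0 : ℝ) ≤ Nat.log 2 n := Nat.cast_nonneg _
  nlinarith

end Pool.Agent.Helper54.Q.L95
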