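import Pool.Agent.Helper54.Q.Cell

/-!
# The masses of the types of primes: every quadruple has a cheap strategy
-/

set_option autoImplicit false

namespace Pool.Agent.Helper54.Q

open Finset

/-- the sum of `f (v p) log p` -/
noncomputable def Ph (f : (Fin 4 → ℕ) → ℝ) (x : Fin 4 → ℤ) : ℝ := ∑ p ∈ PP x, f (vl x p) * Real.log p

/-- not zero, at most two entries not zero -/
def Gd (v : Fin 4 → ℕ) : Prop := (∃ i, v i ≠ 0) ∧
  ∀ i j k : Fin 4, i ≠ j → i ≠ k → j ≠ k → v i = 0 ∨ v j = 0 ∨ v k = 0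

theorem dec4 : ∀ i j k i0 t : Fin 4, i ≠ j → i ≠ k → j ≠ k → i ≠ i0 → j ≠ i0 → k ≠ i0 → t ≠ i0 →
    t = i ∨ t = j ∨ t = k := by decide

theorem prime_of_PP {x : Fin 4 → ℤ} {p : ℕ} (hp : p ∈ PP x) : p.Prime := by
  obtain ⟨i, _, hi⟩ := mem_biUnion.1 hp
  exact Nat.prime_of_mem_primeFactors hi

theorem vl_dvd {x : Fin 4 → ℤ} {p : ℕ} {i : Fin 4} (h : vl x p i ≠ 0) : (p : ℤ) ∣ x i := by
  rw [Int.natCast_dvd]
  exact Nat.dvd_of_factorization_pos h

theorem gd {x : Fin 4 → ℤ} (hx : Adm x) {p : ℕ} (hp : p ∈ PP x) : Gd (vl x p) := by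
  have hpp := prime_of_PP hp
  constructor
  · obtain ⟨i, _, hi⟩ := mem_biUnion.1 hp
    refine ⟨i, ?_⟩
    unfold vl
    exact (hpp.factorization_pos_of_dvd (Nat.pos_of_mem_primeFactors hi |>.ne' |> fun _ => by
      exact Int.natAbs_ne_zero.2 (hx.ne i)) (Nat.dvd_of_mem_primeFactors hi)).ne'
  · intro i j k hij hik hjk
    by_contra hcon
    push Not at hcon
    obtain ⟨h1, h2, h3⟩ := hcon
    obtain ⟨i0, hi0⟩ := hx.prim p hpp
    have d1 := vl_dvd h1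
    have d2 := vl_dvd h2
    have d3 := vl_dvd h3
    have n1 : i ≠ i0 := fun h => hi0 (h ▸ d1)
    have n2 : j ≠ i0 := fun h => hi0 (h ▸ d2)
    have n3 : k ≠ i0 := fun h => hi0 (h ▸ d3)
    have hs := hx.sum
    rw [← add_sum_erase _ _ (mem_univ i0)] at hs
    have hd : (p : ℤ) ∣ ∑ t ∈ univ.erase i0, x t := by
      apply dvd_sum
      intro t ht
      rcases dec4 i j k i0 t hij hik hjk n1 n2 n3 (ne_of_mem_erase ht) with h | h | h
      · rw [h]; exact d1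
      · rw [h]; exact d2
      · rw [h]; exact d3
    apply hi0
    have : x i0 = - ∑ t ∈ univ.erase i0, x t := by linarith
    rw [this]
    exact (dvd_neg).2 hd

open Classical in
theorem W_eq (Q : (Fin 4 → ℕ) → Prop) (f : (Fin 4 → ℕ) → ℕ) (x : Fin 4 → ℤ) :
    W Q f x = Ph (fun v => if Q v then (f v : ℝ) else 0) x := by
  unfold W Ph
  rw [sum_filter]
  refine sum_congr rfl fun p _ => ?_
  by_cases h : Q (vl x p) <;> simp [h]

open Classical in
theorem R_eq (Q : (Fin 4 → ℕ) → Prop) (x : Fin 4 → ℤ) :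
    R Q x = Ph (fun v => if Q v then 1 else 0) x := by
  unfold R
  rw [W_eq]
  simp

theorem log_nonneg_of_PP {x : Fin 4 → ℤ} {p : ℕ} (hp : p ∈ PP x) : 0 ≤ Real.log p :=
  Real.log_nonneg (by exact_mod_cast (prime_of_PP hp).one_lt.le)

theorem Ph_le {x : Fin 4 → ℤ} (hx : Adm x) {f g : (Fin 4 → ℕ) → ℝ} (h : ∀ v, Gd v → f v ≤ g v) :
    Ph f x ≤ Ph g x :=
  sum_le_sum fun _ hp => mul_le_mul_of_nonneg_right (h _ (gd hx hp)) (log_nonneg_of_PP hp)

theorem Ph_nonneg {x : Fin 4 → ℤ} {f : (Fin 4 → ℕ) → ℝ} (h : ∀ v, 0 ≤ f v) : 0 ≤ Ph f x :=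
  sum_nonneg fun _ hp => mul_nonneg (h _) (log_nonneg_of_PP hp)

theorem Ph_sum {ι : Type*} (A : Finset ι) (f : ι → (Fin 4 → ℕ) → ℝ) (x : Fin 4 → ℤ) :
    ∑ a ∈ A, Ph (f a) x = Ph (fun v => ∑ a ∈ A, f a v) x := by
  unfold Ph
  rw [sum_comm]
  refine sum_congr rfl fun p _ => ?_
  rw [sum_mul]

theorem Ph_add (f g : (Fin 4 → ℕ) → ℝ) (x : Fin 4 → ℤ) : Ph f x + Ph g x = Ph (fun v => f v + g v) x := by
  unfold Ph
  rw [← sum_add_distrib]
  exact sum_congr rfl fun p _ => by ring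

theorem Ph_mul (c : ℝ) (f : (Fin 4 → ℕ) → ℝ) (x : Fin 4 → ℤ) : c * Ph f x = Ph (fun v => c * f v) x := by
  unfold Ph
  rw [mul_sum]
  exact sum_congr rfl fun p _ => by ring

theorem Ph_height {x : Fin 4 → ℤ} (hx : Adm x) :
    Ph (fun v => ((∑ i, v i : ℕ) : ℝ)) x = ∑ i, Real.log |(x i : ℝ)| := by
  have h1 : ∀ i, Real.log |(x i : ℝ)| = ∑ p ∈ PP x, (vl x p i : ℝ) * Real.log p := by
    intro i
    have e : |(x i : ℝ)| = (((x i).natAbs : ℕ) : ℝ) := by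
      rw [Nat.cast_natAbs]
      simp
    rw [e, Real.log_nat_eq_sum_factorization]
    unfold Finsupp.sum
    apply sum_subset
    · intro p hp
      exact mem_biUnion.2 ⟨i, mem_univ _, by simpa using hp⟩
    · intro p _ hp
      rw [Finsupp.notMem_support_iff] at hp
      rw [hp]
      simp
  rw [sum_congr rfl fun i _ => h1 i, sum_comm]
  unfold Ph
  refine sum_congr rfl fun p _ => ?_
  push_cast
  rw [sum_mul]

theorem Ph_height_le {x : Fin 4 → ℤ} (hx : Adm x) {L : ℝ} (h : ∀ i, |(x i : ℝ)| ≤ Real.exp L) :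
    Ph (fun v => ((∑ i, v i : ℕ) : ℝ)) x ≤ 4 * L := by
  rw [Ph_height hx]
  calc ∑ i, Real.log |(x i : ℝ)| ≤ ∑ i : Fin 4, L := by
        refine sum_le_sum fun i _ => ?_
        have h0 : 0 < |(x i : ℝ)| := abs_pos.2 (by exact_mod_cast hx.ne i)
        calc Real.log |(x i : ℝ)| ≤ Real.log (Real.exp L) := Real.log_le_log h0 (h i)
          _ = L := Real.log_exp L
    _ = 4 * L := by simp

theorem Gd.one_le {v : Fin 4 → ℕ} (h : Gd v) : 1 ≤ ∑ i, v i := by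
  obtain ⟨i, hi⟩ := h.1
  calc 1 ≤ v i := Nat.one_le_iff_ne_zero.2 hi
    _ ≤ _ := single_le_sum (fun _ _ => Nat.zero_le _) (mem_univ i)

theorem Bdd_W (Q : (Fin 4 → ℕ) → Prop) (f : (Fin 4 → ℕ) → ℕ) (h : ∀ v, Gd v → f v ≤ ∑ i, v i) :
    Bdd (W Q f) := by
  classical
  intro L x hL hx hxL
  rw [W_eq]
  constructor
  · exact Ph_nonneg fun v => by split_ifs <;> positivity
  · refine (Ph_le hx ?_).trans (Ph_height_le hx hxL)
    intro v hv
    split_ifs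
    · exact_mod_cast h v hv
    · positivity

theorem Bdd_R (Q : (Fin 4 → ℕ) → Prop) : Bdd (R Q) := Bdd_W Q _ fun v hv => hv.one_le

theorem Bdd_zero : Bdd (fun _ => 0) := fun L x hL _ _ => ⟨le_rfl, by positivity⟩

theorem Bdd_max {f g : (Fin 4 → ℤ) → ℝ} (hf : Bdd f) (hg : Bdd g) : Bdd (fun x => max (f x) (g x)) :=
  fun L x hL hx h => ⟨le_max_of_le_left (hf L x hL hx h).1, max_le (hf L x hL hx h).2 (hg L x hL hx h).2⟩

theorem Bdd_half {f : (Fin 4 → ℤ) → ℝ} (hf : Bdd f) : Bdd (fun x => f x / 2) :=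
  fun L x hL hx h => ⟨by have := (hf L x hL hx h).1; positivity, by
    have := (hf L x hL hx h).2; have := (hf L x hL hx h).1; linarith⟩

/-! ### sums over exponents -/

theorem dbl (E : ℕ) (i j : Fin 4) (g : ℕ → ℕ → ℝ) (v : Fin 4 → ℕ) :
    ∑ p ∈ Icc 1 E, ∑ q ∈ Icc 1 E, g p q * (if v i = p ∧ v j = q then 1 else 0) =
      if v i ∈ Icc 1 E ∧ v j ∈ Icc 1 E then g (v i) (v j) else 0 := by
  have h1 : ∀ p ∈ Icc 1 E, ∑ q ∈ Icc 1 E, g p q * (if v i = p ∧ v j = q then (1 : ℝ) else 0) =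
      if v i = p then (if v j ∈ Icc 1 E then g p (v j) else 0) else 0 := by
    intro p _
    by_cases hp : v i = p
    · simp only [hp, true_and, if_true, mul_ite, mul_one, mul_zero]
      rw [sum_ite_eq]
    · simp [hp]
  rw [sum_congr rfl h1, sum_ite_eq]
  by_cases h : v i ∈ Icc 1 E <;> simp [h]

theorem sgl (E : ℕ) (i j : Fin 4) (e : ℕ) (v : Fin 4 → ℕ) :
    ∑ q ∈ Icc 1 E, (if v i = e ∧ v j = q then (1 : ℝ) else 0) =
      if v i = e ∧ v j ∈ Icc 1 E then 1 else 0 := by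
  by_cases hp : v i = e
  · simp only [hp, true_and]
    rw [sum_ite_eq]
  · simp [hp]

theorem dgl (E : ℕ) (i j : Fin 4) (v : Fin 4 → ℕ) :
    ∑ p ∈ Icc 1 E, (if v i = p ∧ v j = p then (1 : ℝ) else 0) =
      if v i = v j ∧ v i ∈ Icc 1 E then 1 else 0 := by
  by_cases hp : v i = v j
  · have : ∀ p ∈ Icc 1 E, (if v i = p ∧ v j = p then (1 : ℝ) else 0) = if v i = p then 1 else 0 := by
      intro p _
      rw [hp]
      simp
    rw [sum_congr rfl this, sum_ite_eq]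
    simp [hp]
  · have : ∀ p ∈ Icc 1 E, (if v i = p ∧ v j = p then (1 : ℝ) else 0) = 0 := by
      intro p _
      rw [if_neg]
      rintro ⟨h1, h2⟩
      exact hp (h1.trans h2.symm)
    rw [sum_congr rfl this]
    simp [hp]

end Pool.Agent.Helper54.Q
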