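import Pool.Agent.Helper54.Q.Phi

/-!
# Every quadruple has a cheap strategy
-/

set_option autoImplicit false

namespace Pool.Agent.Helper54.Q

open Finset

/-- paid primes of the chain -/
def qCH (k l : Fin 4) (v : Fin 4 → ℕ) : Prop :=
  ¬ (v k ≠ 0 ∧ v l ≠ 0) ∧ ¬ (v l ≠ 0 ∧ ∀ i, i ≠ l → v i = 0)

def qEQ (i j k l : Fin 4) (v : Fin 4 → ℕ) : Prop :=
  ¬ (v k ≠ 0 ∧ v l ≠ 0) ∧ ¬ (v i ≠ 0 ∧ v i = v j)

def qW (E : ℕ) (k l : Fin 4) (v : Fin 4 → ℕ) : Prop := v k ≠ 0 ∧ v l ≠ 0 ∧ v k ≤ E ∧ v l ≤ E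

def qS (l : Fin 4) (e : ℕ) (S : Finset (Fin 4 × ℕ)) (v : Fin 4 → ℕ) : Prop :=
  ∃ y ∈ S, v y.1 = e ∧ v l = y.2

def qM (l : Fin 4) (Sel : (Fin 4 → ℕ) → Prop) (v : Fin 4 → ℕ) : Prop :=
  ¬ Sel v ∧ v l ≠ 0 ∧ ∃ i, i ≠ l ∧ v i ≠ 0

def qAT (i j l : Fin 4) (e q q' : ℕ) (v : Fin 4 → ℕ) : Prop :=
  ¬ (v i = e ∧ v l = q) ∧ ¬ (v j = e ∧ v l = q')

/-- a cheap strategy -/
def Cheap (θ : ℝ) (c a w : (Fin 4 → ℤ) → ℝ) (L : ℝ) (x : Fin 4 → ℤ) : Prop :=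
  c x ≤ θ * L ∧ c x + a x - w x ≤ θ * L

def Z0 : (Fin 4 → ℤ) → ℝ := fun _ => 0

/-- one of the strategies is cheap -/
def Some5 (E : ℕ) (θ L : ℝ) (x : Fin 4 → ℤ) : Prop :=
  (∃ k ∈ (univ : Finset (Fin 4)), ∃ l ∈ (univ : Finset (Fin 4)), k ≠ l ∧ Cheap θ (R (qCH k l)) Z0 Z0 L x) ∨
  (∃ y ∈ (univ : Finset (Fin 4 × Fin 4 × Fin 4 × Fin 4)), Dist4 y.1 y.2.1 y.2.2.1 y.2.2.2 ∧
    Cheap θ (R (qEQ y.1 y.2.1 y.2.2.1 y.2.2.2)) Z0 Z0 L x) ∨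
  (∃ y ∈ (univ : Finset (Fin 4 × Fin 4 × Fin 4 × Fin 4)), Dist4 y.1 y.2.1 y.2.2.1 y.2.2.2 ∧
    ∃ e ∈ Icc 1 E, Cheap θ (R (fun v => ¬ selA y.1 y.2.1 e v)) (R (selA y.1 y.2.1 e))
      (W (qW E y.2.2.1 y.2.2.2) (fun v => min (v y.2.2.1) (v y.2.2.2))) L x) ∨
  (∃ l ∈ (univ : Finset (Fin 4)), ∃ e ∈ Icc 1 E, ∃ S ∈ ((univ.erase l) ×ˢ (Icc 1 E)).powerset,
    Cheap θ (R (fun v => ¬ qS l e S v)) (R (qS l e S)) (R (qM l (qS l e S))) L x) ∨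
  (∃ y ∈ (univ : Finset (Fin 4 × Fin 4 × Fin 4 × Fin 4)), Dist4 y.1 y.2.1 y.2.2.1 y.2.2.2 ∧
    ∃ e ∈ Icc 1 E, ∃ q ∈ Icc 1 E, ∃ q' ∈ Icc 1 E, (e ≠ q ∧ e ≠ q') ∧
    Cheap θ (R (qAT y.1 y.2.1 y.2.2.2 e q q'))
      (fun x => max (R (fun v => v y.1 = e ∧ v y.2.2.2 = q) x) (R (fun v => v y.2.1 = e ∧ v y.2.2.2 = q') x))
      (fun x => R (fun v => v y.2.2.1 ≠ 0 ∧ v y.2.2.2 ≠ 0) x / 2) L x)

/-- the masses -/
noncomputable def mm (L : ℝ) (x : Fin 4 → ℤ) (i j : Fin 4) (p q : ℕ) : ℝ :=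
  R (fun v => v i = p ∧ v j = q) x / L

noncomputable def ss (L : ℝ) (x : Fin 4 → ℤ) (l : Fin 4) : ℝ :=
  R (fun v => v l ≠ 0 ∧ ∀ i, i ≠ l → v i = 0) x / L

open Classical in
theorem mm_dbl (E : ℕ) (L : ℝ) (x : Fin 4 → ℤ) (i j : Fin 4) (g : ℕ → ℕ → ℝ) :
    ∑ p ∈ Icc 1 E, ∑ q ∈ Icc 1 E, g p q * mm L x i j p q =
      Ph (fun v => if v i ∈ Icc 1 E ∧ v j ∈ Icc 1 E then g (v i) (v j) else 0) x / L := by
  have h1 : ∀ p ∈ Icc 1 E, ∑ q ∈ Icc 1 E, g p q * mm L x i j p q =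
      Ph (fun v => ∑ q ∈ Icc 1 E, g p q * (if v i = p ∧ v j = q then 1 else 0)) x / L := by
    intro p _
    rw [← Ph_sum, sum_div]
    refine sum_congr rfl fun q _ => ?_
    unfold mm
    rw [R_eq, ← Ph_mul]
    ring
  rw [sum_congr rfl h1, ← sum_div, Ph_sum]
  congr 2
  funext v
  rw [← dbl]

open Classical in
theorem mm_U (E : ℕ) (L : ℝ) (x : Fin 4 → ℤ) (i j : Fin 4) :
    U E (mm L x) i j = Ph (fun v => if v i ∈ Icc 1 E ∧ v j ∈ Icc 1 E then 1 else 0) x / L := by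
  unfold U
  rw [← mm_dbl E L x i j (fun _ _ => 1)]
  simp

open Classical in
theorem mm_sgl (E : ℕ) (L : ℝ) (x : Fin 4 → ℤ) (i j : Fin 4) (e : ℕ) :
    ∑ q ∈ Icc 1 E, mm L x i j e q =
      Ph (fun v => if v i = e ∧ v j ∈ Icc 1 E then 1 else 0) x / L := by
  have h : ∀ q ∈ Icc 1 E, mm L x i j e q = Ph (fun v => if v i = e ∧ v j = q then 1 else 0) x / L := by
    intro q _
    unfold mm
    rw [R_eq]
    congr!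
  rw [sum_congr rfl h, ← sum_div, Ph_sum]
  congr 2
  funext v
  rw [← sgl]

open Classical in
theorem mm_dgl (E : ℕ) (L : ℝ) (x : Fin 4 → ℤ) (i j : Fin 4) :
    ∑ p ∈ Icc 1 E, mm L x i j p p =
      Ph (fun v => if v i = v j ∧ v i ∈ Icc 1 E then 1 else 0) x / L := by
  have h : ∀ p ∈ Icc 1 E, mm L x i j p p = Ph (fun v => if v i = p ∧ v j = p then 1 else 0) x / L := by
    intro q _
    unfold mm
    rw [R_eq]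
    congr!
  rw [sum_congr rfl h, ← sum_div, Ph_sum]
  congr 2
  funext v
  rw [← dgl]

/-! ### pointwise inequalities -/

open Classical in
theorem pt_CH (E : ℕ) (k l : Fin 4) (hkl : k ≠ l) (v : Fin 4 → ℕ) :
    (if qCH k l v then (1 : ℝ) else 0) + (if v k ∈ Icc 1 E ∧ v l ∈ Icc 1 E then 1 else 0) +
      (if (v l ≠ 0 ∧ ∀ i, i ≠ l → v i = 0) then 1 else 0) ≤ 1 := by
  unfold qCH
  by_cases h1 : v l ≠ 0 ∧ ∀ i, i ≠ l → v i = 0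
  · have h2 := h1.2 k hkl
    have h3 : ¬ (v k ∈ Icc 1 E ∧ v l ∈ Icc 1 E) := by
      rw [h2]
      simp
    rw [if_neg (fun h => h.2 h1), if_neg h3, if_pos h1]
    norm_num
  · rw [if_neg h1]
    by_cases h3 : v k ∈ Icc 1 E ∧ v l ∈ Icc 1 E
    · have h4 : v k ≠ 0 ∧ v l ≠ 0 := by
        rw [mem_Icc, mem_Icc] at h3
        omega
      rw [if_neg (fun h => h.1 h4), if_pos h3]
      norm_num
    · rw [if_neg h3]
      split_ifs <;> norm_num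

open Classical in
theorem pt_EQ (E : ℕ) (i j k l : Fin 4) (hd : Dist4 i j k l) (v : Fin 4 → ℕ) (hv : Gd v) :
    (if qEQ i j k l v then (1 : ℝ) else 0) + (if v k ∈ Icc 1 E ∧ v l ∈ Icc 1 E then 1 else 0) +
      (if v i = v j ∧ v i ∈ Icc 1 E then 1 else 0) ≤ 1 := by
  unfold qEQ
  obtain ⟨hij, hik, hil, hjk, hjl, hkl⟩ := hd
  by_cases h1 : v i = v j ∧ v i ∈ Icc 1 E
  · have h1' : v i ≠ 0 ∧ v i = v j := by
      rw [mem_Icc] at h1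
      omega
    have h3 : ¬ (v k ∈ Icc 1 E ∧ v l ∈ Icc 1 E) := by
      rw [mem_Icc, mem_Icc]
      have := hv.2 i j k hij hik hjk
      omega
    rw [if_neg (fun h => h.2 h1'), if_neg h3, if_pos h1]
    norm_num
  · rw [if_neg h1]
    by_cases h3 : v k ∈ Icc 1 E ∧ v l ∈ Icc 1 E
    · have h4 : v k ≠ 0 ∧ v l ≠ 0 := by
        rw [mem_Icc, mem_Icc] at h3
        omega
      rw [if_neg (fun h => h.1 h4), if_pos h3]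
      norm_num
    · rw [if_neg h3]
      split_ifs <;> norm_num

end Pool.Agent.Helper54.Q
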