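import Pool.Agent.Helper54.Q.Point

/-!
# Pointwise inequalities
-/

set_option autoImplicit false

namespace Pool.Agent.Helper54.Q

open Finset

theorem only0 (v : Fin 4 → ℕ) : (∀ i : Fin 4, i ≠ 0 → v i = 0) ↔ (v 1 = 0 ∧ v 2 = 0 ∧ v 3 = 0) := by
  constructor
  · intro h
    exact ⟨h 1 (by decide), h 2 (by decide), h 3 (by decide)⟩
  · rintro ⟨h1, h2, h3⟩ i hi
    fin_cases i
    · exact (hi rfl).elim
    · exact h1
    · exact h2
    · exact h3

theorem only1 (v : Fin 4 → ℕ) : (∀ i : Fin 4, i ≠ 1 → v i = 0) ↔ (v 0 = 0 ∧ v 2 = 0 ∧ v 3 = 0) := by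
  constructor
  · intro h
    exact ⟨h 0 (by decide), h 2 (by decide), h 3 (by decide)⟩
  · rintro ⟨h1, h2, h3⟩ i hi
    fin_cases i
    · exact h1
    · exact (hi rfl).elim
    · exact h2
    · exact h3

theorem only2 (v : Fin 4 → ℕ) : (∀ i : Fin 4, i ≠ 2 → v i = 0) ↔ (v 0 = 0 ∧ v 1 = 0 ∧ v 3 = 0) := by
  constructor
  · intro h
    exact ⟨h 0 (by decide), h 1 (by decide), h 3 (by decide)⟩
  · rintro ⟨h1, h2, h3⟩ i hi
    fin_cases i
    · exact h1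
    · exact h2
    · exact (hi rfl).elim
    · exact h3

theorem only3 (v : Fin 4 → ℕ) : (∀ i : Fin 4, i ≠ 3 → v i = 0) ↔ (v 0 = 0 ∧ v 1 = 0 ∧ v 2 = 0) := by
  constructor
  · intro h
    exact ⟨h 0 (by decide), h 1 (by decide), h 2 (by decide)⟩
  · rintro ⟨h1, h2, h3⟩ i hi
    fin_cases i
    · exact h1
    · exact h2
    · exact h3
    · exact (hi rfl).elim

theorem Gd.ex {v : Fin 4 → ℕ} (hv : Gd v) :
    (v 0 = 0 ∨ v 1 = 0 ∨ v 2 = 0) ∧ (v 0 = 0 ∨ v 1 = 0 ∨ v 3 = 0) ∧ (v 0 = 0 ∨ v 2 = 0 ∨ v 3 = 0) ∧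
    (v 1 = 0 ∨ v 2 = 0 ∨ v 3 = 0) ∧ (v 0 ≠ 0 ∨ v 1 ≠ 0 ∨ v 2 ≠ 0 ∨ v 3 ≠ 0) := by
  refine ⟨hv.2 0 1 2 (by decide) (by decide) (by decide), hv.2 0 1 3 (by decide) (by decide) (by decide),
    hv.2 0 2 3 (by decide) (by decide) (by decide), hv.2 1 2 3 (by decide) (by decide) (by decide), ?_⟩
  obtain ⟨i, hi⟩ := hv.1
  fin_cases i
  · exact Or.inl hi
  · exact Or.inr (Or.inl hi)
  · exact Or.inr (Or.inr (Or.inl hi))
  · exact Or.inr (Or.inr (Or.inr hi))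

open Classical in
/-- the indicators of the types -/
noncomputable def TT (E : ℕ) (v : Fin 4 → ℕ) : ℝ :=
    ((if v 0 ∈ Icc 1 E ∧ v 1 ∈ Icc 1 E then (1 : ℝ) else 0) + (if v 0 ∈ Icc 1 E ∧ v 2 ∈ Icc 1 E then 1 else 0) +
      (if v 0 ∈ Icc 1 E ∧ v 3 ∈ Icc 1 E then 1 else 0) + (if v 1 ∈ Icc 1 E ∧ v 2 ∈ Icc 1 E then 1 else 0) +
      (if v 1 ∈ Icc 1 E ∧ v 3 ∈ Icc 1 E then 1 else 0) + (if v 2 ∈ Icc 1 E ∧ v 3 ∈ Icc 1 E then 1 else 0)) +
      ((if v 0 ≠ 0 ∧ (∀ i : Fin 4, i ≠ 0 → v i = 0) then 1 else 0) +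
       (if v 1 ≠ 0 ∧ (∀ i : Fin 4, i ≠ 1 → v i = 0) then 1 else 0) +
       (if v 2 ≠ 0 ∧ (∀ i : Fin 4, i ≠ 2 → v i = 0) then 1 else 0) +
       (if v 3 ≠ 0 ∧ (∀ i : Fin 4, i ≠ 3 → v i = 0) then 1 else 0))

theorem TT_le (E : ℕ) (v : Fin 4 → ℕ) (hv : Gd v) : TT E v ≤ 1 := by
  obtain ⟨a1, a2, a3, a4, a5⟩ := hv.ex
  unfold TT
  simp only [only0, only1, only2, only3]
  generalize v 0 = a at *
  generalize v 1 = b at *
  generalize v 2 = c at *
  generalize v 3 = d at *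
  simp only [mem_Icc]
  by_cases ha : a = 0 <;> by_cases hb : b = 0 <;> by_cases hc : c = 0 <;> by_cases hd : d = 0 <;>
    first
      | (exfalso; omega)
      | (subst_vars
         simp_all
         try (split_ifs <;> norm_num))

theorem TT_eq (E : ℕ) (v : Fin 4 → ℕ) (hv : Gd v) (hb : ∀ i, v i ≤ E) : TT E v = 1 := by
  obtain ⟨a1, a2, a3, a4, a5⟩ := hv.ex
  have b0 := hb 0
  have b1 := hb 1
  have b2 := hb 2
  have b3 := hb 3
  unfold TT
  simp only [only0, only1, only2, only3]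
  generalize v 0 = a at *
  generalize v 1 = b at *
  generalize v 2 = c at *
  generalize v 3 = d at *
  simp only [mem_Icc]
  by_cases ha : a = 0 <;> by_cases hb : b = 0 <;> by_cases hc : c = 0 <;> by_cases hd : d = 0 <;>
    first
      | (exfalso; omega)
      | (subst_vars
         simp_all [Nat.one_le_iff_ne_zero])

theorem TT_nonneg (E : ℕ) (v : Fin 4 → ℕ) : 0 ≤ TT E v := by
  unfold TT
  positivity

theorem TT_ge (E : ℕ) (v : Fin 4 → ℕ) (hv : Gd v) :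
    1 ≤ TT E v + 1 / ((E : ℝ) + 1) * ((∑ i, v i : ℕ) : ℝ) := by
  have hE : (0 : ℝ) < (E : ℝ) + 1 := by positivity
  by_cases h : ∀ i, v i ≤ E
  · rw [TT_eq E v hv h]
    have : 0 ≤ 1 / ((E : ℝ) + 1) * ((∑ i, v i : ℕ) : ℝ) := by positivity
    linarith
  · push Not at h
    obtain ⟨i, hi⟩ := h
    have h1 : E < ∑ i, v i := lt_of_lt_of_le hi (single_le_sum (fun _ _ => Nat.zero_le _) (mem_univ i))
    have h2 : 1 ≤ 1 / ((E : ℝ) + 1) * ((∑ i, v i : ℕ) : ℝ) := by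
      rw [one_div, inv_mul_eq_div, le_div_iff₀ hE, one_mul]
      exact_mod_cast h1
    have := TT_nonneg E v
    linarith

open Classical in
theorem pt_height (E : ℕ) (v : Fin 4 → ℕ) (hv : Gd v) :
    ∑ i : Fin 4, ∑ j : Fin 4, (if i = j then (0 : ℝ) else
      (if v i ∈ Icc 1 E ∧ v j ∈ Icc 1 E then ((v i : ℝ) + v j) else 0)) ≤ 2 * ((∑ i, v i : ℕ) : ℝ) := by
  obtain ⟨a1, a2, a3, a4, a5⟩ := hv.ex
  simp only [Fin.sum_univ_four]
  generalize v 0 = a at *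
  generalize v 1 = b at *
  generalize v 2 = c at *
  generalize v 3 = d at *
  simp only [mem_Icc]
  by_cases ha : a = 0 <;> by_cases hb : b = 0 <;> by_cases hc : c = 0 <;> by_cases hd : d = 0 <;>
    first
      | (exfalso; omega)
      | (subst_vars
         simp
         try (split_ifs <;> first | (exfalso; omega) | (try push_cast) <;> first | nlinarith | positivity))

open Classical in
theorem pt_G (E : ℕ) (i j k l : Fin 4) (hd : Dist4 i j k l) (e : ℕ) (he : 1 ≤ e) (v : Fin 4 → ℕ) (hv : Gd v) :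
    (if v i = e ∧ v k ∈ Icc 1 E then (1 : ℝ) else 0) + (if v i = e ∧ v l ∈ Icc 1 E then 1 else 0) +
    (if v j = e ∧ v k ∈ Icc 1 E then 1 else 0) + (if v j = e ∧ v l ∈ Icc 1 E then 1 else 0) ≤
      if selA i j e v then 1 else 0 := by
  obtain ⟨hij, hik, hil, hjk, hjl, hkl⟩ := hd
  have a1 := hv.2 i j k hij hik hjk
  have a2 := hv.2 i j l hij hil hjl
  have a3 := hv.2 i k l hik hil hkl
  have a4 := hv.2 j k l hjk hjl hkl
  unfold selA
  simp only [mem_Icc]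
  generalize v i = a at *
  generalize v j = b at *
  generalize v k = c at *
  generalize v l = d at *
  split_ifs <;> first | (exfalso; omega) | norm_num

open Classical in
theorem pt_M (E : ℕ) (l : Fin 4) (Sel : (Fin 4 → ℕ) → Prop) (v : Fin 4 → ℕ) (hv : Gd v) :
    ∑ i ∈ univ.erase l, (if v i ∈ Icc 1 E ∧ v l ∈ Icc 1 E then (1 : ℝ) else 0) ≤
      (if Sel v then 1 else 0) + (if qM l Sel v then 1 else 0) := by
  by_cases h : ∃ i, i ≠ l ∧ v i ∈ Icc 1 E ∧ v l ∈ Icc 1 E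
  · obtain ⟨i, hi, h1, h2⟩ := h
    have h3 : ∑ t ∈ univ.erase l, (if v t ∈ Icc 1 E ∧ v l ∈ Icc 1 E then (1 : ℝ) else 0) = 1 := by
      rw [sum_eq_single i]
      · rw [if_pos ⟨h1, h2⟩]
      · intro t ht hti
        rw [if_neg]
        rintro ⟨h3, _⟩
        have := hv.2 t i l hti (ne_of_mem_erase ht) hi
        rw [mem_Icc] at h1 h2 h3
        omega
      · intro h
        exact (h (mem_erase.2 ⟨hi, mem_univ _⟩)).elim
    rw [h3]
    by_cases hS : Sel v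
    · rw [if_pos hS]
      split_ifs <;> norm_num
    · rw [if_neg hS, if_pos]
      · norm_num
      · rw [mem_Icc] at h1 h2
        exact ⟨hS, by omega, i, hi, by omega⟩
  · have h3 : ∑ t ∈ univ.erase l, (if v t ∈ Icc 1 E ∧ v l ∈ Icc 1 E then (1 : ℝ) else 0) = 0 := by
      apply sum_eq_zero
      intro t ht
      rw [if_neg]
      intro h4
      exact h ⟨t, ne_of_mem_erase ht, h4⟩
    rw [h3]
    positivity

open Classical in
theorem pt_S (E : ℕ) (l : Fin 4) (e : ℕ) (he : 1 ≤ e) (S : Finset (Fin 4 × ℕ))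
    (hS : ∀ y ∈ S, y.1 ≠ l ∧ y.2 ∈ Icc 1 E) (v : Fin 4 → ℕ) (hv : Gd v) :
    ∑ y ∈ S, (if v y.1 = e ∧ v l = y.2 then (1 : ℝ) else 0) = if qS l e S v then 1 else 0 := by
  by_cases h : qS l e S v
  · rw [if_pos h]
    obtain ⟨y, hy, h1, h2⟩ := h
    rw [sum_eq_single y]
    · rw [if_pos ⟨h1, h2⟩]
    · intro t ht hty
      rw [if_neg]
      rintro ⟨h3, h4⟩
      have e2 : t.2 = y.2 := by rw [← h4, h2]
      have hne : t.1 ≠ y.1 := fun h => hty (Prod.ext h e2)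
      have := hv.2 t.1 y.1 l hne (hS t ht).1 (hS y hy).1
      have h5 := (hS y hy).2
      rw [mem_Icc] at h5
      omega
    · intro h
      exact (h hy).elim
  · rw [if_neg h]
    apply sum_eq_zero
    intro y hy
    rw [if_neg]
    intro h'
    exact h ⟨y, hy, h'⟩

open Classical in
theorem pt_AT (i j l : Fin 4) (hij : i ≠ j) (hil : i ≠ l) (hjl : j ≠ l) (e q q' : ℕ) (he : 1 ≤ e)
    (hq : 1 ≤ q) (v : Fin 4 → ℕ) (hv : Gd v) :
    (if qAT i j l e q q' v then (1 : ℝ) else 0) + (if v i = e ∧ v l = q then 1 else 0) +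
      (if v j = e ∧ v l = q' then 1 else 0) ≤ 1 := by
  have a1 := hv.2 i j l hij hil hjl
  unfold qAT
  generalize v i = a at *
  generalize v j = b at *
  generalize v l = d at *
  split_ifs <;> first | (exfalso; omega) | norm_num

end Pool.Agent.Helper54.Q
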