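import Pool.Agent.Helper54.Q.Point2
import Pool.Agent.Helper54.Q.Stm2

/-!
# Every quadruple has a cheap strategy
-/

set_option autoImplicit false

namespace Pool.Agent.Helper54.Q

open Finset

theorem R_nonneg' (Q : (Fin 4 → ℕ) → Prop) (x : Fin 4 → ℤ) : 0 ≤ R Q x := by
  classical
  rw [R_eq]
  exact Ph_nonneg fun v => by split_ifs <;> norm_num

theorem R_true (x : Fin 4 → ℤ) : R (fun _ => True) x = Ph (fun _ => 1) x := by
  rw [R_eq]
  congr!
  simp

open Classical in
theorem sum_TT (E : ℕ) (L : ℝ) (x : Fin 4 → ℤ) :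
    (U E (mm L x) 0 1 + U E (mm L x) 0 2 + U E (mm L x) 0 3 + U E (mm L x) 1 2 + U E (mm L x) 1 3 +
      U E (mm L x) 2 3) + ∑ i, ss L x i = Ph (TT E) x / L := by
  rw [mm_U, mm_U, mm_U, mm_U, mm_U, mm_U, Fin.sum_univ_four]
  unfold ss
  rw [R_eq, R_eq, R_eq, R_eq]
  simp only [← add_div, Ph_add]
  congr 2
  funext v
  unfold TT
  congr!

theorem point (η : ℝ) (hAR : S_ARg η) (E : ℕ) (hE : 400000 ≤ E) (L : ℝ) (hL : 0 < L) (x : Fin 4 → ℤ)
    (hx : Adm x) (hxL : ∀ i, |(x i : ℝ)| ≤ Real.exp L)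
    (hR : R (fun _ => True) x ≤ (1 + 1 / 100000) * L) : Some5 E (5 / 6 - η) L x := by
  classical
  by_contra hcon
  unfold Some5 at hcon
  rw [not_or, not_or, not_or, not_or] at hcon
  obtain ⟨n1, n2, n3, n4, n5⟩ := hcon
  set ρ : ℝ := R (fun _ => True) x / L with hρ
  have hρL : ρ * L = Ph (fun _ => 1) x := by
    rw [hρ, R_true]
    field_simp
  set T : ℝ := Ph (TT E) x / L with hT
  have hTL : T * L = Ph (TT E) x := by
    rw [hT]
    field_simp
  have hhe := Ph_height_le hx hxL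
  refine hAR E (mm L x) (ss L x) (ρ - T) ρ (by omega) ?_ ?_ ?_ ?_ ?_ ?_ ?_ ?_ ?_ ?_ ?_ ?_ ?_
  · intro i j p q
    exact div_nonneg (R_nonneg' _ _) hL.le
  · intro i j p q
    unfold mm
    have : (fun v : Fin 4 → ℕ => v i = p ∧ v j = q) = fun v => v j = q ∧ v i = p := by
      funext v
      exact propext and_comm
    rw [this]
  · intro i
    exact div_nonneg (R_nonneg' _ _) hL.le
  · -- 0 ≤ t
    have : Ph (TT E) x ≤ Ph (fun _ => 1) x := Ph_le hx fun v hv => TT_le E v hv
    rw [sub_nonneg]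
    exact le_of_mul_le_mul_right (by rw [hρL, hTL]; exact this) hL
  · -- t ≤ κ
    have h1 : Ph (fun _ => 1) x ≤ Ph (TT E) x + 1 / ((E : ℝ) + 1) * Ph (fun v => ((∑ i, v i : ℕ) : ℝ)) x := by
      rw [Ph_mul, Ph_add]
      exact Ph_le hx fun v hv => TT_ge E v hv
    have h2 : 1 / ((E : ℝ) + 1) * Ph (fun v => ((∑ i, v i : ℕ) : ℝ)) x ≤ 1 / 100000 * L := by
      have h3 : (400000 : ℝ) ≤ (E : ℝ) + 1 := by
        have : (400000 : ℝ) ≤ (E : ℝ) := by exact_mod_cast hE
        linarith
      calc 1 / ((E : ℝ) + 1) * Ph (fun v => ((∑ i, v i : ℕ) : ℝ)) x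
          ≤ 1 / ((E : ℝ) + 1) * (4 * L) := by gcongr
        _ ≤ 1 / 400000 * (4 * L) := by gcongr
        _ = 1 / 100000 * L := by ring
    have h4 : ρ * L ≤ (T + 1 / 100000) * L := by
      rw [hρL, add_mul, hTL]
      linarith
    have := le_of_mul_le_mul_right h4 hL
    linarith
  · -- ρ ≤ 1 + κ
    rw [hρ, div_le_iff₀ hL]
    exact hR
  · rw [sum_TT, ← hT]
    ring
  · -- height
    have h1 : (∑ i : Fin 4, ∑ j : Fin 4, (if i = j then (0 : ℝ) else
        ∑ p ∈ Icc 1 E, ∑ q ∈ Icc 1 E, ((p : ℝ) + q) * mm L x i j p q)) =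
        Ph (fun v => ∑ i : Fin 4, ∑ j : Fin 4, (if i = j then (0 : ℝ) else
      (if v i ∈ Icc 1 E ∧ v j ∈ Icc 1 E then ((v i : ℝ) + v j) else 0))) x / L := by
      rw [← Ph_sum, sum_div]
      refine sum_congr rfl fun i _ => ?_
      rw [← Ph_sum, sum_div]
      refine sum_congr rfl fun j _ => ?_
      by_cases hij : i = j
      · simp only [hij, if_true]
        unfold Ph
        simp
      · simp only [hij, if_false]
        rw [mm_dbl E L x i j (fun p q => (p : ℝ) + q)]
    rw [h1, div_le_iff₀ hL]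
    calc _ ≤ Ph (fun v => 2 * ((∑ i, v i : ℕ) : ℝ)) x := Ph_le hx fun v hv => by
          have := pt_height E v hv
          convert this
      _ = 2 * Ph (fun v => ((∑ i, v i : ℕ) : ℝ)) x := (Ph_mul _ _ _).symm
      _ ≤ 2 * (4 * L) := by gcongr
      _ ≤ 2 * (4 + 1 / 100000) * L := by nlinarith
  · -- chain
    intro k l hkl
    by_contra h
    push Not at h
    apply n1
    have h1 : R (qCH k l) x + U E (mm L x) k l * L + ss L x l * L ≤ ρ * L := by
      rw [mm_U, hρL]
      unfold ss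
      rw [R_eq, R_eq, div_mul_cancel₀ _ hL.ne', div_mul_cancel₀ _ hL.ne', Ph_add, Ph_add]
      refine Ph_le hx fun v _ => ?_
      have := pt_CH E k l hkl v
      convert this
    have h2 : R (qCH k l) x ≤ (5 / 6 - η) * L := by
      have : (ρ - U E (mm L x) k l - ss L x l) * L ≤ (5 / 6 - η) * L := by gcongr
      linarith
    refine ⟨k, mem_univ _, l, mem_univ _, hkl, h2, ?_⟩
    unfold Z0
    linarith
  · -- EQ
    intro i j k l hd
    by_contra h
    push Not at h
    apply n2
    have h1 : R (qEQ i j k l) x + U E (mm L x) k l * L + (∑ p ∈ Icc 1 E, mm L x i j p p) * L ≤ ρ * L := by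
      rw [mm_U, mm_dgl, hρL]
      rw [R_eq, div_mul_cancel₀ _ hL.ne', div_mul_cancel₀ _ hL.ne', Ph_add, Ph_add]
      refine Ph_le hx fun v hv => ?_
      have := pt_EQ E i j k l hd v hv
      convert this
    have h2 : R (qEQ i j k l) x ≤ (5 / 6 - η) * L := by
      have : (ρ - U E (mm L x) k l - ∑ p ∈ Icc 1 E, mm L x i j p p) * L ≤ (5 / 6 - η) * L := by gcongr
      linarith
    refine ⟨(i, j, k, l), mem_univ _, hd, h2, ?_⟩
    unfold Z0
    linarith
  · -- SA
    intro i j k l hd e he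
    by_contra h
    push Not at h
    apply n3
    set G := ∑ q ∈ Icc 1 E, (mm L x i k e q + mm L x i l e q + mm L x j k e q + mm L x j l e q) with hG
    set V := ∑ p ∈ Icc 1 E, ∑ q ∈ Icc 1 E, ((min p q : ℕ) : ℝ) * mm L x k l p q with hV
    have h1 : R (fun v => ¬ selA i j e v) x + R (selA i j e) x = ρ * L := by
      rw [R_eq, R_eq, Ph_add, hρL]
      congr 1
      funext v
      by_cases hs : selA i j e v <;> simp [hs]
    have h2 : G * L ≤ R (selA i j e) x := by
      rw [hG, sum_add_distrib, sum_add_distrib, sum_add_distrib, mm_sgl, mm_sgl, mm_sgl, mm_sgl,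
        ← add_div, ← add_div, ← add_div, div_mul_cancel₀ _ hL.ne', Ph_add, Ph_add, Ph_add, R_eq]
      refine Ph_le hx fun v hv => ?_
      have := pt_G E i j k l hd e (mem_Icc.1 he).1 v hv
      convert this
    have h3 : V * L = W (qW E k l) (fun v => min (v k) (v l)) x := by
      rw [hV, mm_dbl E L x k l (fun p q => ((min p q : ℕ) : ℝ)), div_mul_cancel₀ _ hL.ne', W_eq]
      congr 1
      funext v
      unfold qW
      have : (v k ∈ Icc 1 E ∧ v l ∈ Icc 1 E) ↔ (v k ≠ 0 ∧ v l ≠ 0 ∧ v k ≤ E ∧ v l ≤ E) := by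
        rw [mem_Icc, mem_Icc]
        omega
      simp only [this]
      congr!
    have h4 : (ρ - min G V) * L ≤ (5 / 6 - η) * L := by gcongr
    have h5 : (ρ - G) * L ≤ (ρ - min G V) * L := by
      have := min_le_left G V
      gcongr
    have h6 : (ρ - V) * L ≤ (ρ - min G V) * L := by
      have := min_le_right G V
      gcongr
    refine ⟨(i, j, k, l), mem_univ _, hd, e, he, ?_, ?_⟩
    · show R (fun v => ¬ selA i j e v) x ≤ _
      linarith
    · show R (fun v => ¬ selA i j e v) x + R (selA i j e) x - W (qW E k l) (fun v => min (v k) (v l)) x ≤ _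
      rw [h1, ← h3]
      linarith
  · -- SB
    intro l e he S hS
    by_contra h
    push Not at h
    apply n4
    set σ := ∑ y ∈ S, mm L x y.1 l e y.2 with hσ
    have h1 : R (fun v => ¬ qS l e S v) x + R (qS l e S) x = ρ * L := by
      rw [R_eq, R_eq, Ph_add, hρL]
      congr 1
      funext v
      by_cases hs : qS l e S v <;> simp [hs]
    have h2 : σ * L = R (qS l e S) x := by
      have h2' : ∀ y ∈ S, mm L x y.1 l e y.2 = Ph (fun v => if v y.1 = e ∧ v l = y.2 then 1 else 0) x / L := by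
        intro y _
        unfold mm
        rw [R_eq]
        congr!
      rw [hσ, sum_congr rfl h2', ← sum_div, Ph_sum, div_mul_cancel₀ _ hL.ne', R_eq]
      refine le_antisymm (Ph_le hx fun v hv => ?_) (Ph_le hx fun v hv => ?_)
      · have := (pt_S E l e (mem_Icc.1 he).1 S hS v hv).le
        convert this
      · have := (pt_S E l e (mem_Icc.1 he).1 S hS v hv).ge
        convert this
    set V := (∑ i ∈ univ.erase l, U E (mm L x) i l) with hV
    have h3 : V * L ≤ R (qS l e S) x + R (qM l (qS l e S)) x := by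
      rw [hV, sum_congr rfl fun i _ => mm_U E L x i l, ← sum_div, Ph_sum, div_mul_cancel₀ _ hL.ne', R_eq,
        R_eq, Ph_add]
      refine Ph_le hx fun v hv => ?_
      have := pt_M E l (qS l e S) v hv
      convert this
    have h4 : (ρ - min σ (V - σ)) * L ≤ (5 / 6 - η) * L := by gcongr
    have h5 : (ρ - σ) * L ≤ (ρ - min σ (V - σ)) * L := by
      have := min_le_left σ (V - σ)
      gcongr
    have h6 : (ρ - (V - σ)) * L ≤ (ρ - min σ (V - σ)) * L := by
      have := min_le_right σ (V - σ)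
      gcongr
    refine ⟨l, mem_univ _, e, he, S, ?_, ?_, ?_⟩
    · rw [mem_powerset]
      intro y hy
      rw [mem_product]
      exact ⟨mem_erase.2 ⟨(hS y hy).1, mem_univ _⟩, (hS y hy).2⟩
    · linarith
    · linarith
  · -- AT
    intro i j k l hd e he q hq q' hq' heq heq'
    by_contra h
    push Not at h
    apply n5
    set m1 := mm L x i l e q with hm1
    set m2 := mm L x j l e q' with hm2
    have e1 : R (fun v => v i = e ∧ v l = q) x = m1 * L := by
      rw [hm1]
      unfold mm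
      rw [div_mul_cancel₀ _ hL.ne']
    have e2 : R (fun v => v j = e ∧ v l = q') x = m2 * L := by
      rw [hm2]
      unfold mm
      rw [div_mul_cancel₀ _ hL.ne']
    have h1 : R (qAT i j l e q q') x + m1 * L + m2 * L ≤ ρ * L := by
      rw [← e1, ← e2, hρL, R_eq, R_eq, R_eq, Ph_add, Ph_add]
      refine Ph_le hx fun v hv => ?_
      have := pt_AT i j l hd.1 hd.2.2.1 hd.2.2.2.2.1 e q q' (mem_Icc.1 he).1 (mem_Icc.1 hq).1 v hv
      convert this
    have h2 : U E (mm L x) k l * L ≤ R (fun v => v k ≠ 0 ∧ v l ≠ 0) x := by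
      rw [mm_U, div_mul_cancel₀ _ hL.ne', R_eq]
      refine Ph_le hx fun v hv => ?_
      by_cases h3 : v k ∈ Icc 1 E ∧ v l ∈ Icc 1 E
      · have h4 : v k ≠ 0 ∧ v l ≠ 0 := by
          rw [mem_Icc, mem_Icc] at h3
          omega
        simp [h3, h4]
      · rw [if_neg h3]
        split_ifs <;> norm_num
    have h4 : (ρ - m1 - m2 + max 0 (max m1 m2 - U E (mm L x) k l / 2)) * L ≤ (5 / 6 - η) * L := by gcongr
    have h5 : (ρ - m1 - m2) * L ≤ (ρ - m1 - m2 + max 0 (max m1 m2 - U E (mm L x) k l / 2)) * L := by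
      have := le_max_left 0 (max m1 m2 - U E (mm L x) k l / 2)
      gcongr
      linarith
    have h6 : (ρ - m1 - m2 + (max m1 m2 - U E (mm L x) k l / 2)) * L ≤
        (ρ - m1 - m2 + max 0 (max m1 m2 - U E (mm L x) k l / 2)) * L := by
      have := le_max_right 0 (max m1 m2 - U E (mm L x) k l / 2)
      gcongr
    have h7 : max (m1 * L) (m2 * L) = max m1 m2 * L := (max_mul_of_nonneg m1 m2 hL.le).symm
    refine ⟨(i, j, k, l), mem_univ _, hd, e, he, q, hq, q', hq', ⟨heq, heq'⟩, ?_, ?_⟩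
    · show R (qAT i j l e q q') x ≤ _
      linarith
    · show R (qAT i j l e q q') x + max (R (fun v => v i = e ∧ v l = q) x) (R (fun v => v j = e ∧ v l = q') x) -
        R (fun v => v k ≠ 0 ∧ v l ≠ 0) x / 2 ≤ _
      rw [e1, e2, h7]
      linarith

end Pool.Agent.Helper54.Q
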