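import Pool.Agent.Helper54.Q.Stm

/-!
# Shared lemmas of the project Q (helper15): the number of the roots of `α l ^ e + β` modulo `h`, Thue's lemma
-/

set_option autoImplicit false

namespace Pool.Agent.Helper54.Q.Roots

open Finset

/-- the number of the roots -/
noncomputable def nr (h : ℕ) (α β : ℤ) (e : ℕ) : ℕ :=
  Nat.card {l : ZMod h // (α : ZMod h) * l ^ e + (β : ZMod h) = 0}

theorem isUnit_of {h : ℕ} {α : ℤ} (hα : IsCoprime α (h : ℤ)) : IsUnit (α : ZMod h) := by
  obtain ⟨a, b, hab⟩ := hα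
  have h1 : ((a * α + b * (h : ℤ) : ℤ) : ZMod h) = 1 := by rw [hab, Int.cast_one]
  push_cast at h1
  rw [ZMod.natCast_self, mul_zero, add_zero] at h1
  exact IsUnit.of_mul_eq_one_right _ h1

theorem nr_cyclic (h : ℕ) [NeZero h] (α β : ℤ) (e : ℕ) (he : 1 ≤ e) (hα : IsCoprime α (h : ℤ))
    (hβ : IsCoprime β (h : ℤ)) (hc : IsCyclic (ZMod h)ˣ) : nr h α β e ≤ e := by
  classical
  have hun : ∀ l : {l : ZMod h // (α : ZMod h) * l ^ e + (β : ZMod h) = 0}, IsUnit (l : ZMod h) := by
    rintro ⟨l, hl⟩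
    have h1 : (α : ZMod h) * l ^ e = -(β : ZMod h) := eq_neg_of_add_eq_zero_left hl
    have h2 : IsUnit ((α : ZMod h) * l ^ e) := by
      rw [h1]
      exact (isUnit_of hβ).neg
    have h3 : IsUnit (l ^ e) := isUnit_of_mul_isUnit_right h2
    exact (isUnit_pow_iff (by omega)).1 h3
  by_cases hne : Nonempty {l : ZMod h // (α : ZMod h) * l ^ e + (β : ZMod h) = 0}
  · obtain ⟨l0⟩ := hne
    have hcard : ((univ : Finset (ZMod h)ˣ).filter fun u => u ^ e = 1).card ≤ e :=
      IsCyclic.card_pow_eq_one_le he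
    let F : {l : ZMod h // (α : ZMod h) * l ^ e + (β : ZMod h) = 0} →
        {u : (ZMod h)ˣ // u ∈ (univ : Finset (ZMod h)ˣ).filter fun u => u ^ e = 1} := fun l =>
      ⟨(hun l).unit * (hun l0).unit⁻¹, by
        rw [mem_filter]
        refine ⟨mem_univ _, ?_⟩
        rw [mul_pow, inv_pow, mul_inv_eq_one]
        apply Units.ext
        push_cast
        rw [IsUnit.unit_spec, IsUnit.unit_spec]
        have h1 := l.2
        have h2 := l0.2
        have h3 : (α : ZMod h) * (l : ZMod h) ^ e = (α : ZMod h) * (l0 : ZMod h) ^ e := by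
          rw [eq_neg_of_add_eq_zero_left h1, eq_neg_of_add_eq_zero_left h2]
        exact (isUnit_of hα).mul_left_cancel h3⟩
    have hinj : Function.Injective F := by
      intro l l' hl
      have h1 : (hun l).unit * (hun l0).unit⁻¹ = (hun l').unit * (hun l0).unit⁻¹ :=
        congrArg Subtype.val hl
      have h2 : (hun l).unit = (hun l').unit := mul_right_cancel h1
      apply Subtype.ext
      have h3 := congrArg Units.val h2
      rwa [IsUnit.unit_spec, IsUnit.unit_spec] at h3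
    calc nr h α β e ≤ Nat.card {u : (ZMod h)ˣ //
          u ∈ (univ : Finset (ZMod h)ˣ).filter fun u => u ^ e = 1} :=
          Nat.card_le_card_of_injective F hinj
      _ = ((univ : Finset (ZMod h)ˣ).filter fun u => u ^ e = 1).card := by
          rw [Nat.card_eq_fintype_card, Fintype.card_coe]
      _ ≤ e := hcard
  · rw [not_nonempty_iff] at hne
    rw [nr, Nat.card_of_isEmpty]
    omega

theorem nr_mul (m n : ℕ) [NeZero m] [NeZero n] (hmn : Nat.Coprime m n) (α β : ℤ) (e : ℕ) :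
    nr (m * n) α β e ≤ nr m α β e * nr n α β e := by
  have hmn0 : NeZero (m * n) := ⟨mul_ne_zero (NeZero.ne m) (NeZero.ne n)⟩
  rw [nr, nr, nr, ← Nat.card_prod]
  let φ := ZMod.chineseRemainder hmn
  have key : ∀ l : ZMod (m * n), (α : ZMod (m * n)) * l ^ e + (β : ZMod (m * n)) = 0 →
      (α : ZMod m) * (φ l).1 ^ e + (β : ZMod m) = 0 ∧
      (α : ZMod n) * (φ l).2 ^ e + (β : ZMod n) = 0 := by
    intro l hl
    have h1 := congrArg φ hl
    rw [map_add, map_mul, map_pow, map_intCast, map_intCast, map_zero] at h1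
    constructor
    · have := congrArg Prod.fst h1
      simpa using this
    · have := congrArg Prod.snd h1
      simpa using this
  refine Nat.card_le_card_of_injective (fun l => (⟨(φ l.1).1, (key l.1 l.2).1⟩,
    ⟨(φ l.1).2, (key l.1 l.2).2⟩)) ?_
  intro l l' hl
  have h1 := congrArg (fun z => (z.1.1 : ZMod m)) hl
  have h2 := congrArg (fun z => (z.2.1 : ZMod n)) hl
  apply Subtype.ext
  apply φ.injective
  exact Prod.ext h1 h2

/-- at most `e ^ ω(h)` roots -/
theorem nr_le (α β : ℤ) (e : ℕ) (he : 1 ≤ e) : ∀ h : ℕ, h ≠ 0 → ¬ 4 ∣ h → IsCoprime α (h : ℤ) →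
    IsCoprime β (h : ℤ) → nr h α β e ≤ e ^ h.primeFactors.card := by
  intro h
  induction h using Nat.recOnPosPrimePosCoprime with
  | zero => intro h; exact absurd rfl h
  | one =>
    intro _ _ _ _
    rw [nr, Nat.primeFactors_one, card_empty, pow_zero]
    have : Subsingleton {l : ZMod 1 // (α : ZMod 1) * l ^ e + (β : ZMod 1) = 0} := inferInstance
    exact Finite.card_le_one_iff_subsingleton.2 this
  | prime_pow p n hp hn =>
    intro h0 h4 hα hβ
    have : NeZero (p ^ n) := ⟨h0⟩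
    have hc : IsCyclic (ZMod (p ^ n))ˣ := by
      by_cases hp2 : p = 2
      · subst hp2
        have hn1 : n = 1 := by
          by_contra hne
          apply h4
          have : 2 ≤ n := by omega
          calc 4 = 2 ^ 2 := by norm_num
            _ ∣ 2 ^ n := pow_dvd_pow 2 this
        subst hn1
        rw [pow_one]
        exact ZMod.isCyclic_units_two
      · exact ZMod.isCyclic_units_of_prime_pow p hp hp2 n
    rw [Nat.primeFactors_pow p hn.ne', hp.primeFactors, card_singleton, pow_one]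
    exact nr_cyclic _ α β e he hα hβ hc
  | coprime a b ha hb hab iha ihb =>
    intro h0 h4 hα hβ
    have ha0 : a ≠ 0 := by omega
    have hb0 : b ≠ 0 := by omega
    have : NeZero a := ⟨ha0⟩
    have : NeZero b := ⟨hb0⟩
    rw [hab.primeFactors_mul, card_union_of_disjoint hab.disjoint_primeFactors, pow_add]
    push_cast at hα hβ
    exact (nr_mul a b hab α β e).trans (Nat.mul_le_mul
      (iha ha0 (fun h => h4 (h.mul_right b)) hα.of_mul_right_left hβ.of_mul_right_left)
      (ihb hb0 (fun h => h4 (h.mul_left a)) hα.of_mul_right_right hβ.of_mul_right_right))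

theorem card_divisors_pow (h E e : ℕ) (hh : h ≠ 0) (he : e ≤ E) :
    e ^ h.primeFactors.card ≤ (h ^ E).divisors.card := by
  rcases Nat.eq_zero_or_pos E with rfl | hE
  · have : e = 0 := by omega
    subst this
    rw [pow_zero, Nat.divisors_one, card_singleton]
    rcases Nat.eq_zero_or_pos h.primeFactors.card with h1 | h1
    · rw [h1, pow_zero]
    · rw [zero_pow h1.ne']
      exact Nat.zero_le _
  · rw [Nat.card_divisors (pow_ne_zero _ hh), Nat.primeFactors_pow h hE.ne', ← prod_const]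
    apply prod_le_prod' 
    intro p hp
    rw [Nat.factorization_pow, Finsupp.smul_apply, smul_eq_mul]
    have h1 : 1 ≤ h.factorization p :=
      (Nat.mem_primeFactors.1 hp).1.factorization_pos_of_dvd hh (Nat.mem_primeFactors.1 hp).2.1
    nlinarith

theorem pw_omega (hCN : S_CN) (e : ℕ) (ε : ℝ) (hε : 0 < ε) : ∃ D : ℝ, 0 < D ∧
    ∀ (L : ℝ) (h : ℕ), 0 ≤ L → h ≠ 0 → (h : ℝ) ≤ Real.exp L →
      (e : ℝ) ^ h.primeFactors.card ≤ D * Real.exp (ε * L) := by
  have hE : (0 : ℝ) < (e + 1 : ℕ) := by positivity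
  obtain ⟨D, hD, key⟩ := hCN (ε / ((e + 1 : ℕ) : ℝ)) (by positivity)
  refine ⟨D, hD, ?_⟩
  intro L h hL hh hhL
  have hE1 : (1 : ℝ) ≤ (e + 1 : ℕ) := by exact_mod_cast Nat.succ_le_succ (Nat.zero_le e)
  have h1 := key (((e + 1 : ℕ) : ℝ) * L) h ((h ^ (e + 1)).divisors.image fun d : ℕ => (d : ℤ))
    (by positivity) hh (by
      have h2 : Real.exp L ≤ Real.exp (9 * (((e + 1 : ℕ) : ℝ) * L)) := by
        apply Real.exp_le_exp.2
        nlinarith
      have h3 := Real.exp_pos (9 * (((e + 1 : ℕ) : ℝ) * L))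
      linarith) (by
      intro a ha
      obtain ⟨d, hd, rfl⟩ := mem_image.1 ha
      have hd' := Nat.mem_divisors.1 hd
      have hd0 : d ≠ 0 := fun h0 => by
        subst h0
        exact hd'.2 (Nat.eq_zero_of_zero_dvd hd'.1)
      refine ⟨by exact_mod_cast hd0, ?_, ?_⟩
      · have h2 : d ≤ h ^ (e + 1) := Nat.le_of_dvd (Nat.pos_of_ne_zero hd'.2) hd'.1
        have h3 : (d : ℝ) ≤ (h : ℝ) ^ (e + 1) := by exact_mod_cast h2
        have h4 : (h : ℝ) ^ (e + 1) ≤ (Real.exp L) ^ (e + 1) :=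
          pow_le_pow_left₀ (by positivity) hhL _
        rw [← Real.exp_nat_mul] at h4
        rw [Int.cast_natCast, abs_of_nonneg (by positivity)]
        exact h3.trans h4
      · intro p hp hpd
        have h2 : p ∣ h ^ (e + 1) := (Int.natCast_dvd_natCast.1 hpd).trans hd'.1
        exact hp.dvd_of_dvd_pow h2)
  rw [card_image_of_injective _ Nat.cast_injective] at h1
  have h2 : ε / ((e + 1 : ℕ) : ℝ) * (((e + 1 : ℕ) : ℝ) * L) = ε * L := by
    field_simp
  rw [h2] at h1
  refine le_trans ?_ h1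
  exact_mod_cast card_divisors_pow h (e + 1) e hh (Nat.le_succ e)

/-- the number of the roots of `α l ^ e + β` modulo `h` -/
theorem roots (hCN : S_CN) (e : ℕ) (he : 1 ≤ e) (ε : ℝ) (hε : 0 < ε) : ∃ D : ℝ, 0 < D ∧
    ∀ (L : ℝ) (h : ℕ) [NeZero h] (α β : ℤ), 0 ≤ L → (h : ℝ) ≤ Real.exp L → ¬ 4 ∣ h →
      IsCoprime α (h : ℤ) → IsCoprime β (h : ℤ) →
      ((univ.filter fun l : ZMod h => (α : ZMod h) * l ^ e + (β : ZMod h) = 0).card : ℝ) ≤
        D * Real.exp (ε * L) := by
  obtain ⟨D, hD, key⟩ := pw_omega hCN e ε hε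
  refine ⟨D, hD, ?_⟩
  intro L h _ α β hL hhL h4 hα hβ
  have h1 : (univ.filter fun l : ZMod h => (α : ZMod h) * l ^ e + (β : ZMod h) = 0).card ≤
      e ^ h.primeFactors.card := by
    have h2 := nr_le α β e he h (NeZero.ne h) h4 hα hβ
    rw [nr, Nat.card_eq_fintype_card, Fintype.card_subtype] at h2
    exact h2
  refine le_trans ?_ (key L h hL (NeZero.ne h) hhL)
  exact_mod_cast h1

/-- Thue's lemma -/
theorem thue (h : ℕ) [NeZero h] (l : ZMod h) : ∃ a b : ℤ, (a ≠ 0 ∨ b ≠ 0) ∧ a ^ 2 ≤ h ∧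
    b ^ 2 ≤ h ∧ (a : ZMod h) = l * (b : ZMod h) := by
  have hcard : Fintype.card (ZMod h) < Fintype.card (Fin (Nat.sqrt h + 1) × Fin (Nat.sqrt h + 1)) := by
    rw [ZMod.card, Fintype.card_prod, Fintype.card_fin]
    exact Nat.lt_succ_sqrt h
  obtain ⟨P, P', hne, hP⟩ := Fintype.exists_ne_map_eq_of_card_lt
    (fun P : Fin (Nat.sqrt h + 1) × Fin (Nat.sqrt h + 1) =>
      (((P.1 : ℕ) : ℤ) : ZMod h) - l * (((P.2 : ℕ) : ℤ) : ZMod h)) hcard
  have hs : (Nat.sqrt h : ℤ) ^ 2 ≤ h := by exact_mod_cast Nat.sqrt_le' h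
  have hb : ∀ x y : Fin (Nat.sqrt h + 1), (((x : ℕ) : ℤ) - ((y : ℕ) : ℤ)) ^ 2 ≤ h := by
    intro x y
    have h1 := x.2
    have h2 := y.2
    refine le_trans ?_ hs
    apply sq_le_sq'
    · omega
    · omega
  refine ⟨((P.1 : ℕ) : ℤ) - ((P'.1 : ℕ) : ℤ), ((P.2 : ℕ) : ℤ) - ((P'.2 : ℕ) : ℤ), ?_, hb _ _, hb _ _, ?_⟩
  · by_contra hcon
    push Not at hcon
    apply hne
    obtain ⟨h1, h2⟩ := hcon
    apply Prod.ext
    · apply Fin.ext
      omega
    · apply Fin.ext
      omega
  · rw [Int.cast_sub, Int.cast_sub]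
    linear_combination hP

end Pool.Agent.Helper54.Q.Roots
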