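import Pool.Agent.Helper54.Q.Lib95

/-!
# Module SB, first part: the decomposition of a quadruple (helper95)
-/

set_option autoImplicit false

namespace Pool.Agent.Helper54.Q.SB

open Finset L95

theorem fin4_cases : ∀ i j k l n : Fin 4, Dist4 i j k l → n = i ∨ n = j ∨ n = k ∨ n = l := by
  unfold Dist4; decide

theorem erase_eq : ∀ i j k l : Fin 4, Dist4 i j k l →
    (univ.erase l : Finset (Fin 4)) = {i, j, k} := by
  unfold Dist4; decide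

theorem exists_dist : ∀ l : Fin 4, ∃ i j k, Dist4 i j k l := by
  unfold Dist4; decide

theorem sum_erase {i j k l : Fin 4} (h : Dist4 i j k l) (f : Fin 4 → ℤ) :
    ∑ n ∈ univ.erase l, f n = f i + f j + f k := by
  rw [erase_eq i j k l h]
  obtain ⟨h1, h2, h3, h4, h5, h6⟩ := h
  rw [sum_insert (by simp [h1, h2]), sum_insert (by simp [h4]), sum_singleton, add_assoc]

/-- the selected part -/
noncomputable def sv (l : Fin 4) (Sel : (Fin 4 → ℕ) → Prop) (x : Fin 4 → ℤ) (i : Fin 4) : ℕ :=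
  if i = l then 1 else pr (fun v => Sel v ∧ v i ≠ 0) x

/-- the cofactor -/
noncomputable def av (l : Fin 4) (e : ℕ) (Sel : (Fin 4 → ℕ) → Prop) (x : Fin 4 → ℤ) (i : Fin 4) : ℤ :=
  if i = l then 1 else x i / ((sv l Sel x i : ℕ) : ℤ) ^ e

section

variable {l : Fin 4} {e : ℕ} {Sel : (Fin 4 → ℕ) → Prop} {x : Fin 4 → ℤ}

theorem sv_ne {i : Fin 4} (hi : i ≠ l) : sv l Sel x i = pr (fun v => Sel v ∧ v i ≠ 0) x := by
  rw [sv, if_neg hi]

theorem sv_l : sv l Sel x l = 1 := by rw [sv, if_pos rfl]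

theorem av_l : av l e Sel x l = 1 := by rw [av, if_pos rfl]

theorem sv_pos (i : Fin 4) : 1 ≤ sv l Sel x i := by
  unfold sv
  split_ifs
  · exact le_rfl
  · exact pr_pos

theorem F1 (he : 1 ≤ e) (hSel : ∀ v, Sel v → v l ≠ 0 ∧ ∃ i, i ≠ l ∧ v i = e) (hx : Adm x)
    {i : Fin 4} (hi : i ≠ l) {q : ℕ} (hq : q.Prime) (h1 : Sel (vl x q)) (h2 : vl x q i ≠ 0) :
    vl x q i = e := by
  obtain ⟨hl, j, hj, hje⟩ := hSel _ h1
  rcases eq_or_ne i j with rfl | hij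
  · exact hje
  · exact absurd (two hx hq hi hij hj.symm h2 hl) (by omega)

theorem sv_dvd (hx : Adm x) (i : Fin 4) : ((sv l Sel x i : ℕ) : ℤ) ∣ x i := by
  unfold sv
  split_ifs with h
  · simp
  · exact pr_dvd hx i fun q hq h => h.2

theorem sv_dvd_l (hSel : ∀ v, Sel v → v l ≠ 0 ∧ ∃ i, i ≠ l ∧ v i = e) (hx : Adm x) (i : Fin 4) :
    ((sv l Sel x i : ℕ) : ℤ) ∣ x l := by
  unfold sv
  split_ifs with h
  · simp
  · exact pr_dvd hx l fun q hq h => (hSel _ h.1).1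

theorem F2 (he : 1 ≤ e) (hSel : ∀ v, Sel v → v l ≠ 0 ∧ ∃ i, i ≠ l ∧ v i = e) (hx : Adm x)
    {i : Fin 4} (hi : i ≠ l) : x i = av l e Sel x i * ((sv l Sel x i : ℕ) : ℤ) ^ e := by
  have h1 : ((sv l Sel x i : ℕ) : ℤ) ^ e ∣ x i := by
    rw [sv_ne hi]
    exact pr_pow_dvd hx i e fun q hq h => (F1 he hSel hx hi hq h.1 h.2).ge
  rw [av, if_neg hi, Int.ediv_mul_cancel h1]

theorem cast_le_of_dvd {m : ℕ} {y : ℤ} (hy : y ≠ 0) (h : (m : ℤ) ∣ y) : (m : ℝ) ≤ |(y : ℝ)| := by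
  have h1 := Int.le_of_dvd (abs_pos.2 hy) ((dvd_abs _ _).2 h)
  have h2 : ((m : ℤ) : ℝ) ≤ ((|y| : ℤ) : ℝ) := by exact_mod_cast h1
  rw [Int.cast_abs] at h2
  exact_mod_cast h2

theorem sv_le (hx : Adm x) {L : ℝ} (hL : ∀ i, |(x i : ℝ)| ≤ Real.exp L) (i : Fin 4) :
    (sv l Sel x i : ℝ) ≤ Real.exp L :=
  (cast_le_of_dvd (hx.ne i) (sv_dvd hx i)).trans (hL i)

theorem F3 (he : 1 ≤ e) (hSel : ∀ v, Sel v → v l ≠ 0 ∧ ∃ i, i ≠ l ∧ v i = e) (hx : Adm x)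
    {L : ℝ} (hL0 : 0 ≤ L) (hL : ∀ i, |(x i : ℝ)| ≤ Real.exp L) (i : Fin 4) :
    av l e Sel x i ≠ 0 ∧ |(av l e Sel x i : ℝ)| ≤ Real.exp L := by
  rcases eq_or_ne i l with rfl | hi
  · rw [av_l]
    refine ⟨one_ne_zero, ?_⟩
    simp [hL0]
  · have h1 := F2 he hSel hx hi
    have h0 : av l e Sel x i ≠ 0 := by
      intro h
      apply hx.ne i
      rw [h1, h, zero_mul]
    refine ⟨h0, le_trans ?_ (hL i)⟩
    have h2 : av l e Sel x i ∣ x i := ⟨_, h1⟩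
    have h3 := Int.le_of_dvd (abs_pos.2 (hx.ne i)) ((abs_dvd_abs _ _).2 h2)
    exact_mod_cast h3

theorem F4 (he : 1 ≤ e) (hSel : ∀ v, Sel v → v l ≠ 0 ∧ ∃ i, i ≠ l ∧ v i = e) (hx : Adm x)
    {i : Fin 4} (hi : i ≠ l) {q : ℕ} (hq : q.Prime) (h : (q : ℤ) ∣ av l e Sel x i) :
    q ∣ pr (fun v => ¬ Sel v) x := by
  have h1 := F2 he hSel hx hi
  have h2 : (q : ℤ) ∣ x i := by
    rw [h1]
    exact h.mul_right _
  have h3 := (dvd_iff hx hq i).1 h2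
  rw [dvd_pr hq]
  refine ⟨(mem_PP hx).2 ⟨hq, i, h3⟩, fun h4 => ?_⟩
  have h5 := F1 he hSel hx hi hq h4 h3
  have h6 : q ∣ sv l Sel x i := by
    rw [sv_ne hi, dvd_pr hq]
    exact ⟨(mem_PP hx).2 ⟨hq, i, h3⟩, h4, h3⟩
  have h7 : (q : ℤ) ^ (e + 1) ∣ x i := by
    rw [h1, pow_succ, mul_comm]
    exact mul_dvd_mul h (pow_dvd_pow_of_dvd (by exact_mod_cast h6) e)
  have h8 := (pow_dvd hx hq i (e + 1)).1 h7
  omega

theorem F5 (hSel : ∀ v, Sel v → v l ≠ 0 ∧ ∃ i, i ≠ l ∧ v i = e) (hx : Adm x) {i j : Fin 4}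
    (hij : i ≠ j) : Nat.Coprime (sv l Sel x i) (sv l Sel x j) := by
  rcases eq_or_ne i l with rfl | hi
  · rw [sv_l]
    exact Nat.coprime_one_left _
  rcases eq_or_ne j l with rfl | hj
  · rw [sv_l]
    exact Nat.coprime_one_right _
  rw [sv_ne hi, sv_ne hj]
  refine Nat.coprime_of_dvd fun q hq h1 h2 => ?_
  have h3 := (dvd_pr hq).1 h1
  have h4 := (dvd_pr hq).1 h2
  exact (hSel _ h3.2.1).1 (two hx hq hij hi hj h3.2.2 h4.2.2)

theorem sv_dvd_sel (i : Fin 4) : sv l Sel x i ∣ pr Sel x := by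
  unfold sv
  split_ifs with h
  · exact one_dvd _
  · have h1 := dvd_of_primes (M := pr (fun v => Sel v ∧ v i ≠ 0) x) (n := ((pr Sel x : ℕ) : ℤ)) sqf
      (fun q hq hd => by
        have h2 := (dvd_pr hq).1 hd
        exact_mod_cast (dvd_pr hq).2 ⟨h2.1, h2.2.1⟩)
    exact_mod_cast h1

theorem F7 (hSel : ∀ v, Sel v → v l ≠ 0 ∧ ∃ i, i ≠ l ∧ v i = e) (hx : Adm x) {i j k : Fin 4}
    (hd : Dist4 i j k l) {a : ℝ} (ha : R Sel x ≤ a) :
    (sv l Sel x i : ℝ) * sv l Sel x j * sv l Sel x k ≤ Real.exp a := by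
  obtain ⟨h1, h2, h3, h4, h5, h6⟩ := hd
  have h7 : sv l Sel x i * sv l Sel x j * sv l Sel x k ∣ pr Sel x := by
    refine Nat.Coprime.mul_dvd_of_dvd_of_dvd ?_ (Nat.Coprime.mul_dvd_of_dvd_of_dvd
      (F5 hSel hx h1) (sv_dvd_sel i) (sv_dvd_sel j)) (sv_dvd_sel k)
    exact Nat.Coprime.mul_left (F5 hSel hx h2) (F5 hSel hx h4)
  have h8 := Nat.le_of_dvd pr_pos h7
  calc (sv l Sel x i : ℝ) * sv l Sel x j * sv l Sel x k ≤ ((pr Sel x : ℕ) : ℝ) := by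
        exact_mod_cast h8
    _ = Real.exp (R Sel x) := exp_R.symm
    _ ≤ Real.exp a := Real.exp_le_exp.2 ha

theorem sum_two (hx : Adm x) {i : Fin 4} (hi : i ≠ l) :
    ∑ j ∈ (univ.erase l).erase i, x j = -(x i + x l) := by
  have h1 := Finset.add_sum_erase univ x (mem_univ l)
  have h2 := Finset.add_sum_erase (univ.erase l) x (Finset.mem_erase.2 ⟨hi, mem_univ i⟩)
  have h3 := hx.sum
  linarith

theorem sum_av (he : 1 ≤ e) (hSel : ∀ v, Sel v → v l ≠ 0 ∧ ∃ i, i ≠ l ∧ v i = e) (hx : Adm x)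
    (i : Fin 4) : ∑ j ∈ (univ.erase l).erase i, av l e Sel x j * ((sv l Sel x j : ℕ) : ℤ) ^ e =
      ∑ j ∈ (univ.erase l).erase i, x j := by
  refine Finset.sum_congr rfl fun j hj => ?_
  exact (F2 he hSel hx (Finset.ne_of_mem_erase (Finset.mem_of_mem_erase hj))).symm

theorem F8 (he : 1 ≤ e) (hSel : ∀ v, Sel v → v l ≠ 0 ∧ ∃ i, i ≠ l ∧ v i = e) (hx : Adm x)
    {i : Fin 4} (hi : i ≠ l) : ((sv l Sel x i : ℕ) : ℤ) ∣
      ∑ j ∈ (univ.erase l).erase i, av l e Sel x j * ((sv l Sel x j : ℕ) : ℤ) ^ e := by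
  rw [sum_av he hSel hx, sum_two hx hi]
  exact (dvd_neg).2 (dvd_add (sv_dvd hx i) (sv_dvd_l hSel hx i))

theorem F9 (he : 1 ≤ e) (hSel : ∀ v, Sel v → v l ≠ 0 ∧ ∃ i, i ≠ l ∧ v i = e) (hx : Adm x)
    {i : Fin 4} (hi : i ≠ l) :
      ∑ j ∈ (univ.erase l).erase i, av l e Sel x j * ((sv l Sel x j : ℕ) : ℤ) ^ e ≠ 0 := by
  rw [sum_av he hSel hx, sum_two hx hi]
  exact neg_ne_zero.2 (hx.pair i l hi)

theorem F10 (he : 1 ≤ e) (hSel : ∀ v, Sel v → v l ≠ 0 ∧ ∃ i, i ≠ l ∧ v i = e) (hx : Adm x)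
    (hdeg : ¬ Deg x) (b : Fin 4 → ℤ) (hb : ∃ i, i ≠ l ∧ b i ≠ 0)
    (hs : ∑ i ∈ univ.erase l, b i * (sv l Sel x i : ℤ) = 0) :
    ¬ (∀ i j, i ≠ l → j ≠ l → |av l e Sel x i| * |b j| ^ e = |av l e Sel x j| * |b i| ^ e) := by
  intro h
  apply hdeg
  have hav : ∀ i, i ≠ l → av l e Sel x i ≠ 0 := by
    intro i hi h0
    apply hx.ne i
    rw [F2 he hSel hx hi, h0, zero_mul]
  refine ⟨l, e, fun i => b i * (sv l Sel x i : ℤ), he, ?_, hs, ?_⟩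
  · intro i hi h0
    have h1 : (sv l Sel x i : ℤ) ≠ 0 := by
      have := sv_pos (l := l) (Sel := Sel) (x := x) i
      omega
    have h2 : b i = 0 := by
      rcases mul_eq_zero.1 h0 with h3 | h3
      · exact h3
      · exact absurd h3 h1
    obtain ⟨j, hj, hbj⟩ := hb
    have h4 := h i j hi hj
    rw [h2, abs_zero, zero_pow (by omega), mul_zero] at h4
    rcases mul_eq_zero.1 h4 with h5 | h5
    · exact hav i hi (abs_eq_zero.1 h5)
    · exact hbj (abs_eq_zero.1 (pow_eq_zero_iff (by omega)|>.1 h5))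
  · intro i j hi hj
    have h1 := h i j hi hj
    rw [F2 he hSel hx hi, F2 he hSel hx hj]
    simp only [abs_mul, abs_pow, mul_pow, Nat.abs_cast]
    calc |av l e Sel x i| * (sv l Sel x i : ℤ) ^ e * (|b j| ^ e * (sv l Sel x j : ℤ) ^ e)
        = (|av l e Sel x i| * |b j| ^ e) * ((sv l Sel x i : ℤ) ^ e * (sv l Sel x j : ℤ) ^ e) := by ring
      _ = (|av l e Sel x j| * |b i| ^ e) * ((sv l Sel x i : ℤ) ^ e * (sv l Sel x j : ℤ) ^ e) := by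
          rw [h1]
      _ = _ := by ring

/-- `x` is determined -/
theorem inj (he : 1 ≤ e) (hSel : ∀ v, Sel v → v l ≠ 0 ∧ ∃ i, i ≠ l ∧ v i = e) (hx : Adm x)
    {y : Fin 4 → ℤ} (hy : Adm y) (ha : av l e Sel x = av l e Sel y)
    (hs : sv l Sel x = sv l Sel y) : x = y := by
  have h1 : ∀ i, i ≠ l → x i = y i := by
    intro i hi
    rw [F2 he hSel hx hi, F2 he hSel hy hi, ha, hs]
  funext i
  rcases eq_or_ne i l with rfl | hi
  · have h2 := Finset.add_sum_erase univ x (mem_univ i)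
    have h3 := Finset.add_sum_erase univ y (mem_univ i)
    have h4 : ∑ j ∈ univ.erase i, x j = ∑ j ∈ univ.erase i, y j :=
      Finset.sum_congr rfl fun j hj => h1 j (Finset.ne_of_mem_erase hj)
    rw [hx.sum] at h2
    rw [hy.sum] at h3
    linarith
  · exact h1 i hi

end

end Pool.Agent.Helper54.Q.SB
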