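import Pool.Agent.Helper54.Q.SbA

/-!
# Module SB, second part: cells and planes (helper95)
-/

set_option autoImplicit false

namespace Pool.Agent.Helper54.Q.SB

open Finset L95

/-- the determinant of three vectors -/
def dt (i j k : Fin 4) (s t u : Fin 4 → ℕ) : ℤ :=
  ((s j : ℤ) * t k - s k * t j) * u i + ((s k : ℤ) * t i - s i * t k) * u j +
    ((s i : ℤ) * t j - s j * t i) * u k

/-- the points to be counted -/
structure Pt (l : Fin 4) (e : ℕ) (α : Fin 4 → ℤ) (L : ℝ) (s : Fin 4 → ℕ) : Prop where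
  one : s l = 1
  bd : ∀ i, 1 ≤ s i ∧ (s i : ℝ) ≤ Real.exp L
  cop : ∀ i j, i ≠ j → Nat.Coprime (s i) (s j)
  dvd : ∀ i, i ≠ l → (s i : ℤ) ∣ ∑ j ∈ (univ.erase l).erase i, α j * (s j : ℤ) ^ e
  ne : ∀ i, i ≠ l → ∑ j ∈ (univ.erase l).erase i, α j * (s j : ℤ) ^ e ≠ 0
  deg : ∀ b : Fin 4 → ℤ, (∃ i, i ≠ l ∧ b i ≠ 0) → ∑ i ∈ univ.erase l, b i * (s i : ℤ) = 0 →
    ¬ (∀ i j, i ≠ l → j ≠ l → |α i| * |b j| ^ e = |α j| * |b i| ^ e)

/-- the conclusion of SBP -/
def SBPb (l : Fin 4) (e : ℕ) (ε D : ℝ) : Prop :=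
  ∀ (L : ℝ) (α a : Fin 4 → ℤ) (S : Finset (Fin 4 → ℕ)), 0 ≤ L →
  (∀ i, α i ≠ 0 ∧ |(α i : ℝ)| ≤ Real.exp L) →
  (∀ i, |(a i : ℝ)| ≤ 2 * Real.exp (2 * L)) → (∃ i, i ≠ l ∧ a i ≠ 0) →
  (∀ s ∈ S, s l = 1 ∧ (∀ i, 1 ≤ s i ∧ (s i : ℝ) ≤ Real.exp L) ∧
    (∀ i j, i ≠ j → Nat.Coprime (s i) (s j)) ∧ ∑ i ∈ univ.erase l, a i * (s i : ℤ) = 0 ∧
    (∀ i, i ≠ l → (s i : ℤ) ∣ ∑ j ∈ (univ.erase l).erase i, α j * (s j : ℤ) ^ e) ∧
    (∀ i, i ≠ l → ∑ j ∈ (univ.erase l).erase i, α j * (s j : ℤ) ^ e ≠ 0) ∧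
    ¬ (∀ i j, i ≠ l → j ≠ l → |α i| * |a j| ^ e = |α j| * |a i| ^ e)) →
  (S.card : ℝ) ≤ D * Real.exp (ε * L)

theorem cop_eq {a b c d : ℕ} (ha : 1 ≤ a) (hd : 1 ≤ d) (h1 : Nat.Coprime a b)
    (h2 : Nat.Coprime c d) (h : a * d = b * c) : a = c ∧ b = d := by
  have h3 : a ∣ c := h1.dvd_of_dvd_mul_left (Dvd.intro d h)
  have h4 : c ∣ a := h2.dvd_of_dvd_mul_right ⟨b, by rw [h, mul_comm]⟩
  have h5 := Nat.dvd_antisymm h3 h4
  subst h5
  refine ⟨rfl, ?_⟩
  have h6 : a * d = a * b := by rw [h, mul_comm]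
  exact (Nat.eq_of_mul_eq_mul_left ha h6).symm

theorem prod_sub_le {x y z w E : ℝ} (hx : 0 ≤ x) (hy : 0 ≤ y) (hz : 0 ≤ z) (hw : 0 ≤ w)
    (hx' : x ≤ E) (hy' : y ≤ E) (hz' : z ≤ E) (hw' : w ≤ E) : |x * y - z * w| ≤ 2 * (E * E) := by
  have h1 : x * y ≤ E * E := mul_le_mul hx' hy' hy (hx.trans hx')
  have h2 : z * w ≤ E * E := mul_le_mul hz' hw' hw (hz.trans hz')
  have h3 : 0 ≤ x * y := mul_nonneg hx hy
  have h4 : 0 ≤ z * w := mul_nonneg hz hw
  rw [abs_le]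
  constructor <;> linarith

theorem plane_count {i j k l : Fin 4} (hd : Dist4 i j k l) {e : ℕ} {ε D L : ℝ} (hL : 0 ≤ L)
    (hD0 : 0 < D) (hD : SBPb l e ε D) {α : Fin 4 → ℤ}
    (hα : ∀ i, α i ≠ 0 ∧ |(α i : ℝ)| ≤ Real.exp L) {S : Finset (Fin 4 → ℕ)}
    (hS : ∀ s ∈ S, Pt l e α L s) (hdet : ∀ s ∈ S, ∀ t ∈ S, ∀ u ∈ S, dt i j k s t u = 0) :
    (S.card : ℝ) ≤ D * Real.exp (ε * L) + 1 := by
  classical
  by_cases hc : S.card ≤ 1
  · have h1 : (S.card : ℝ) ≤ 1 := by exact_mod_cast hc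
    have h2 : 0 < D * Real.exp (ε * L) := by positivity
    linarith
  · obtain ⟨s, hs, t, ht, hst⟩ := Finset.one_lt_card.1 (not_le.1 hc)
    have hij := hd.1
    have hik := hd.2.1
    have hil := hd.2.2.1
    have hjk := hd.2.2.2.1
    have hjl := hd.2.2.2.2.1
    have hkl := hd.2.2.2.2.2
    let a : Fin 4 → ℤ := fun n =>
      if n = i then (s j : ℤ) * t k - s k * t j else
      if n = j then (s k : ℤ) * t i - s i * t k else
      if n = k then (s i : ℤ) * t j - s j * t i else 0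
    have ai : a i = (s j : ℤ) * t k - s k * t j := if_pos rfl
    have aj : a j = (s k : ℤ) * t i - s i * t k := by
      show (if j = i then _ else if j = j then _ else _) = _
      rw [if_neg hij.symm, if_pos rfl]
    have ak : a k = (s i : ℤ) * t j - s j * t i := by
      show (if k = i then _ else if k = j then _ else if k = k then _ else _) = _
      rw [if_neg hik.symm, if_neg hjk.symm, if_pos rfl]
    have al : a l = 0 := by
      show (if l = i then _ else if l = j then _ else if l = k then _ else _) = _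
      rw [if_neg hil.symm, if_neg hjl.symm, if_neg hkl.symm]
    have hs' := hS s hs
    have ht' := hS t ht
    have hbound : ∀ n, |(a n : ℝ)| ≤ 2 * Real.exp (2 * L) := by
      have hE : Real.exp (2 * L) = Real.exp L * Real.exp L := by
        rw [← Real.exp_add]; ring_nf
      rw [hE]
      intro n
      rcases fin4_cases i j k l n hd with rfl | rfl | rfl | rfl
      · rw [ai]
        push_cast
        exact prod_sub_le (Nat.cast_nonneg _) (Nat.cast_nonneg _) (Nat.cast_nonneg _)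
          (Nat.cast_nonneg _) (hs'.bd _).2 (ht'.bd _).2 (hs'.bd _).2 (ht'.bd _).2
      · rw [aj]
        push_cast
        exact prod_sub_le (Nat.cast_nonneg _) (Nat.cast_nonneg _) (Nat.cast_nonneg _)
          (Nat.cast_nonneg _) (hs'.bd _).2 (ht'.bd _).2 (hs'.bd _).2 (ht'.bd _).2
      · rw [ak]
        push_cast
        exact prod_sub_le (Nat.cast_nonneg _) (Nat.cast_nonneg _) (Nat.cast_nonneg _)
          (Nat.cast_nonneg _) (hs'.bd _).2 (ht'.bd _).2 (hs'.bd _).2 (ht'.bd _).2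
      · rw [al]
        simp
        positivity
    have hne : ∃ n, n ≠ l ∧ a n ≠ 0 := by
      by_contra hcon
      push Not at hcon
      apply hst
      have h1 := hcon i hil
      have h2 := hcon j hjl
      have h3 := hcon k hkl
      rw [ai] at h1
      rw [aj] at h2
      rw [ak] at h3
      have e3 : s i * t j = s j * t i := by
        have : ((s i : ℤ) * t j) = s j * t i := by linarith
        exact_mod_cast this
      have e2 : s i * t k = s k * t i := by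
        have : ((s i : ℤ) * t k) = s k * t i := by linarith
        exact_mod_cast this
      have f3 := cop_eq (hs'.bd i).1 (ht'.bd j).1 (hs'.cop i j hij) (ht'.cop i j hij) e3
      have f2 := cop_eq (hs'.bd i).1 (ht'.bd k).1 (hs'.cop i k hik) (ht'.cop i k hik) e2
      funext n
      rcases fin4_cases i j k l n hd with rfl | rfl | rfl | rfl
      · exact f3.1
      · exact f3.2
      · exact f2.2
      · rw [hs'.one, ht'.one]
    have hsum : ∀ u ∈ S, ∑ n ∈ univ.erase l, a n * (u n : ℤ) = 0 := by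
      intro u hu
      rw [sum_erase hd, ai, aj, ak]
      exact hdet s hs t ht u hu
    have h1 := hD L α a S hL hα hbound hne (fun u hu => by
      have hu' := hS u hu
      exact ⟨hu'.one, hu'.bd, hu'.cop, hsum u hu, hu'.dvd, hu'.ne, hu'.deg a hne (hsum u hu)⟩)
    linarith

theorem minor {s1 s3 t1 t3 B C M : ℝ} (hB : 0 < B) (hC : 0 < C) (hM : 0 < M) (hs : 0 < s3)
    (hs' : s3 < 2 * C) (ht : 0 < t3) (ht' : t3 < 2 * C)
    (h : |s1 / s3 - t1 / t3| * (32 * B * C ^ 2 / M) < 1) : |s3 * t1 - s1 * t3| < M / (8 * B) := by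
  have h1 : |s3 * t1 - s1 * t3| = s3 * t3 * |s1 / s3 - t1 / t3| := by
    have h2 : s3 * t1 - s1 * t3 = -(s3 * t3 * (s1 / s3 - t1 / t3)) := by
      field_simp
      ring
    rw [h2, abs_neg, abs_mul, abs_of_pos (mul_pos hs ht)]
  rw [h1]
  set r := |s1 / s3 - t1 / t3| with hr
  have hr0 : 0 ≤ r := abs_nonneg _
  have h3 : r < M / (32 * B * C ^ 2) := by
    rw [lt_div_iff₀ (by positivity)]
    have h4 : r * (32 * B * C ^ 2 / M) = r * (32 * B * C ^ 2) / M := by ring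
    rw [h4, div_lt_one hM] at h
    exact h
  have h5 : s3 * t3 ≤ 4 * C ^ 2 := by nlinarith
  calc s3 * t3 * r ≤ 4 * C ^ 2 * r := mul_le_mul_of_nonneg_right h5 hr0
    _ < 4 * C ^ 2 * (M / (32 * B * C ^ 2)) := mul_lt_mul_of_pos_left h3 (by positivity)
    _ = M / (8 * B) := by field_simp; ring

theorem det_small {B C M s1 s2 s3 t1 t2 t3 u1 u2 u3 : ℝ} (hB : 0 < B) (hC : 0 < C) (hM : 0 < M)
    (hs2 : 0 < s2) (hs2' : s2 < 2 * B) (ht2 : 0 < t2) (ht2' : t2 < 2 * B) (hu2 : 0 < u2)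
    (hu2' : u2 < 2 * B) (hs : 0 < s3) (hs' : s3 < 2 * C) (ht : 0 < t3) (ht' : t3 < 2 * C)
    (hu : 0 < u3) (hu' : u3 < 2 * C)
    (hst : |s1 / s3 - t1 / t3| * (32 * B * C ^ 2 / M) < 1)
    (htu : |t1 / t3 - u1 / u3| * (32 * B * C ^ 2 / M) < 1)
    (hus : |u1 / u3 - s1 / s3| * (32 * B * C ^ 2 / M) < 1) :
    |(s2 * t3 - s3 * t2) * u1 + (s3 * t1 - s1 * t3) * u2 + (s1 * t2 - s2 * t1) * u3| < M := by
  have m1 := minor hB hC hM hs hs' ht ht' hst
  have m2 := minor hB hC hM ht ht' hu hu' htu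
  have m3 := minor hB hC hM hu hu' hs hs' hus
  have e : (s2 * t3 - s3 * t2) * u1 + (s3 * t1 - s1 * t3) * u2 + (s1 * t2 - s2 * t1) * u3 =
      (t3 * u1 - t1 * u3) * s2 + (u3 * s1 - u1 * s3) * t2 + (s3 * t1 - s1 * t3) * u2 := by ring
  rw [e]
  have k : ∀ m y : ℝ, |m| < M / (8 * B) → 0 < y → y < 2 * B → |m * y| ≤ M / 4 := by
    intro m y hm hy hy'
    rw [abs_mul, abs_of_pos hy]
    calc |m| * y ≤ M / (8 * B) * (2 * B) := mul_le_mul hm.le hy'.le hy.le (by positivity)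
      _ = M / 4 := by field_simp; ring
  have k1 := k _ _ m2 hs2 hs2'
  have k2 := k _ _ m3 ht2 ht2'
  have k3 := k _ _ m1 hu2 hu2'
  have := abs_add_three ((t3 * u1 - t1 * u3) * s2) ((u3 * s1 - u1 * s3) * t2)
    ((s3 * t1 - s1 * t3) * u2)
  linarith

theorem floor_close {x y : ℝ} (hx : 0 ≤ x) (hy : 0 ≤ y) (h : ⌊x⌋₊ = ⌊y⌋₊) : |x - y| < 1 := by
  have h1 := Nat.floor_le hx
  have h2 := Nat.lt_floor_add_one x
  have h3 := Nat.floor_le hy
  have h4 := Nat.lt_floor_add_one y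
  rw [h] at h1 h2
  rw [abs_lt]
  constructor <;> linarith

theorem cell_count {i j k : Fin 4} {S : Finset (Fin 4 → ℕ)} {A B C : ℕ}
    (hA : ∀ s ∈ S, 2 ^ A ≤ s i ∧ s i < 2 ^ (A + 1)) (hB : ∀ s ∈ S, 2 ^ B ≤ s j ∧ s j < 2 ^ (B + 1))
    (hC : ∀ s ∈ S, 2 ^ C ≤ s k ∧ s k < 2 ^ (C + 1)) {M : ℕ} (hM : 0 < M)
    (hdiv : ∀ s ∈ S, ∀ t ∈ S, ∀ u ∈ S, (M : ℤ) ∣ dt i j k s t u) {P K : ℝ} (hP0 : 0 ≤ P)
    (hP : ∀ s ∈ S, (s i : ℝ) * s j * s k ≤ P) (hK : 0 ≤ K)
    (hcell : ∀ S' ⊆ S, (∀ s ∈ S', ∀ t ∈ S', ∀ u ∈ S', dt i j k s t u = 0) → (S'.card : ℝ) ≤ K) :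
    (S.card : ℝ) ≤ (64 * P / M + 1) * K := by
  classical
  have hMr : (0 : ℝ) < M := by exact_mod_cast hM
  set b : ℝ := 2 ^ B with hb
  set c : ℝ := 2 ^ C with hc
  have hb0 : 0 < b := by positivity
  have hc0 : 0 < c := by positivity
  let f : (Fin 4 → ℕ) → ℕ := fun s => ⌊((s i : ℝ) / (s k)) * (32 * b * c ^ 2 / M)⌋₊
  have cast_lo : ∀ {m n : ℕ}, 2 ^ n ≤ m → (2 : ℝ) ^ n ≤ m := fun h => by exact_mod_cast h
  have cast_hi : ∀ {m n : ℕ}, m < 2 ^ (n + 1) → (m : ℝ) < 2 * 2 ^ n := fun {m n} h => by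
    have : (m : ℝ) < 2 ^ (n + 1) := by exact_mod_cast h
    rwa [pow_succ, mul_comm] at this
  refine card_fib S f hK ?_ ?_
  · have h1 : S.image f ⊆ range (⌊64 * P / M⌋₊ + 1) := by
      intro y hy
      rw [mem_image] at hy
      obtain ⟨s, hs, rfl⟩ := hy
      rw [mem_range, Nat.lt_succ_iff]
      apply Nat.floor_le_floor
      have a1 := cast_lo (hA s hs).1
      have a2 := cast_hi (hA s hs).2
      have b1 := cast_lo (hB s hs).1
      have c1 := cast_lo (hC s hs).1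
      have hk0 : (0 : ℝ) < s k := lt_of_lt_of_le (by positivity) c1
      have hi0 : (0 : ℝ) < s i := lt_of_lt_of_le (by positivity) a1
      have hj0 : (0 : ℝ) < s j := lt_of_lt_of_le (by positivity) b1
      have h2 : (s i : ℝ) / s k ≤ s i / c := div_le_div_of_nonneg_left hi0.le hc0 c1
      have h3 : (s i : ℝ) * b * c ≤ P := by
        refine le_trans ?_ (hP s hs)
        gcongr
      calc (s i : ℝ) / s k * (32 * b * c ^ 2 / M) ≤ s i / c * (32 * b * c ^ 2 / M) :=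
            mul_le_mul_of_nonneg_right h2 (by positivity)
        _ = 32 * (s i * b * c) / M := by field_simp
        _ ≤ 64 * P / M := by
            apply div_le_div_of_nonneg_right _ hMr.le
            nlinarith
    calc ((S.image f).card : ℝ) ≤ ((range (⌊64 * P / M⌋₊ + 1)).card : ℝ) := by
          exact_mod_cast Finset.card_le_card h1
      _ = (⌊64 * P / M⌋₊ : ℝ) + 1 := by rw [card_range]; push_cast; ring
      _ ≤ 64 * P / M + 1 := by
          have := Nat.floor_le (a := 64 * P / M) (by positivity)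
          linarith
  · intro y _
    refine hcell _ (filter_subset _ _) ?_
    intro s hs t ht u hu
    rw [mem_filter] at hs ht hu
    have key : ∀ s ∈ S, ∀ t ∈ S, f s = f t →
        |(s i : ℝ) / s k - (t i : ℝ) / t k| * (32 * b * c ^ 2 / M) < 1 := by
      intro s _ t _ h
      have h1 := floor_close (x := ((s i : ℝ) / (s k)) * (32 * b * c ^ 2 / M))
        (y := ((t i : ℝ) / (t k)) * (32 * b * c ^ 2 / M)) (by positivity) (by positivity) h
      rwa [← sub_mul, abs_mul, abs_of_pos (a := 32 * b * c ^ 2 / M) (by positivity)] at h1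
    have pos : ∀ {m n : ℕ}, (2 : ℝ) ^ n ≤ m → (0 : ℝ) < m := fun h => lt_of_lt_of_le (by positivity) h
    have h2 := det_small (M := M) hb0 hc0 hMr
      (pos (cast_lo (hB s hs.1).1)) (cast_hi (hB s hs.1).2)
      (pos (cast_lo (hB t ht.1).1)) (cast_hi (hB t ht.1).2)
      (pos (cast_lo (hB u hu.1).1)) (cast_hi (hB u hu.1).2)
      (pos (cast_lo (hC s hs.1).1)) (cast_hi (hC s hs.1).2)
      (pos (cast_lo (hC t ht.1).1)) (cast_hi (hC t ht.1).2)
      (pos (cast_lo (hC u hu.1).1)) (cast_hi (hC u hu.1).2)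
      (key s hs.1 t ht.1 (hs.2.trans ht.2.symm)) (key t ht.1 u hu.1 (ht.2.trans hu.2.symm))
      (key u hu.1 s hs.1 (hu.2.trans hs.2.symm))
    have h3 : |((dt i j k s t u : ℤ) : ℝ)| < M := by
      unfold dt
      push_cast
      exact h2
    have h4 : |dt i j k s t u| < (M : ℤ) := by
      rw [← Int.cast_abs] at h3
      exact_mod_cast h3
    exact Int.eq_zero_of_abs_lt_dvd (hdiv s hs.1 t ht.1 u hu.1) h4

theorem count_pts {i j k l : Fin 4} (hd : Dist4 i j k l) {e : ℕ} {ε D1 D2 L : ℝ} (hL : 0 ≤ L)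
    (hD10 : 0 < D1) (hD1 : SBPb l e ε D1) (hD2 : (2 * L + 2) ^ 3 ≤ D2 * Real.exp (ε * L))
    {α : Fin 4 → ℤ} (hα : ∀ i, α i ≠ 0 ∧ |(α i : ℝ)| ≤ Real.exp L) {S : Finset (Fin 4 → ℕ)}
    (hS : ∀ s ∈ S, Pt l e α L s) {M : ℕ} (hM : 0 < M) {a w : ℝ} (hMw : Real.exp w ≤ M)
    (hP : ∀ s ∈ S, (s i : ℝ) * s j * s k ≤ Real.exp a)
    (hdiv : ∀ s ∈ S, ∀ t ∈ S, ∀ u ∈ S, (M : ℤ) ∣ dt i j k s t u) :
    (S.card : ℝ) ≤ (D2 * Real.exp (ε * L)) *
      ((64 * Real.exp (a - w) + 1) * (D1 * Real.exp (ε * L) + 1)) := by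
  classical
  let f : (Fin 4 → ℕ) → ℕ × ℕ × ℕ := fun s => (Nat.log 2 (s i), Nat.log 2 (s j), Nat.log 2 (s k))
  refine card_fib S f (by positivity) ?_ ?_
  · have h1 : S.image f ⊆ range (⌊2 * L⌋₊ + 1) ×ˢ range (⌊2 * L⌋₊ + 1) ×ˢ range (⌊2 * L⌋₊ + 1) := by
      intro y hy
      rw [mem_image] at hy
      obtain ⟨s, hs, rfl⟩ := hy
      have h2 : ∀ n, Nat.log 2 (s n) < ⌊2 * L⌋₊ + 1 := fun n =>
        Nat.lt_succ_of_le (Nat.le_floor (log2_le ((hS s hs).bd n).1 ((hS s hs).bd n).2))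
      rw [mem_product, mem_product, mem_range, mem_range, mem_range]
      exact ⟨h2 i, h2 j, h2 k⟩
    refine le_trans ?_ hD2
    calc ((S.image f).card : ℝ) ≤
        ((range (⌊2 * L⌋₊ + 1) ×ˢ range (⌊2 * L⌋₊ + 1) ×ˢ range (⌊2 * L⌋₊ + 1)).card : ℝ) := by
          exact_mod_cast Finset.card_le_card h1
      _ = ((⌊2 * L⌋₊ : ℝ) + 1) ^ 3 := by
          rw [card_product, card_product, card_range]
          push_cast
          ring
      _ ≤ (2 * L + 2) ^ 3 := by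
          have := Nat.floor_le (a := 2 * L) (by positivity)
          apply pow_le_pow_left₀ (by positivity)
          linarith
  · intro y _
    have hsub := filter_subset (fun s => f s = y) S
    have hlog : ∀ n : ℕ, 1 ≤ n → 2 ^ Nat.log 2 n ≤ n ∧ n < 2 ^ (Nat.log 2 n + 1) := fun n hn =>
      ⟨Nat.pow_log_le_self 2 (by omega), Nat.lt_pow_succ_log_self (by norm_num) n⟩
    have hy : ∀ s ∈ S.filter (fun s => f s = y), Nat.log 2 (s i) = y.1 ∧ Nat.log 2 (s j) = y.2.1 ∧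
        Nat.log 2 (s k) = y.2.2 := by
      intro s hs
      rw [mem_filter] at hs
      rw [← hs.2]
      exact ⟨rfl, rfl, rfl⟩
    have h1 := cell_count (i := i) (j := j) (k := k) (S := S.filter (fun s => f s = y))
      (A := y.1) (B := y.2.1) (C := y.2.2)
      (fun s hs => by rw [← (hy s hs).1]; exact hlog _ ((hS s (hsub hs)).bd i).1)
      (fun s hs => by rw [← (hy s hs).2.1]; exact hlog _ ((hS s (hsub hs)).bd j).1)
      (fun s hs => by rw [← (hy s hs).2.2]; exact hlog _ ((hS s (hsub hs)).bd k).1)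
      hM (fun s hs t ht u hu => hdiv s (hsub hs) t (hsub ht) u (hsub hu))
      (Real.exp_pos a).le (fun s hs => hP s (hsub hs))
      (K := D1 * Real.exp (ε * L) + 1) (by positivity)
      (fun S' hS' hdet => plane_count hd hL hD10 hD1 hα (fun s hs => hS s (hsub (hS' hs))) hdet)
    refine h1.trans ?_
    apply mul_le_mul_of_nonneg_right _ (by positivity)
    have h2 : Real.exp a / M ≤ Real.exp (a - w) := by
      rw [Real.exp_sub]
      exact div_le_div_of_nonneg_left (Real.exp_pos _).le (Real.exp_pos _) hMw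
    have h3 : 64 * Real.exp a / M = 64 * (Real.exp a / M) := by ring
    rw [h3]
    linarith

end Pool.Agent.Helper54.Q.SB
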